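import Mathlib

/-!
Keith Ball's plank theorem for symmetric convex bodies (central planks, equal widths), in its
finite matrix form.
-/

namespace Pool.Agent.MP_8c130c_co.Ball

open Matrix

variable {n : Type} [Fintype n] [DecidableEq n]

/-- The reflection in the hyperplane orthogonal to `v`. -/
noncomputable def refl (v : n → ℝ) : Matrix n n ℝ :=
  1 - (2 / (v ⬝ᵥ v)) • vecMulVec v v

lemma refl_orth (v : n → ℝ) (hv : v ⬝ᵥ v ≠ 0) : (refl v)ᵀ * refl v = 1 := by
  have h1 : vecMulVec v v * vecMulVec v v = (v ⬝ᵥ v) • vecMulVec v v := by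
    ext i j
    simp only [mul_apply, vecMulVec_apply, Matrix.smul_apply, smul_eq_mul, dotProduct,
      Finset.sum_mul]
    exact Finset.sum_congr rfl fun k _ => by ring
  have h2 : (vecMulVec v v)ᵀ = vecMulVec v v := by
    ext i j; simp [vecMulVec_apply, mul_comm]
  unfold refl
  rw [transpose_sub, transpose_one, transpose_smul, h2, sub_mul, mul_sub, mul_sub, one_mul,
    one_mul, mul_one, smul_mul_assoc, mul_smul_comm, h1, smul_smul, smul_smul]
  have : 2 / (v ⬝ᵥ v) * (2 / (v ⬝ᵥ v)) * (v ⬝ᵥ v) = 2 * (2 / (v ⬝ᵥ v)) := by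
    field_simp
  rw [this, mul_smul, two_smul]
  abel

lemma mul_refl_diag (H : Matrix n n ℝ) (v : n → ℝ) (k : n) :
    (H * refl v) k k = H k k - (2 / (v ⬝ᵥ v)) * (v k * (H *ᵥ v) k) := by
  unfold refl
  rw [mul_sub, mul_one, mul_smul_comm, Matrix.sub_apply, Matrix.smul_apply, smul_eq_mul]
  congr 2
  simp only [mul_apply, vecMulVec_apply, mulVec, dotProduct, Finset.mul_sum]
  exact Finset.sum_congr rfl fun j _ => by ring

lemma symm_of_bound (H : Matrix n n ℝ) (hd : ∀ i, H i i = 1)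
    (hW : ∀ W : Matrix n n ℝ, Wᵀ * W = 1 → |∏ k, (H * W) k k| ≤ 1) (i j : n) :
    H i j = H j i := by
  by_cases hij : i = j
  · rw [hij]
  have key : ∀ t : ℝ, 2 * t * (1 - t ^ 2) * (H i j - H j i) ≤ 4 * t ^ 2 * (1 + H i j * H j i) := by
    intro t
    set v : n → ℝ := Pi.single i 1 + Pi.single j t with hv
    have hvi : v i = 1 := by simp [hv, hij]
    have hvj : v j = t := by simp [hv, Ne.symm hij]
    have hvk : ∀ k, k ≠ i → k ≠ j → v k = 0 := by
      intro k h1 h2; simp [hv, h1, h2]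
    have hvv : v ⬝ᵥ v = 1 + t ^ 2 := by
      conv_lhs => rw [hv, add_dotProduct, single_dotProduct, single_dotProduct]
      rw [← hv, hvi, hvj]; ring
    have hpos : (0 : ℝ) < 1 + t ^ 2 := by positivity
    have hHv : ∀ k, (H *ᵥ v) k = H k i + H k j * t := by
      intro k
      rw [hv, mulVec_add]
      simp [mul_comm]
    have h := hW (refl v) (refl_orth v (by rw [hvv]; exact hpos.ne'))
    have hprod : ∏ k, (H * refl v) k k = (H * refl v) i i * (H * refl v) j j := by
      rw [← Finset.prod_pair (f := fun k => (H * refl v) k k) hij]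
      symm
      apply Finset.prod_subset (Finset.subset_univ _)
      intro k _ hk
      simp only [Finset.mem_insert, Finset.mem_singleton, not_or] at hk
      rw [mul_refl_diag, hvk k hk.1 hk.2, hd]; simp
    rw [hprod, mul_refl_diag, mul_refl_diag, hvv, hvi, hvj, hHv, hHv, hd, hd] at h
    have h2 := (abs_le.mp h).1
    have h3 : (1 - 2 / (1 + t ^ 2) * (1 * (1 + H i j * t))) *
        (1 - 2 / (1 + t ^ 2) * (t * (H j i + 1 * t))) =
        -((1 - t ^ 2 + 2 * t * H i j) * (1 - t ^ 2 - 2 * t * H j i)) / (1 + t ^ 2) ^ 2 := by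
      field_simp
      ring
    rw [h3, le_div_iff₀ (by positivity)] at h2
    nlinarith
  set δ := H i j - H j i with hδ
  set C := 1 + H i j * H j i
  have hmin : IsLocalMin (fun t : ℝ => 4 * t ^ 2 * C - 2 * t * (1 - t ^ 2) * δ) 0 := by
    apply Filter.Eventually.of_forall
    intro t
    have := key t
    simp only
    nlinarith
  have h1 : HasDerivAt (fun t : ℝ => t) 1 0 := hasDerivAt_id 0
  have h2 := ((((h1.pow 2).const_mul 4).mul_const C).sub
      ((((h1.const_mul 2).mul ((h1.pow 2).const_sub 1))).mul_const δ))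
  have h3 := IsLocalMin.hasDerivAt_eq_zero (by exact hmin) h2
  simp at h3
  linarith

lemma psd_of_bound (H : Matrix n n ℝ) (hd : ∀ i, H i i = 1)
    (hW : ∀ W : Matrix n n ℝ, Wᵀ * W = 1 → |∏ k, (H * W) k k| ≤ 1) (x : n → ℝ) :
    0 ≤ x ⬝ᵥ H *ᵥ x := by
  have hH : H.IsHermitian := by
    ext i j
    simp [symm_of_bound H hd hW j i]
  have hpsd : H.PosSemidef := by
    rw [hH.posSemidef_iff_eigenvalues_nonneg]
    intro j
    by_contra hneg
    have hμ : hH.eigenvalues j < 0 := by simpa using hneg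
    set v : n → ℝ := ⇑(hH.eigenvectorBasis j) with hv
    have hHv : H *ᵥ v = hH.eigenvalues j • v := hH.mulVec_eigenvectorBasis j
    have hvv : v ⬝ᵥ v = 1 := by
      have := hH.eigenvectorBasis.orthonormal.1 j
      rw [EuclideanSpace.norm_eq, Real.sqrt_eq_one] at this
      rw [← this]
      simp [dotProduct, hv, pow_two]
    have h := hW (refl v) (refl_orth v (by rw [hvv]; exact one_ne_zero))
    have hk : ∀ k, (H * refl v) k k = 1 + (-2 * hH.eigenvalues j) * v k ^ 2 := by
      intro k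
      rw [mul_refl_diag, hvv, hHv, hd]; simp; ring
    simp only [hk] at h
    obtain ⟨k, hk0⟩ : ∃ k, v k ≠ 0 := by
      by_contra hc
      push Not at hc
      simp [dotProduct, hc] at hvv
    have h1 : ∀ m, 1 ≤ 1 + (-2 * hH.eigenvalues j) * v m ^ 2 := by
      intro m
      have : 0 ≤ (-2 * hH.eigenvalues j) * v m ^ 2 := mul_nonneg (by linarith) (sq_nonneg _)
      linarith
    have h2 : 1 + (-2 * hH.eigenvalues j) * v k ^ 2 ≤
        ∏ m, (1 + (-2 * hH.eigenvalues j) * v m ^ 2) := by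
      rw [← Finset.mul_prod_erase Finset.univ _ (Finset.mem_univ k)]
      have h3 : 1 ≤ ∏ m ∈ Finset.univ.erase k, (1 + (-2 * hH.eigenvalues j) * v m ^ 2) :=
        Finset.one_le_prod fun m _ => h1 m
      have := h1 k
      nlinarith
    have h4 : 0 < (-2 * hH.eigenvalues j) * v k ^ 2 := mul_pos (by linarith) (by positivity)
    have := (abs_le.mp h).2
    linarith
  simpa using hpsd.dotProduct_mulVec_nonneg x

lemma isCompact_orth : IsCompact {U : Matrix n n ℝ | Uᵀ * U = 1} := by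
  have hc : IsCompact (Set.univ.pi fun _ : n => Set.univ.pi fun _ : n => Set.Icc (-1 : ℝ) 1) :=
    isCompact_univ_pi fun _ => isCompact_univ_pi fun _ => isCompact_Icc
  refine IsCompact.of_isClosed_subset (s := (Set.univ.pi fun _ : n => Set.univ.pi fun _ : n =>
    Set.Icc (-1 : ℝ) 1 : Set (Matrix n n ℝ))) hc ?_ ?_
  · exact isClosed_eq (continuous_id.matrix_transpose.matrix_mul continuous_id) continuous_const
  · intro U hU i _ j _
    have h : ∑ k, U k j * U k j = 1 := by
      have := congrFun (congrFun hU j) j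
      simpa [mul_apply] using this
    have h2 : U i j * U i j ≤ 1 := by
      rw [← h]
      exact Finset.single_le_sum (f := fun k => U k j * U k j) (fun k _ => mul_self_nonneg _)
        (Finset.mem_univ i)
    exact abs_le.mp (abs_le_one_iff_mul_self_le_one.mpr h2)

/-- Bang's lemma. -/
lemma bang (H : Matrix n n ℝ) (hd : ∀ i, H i i = 1) (hs : ∀ i j, H i j = H j i) (θ : n → ℝ) :
    ∃ y : n → ℝ, (∀ i, y i ^ 2 = θ i ^ 2) ∧ ∀ i, y i ^ 2 ≤ y i * (H *ᵥ y) i := by
  classical
  let Y : (n → Bool) → n → ℝ := fun ε i => if ε i then θ i else -θ i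
  obtain ⟨ε, -, hε⟩ := Finset.exists_max_image Finset.univ (fun ε => Y ε ⬝ᵥ H *ᵥ Y ε)
    Finset.univ_nonempty
  refine ⟨Y ε, fun i => by simp only [Y]; split_ifs <;> ring, fun i => ?_⟩
  have h := hε (Function.update ε i (!ε i)) (Finset.mem_univ _)
  have hY : Y (Function.update ε i (!ε i)) = Y ε - Pi.single i (2 * Y ε i) := by
    funext k
    by_cases hk : k = i
    · subst hk
      simp only [Y, Function.update_self, Pi.sub_apply, Pi.single_eq_same]
      cases ε k <;> simp <;> ring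
    · simp [Y, hk]
  rw [hY] at h
  set y := Y ε
  have h1 : y ⬝ᵥ H *ᵥ Pi.single i (2 * y i) = 2 * y i * (H *ᵥ y) i := by
    rw [mulVec_single]
    simp only [dotProduct, mulVec, Finset.mul_sum]
    refine Finset.sum_congr rfl fun k _ => ?_
    simp [hs i k]; ring
  have h2 : (H *ᵥ Pi.single i (2 * y i)) i = 2 * y i := by
    rw [mulVec_single]; simp [hd]
  rw [mulVec_sub, sub_dotProduct, dotProduct_sub, dotProduct_sub, h1, single_dotProduct,
    single_dotProduct, h2] at h
  nlinarith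

theorem plank (A : Matrix n n ℝ) (hA : ∀ i, 1 ≤ A i i) :
    ∃ l : n → ℝ, ∑ j, |l j| ≤ Fintype.card n ∧ ∀ i, 1 ≤ |(A *ᵥ l) i| := by
  have hcont : Continuous fun U : Matrix n n ℝ => |∏ i, (A * U) i i| := by
    apply Continuous.abs
    apply continuous_finsetProd
    intro i _
    exact (continuous_const.matrix_mul continuous_id).matrix_elem i i
  obtain ⟨U, hU, hmax⟩ := isCompact_orth.exists_isMaxOn ⟨1, by simp⟩ hcont.continuousOn
  have hU : Uᵀ * U = 1 := hU
  have hUU : U * Uᵀ = 1 := mul_eq_one_comm.mp hU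
  set d : n → ℝ := fun i => (A * U) i i with hd
  have hpos : 0 < |∏ i, d i| := by
    have h1 := hmax (show (1 : Matrix n n ℝ) ∈ {U : Matrix n n ℝ | Uᵀ * U = 1} by simp)
    simp only [Set.mem_ofPred_eq, mul_one] at h1
    have h2 : 1 ≤ ∏ i, A i i := Finset.one_le_prod fun i _ => hA i
    have := le_abs_self (∏ i, A i i)
    linarith
  have hd0 : ∀ i, d i ≠ 0 := by
    intro i h
    rw [Finset.prod_eq_zero (Finset.mem_univ i) h] at hpos
    simp at hpos
  set θ : n → ℝ := fun i => (d i)⁻¹ with hθ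
  have hθ0 : ∀ i, θ i ≠ 0 := fun i => inv_ne_zero (hd0 i)
  set H : Matrix n n ℝ := diagonal θ * (A * U) with hH
  have hHd : ∀ i, H i i = 1 := by
    intro i
    rw [hH, diagonal_mul]
    exact inv_mul_cancel₀ (hd0 i)
  have hW : ∀ W : Matrix n n ℝ, Wᵀ * W = 1 → |∏ k, (H * W) k k| ≤ 1 := by
    intro W hW
    have h1 := hmax (show U * W ∈ {U : Matrix n n ℝ | Uᵀ * U = 1} by
      simp only [Set.mem_ofPred_eq, transpose_mul]
      rw [Matrix.mul_assoc, ← Matrix.mul_assoc Uᵀ, hU, Matrix.one_mul, hW])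
    simp only [Set.mem_ofPred_eq] at h1
    have h2 : ∀ k, (A * (U * W)) k k = d k * (H * W) k k := by
      intro k
      rw [hH, Matrix.mul_assoc (diagonal θ), diagonal_mul, Matrix.mul_assoc A,
        mul_inv_cancel_left₀ (hd0 k)]
    simp only [h2, Finset.prod_mul_distrib, abs_mul] at h1
    exact le_of_mul_le_mul_left (by simpa using h1) hpos
  have hs := symm_of_bound H hHd hW
  have hpsd := psd_of_bound H hHd hW
  have hsum : ∑ i, θ i ^ 2 ≤ Fintype.card n := by
    have h1 : ∀ i, θ i ^ 2 ≤ U i ⬝ᵥ H *ᵥ U i := by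
      intro i
      have h2 : (H *ᵥ U i) i = θ i * A i i := by
        have : (H * Uᵀ) i i = θ i * A i i := by
          rw [hH, Matrix.mul_assoc, Matrix.mul_assoc, hUU, Matrix.mul_one, diagonal_mul]
        rw [← this]
        simp [mul_apply, mulVec, dotProduct]
      have h3 := hpsd (U i - Pi.single i (θ i * A i i))
      have h4 : U i ⬝ᵥ H *ᵥ Pi.single i (θ i * A i i) = θ i * A i i * (H *ᵥ U i) i := by
        rw [mulVec_single]
        simp only [dotProduct, mulVec, Finset.mul_sum]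
        refine Finset.sum_congr rfl fun k _ => ?_
        simp [hs i k]; ring
      have h5 : (H *ᵥ Pi.single i (θ i * A i i)) i = θ i * A i i := by
        rw [mulVec_single]; simp [hHd]
      rw [mulVec_sub, sub_dotProduct, dotProduct_sub, dotProduct_sub, h4, single_dotProduct,
        single_dotProduct, h5, h2] at h3
      have h6 : 1 ≤ A i i ^ 2 := one_le_pow₀ (hA i)
      nlinarith [sq_nonneg (θ i)]
    have h7 : ∑ i, U i ⬝ᵥ H *ᵥ U i = Fintype.card n := by
      have h8 : ∑ i, U i ⬝ᵥ H *ᵥ U i = trace (U * H * Uᵀ) := by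
        simp only [trace, diag_apply]
        refine Finset.sum_congr rfl fun i _ => ?_
        rw [Matrix.mul_assoc]
        simp [mul_apply, mulVec, dotProduct]
      rw [h8, trace_mul_comm, ← Matrix.mul_assoc, hU, Matrix.one_mul]
      simp [trace, hHd]
    rw [← h7]
    exact Finset.sum_le_sum fun i _ => h1 i
  obtain ⟨y, hy1, hy2⟩ := bang H hHd hs θ
  refine ⟨U *ᵥ y, ?_, fun i => ?_⟩
  · have h1 : ∑ j, (U *ᵥ y) j ^ 2 = ∑ i, θ i ^ 2 := by
      have h2 : (U *ᵥ y) ⬝ᵥ (U *ᵥ y) = y ⬝ᵥ y := by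
        rw [dotProduct_mulVec, vecMul_mulVec, hU, vecMul_one]
      simp only [dotProduct, ← pow_two, hy1] at h2
      exact h2
    have h3 : ∀ j, |(U *ᵥ y) j| ≤ (1 + (U *ᵥ y) j ^ 2) / 2 := by
      intro j
      nlinarith [sq_nonneg (|(U *ᵥ y) j| - 1), sq_abs ((U *ᵥ y) j)]
    calc ∑ j, |(U *ᵥ y) j| ≤ ∑ j, (1 + (U *ᵥ y) j ^ 2) / 2 := Finset.sum_le_sum fun j _ => h3 j
      _ = (Fintype.card n + ∑ i, θ i ^ 2) / 2 := by
        rw [← Finset.sum_div, Finset.sum_add_distrib, h1]; simp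
      _ ≤ Fintype.card n := by linarith
  · have h1 : (H *ᵥ y) i = θ i * (A *ᵥ U *ᵥ y) i := by
      rw [hH, ← mulVec_mulVec, mulVec_diagonal, mulVec_mulVec]
    have h2 := hy2 i
    rw [h1, hy1] at h2
    have h3 : |y i| = |θ i| := (sq_eq_sq_iff_abs_eq_abs _ _).mp (hy1 i)
    have h4 : θ i ^ 2 ≤ θ i ^ 2 * |(A *ᵥ U *ᵥ y) i| := by
      calc θ i ^ 2 ≤ |y i * (θ i * (A *ᵥ U *ᵥ y) i)| := h2.trans (le_abs_self _)
        _ = θ i ^ 2 * |(A *ᵥ U *ᵥ y) i| := by
          rw [abs_mul, abs_mul, h3, ← mul_assoc, ← pow_two, sq_abs]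
    have h5 : 0 < θ i ^ 2 := by have := hθ0 i; positivity
    nlinarith

end Pool.Agent.MP_8c130c_co.Ball
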