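import Mathlib

/-!
A finite subdivision check: for the matrix with rows `(1,a,p)`, `(-b,1,q)`, `(c,d,1)`, where
`|p| ≤ a ≤ 1`, `|q| ≤ b ≤ 1`, `|d| ≤ c ≤ 1`, one of seven vectors `u` is a combination of the rows
with coefficients of `ℓ¹`-norm at most `3`.
-/

namespace Pool.Agent.MP_8c130c_co.Beta

section defs
variable {R : Type} [CommRing R]

def det (s a p b q c d : R) : R := s * (s * s - q * d) + a * (q * c + b * s) + p * (-b * d - s * c)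

def c1 (s b q c d x y z : R) : R := (s * s - q * d) * x + (q * c + b * s) * y + (-b * d - s * c) * z

def c2 (s a p c d x y z : R) : R := (d * p - s * a) * x + (s * s - c * p) * y + (c * a - d * s) * z

def c3 (s a p b q x y z : R) : R := (a * q - p * s) * x + (-p * b - s * q) * y + (s * s + a * b) * z

def G [LinearOrder R] (s a p b q c d x y z : R) : R :=
  3 * det s a p b q c d -
    s * (|c1 s b q c d x y z| + |c2 s a p c d x y z| + |c3 s a p b q x y z|)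

end defs

lemma G_cast (s a p b q c d x y z : ℤ) :
    ((G s a p b q c d x y z : ℤ) : ℝ) = G (s : ℝ) a p b q c d x y z := by
  simp only [G, det, c1, c2, c3]
  push_cast
  ring

lemma conc {s l m n D1 D2 D3 X1 X2 X3 Y1 Y2 Y3 Z1 Z2 Z3 D X Y Z : ℝ} (hs : 0 ≤ s) (hl : 0 ≤ l)
    (hm : 0 ≤ m) (hn : 0 ≤ n) (h1 : 0 ≤ 3 * D1 - s * (|X1| + |Y1| + |Z1|))
    (h2 : 0 ≤ 3 * D2 - s * (|X2| + |Y2| + |Z2|)) (h3 : 0 ≤ 3 * D3 - s * (|X3| + |Y3| + |Z3|))
    (hD : D = l * D1 + m * D2 + n * D3) (hX : X = l * X1 + m * X2 + n * X3)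
    (hY : Y = l * Y1 + m * Y2 + n * Y3) (hZ : Z = l * Z1 + m * Z2 + n * Z3) :
    0 ≤ 3 * D - s * (|X| + |Y| + |Z|) := by
  have key : ∀ u v w : ℝ, |l * u + m * v + n * w| ≤ l * |u| + m * |v| + n * |w| := by
    intro u v w
    calc |l * u + m * v + n * w| ≤ |l * u| + |m * v| + |n * w| := abs_add_three _ _ _
      _ = l * |u| + m * |v| + n * |w| := by
        rw [abs_mul, abs_mul, abs_mul, abs_of_nonneg hl, abs_of_nonneg hm, abs_of_nonneg hn]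
  have k1 := mul_le_mul_of_nonneg_left (key X1 X2 X3) hs
  have k2 := mul_le_mul_of_nonneg_left (key Y1 Y2 Y3) hs
  have k3 := mul_le_mul_of_nonneg_left (key Z1 Z2 Z3) hs
  have k4 := mul_nonneg hl h1
  have k5 := mul_nonneg hm h2
  have k6 := mul_nonneg hn h3
  rw [hD, hX, hY, hZ]
  nlinarith

/-- A triangle with integer vertices. -/
structure Tri where
  x1 : ℤ
  y1 : ℤ
  x2 : ℤ
  y2 : ℤ
  x3 : ℤ
  y3 : ℤ

def Tri.Mem (T : Tri) (a p : ℝ) : Prop :=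
  ∃ l m n : ℝ, 0 ≤ l ∧ 0 ≤ m ∧ 0 ≤ n ∧ l + m + n = 1 ∧
    a = l * T.x1 + m * T.x2 + n * T.x3 ∧ p = l * T.y1 + m * T.y2 + n * T.y3

def Tri.all (T : Tri) (f : ℤ → ℤ → Bool) : Bool := f T.x1 T.y1 && f T.x2 T.y2 && f T.x3 T.y3

def Tri.rot (T : Tri) : Tri := ⟨T.x2, T.y2, T.x3, T.y3, T.x1, T.y1⟩

def Tri.rotn (T : Tri) : ℕ → Tri
  | 0 => T
  | 1 => T.rot
  | _ => T.rot.rot

def Tri.ok (T : Tri) : Bool :=
  decide (2 * ((T.x1 + T.x2) / 2) = T.x1 + T.x2) && decide (2 * ((T.y1 + T.y2) / 2) = T.y1 + T.y2)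

def Tri.left (T : Tri) : Tri := ⟨T.x1, T.y1, (T.x1 + T.x2) / 2, (T.y1 + T.y2) / 2, T.x3, T.y3⟩

def Tri.right (T : Tri) : Tri := ⟨(T.x1 + T.x2) / 2, (T.y1 + T.y2) / 2, T.x2, T.y2, T.x3, T.y3⟩

lemma Tri.mem_rot {T : Tri} {a p : ℝ} (h : T.Mem a p) : T.rot.Mem a p := by
  obtain ⟨l, m, n, hl, hm, hn, hs, ha, hp⟩ := h
  exact ⟨m, n, l, hm, hn, hl, by linarith, by simp only [Tri.rot]; linarith,
    by simp only [Tri.rot]; linarith⟩

lemma Tri.mem_rotn {T : Tri} {a p : ℝ} (h : T.Mem a p) (e : ℕ) : (T.rotn e).Mem a p := by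
  match e with
  | 0 => exact h
  | 1 => exact Tri.mem_rot h
  | _ + 2 => exact Tri.mem_rot (Tri.mem_rot h)

lemma Tri.mem_split {T : Tri} {a p : ℝ} (h : T.Mem a p) (hok : T.ok = true) :
    T.left.Mem a p ∨ T.right.Mem a p := by
  obtain ⟨l, m, n, hl, hm, hn, hs, ha, hp⟩ := h
  simp only [Tri.ok, Bool.and_eq_true, decide_eq_true_eq] at hok
  have hx : (2 : ℝ) * (((T.x1 + T.x2) / 2 : ℤ) : ℝ) = T.x1 + T.x2 := by exact_mod_cast hok.1
  have hy : (2 : ℝ) * (((T.y1 + T.y2) / 2 : ℤ) : ℝ) = T.y1 + T.y2 := by exact_mod_cast hok.2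
  rcases le_total m l with h | h
  · left
    refine ⟨l - m, 2 * m, n, by linarith, by linarith, hn, by linarith, ?_, ?_⟩
    · simp only [Tri.left]; linear_combination ha - m * hx
    · simp only [Tri.left]; linear_combination hp - m * hy
  · right
    refine ⟨2 * l, m - l, n, by linarith, by linarith, hn, by linarith, ?_, ?_⟩
    · simp only [Tri.right]; linear_combination ha - l * hx
    · simp only [Tri.right]; linear_combination hp - l * hy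

/-- The seven vectors. -/
def vec : ℕ → ℤ × ℤ × ℤ
  | 0 => (1, 1, 1)
  | 1 => (1, 1, -1)
  | 2 => (1, -1, 1)
  | 3 => (1, -1, -1)
  | 4 => (2, 0, 0)
  | 5 => (0, 2, 0)
  | _ => (0, 0, 2)

def leafOk (s : ℤ) (A B C : Tri) (u : ℤ × ℤ × ℤ) : Bool :=
  A.all fun a p => B.all fun b q => C.all fun c d =>
    decide (0 ≤ G s a p b q c d u.1 u.2.1 u.2.2)

lemma leaf_sound {s : ℤ} (hs : 0 ≤ s) {A B C : Tri} {u : ℤ × ℤ × ℤ}
    (h : leafOk s A B C u = true) {a p b q c d : ℝ} (hA : A.Mem a p) (hB : B.Mem b q)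
    (hC : C.Mem c d) : 0 ≤ G (s : ℝ) a p b q c d u.1 u.2.1 u.2.2 := by
  have hs' : (0 : ℝ) ≤ s := by exact_mod_cast hs
  have h3 : ∀ a p b q : ℤ, (C.all fun c d => decide (0 ≤ G s a p b q c d u.1 u.2.1 u.2.2)) = true →
      0 ≤ G (s : ℝ) a p b q c d u.1 u.2.1 u.2.2 := by
    intro a p b q h
    simp only [Tri.all, Bool.and_eq_true, decide_eq_true_eq] at h
    obtain ⟨⟨h1, h2⟩, h3⟩ := h
    have h1' := (Int.cast_nonneg (R := ℝ) h1)
    have h2' := (Int.cast_nonneg (R := ℝ) h2)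
    have h3' := (Int.cast_nonneg (R := ℝ) h3)
    rw [G_cast] at h1' h2' h3'
    obtain ⟨l, m, n, hl, hm, hn, hsum, rfl, rfl⟩ := hC
    obtain rfl : n = 1 - l - m := by linarith
    exact conc hs' hl hm hn h1' h2' h3' (by simp only [det]; ring) (by simp only [c1]; ring)
      (by simp only [c2]; ring) (by simp only [c3]; ring)
  have h2 : ∀ a p : ℤ, (B.all fun b q => C.all fun c d =>
      decide (0 ≤ G s a p b q c d u.1 u.2.1 u.2.2)) = true →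
      0 ≤ G (s : ℝ) a p b q c d u.1 u.2.1 u.2.2 := by
    intro a p h
    rw [Tri.all, Bool.and_eq_true, Bool.and_eq_true] at h
    obtain ⟨⟨k1, k2⟩, k3⟩ := h
    obtain ⟨l, m, n, hl, hm, hn, hsum, rfl, rfl⟩ := hB
    obtain rfl : n = 1 - l - m := by linarith
    exact conc hs' hl hm hn (h3 _ _ _ _ k1) (h3 _ _ _ _ k2) (h3 _ _ _ _ k3)
      (by simp only [det]; ring) (by simp only [c1]; ring)
      (by simp only [c2]; ring) (by simp only [c3]; ring)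
  rw [leafOk, Tri.all, Bool.and_eq_true, Bool.and_eq_true] at h
  obtain ⟨⟨k1, k2⟩, k3⟩ := h
  obtain ⟨l, m, n, hl, hm, hn, hsum, rfl, rfl⟩ := hA
  obtain rfl : n = 1 - l - m := by linarith
  exact conc hs' hl hm hn (h2 _ _ k1) (h2 _ _ k2) (h2 _ _ k3)
    (by simp only [det]; ring) (by simp only [c1]; ring)
    (by simp only [c2]; ring) (by simp only [c3]; ring)

/-- A subdivision tree. -/
inductive Tree where
  | leaf : ℕ → Tree
  | split : ℕ → ℕ → Tree → Tree → Tree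

def check (s : ℤ) : Tree → Tri → Tri → Tri → Bool
  | .leaf k, A, B, C => leafOk s A B C (vec k)
  | .split 0 e l r, A, B, C =>
      (A.rotn e).ok && check s l (A.rotn e).left B C && check s r (A.rotn e).right B C
  | .split 1 e l r, A, B, C =>
      (B.rotn e).ok && check s l A (B.rotn e).left C && check s r A (B.rotn e).right C
  | .split (_ + 2) e l r, A, B, C =>
      (C.rotn e).ok && check s l A B (C.rotn e).left && check s r A B (C.rotn e).right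

lemma check_sound {s : ℤ} (hs : 0 ≤ s) {a p b q c d : ℝ} (t : Tree) :
    ∀ A B C : Tri, check s t A B C = true → A.Mem a p → B.Mem b q → C.Mem c d →
      ∃ k, 0 ≤ G (s : ℝ) a p b q c d (vec k).1 (vec k).2.1 (vec k).2.2 := by
  induction t with
  | leaf k => exact fun A B C h hA hB hC => ⟨k, leaf_sound hs h hA hB hC⟩
  | split i e l r ihl ihr =>
    intro A B C h hA hB hC
    match i with
    | 0 =>
      simp only [check, Bool.and_eq_true] at h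
      rcases Tri.mem_split (Tri.mem_rotn hA e) h.1.1 with h' | h'
      · exact ihl _ _ _ h.1.2 h' hB hC
      · exact ihr _ _ _ h.2 h' hB hC
    | 1 =>
      simp only [check, Bool.and_eq_true] at h
      rcases Tri.mem_split (Tri.mem_rotn hB e) h.1.1 with h' | h'
      · exact ihl _ _ _ h.1.2 hA h' hC
      · exact ihr _ _ _ h.2 hA h' hC
    | _ + 2 =>
      simp only [check, Bool.and_eq_true] at h
      rcases Tri.mem_split (Tri.mem_rotn hC e) h.1.1 with h' | h'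
      · exact ihl _ _ _ h.1.2 hA hB h'
      · exact ihr _ _ _ h.2 hA hB h'

def theTree : Tree :=
  (.split 2 0 (.split 2 2 (.split 1 0 (.split 0 0 (.split 0 2 (.split 0 2 (.leaf 0) (.split 0 1
  (.split 1 2 (.split 1 2 (.split 2 2 (.split 0 2 (.leaf 0) (.split 0 1 (.leaf 4) (.split 1 2
  (.leaf 0) (.split 1 1 (.split 1 2 (.leaf 0) (.split 0 1 (.split 0 2 (.leaf 4) (.leaf 0))
  (.leaf 4))) (.leaf 0))))) (.leaf 4)) (.split 2 2 (.leaf 0) (.split 1 1 (.split 2 1 (.split 0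
  2 (.leaf 0) (.split 0 1 (.leaf 4) (.split 1 2 (.split 2 2 (.leaf 0) (.leaf 4)) (.leaf 0))))
  (.leaf 0)) (.leaf 4)))) (.leaf 4)) (.leaf 0))) (.leaf 0)) (.split 1 2 (.split 0 1 (.split 2 2
  (.leaf 0) (.leaf 1)) (.split 1 2 (.split 2 2 (.leaf 4) (.split 0 1 (.split 0 2 (.split 0 2
  (.split 1 2 (.split 1 2 (.leaf 4) (.leaf 3)) (.leaf 4)) (.leaf 3)) (.leaf 4)) (.split 0 1
  (.leaf 0) (.split 0 1 (.leaf 3) (.leaf 0))))) (.split 2 2 (.leaf 0) (.split 2 1 (.split 0 1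
  (.split 0 2 (.split 1 1 (.leaf 5) (.split 1 1 (.split 2 2 (.leaf 0) (.leaf 3)) (.leaf 5)))
  (.leaf 4)) (.split 2 2 (.leaf 0) (.leaf 6))) (.leaf 0))))) (.leaf 3))) (.split 0 0 (.split 0
  2 (.split 0 2 (.leaf 0) (.split 1 1 (.split 1 2 (.split 1 2 (.leaf 2) (.split 1 1 (.split 0 1
  (.split 1 2 (.leaf 2) (.split 2 2 (.split 2 2 (.split 2 2 (.split 2 2 (.split 0 2 (.leaf 0)
  (.split 0 1 (.leaf 4) (.leaf 0))) (.leaf 4)) (.leaf 0)) (.split 0 2 (.split 2 1 (.leaf 0)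
  (.split 2 1 (.leaf 2) (.leaf 0))) (.split 0 1 (.leaf 4) (.split 0 1 (.split 0 2 (.leaf 4)
  (.leaf 0)) (.leaf 4))))) (.leaf 4))) (.leaf 0)) (.leaf 2))) (.leaf 2)) (.split 0 1 (.split 2
  2 (.split 0 2 (.leaf 0) (.split 0 1 (.leaf 4) (.split 1 1 (.split 1 2 (.leaf 2) (.leaf 0))
  (.split 1 1 (.split 0 1 (.split 0 2 (.split 2 2 (.leaf 4) (.split 2 1 (.leaf 0) (.leaf 4)))
  (.leaf 0)) (.leaf 4)) (.leaf 2))))) (.split 1 1 (.split 1 2 (.leaf 2) (.split 1 1 (.leaf 5)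
  (.leaf 2))) (.split 1 1 (.split 2 1 (.leaf 2) (.split 2 1 (.leaf 4) (.leaf 2))) (.leaf 2))))
  (.leaf 0)))) (.leaf 0)) (.split 1 1 (.split 0 1 (.leaf 2) (.split 0 1 (.split 1 2 (.split 1 2
  (.leaf 2) (.leaf 4)) (.leaf 2)) (.leaf 2))) (.split 0 1 (.split 2 2 (.leaf 0) (.leaf 1))
  (.split 0 1 (.split 1 1 (.split 1 2 (.leaf 2) (.leaf 5)) (.split 1 1 (.split 0 2 (.leaf 2)
  (.leaf 4)) (.leaf 2))) (.split 1 1 (.split 1 2 (.leaf 2) (.leaf 5)) (.leaf 2))))))) (.leaf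
  0)) (.split 0 0 (.split 1 0 (.split 0 2 (.split 1 2 (.split 2 1 (.split 2 2 (.split 2 2
  (.leaf 2) (.split 0 2 (.leaf 0) (.split 0 1 (.split 2 1 (.split 2 2 (.leaf 2) (.split 1 2
  (.split 0 2 (.leaf 0) (.split 0 1 (.leaf 4) (.split 1 2 (.leaf 0) (.split 1 1 (.split 1 2
  (.leaf 0) (.split 2 1 (.split 2 2 (.leaf 2) (.leaf 0)) (.leaf 2))) (.leaf 0))))) (.leaf 0)))
  (.leaf 2)) (.leaf 0)))) (.leaf 2)) (.split 0 2 (.split 1 2 (.split 1 2 (.leaf 0) (.split 2 1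
  (.leaf 2) (.split 2 1 (.leaf 0) (.leaf 2)))) (.leaf 0)) (.split 1 2 (.split 2 1 (.split 1 2
  (.split 0 1 (.split 2 2 (.leaf 2) (.leaf 4)) (.leaf 0)) (.leaf 2)) (.split 2 1 (.split 0 1
  (.split 1 2 (.split 0 2 (.leaf 0) (.split 0 1 (.leaf 4) (.leaf 0))) (.split 2 2 (.leaf 2)
  (.split 2 1 (.split 0 2 (.leaf 0) (.split 0 1 (.leaf 4) (.split 1 1 (.split 1 2 (.leaf 0)
  (.split 0 1 (.split 0 2 (.leaf 4) (.leaf 0)) (.leaf 4))) (.leaf 0)))) (.leaf 2)))) (.leaf 0))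
  (.leaf 2))) (.split 0 1 (.split 2 1 (.split 2 2 (.leaf 2) (.split 1 1 (.split 2 1 (.split 2 2
  (.split 0 2 (.split 1 2 (.leaf 2) (.leaf 0)) (.leaf 2)) (.leaf 6)) (.split 0 2 (.split 1 2
  (.leaf 2) (.leaf 0)) (.leaf 2))) (.leaf 4))) (.split 2 1 (.split 1 1 (.leaf 2) (.split 1 1
  (.leaf 0) (.leaf 2))) (.leaf 2))) (.leaf 0))))) (.split 2 1 (.split 2 2 (.split 2 2 (.leaf 2)
  (.split 0 2 (.leaf 0) (.split 0 1 (.leaf 4) (.leaf 0)))) (.leaf 2)) (.split 2 1 (.leaf 3)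
  (.split 0 2 (.split 1 1 (.leaf 0) (.split 2 1 (.leaf 0) (.leaf 2))) (.split 0 1 (.leaf 4)
  (.split 1 1 (.leaf 0) (.split 2 1 (.leaf 0) (.split 2 1 (.leaf 2) (.leaf 0))))))))) (.leaf
  0)) (.split 1 1 (.leaf 2) (.split 2 1 (.leaf 2) (.split 1 1 (.split 2 1 (.split 1 2 (.leaf 2)
  (.split 0 2 (.split 0 2 (.leaf 5) (.split 2 2 (.leaf 2) (.split 0 1 (.split 0 2 (.leaf 5)
  (.split 0 1 (.leaf 4) (.leaf 5))) (.leaf 0)))) (.leaf 0))) (.leaf 2)) (.leaf 2))))) (.split 1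
  0 (.split 1 2 (.split 2 1 (.split 0 1 (.leaf 2) (.split 0 1 (.leaf 4) (.leaf 2))) (.split 0 1
  (.split 1 2 (.split 2 1 (.leaf 1) (.leaf 2)) (.leaf 5)) (.split 1 2 (.split 2 1 (.split 0 1
  (.split 0 2 (.split 1 2 (.split 2 2 (.leaf 2) (.split 2 1 (.leaf 6) (.leaf 2))) (.leaf 2))
  (.leaf 4)) (.leaf 1)) (.leaf 4)) (.split 0 1 (.split 0 2 (.split 2 1 (.split 1 1 (.leaf 1)
  (.split 2 2 (.leaf 2) (.split 2 1 (.leaf 6) (.leaf 2)))) (.leaf 2)) (.leaf 4)) (.split 2 1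
  (.split 1 1 (.leaf 5) (.leaf 1)) (.leaf 2)))))) (.leaf 3)) (.split 1 1 (.leaf 2) (.split 2 1
  (.leaf 2) (.split 1 1 (.split 2 1 (.split 0 1 (.split 0 2 (.split 2 2 (.split 1 2 (.leaf 2)
  (.split 0 2 (.leaf 1) (.leaf 5))) (.leaf 1)) (.leaf 1)) (.split 1 2 (.leaf 2) (.split 0 1
  (.split 2 2 (.leaf 2) (.split 0 2 (.leaf 1) (.split 0 1 (.leaf 4) (.split 0 1 (.leaf 5)
  (.leaf 4))))) (.split 0 1 (.leaf 5) (.leaf 1))))) (.leaf 2)) (.leaf 2)))))))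

def T0 : Tri := ⟨64, 64, 64, -64, 0, 0⟩

lemma check_theTree : check 64 theTree T0 T0 T0 = true := by decide +kernel

lemma mem_T0 {a p : ℝ} (h1 : |p| ≤ a) (h2 : a ≤ 1) : T0.Mem (64 * a) (64 * p) := by
  have := abs_le.mp h1
  refine ⟨(a + p) / 2, (a - p) / 2, 1 - a, by linarith, by linarith, by linarith, by ring, ?_, ?_⟩
  · simp only [T0]; push_cast; ring
  · simp only [T0]; push_cast; ring

theorem beta {a p b q c d : ℝ} (h1 : |p| ≤ a) (h2 : a ≤ 1) (h3 : |q| ≤ b) (h4 : b ≤ 1)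
    (h5 : |d| ≤ c) (h6 : c ≤ 1) :
    ∃ k, 0 ≤ G (1 : ℝ) a p b q c d (vec k).1 (vec k).2.1 (vec k).2.2 := by
  obtain ⟨k, hk⟩ := check_sound (by norm_num) theTree T0 T0 T0 check_theTree (mem_T0 h1 h2)
    (mem_T0 h3 h4) (mem_T0 h5 h6)
  refine ⟨k, ?_⟩
  generalize ((vec k).1 : ℝ) = x at hk ⊢
  generalize ((vec k).2.1 : ℝ) = y at hk ⊢
  generalize ((vec k).2.2 : ℝ) = z at hk ⊢
  have e0 : det ((64 : ℤ) : ℝ) (64 * a) (64 * p) (64 * b) (64 * q) (64 * c) (64 * d) =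
      262144 * det 1 a p b q c d := by simp only [det]; push_cast; ring
  have e1 : c1 ((64 : ℤ) : ℝ) (64 * b) (64 * q) (64 * c) (64 * d) x y z =
      4096 * c1 1 b q c d x y z := by simp only [c1]; push_cast; ring
  have e2 : c2 ((64 : ℤ) : ℝ) (64 * a) (64 * p) (64 * c) (64 * d) x y z =
      4096 * c2 1 a p c d x y z := by simp only [c2]; push_cast; ring
  have e3 : c3 ((64 : ℤ) : ℝ) (64 * a) (64 * p) (64 * b) (64 * q) x y z =
      4096 * c3 1 a p b q x y z := by simp only [c3]; push_cast; ring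
  rw [G, e0, e1, e2, e3, abs_mul, abs_mul, abs_mul] at hk
  rw [G]
  norm_num at hk ⊢
  linarith

end Pool.Agent.MP_8c130c_co.Beta
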