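import Pool.Agent.MP_8c130c_co.Defs

namespace Pool.Agent.MP_8c130c_co

open Pointwise

variable {d : ℕ}

/-- The truncated cone over `Q` between heights `1` and `H`. -/
def trunc (Q : Set (Fin d → ℝ)) (H : ℝ) : Set (Fin (d + 1) → ℝ) :=
  {p | 1 ≤ p 0 ∧ p 0 ≤ H ∧ ∃ x ∈ Q, Fin.tail p = p 0 • x}

/-- The point at height `h` over `x`. -/
def pt (h : ℝ) (x : Fin d → ℝ) : Fin (d + 1) → ℝ := Fin.cons h (h • x)

@[simp] lemma pt_zero (h : ℝ) (x : Fin d → ℝ) : pt h x 0 = h := by simp [pt]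

@[simp] lemma pt_tail (h : ℝ) (x : Fin d → ℝ) : Fin.tail (pt h x) = h • x := by simp [pt]

@[simp] lemma pt_succ (h : ℝ) (x : Fin d → ℝ) (i : Fin d) : pt h x i.succ = h * x i := by
  simp [pt]

lemma mem_trunc {Q : Set (Fin d → ℝ)} {H : ℝ} {p : Fin (d + 1) → ℝ} :
    p ∈ trunc Q H ↔ ∃ h, 1 ≤ h ∧ h ≤ H ∧ ∃ x ∈ Q, p = pt h x := by
  constructor
  · rintro ⟨h1, h2, x, hx, hp⟩
    refine ⟨p 0, h1, h2, x, hx, ?_⟩
    rw [pt, ← hp, Fin.cons_self_tail]
  · rintro ⟨h, h1, h2, x, hx, rfl⟩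
    exact ⟨by simpa, by simpa, x, hx, by simp⟩

lemma dot_pt (w : Fin (d + 1) → ℝ) (h : ℝ) (x : Fin d → ℝ) :
    w ⬝ᵥ pt h x = h * (Fin.tail w ⬝ᵥ x + w 0) := by
  simp only [dotProduct, Fin.sum_univ_succ, pt_zero, pt_succ, Fin.tail, mul_add, Finset.mul_sum]
  rw [add_comm]
  congr 1
  · exact Finset.sum_congr rfl fun i _ => by ring
  · ring

lemma convex_trunc {Q : Set (Fin d → ℝ)} (hQ : Convex ℝ Q) (H : ℝ) : Convex ℝ (trunc Q H) := by
  intro p hp q hq a b ha hb hab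
  obtain ⟨h, h1, h2, x, hx, rfl⟩ := mem_trunc.1 hp
  obtain ⟨k, k1, k2, y, hy, rfl⟩ := mem_trunc.1 hq
  have hs : 1 ≤ a * h + b * k := by nlinarith
  have hs0 : a * h + b * k ≠ 0 := by linarith
  refine mem_trunc.2 ⟨a * h + b * k, hs, by nlinarith,
    (a * h / (a * h + b * k)) • x + (b * k / (a * h + b * k)) • y, ?_, ?_⟩
  · refine hQ hx hy (by positivity) (by positivity) ?_
    field_simp
  · funext i
    refine Fin.cases ?_ (fun j => ?_) i
    · simp
    · simp only [Pi.add_apply, Pi.smul_apply, pt_succ, smul_eq_mul]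
      field_simp

/-- The affine map `x ↦ pt h x`. -/
noncomputable def ptMap (h : ℝ) : (Fin d → ℝ) →ᵃ[ℝ] (Fin (d + 1) → ℝ) where
  toFun := pt h
  linear :=
    { toFun := fun x => Fin.cons 0 (h • x)
      map_add' := fun x y => by
        funext i
        refine Fin.cases ?_ (fun j => ?_) i <;> simp
      map_smul' := fun c x => by
        funext i
        refine Fin.cases ?_ (fun j => ?_) i
        · simp
        · simp; ring }
  map_vadd' := fun x y => by
    funext i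
    refine Fin.cases ?_ (fun j => ?_) i <;> simp [mul_add]

@[simp] lemma ptMap_apply (h : ℝ) (x : Fin d → ℝ) : ptMap h x = pt h x := rfl

/-- The integral point at height `h` over `v`. -/
def ptZ (h : ℤ) (v : Fin d → ℤ) : Fin (d + 1) → ℤ := Fin.cons h (h • v)

lemma toReal_ptZ (h : ℤ) (v : Fin d → ℤ) : toReal (ptZ h v) = pt h (toReal v) := by
  funext i
  refine Fin.cases ?_ (fun j => ?_) i <;> simp [toReal, ptZ]

lemma trunc_eq_convexHull (V : Finset (Fin d → ℤ)) (H : ℤ) (hH : 1 < H) :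
    trunc (convexHull ℝ (toReal '' (V : Set (Fin d → ℤ)))) H =
      convexHull ℝ (toReal '' ((V.image (ptZ 1) ∪ V.image (ptZ H) : Finset _) :
        Set (Fin (d + 1) → ℤ))) := by
  have hH' : (1 : ℝ) < H := by exact_mod_cast hH
  apply Set.Subset.antisymm
  · intro p hp
    obtain ⟨h, h1, h2, x, hx, rfl⟩ := mem_trunc.1 hp
    have key : ∀ k : ℤ, (k = 1 ∨ k = H) → pt (k : ℝ) x ∈ convexHull ℝ (toReal ''
        ((V.image (ptZ 1) ∪ V.image (ptZ H) : Finset _) : Set (Fin (d + 1) → ℤ))) := by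
      intro k hk
      have h1 : ptMap (k : ℝ) x ∈ ptMap (k : ℝ) '' convexHull ℝ (toReal '' (V : Set (Fin d → ℤ))) :=
        ⟨x, hx, rfl⟩
      rw [AffineMap.image_convexHull] at h1
      refine convexHull_mono ?_ h1
      rintro _ ⟨_, ⟨v, hv, rfl⟩, rfl⟩
      refine ⟨ptZ k v, ?_, by simp [toReal_ptZ]⟩
      simp only [Finset.coe_union, Finset.coe_image, Set.mem_union, Set.mem_image]
      rcases hk with rfl | rfl
      · exact Or.inl ⟨v, hv, rfl⟩
      · exact Or.inr ⟨v, hv, rfl⟩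
    have k1 := key 1 (Or.inl rfl)
    have k2 := key H (Or.inr rfl)
    have hne : (H : ℝ) - 1 ≠ 0 := by linarith
    have := (convex_convexHull ℝ _) k1 k2 (a := (H - h) / (H - 1)) (b := (h - 1) / (H - 1))
      (div_nonneg (by linarith) (by linarith)) (div_nonneg (by linarith) (by linarith))
      (by field_simp; ring)
    convert this using 1
    funext i
    refine Fin.cases ?_ (fun j => ?_) i
    · simp; field_simp; ring
    · simp; field_simp; ring
  · refine convexHull_min ?_ (convex_trunc (convex_convexHull ℝ _) _)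
    rintro _ ⟨p, hp, rfl⟩
    simp only [Finset.coe_union, Finset.coe_image, Set.mem_union, Set.mem_image] at hp
    rcases hp with ⟨v, hv, rfl⟩ | ⟨v, hv, rfl⟩
    · rw [toReal_ptZ]
      exact mem_trunc.2 ⟨_, by simp, by simpa using hH'.le, _,
        subset_convexHull ℝ _ ⟨v, hv, rfl⟩, rfl⟩
    · rw [toReal_ptZ]
      exact mem_trunc.2 ⟨_, hH'.le, le_rfl, _, subset_convexHull ℝ _ ⟨v, hv, rfl⟩, rfl⟩

lemma nonempty_of_span {Q : Set (Fin d → ℝ)} (hQ : affineSpan ℝ Q = ⊤) : Q.Nonempty := by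
  by_contra h
  rw [Set.not_nonempty_iff_eq_empty] at h
  rw [h, AffineSubspace.span_empty] at hQ
  exact absurd hQ bot_ne_top

lemma affineSpan_trunc {Q : Set (Fin d → ℝ)} (hQ : affineSpan ℝ Q = ⊤) {H : ℝ} (hH : 1 < H) :
    affineSpan ℝ (trunc Q H) = ⊤ := by
  have key : ∀ k : ℝ, 1 ≤ k → k ≤ H → ∀ x, pt k x ∈ affineSpan ℝ (trunc Q H) := by
    intro k k1 k2 x
    have h1 : ptMap k x ∈ (affineSpan ℝ Q).map (ptMap k) :=
      AffineSubspace.mem_map_of_mem _ (by rw [hQ]; trivial)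
    rw [AffineSubspace.map_span] at h1
    refine affineSpan_mono ℝ ?_ h1
    rintro _ ⟨y, hy, rfl⟩
    exact mem_trunc.2 ⟨k, k1, k2, y, hy, rfl⟩
  rw [eq_top_iff]
  intro p _
  have hne : H - 1 ≠ 0 := by linarith
  have h1 := key 1 le_rfl hH.le (Fin.tail p)
  have h2 := key 1 le_rfl hH.le 0
  have h3 := key H hH.le le_rfl 0
  have := AffineSubspace.smul_vsub_vadd_mem _ ((p 0 - 1) / (H - 1)) h3 h2 h1
  convert this using 1
  funext i
  refine Fin.cases ?_ (fun j => ?_) i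
  · simp; field_simp; ring
  · simp [Fin.tail]

lemma isLatticePolytope_trunc {Q : Set (Fin d → ℝ)} (hQ : IsLatticePolytope Q) (H : ℤ)
    (hH : 1 < H) : IsLatticePolytope (trunc Q H) := by
  obtain ⟨⟨V, rfl⟩, hs⟩ := hQ
  exact ⟨⟨_, trunc_eq_convexHull V H hH⟩, affineSpan_trunc hs (by exact_mod_cast hH)⟩

lemma isIDP_of_trunc {Q : Set (Fin d → ℝ)} {H : ℝ} (hH : 1 ≤ H) (h : IsIDP (trunc Q H)) :
    IsIDP Q := by
  intro t ht z hz
  obtain ⟨x, hx, hxz⟩ := Set.mem_smul_set.1 hz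
  have hz' : toReal (Fin.cons (t : ℤ) z : Fin (d + 1) → ℤ) ∈ (t : ℝ) • trunc Q H := by
    refine Set.mem_smul_set.2 ⟨pt 1 x, mem_trunc.2 ⟨1, le_rfl, hH, x, hx, rfl⟩, ?_⟩
    funext i
    refine Fin.cases ?_ (fun j => ?_) i
    · simp [toReal]
    · have := congrFun hxz j
      simpa [toReal] using this
  obtain ⟨y, hy, hsum⟩ := h t ht _ hz'
  have h0 : ∑ j, y j 0 = (t : ℤ) := by
    have := congrFun hsum 0
    simpa using this.symm
  have h1 : ∀ j, 1 ≤ y j 0 := fun j => by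
    have := (hy j).1
    simp only [toReal] at this
    exact_mod_cast this
  have h2 : ∀ j, y j 0 = 1 := by
    have hs : ∑ j : Fin t, (y j 0 - 1) = 0 := by
      rw [Finset.sum_sub_distrib, h0]; simp
    have := (Finset.sum_eq_zero_iff_of_nonneg (fun j _ => sub_nonneg.2 (h1 j))).1 hs
    intro j
    have := this j (Finset.mem_univ _)
    linarith
  refine ⟨fun j => Fin.tail (y j), fun j => ?_, ?_⟩
  · obtain ⟨-, -, x, hx, hx'⟩ := hy j
    have h3 : toReal (y j) 0 = 1 := by simp [toReal, h2 j]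
    rw [h3, one_smul] at hx'
    have : toReal (Fin.tail (y j)) = x := by
      rw [← hx']; rfl
    rwa [this]
  · funext i
    have := congrFun hsum i.succ
    simpa [Fin.tail] using this

end Pool.Agent.MP_8c130c_co
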