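import Pool.Agent.MP_8c130c_co.Ball
import Pool.Agent.MP_8c130c_co.Beta

/-!
The core inequality: a symmetric convex set in `ℝ³` which is cut off from the points `± e_i` and
`(±1,±1,±1)` by functionals bounded by one on the `e_i` cannot be wide in all the directions of
the body-centred cubic lattice.
-/

namespace Pool.Agent.MP_8c130c_co.Core

structure Cfg (K : ℝ → ℝ → ℝ → Prop) (a12 a13 a21 a23 a31 a32 : ℝ) : Prop where
  comb : ∀ x1 y1 z1 x2 y2 z2 x3 y3 z3 l m n : ℝ, K x1 y1 z1 → K x2 y2 z2 → K x3 y3 z3 →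
    |l| + |m| + |n| ≤ 1 →
    K (l * x1 + m * x2 + n * x3) (l * y1 + m * y2 + n * y3) (l * z1 + m * z2 + n * z3)
  wide : ∀ i j k : ℤ, (i ≠ 0 ∨ j ≠ 0 ∨ k ≠ 0) → i % 2 = j % 2 → j % 2 = k % 2 →
    ∃ x y z, K x y z ∧ 3 ≤ i * x + j * y + k * z
  r1 : ∀ x y z, K x y z → |x + a12 * y + a13 * z| < 1
  r2 : ∀ x y z, K x y z → |a21 * x + y + a23 * z| < 1
  r3 : ∀ x y z, K x y z → |a31 * x + a32 * y + z| < 1
  b12 : |a12| ≤ 1
  b13 : |a13| ≤ 1
  b21 : |a21| ≤ 1
  b23 : |a23| ≤ 1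
  b31 : |a31| ≤ 1
  b32 : |a32| ≤ 1
  corner : ∀ ρ σ τ : ℤ, (ρ = 1 ∨ ρ = -1) → (σ = 1 ∨ σ = -1) → (τ = 1 ∨ τ = -1) →
    ∃ c1 c2 c3 : ℝ, |c1| ≤ 1 ∧ |c2| ≤ 1 ∧ |c3| ≤ 1 ∧ 1 ≤ ρ * c1 + σ * c2 + τ * c3 ∧
      ∀ x y z, K x y z → |c1 * x + c2 * y + c3 * z| < 1

variable {K : ℝ → ℝ → ℝ → Prop} {a12 a13 a21 a23 a31 a32 : ℝ}

lemma Cfg.swap12 (h : Cfg K a12 a13 a21 a23 a31 a32) :
    Cfg (fun x y z => K y x z) a21 a23 a12 a13 a32 a31 where
  comb := fun x1 y1 z1 x2 y2 z2 x3 y3 z3 l m n h1 h2 h3 h4 =>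
    h.comb y1 x1 z1 y2 x2 z2 y3 x3 z3 l m n h1 h2 h3 h4
  wide := fun i j k h0 h1 h2 => by
    obtain ⟨x, y, z, hK, hw⟩ := h.wide j i k (by tauto) (by omega) (by omega)
    exact ⟨y, x, z, hK, by linarith⟩
  r1 := fun x y z hK => by have := h.r2 _ _ _ hK; convert this using 2; ring
  r2 := fun x y z hK => by have := h.r1 _ _ _ hK; convert this using 2; ring
  r3 := fun x y z hK => by have := h.r3 _ _ _ hK; convert this using 2; ring
  b12 := h.b21
  b13 := h.b23
  b21 := h.b12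
  b23 := h.b13
  b31 := h.b32
  b32 := h.b31
  corner := fun ρ σ τ h1 h2 h3 => by
    obtain ⟨c1, c2, c3, k1, k2, k3, k4, k5⟩ := h.corner σ ρ τ h2 h1 h3
    refine ⟨c2, c1, c3, k2, k1, k3, by linarith, fun x y z hK => ?_⟩
    have := k5 _ _ _ hK; convert this using 2; ring

lemma Cfg.swap23 (h : Cfg K a12 a13 a21 a23 a31 a32) :
    Cfg (fun x y z => K x z y) a13 a12 a31 a32 a21 a23 where
  comb := fun x1 y1 z1 x2 y2 z2 x3 y3 z3 l m n h1 h2 h3 h4 =>
    h.comb x1 z1 y1 x2 z2 y2 x3 z3 y3 l m n h1 h2 h3 h4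
  wide := fun i j k h0 h1 h2 => by
    obtain ⟨x, y, z, hK, hw⟩ := h.wide i k j (by tauto) (by omega) (by omega)
    exact ⟨x, z, y, hK, by linarith⟩
  r1 := fun x y z hK => by have := h.r1 _ _ _ hK; convert this using 2; ring
  r2 := fun x y z hK => by have := h.r3 _ _ _ hK; convert this using 2; ring
  r3 := fun x y z hK => by have := h.r2 _ _ _ hK; convert this using 2; ring
  b12 := h.b13
  b13 := h.b12
  b21 := h.b31
  b23 := h.b32
  b31 := h.b21
  b32 := h.b23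
  corner := fun ρ σ τ h1 h2 h3 => by
    obtain ⟨c1, c2, c3, k1, k2, k3, k4, k5⟩ := h.corner ρ τ σ h1 h3 h2
    refine ⟨c1, c3, c2, k1, k3, k2, by linarith, fun x y z hK => ?_⟩
    have := k5 _ _ _ hK; convert this using 2; ring

lemma Cfg.flipZ (h : Cfg K a12 a13 a21 a23 a31 a32) :
    Cfg (fun x y z => K x y (-z)) a12 (-a13) a21 (-a23) (-a31) (-a32) where
  comb := fun x1 y1 z1 x2 y2 z2 x3 y3 z3 l m n h1 h2 h3 h4 => by
    have := h.comb x1 y1 (-z1) x2 y2 (-z2) x3 y3 (-z3) l m n h1 h2 h3 h4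
    convert this using 1; ring
  wide := fun i j k h0 h1 h2 => by
    obtain ⟨x, y, z, hK, hw⟩ := h.wide i j (-k) (by omega) (by omega) (by omega)
    refine ⟨x, y, -z, by simpa using hK, ?_⟩
    push_cast at hw; linarith
  r1 := fun x y z hK => by have := h.r1 _ _ _ hK; convert this using 2; ring
  r2 := fun x y z hK => by have := h.r2 _ _ _ hK; convert this using 2; ring
  r3 := fun x y z hK => by
    have := h.r3 _ _ _ hK; rw [← abs_neg] at this; convert this using 2; ring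
  b12 := h.b12
  b13 := by simpa using h.b13
  b21 := h.b21
  b23 := by simpa using h.b23
  b31 := by simpa using h.b31
  b32 := by simpa using h.b32
  corner := fun ρ σ τ h1 h2 h3 => by
    obtain ⟨c1, c2, c3, k1, k2, k3, k4, k5⟩ := h.corner ρ σ (-τ) h1 h2 (by omega)
    refine ⟨c1, c2, -c3, k1, k2, by simpa using k3, by push_cast at k4; linarith,
      fun x y z hK => ?_⟩
    have := k5 _ _ _ hK; convert this using 2; ring

lemma Cfg.flipY (h : Cfg K a12 a13 a21 a23 a31 a32) :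
    Cfg (fun x y z => K x (-y) z) (-a12) a13 (-a21) (-a23) a31 (-a32) :=
  h.swap23.flipZ.swap23

lemma Cfg.neg (h : Cfg K a12 a13 a21 a23 a31 a32) {x y z : ℝ} (hK : K x y z) :
    K (-x) (-y) (-z) := by
  have := h.comb x y z x y z x y z (-1) 0 0 hK hK hK (by simp)
  simpa using this

lemma plank3 (a b c d e f g h i : ℝ) (ha : 1 ≤ a) (he : 1 ≤ e) (hi : 1 ≤ i) :
    ∃ l m n : ℝ, |l| + |m| + |n| ≤ 3 ∧ 1 ≤ |a * l + b * m + c * n| ∧
      1 ≤ |d * l + e * m + f * n| ∧ 1 ≤ |g * l + h * m + i * n| := by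
  obtain ⟨l, hl, hA⟩ := Ball.plank !![a, b, c; d, e, f; g, h, i]
    (by intro i; fin_cases i <;> simpa)
  refine ⟨l 0, l 1, l 2, ?_, ?_, ?_, ?_⟩
  · simpa [Fin.sum_univ_three] using hl
  · simpa [Matrix.mulVec, dotProduct, Fin.sum_univ_three] using hA 0
  · simpa [Matrix.mulVec, dotProduct, Fin.sum_univ_three] using hA 1
  · simpa [Matrix.mulVec, dotProduct, Fin.sum_univ_three] using hA 2

lemma Cfg.cube (h : Cfg K a12 a13 a21 a23 a31 a32) (h1 : a12 + a13 ≤ 0) (h2 : a21 + a23 ≤ 0)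
    (h3 : a31 + a32 ≤ 0) : False := by
  obtain ⟨x1, y1, z1, k1, w1⟩ := h.wide 1 (-1) (-1) (by simp) (by simp) (by simp)
  obtain ⟨x2, y2, z2, k2, w2⟩ := h.wide (-1) 1 (-1) (by simp) (by simp) (by simp)
  obtain ⟨x3, y3, z3, k3, w3⟩ := h.wide (-1) (-1) 1 (by simp) (by simp) (by simp)
  push_cast at w1 w2 w3
  obtain ⟨l0, l1, l2, hl, e0, e1, e2⟩ := plank3 ((x1 - y1 - z1) / 3) ((x2 - y2 - z2) / 3)
    ((x3 - y3 - z3) / 3) ((-x1 + y1 - z1) / 3) ((-x2 + y2 - z2) / 3) ((-x3 + y3 - z3) / 3)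
    ((-x1 - y1 + z1) / 3) ((-x2 - y2 + z2) / 3) ((-x3 - y3 + z3) / 3) (by linarith) (by linarith)
    (by linarith)
  have hl' : |l0 / 3| + |l1 / 3| + |l2 / 3| ≤ 1 := by
    rw [abs_div, abs_div, abs_div]
    norm_num
    linarith
  have hK := h.comb _ _ _ _ _ _ _ _ _ _ _ _ k1 k2 k3 hl'
  set x := l0 / 3 * x1 + l1 / 3 * x2 + l2 / 3 * x3 with hx
  set y := l0 / 3 * y1 + l1 / 3 * y2 + l2 / 3 * y3 with hy
  set z := l0 / 3 * z1 + l1 / 3 * z2 + l2 / 3 * z3 with hz
  have f0 : 1 ≤ |x - y - z| := by convert e0 using 2; rw [hx, hy, hz]; ring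
  have f1 : 1 ≤ |-x + y - z| := by convert e1 using 2; rw [hx, hy, hz]; ring
  have f2 : 1 ≤ |-x - y + z| := by convert e2 using 2; rw [hx, hy, hz]; ring
  clear_value x y z
  have b12 := abs_le.mp h.b12
  have b13 := abs_le.mp h.b13
  have b21 := abs_le.mp h.b21
  have b23 := abs_le.mp h.b23
  have b31 := abs_le.mp h.b31
  have b32 := abs_le.mp h.b32
  have key : ∀ x y z, K x y z → 1 ≤ x - y - z → 1 ≤ |-x + y - z| → 1 ≤ |-x - y + z| → False := by
    intro x y z hK f0 f1 f2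
    have r1 := abs_lt.mp (h.r1 _ _ _ hK)
    have r2 := abs_lt.mp (h.r2 _ _ _ hK)
    have r3 := abs_lt.mp (h.r3 _ _ _ hK)
    rcases le_abs'.mp f1 with f1 | f1 <;> rcases le_abs'.mp f2 with f2 | f2
    · linarith [mul_nonneg (neg_nonneg.mpr h1) (sub_nonneg.mpr f0),
        mul_nonneg (show 0 ≤ 1 + a13 by linarith) (sub_nonneg.mpr f1),
        mul_nonneg (show 0 ≤ 1 + a12 by linarith) (sub_nonneg.mpr f2)]
    · linarith [mul_nonneg (neg_nonneg.mpr h2) (sub_nonneg.mpr f1),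
        mul_nonneg (show 0 ≤ 1 + a23 by linarith) (sub_nonneg.mpr f0),
        mul_nonneg (show 0 ≤ 1 + a21 by linarith) (sub_nonneg.mpr f2)]
    · linarith [mul_nonneg (neg_nonneg.mpr h3) (sub_nonneg.mpr f2),
        mul_nonneg (show 0 ≤ 1 + a32 by linarith) (sub_nonneg.mpr f0),
        mul_nonneg (show 0 ≤ 1 + a31 by linarith) (sub_nonneg.mpr f1)]
    · obtain ⟨c1, c2, c3, k1, k2, k3, k4, k5⟩ := h.corner 1 1 1 (by simp) (by simp) (by simp)
      have k6 := abs_lt.mp (k5 _ _ _ hK)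
      have k1 := abs_le.mp k1
      have k2 := abs_le.mp k2
      have k3 := abs_le.mp k3
      push_cast at k4
      linarith [mul_nonneg (show 0 ≤ c2 + c3 by linarith) (sub_nonneg.mpr f0),
        mul_nonneg (show 0 ≤ c1 + c3 by linarith) (sub_nonneg.mpr f1),
        mul_nonneg (show 0 ≤ c1 + c2 by linarith) (sub_nonneg.mpr f2)]
  rcases le_abs'.mp f0 with f0 | f0
  · refine key _ _ _ (h.neg hK) (by linarith) ?_ ?_
    · rw [← abs_neg] at f1; convert f1 using 2; ring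
    · rw [← abs_neg] at f2; convert f2 using 2; ring
  · exact key _ _ _ hK f0 f1 f2

lemma strict_aux {X Y Z s t u D w : ℝ} (hs : |s| < 1) (ht : |t| < 1) (hu : |u| < 1)
    (hD : 0 < D) (hw : 3 ≤ w) (hid : D * w = X * s + Y * t + Z * u)
    (hN : |X| + |Y| + |Z| ≤ 3 * D) : False := by
  have h1 : X * s ≤ |X| * |s| := by rw [← abs_mul]; exact le_abs_self _
  have h2 : Y * t ≤ |Y| * |t| := by rw [← abs_mul]; exact le_abs_self _
  have h3 : Z * u ≤ |Z| * |u| := by rw [← abs_mul]; exact le_abs_self _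
  have h4 : 3 * D ≤ D * w := by nlinarith
  have h5 : 0 ≤ |X| * (1 - |s|) := mul_nonneg (abs_nonneg _) (by linarith)
  have h6 : 0 ≤ |Y| * (1 - |t|) := mul_nonneg (abs_nonneg _) (by linarith)
  have h7 : 0 ≤ |Z| * (1 - |u|) := mul_nonneg (abs_nonneg _) (by linarith)
  have h8 : |X| * (1 - |s|) = 0 := by linarith
  have h9 : |Y| * (1 - |t|) = 0 := by linarith
  have h10 : |Z| * (1 - |u|) = 0 := by linarith
  have hX : |X| = 0 := (mul_eq_zero.mp h8).resolve_right (by linarith)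
  have hY : |Y| = 0 := (mul_eq_zero.mp h9).resolve_right (by linarith)
  have hZ : |Z| = 0 := (mul_eq_zero.mp h10).resolve_right (by linarith)
  rw [hX] at h1; rw [hY] at h2; rw [hZ] at h3
  linarith

lemma Cfg.cyc (h : Cfg K a12 a13 a21 a23 a31 a32) (h1 : |a13| ≤ a12) (h2 : |a21| ≤ a23)
    (h3 : |a32| ≤ a31) : False := by
  have h1 := abs_le.mp h1
  have h2 := abs_le.mp h2
  have h3 := abs_le.mp h3
  have b12 := abs_le.mp h.b12
  have b13 := abs_le.mp h.b13
  have b21 := abs_le.mp h.b21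
  have b23 := abs_le.mp h.b23
  have b31 := abs_le.mp h.b31
  have b32 := abs_le.mp h.b32
  rcases le_or_gt a23 a21 with hb | hb
  · exact h.flipY.flipZ.cube (by linarith) (by linarith) (by linarith)
  rcases le_or_gt a31 a32 with hc | hc
  · exact h.flipY.cube (by linarith) (by linarith) (by linarith)
  obtain ⟨x, y, z, hK, hw⟩ := h.wide 1 1 1 (by simp) (by simp) (by simp)
  push_cast at hw
  have m1 : 0 < (1 - a31) * (1 - a21) + (a23 - a21) * (a31 - a32) := by
    have := mul_nonneg (show 0 ≤ 1 - a31 by linarith) (show 0 ≤ 1 - a21 by linarith)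
    have := mul_pos (sub_pos.mpr hb) (sub_pos.mpr hc)
    linarith
  have m2 : 0 ≤ (1 - a12) * (1 - a32) + (a31 - a32) * (a12 - a13) := by
    have := mul_nonneg (show 0 ≤ 1 - a12 by linarith) (show 0 ≤ 1 - a32 by linarith)
    have := mul_nonneg (show 0 ≤ a31 - a32 by linarith) (show 0 ≤ a12 - a13 by linarith)
    linarith
  have m3 : 0 ≤ (1 - a23) * (1 - a13) + (a12 - a13) * (a23 - a21) := by
    have := mul_nonneg (show 0 ≤ 1 - a23 by linarith) (show 0 ≤ 1 - a13 by linarith)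
    have := mul_nonneg (show 0 ≤ a12 - a13 by linarith) (show 0 ≤ a23 - a21 by linarith)
    linarith
  set μ1 := (1 - a31) * (1 - a21) + (a23 - a21) * (a31 - a32) with hμ1
  set μ2 := (1 - a12) * (1 - a32) + (a31 - a32) * (a12 - a13) with hμ2
  set μ3 := (1 - a23) * (1 - a13) + (a12 - a13) * (a23 - a21) with hμ3
  set D := 1 - a23 * a32 - a12 * a21 - a13 * a31 + a12 * a23 * a31 + a13 * a21 * a32 with hD
  have hsum : 3 * D = μ1 * (1 + a12 + a13) + μ2 * (a21 + 1 + a23) + μ3 * (a31 + a32 + 1) := by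
    rw [hD, hμ1, hμ2, hμ3]; ring
  have hN : μ1 + μ2 + μ3 ≤ 3 * D := by
    have := mul_nonneg m1.le (show 0 ≤ a12 + a13 by linarith)
    have := mul_nonneg m2 (show 0 ≤ a21 + a23 by linarith)
    have := mul_nonneg m3 (show 0 ≤ a31 + a32 by linarith)
    linarith
  refine strict_aux (X := μ1) (Y := μ2) (Z := μ3) (D := D) (h.r1 _ _ _ hK) (h.r2 _ _ _ hK)
    (h.r3 _ _ _ hK) (by linarith) hw ?_ ?_
  · rw [hD, hμ1, hμ2, hμ3]; ring
  · rw [abs_of_pos m1, abs_of_nonneg m2, abs_of_nonneg m3]; exact hN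

lemma Cfg.beta (h : Cfg K a12 a13 a21 a23 a31 a32) (h1 : |a13| ≤ a12) (h2 : |a23| ≤ -a21)
    (h3 : |a32| ≤ a31) : False := by
  have b12 := abs_le.mp h.b12
  have b13 := abs_le.mp h.b13
  have b21 := abs_le.mp h.b21
  have b23 := abs_le.mp h.b23
  have b31 := abs_le.mp h.b31
  have b32 := abs_le.mp h.b32
  obtain ⟨k, hk⟩ := Beta.beta h1 b12.2 h2 (by linarith) h3 b31.2
  have h1 := abs_le.mp h1
  have h2 := abs_le.mp h2
  have h3 := abs_le.mp h3
  rcases le_or_gt a12 a13 with hp | hp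
  · exact h.flipZ.cube (by linarith) (by linarith) (by linarith)
  rcases le_or_gt a23 a21 with hq | hq
  · exact h.flipY.flipZ.cube (by linarith) (by linarith) (by linarith)
  have hD : 0 < Beta.det 1 a12 a13 (-a21) a23 a31 a32 := by
    have d0 : 0 < 1 + a12 * -a21 := by
      have := mul_nonneg (show 0 ≤ a12 by linarith) (show 0 ≤ -a21 by linarith)
      linarith
    have d1 : 0 < (1 - a13) * (1 - a23) + (a12 - a13) * (-a21 + a23) := by
      have := mul_nonneg (show 0 ≤ 1 - a13 by linarith) (show 0 ≤ 1 - a23 by linarith)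
      have := mul_pos (show 0 < a12 - a13 by linarith) (show 0 < -a21 + a23 by linarith)
      linarith
    have d2 : 0 < (1 - a13) * (1 + a23) + (a12 + a13) * (-a21 + a23) := by
      have := mul_pos (show 0 < 1 - a13 by linarith) (show 0 < 1 + a23 by linarith)
      have := mul_nonneg (show 0 ≤ a12 + a13 by linarith) (show 0 ≤ -a21 + a23 by linarith)
      linarith
    have e : Beta.det 1 a12 a13 (-a21) a23 a31 a32 = (1 - a31) * (1 + a12 * -a21) +
        (a31 + a32) / 2 * ((1 - a13) * (1 - a23) + (a12 - a13) * (-a21 + a23)) +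
        (a31 - a32) / 2 * ((1 - a13) * (1 + a23) + (a12 + a13) * (-a21 + a23)) := by
      simp only [Beta.det]; ring
    rw [e]
    have t0 := mul_nonneg (show 0 ≤ 1 - a31 by linarith) d0.le
    have t1 := mul_nonneg (show 0 ≤ (a31 + a32) / 2 by linarith) d1.le
    have t2 := mul_nonneg (show 0 ≤ (a31 - a32) / 2 by linarith) d2.le
    rcases lt_or_ge a31 1 with hc | hc
    · have := mul_pos (show 0 < 1 - a31 by linarith) d0
      linarith
    rcases lt_or_ge a32 0 with hd | hd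
    · have := mul_pos (show 0 < (a31 - a32) / 2 by linarith) d2
      linarith
    · have := mul_pos (show 0 < (a31 + a32) / 2 by linarith) d1
      linarith
  have hv : ((Beta.vec k).1 ≠ 0 ∨ (Beta.vec k).2.1 ≠ 0 ∨ (Beta.vec k).2.2 ≠ 0) ∧
      (Beta.vec k).1 % 2 = (Beta.vec k).2.1 % 2 ∧ (Beta.vec k).2.1 % 2 = (Beta.vec k).2.2 % 2 := by
    match k with
    | 0 | 1 | 2 | 3 | 4 | 5 => simp [Beta.vec]
    | _ + 6 => simp [Beta.vec]
  obtain ⟨x, y, z, hK, hw⟩ := h.wide _ _ _ hv.1 hv.2.1 hv.2.2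
  rw [Beta.G, one_mul, sub_nonneg] at hk
  refine strict_aux (h.r1 _ _ _ hK) (h.r2 _ _ _ hK) (h.r3 _ _ _ hK) hD hw ?_ hk
  simp only [Beta.det, Beta.c1, Beta.c2, Beta.c3]; ring

lemma Cfg.mutual (h : Cfg K a12 a13 a21 a23 a31 a32) (h1 : |a13| ≤ |a12|) (h2 : |a23| ≤ |a21|)
    (h3 : |a32| ≤ |a31|) : False := by
  wlog h12 : 0 ≤ a12 generalizing K a12 a13 a21 a23 a31 a32
  · exact this h.flipY (by simpa using h1) (by simpa using h2) (by simpa using h3) (by linarith)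
  wlog h31 : 0 ≤ a31 generalizing K a12 a13 a21 a23 a31 a32
  · exact this h.flipZ (by simpa using h1) (by simpa using h2) (by simpa using h3) h12
      (by linarith)
  rw [abs_of_nonneg h12] at h1
  rw [abs_of_nonneg h31] at h3
  rcases le_total a21 0 with h21 | h21
  · rw [abs_of_nonpos h21] at h2
    exact h.beta h1 h2 h3
  · rw [abs_of_nonneg h21] at h2
    have h1 := abs_le.mp h1
    have h2 := abs_le.mp h2
    have h3 := abs_le.mp h3
    exact h.flipY.flipZ.cube (by linarith) (by linarith) (by linarith)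

lemma Cfg.cyc' (h : Cfg K a12 a13 a21 a23 a31 a32) (h1 : |a13| ≤ |a12|) (h2 : |a21| ≤ |a23|)
    (h3 : |a32| ≤ |a31|) : False := by
  wlog h12 : 0 ≤ a12 generalizing K a12 a13 a21 a23 a31 a32
  · exact this h.flipY (by simpa using h1) (by simpa using h2) (by simpa using h3) (by linarith)
  wlog h23 : 0 ≤ a23 generalizing K a12 a13 a21 a23 a31 a32
  · exact this h.flipZ (by simpa using h1) (by simpa using h2) (by simpa using h3) h12
      (by linarith)
  rw [abs_of_nonneg h12] at h1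
  rw [abs_of_nonneg h23] at h2
  rcases le_total a31 0 with h31 | h31
  · rw [abs_of_nonpos h31] at h3
    have h1 := abs_le.mp h1
    have h2 := abs_le.mp h2
    have h3 := abs_le.mp h3
    exact h.flipY.cube (by linarith) (by linarith) (by linarith)
  · rw [abs_of_nonneg h31] at h3
    exact h.cyc h1 h2 h3

theorem Cfg.false (h : Cfg K a12 a13 a21 a23 a31 a32) : False := by
  rcases le_total |a13| |a12| with h1 | h1 <;> rcases le_total |a23| |a21| with h2 | h2 <;>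
    rcases le_total |a32| |a31| with h3 | h3
  · exact h.mutual h1 h2 h3
  · exact h.swap12.mutual h2 h1 h3
  · exact h.cyc' h1 h2 h3
  · exact h.swap12.swap23.mutual h2 h3 h1
  · exact h.swap23.mutual h1 h3 h2
  · exact h.swap23.cyc' h1 h3 h2
  · exact h.swap23.swap12.mutual h3 h1 h2
  · exact h.swap12.swap23.swap12.mutual h3 h2 h1

end Pool.Agent.MP_8c130c_co.Core
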