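import Pool.Agent.MP_8c130c_co.Defs

/-!
Degree reduction: in dimension `m`, a lattice point of `t P` with `t ≥ m` is a lattice point of `P`
plus a lattice point of `(t-1) P`.
-/

namespace Pool.Agent.MP_8c130c_co.Reduce

open Pool.Agent.MP_8c130c_co

variable {m : ℕ}

lemma toReal_sub (x y : Fin m → ℤ) : toReal (x - y) = toReal x - toReal y := by
  funext i; simp [toReal]

lemma toReal_add (x y : Fin m → ℤ) : toReal (x + y) = toReal x + toReal y := by
  funext i; simp [toReal]

lemma toReal_sum {ι : Type*} [Fintype ι] (v : ι → Fin m → ℤ) :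
    toReal (∑ i, v i) = ∑ i, toReal (v i) := by
  funext k; simp [toReal]

lemma base {ι : Type*} [Fintype ι] {P : Set (Fin m → ℝ)} (hP : Convex ℝ P) {s : ℝ} (hs : 0 < s)
    (v : ι → Fin m → ℤ) (hv : ∀ i, toReal (v i) ∈ P) (l : ι → ℝ) (hl : ∀ i, 0 ≤ l i)
    (hsum : ∑ i, l i = s + 1) (x : Fin m → ℤ) (hx : ∑ i, l i • toReal (v i) = toReal x)
    (j : ι) (hj : 1 ≤ l j) : ∃ y, toReal y ∈ P ∧ s⁻¹ • toReal (x - y) ∈ P := by
  classical
  refine ⟨v j, hv j, ?_⟩
  have h := hP.sum_mem (t := Finset.univ) (w := fun i => s⁻¹ * (l i - if i = j then 1 else 0))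
    (z := fun i => toReal (v i)) (fun i _ => by
      refine mul_nonneg (inv_nonneg.mpr hs.le) ?_
      split_ifs with h
      · rw [h]; linarith
      · simpa using hl i)
    (by rw [← Finset.mul_sum, Finset.sum_sub_distrib, hsum]; simp [hs.ne']) (fun i _ => hv i)
  convert h using 1
  simp only [mul_smul, ← Finset.smul_sum, sub_smul, Finset.sum_sub_distrib, hx, toReal_sub]
  simp

lemma exists_one_le {ι : Type*} [Fintype ι] (l : ι → ℝ) {t : ℝ} (hsum : ∑ i, l i = t)
    (ht : (Fintype.card ι : ℝ) ≤ t) (ht0 : 0 < t) : ∃ j, 1 ≤ l j := by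
  by_contra hc
  push Not at hc
  rcases isEmpty_or_nonempty ι with h | h
  · simp at hsum; linarith
  · have := Finset.sum_lt_sum_of_nonempty Finset.univ_nonempty fun i _ => hc i
    simp at this; linarith

lemma exists_one_le_of_zero (l : Fin (m + 1) → ℝ) {t : ℝ} (hsum : ∑ i, l i = t)
    (ht : (m : ℝ) ≤ t) (ht0 : 0 < t) (j : Fin (m + 1)) (hj : l j = 0) : ∃ j, 1 ≤ l j := by
  rw [Fin.sum_univ_succAbove _ j, hj, zero_add] at hsum
  obtain ⟨k, hk⟩ := exists_one_le _ hsum (by simpa using ht) ht0
  exact ⟨_, hk⟩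

/-- The homogenised matrix of a family of lattice points. -/
def mat (v : Fin (m + 1) → Fin m → ℤ) : Matrix (Fin (m + 1)) (Fin (m + 1)) ℝ :=
  Matrix.of fun i => Fin.cons 1 (toReal (v i))

lemma mat_det_int (v : Fin (m + 1) → Fin m → ℤ) : ∃ d : ℤ, (mat v).det = d := by
  refine ⟨(Matrix.of fun i => (Fin.cons 1 (v i) : Fin (m + 1) → ℤ)).det, ?_⟩
  rw [Int.cast_det]
  congr 1
  ext i j
  refine Fin.cases ?_ (fun k => ?_) j <;> simp [mat, toReal]

lemma simplex {P : Set (Fin m → ℝ)} (hP : Convex ℝ P) {s : ℕ} (hs : 0 < s) (hm : m ≤ s + 1)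
    (x : Fin m → ℤ) (n : ℕ) : ∀ (v : Fin (m + 1) → Fin m → ℤ) (l : Fin (m + 1) → ℝ),
    |(mat v).det| < n → (∀ i, toReal (v i) ∈ P) → (∀ i, 0 ≤ l i) → ∑ i, l i = s + 1 →
    ∑ i, l i • toReal (v i) = toReal x → ∃ y, toReal y ∈ P ∧ (s : ℝ)⁻¹ • toReal (x - y) ∈ P := by
  have hs' : (0 : ℝ) < s := by exact_mod_cast hs
  have hm' : (m : ℝ) ≤ s + 1 := by exact_mod_cast hm
  induction n with
  | zero => intro v l h; exact absurd h (by simp)
  | succ n ih =>
    intro v l hdet hv hl hsum hx
    by_cases h1 : ∃ j, 1 ≤ l j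
    · obtain ⟨j, hj⟩ := h1
      exact base hP hs' v hv l hl hsum x hx j hj
    have hl0 : ∀ j, 0 < l j := fun j => (hl j).lt_of_ne fun h =>
      h1 (exists_one_le_of_zero l hsum hm' (by linarith) j h.symm)
    by_cases hd : (mat v).det = 0
    · obtain ⟨c, hc0, hc⟩ := Matrix.exists_vecMul_eq_zero_iff.mpr hd
      have hc1 : ∑ i, c i = 0 := by
        simpa [Matrix.vecMul, dotProduct, mat] using congrFun hc 0
      have hc2 : ∑ i, c i • toReal (v i) = 0 := by
        funext k
        simpa [Matrix.vecMul, dotProduct, mat] using congrFun hc k.succ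
      have hpos : ∃ i, 0 < c i := by
        by_contra hn
        push Not at hn
        exact hc0 (funext fun i =>
          (Finset.sum_eq_zero_iff_of_nonpos fun i _ => hn i).mp hc1 i (Finset.mem_univ i))
      obtain ⟨j, -, hj⟩ := Finset.exists_max_image Finset.univ (fun i => c i / l i)
        Finset.univ_nonempty
      have hcj : 0 < c j := by
        obtain ⟨i, hi⟩ := hpos
        have := (div_pos hi (hl0 i)).trans_le (hj i (Finset.mem_univ i))
        exact (div_pos_iff_of_pos_right (hl0 j)).mp this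
      have hsum' : ∑ i, (l i - l j / c j * c i) = s + 1 := by
        rw [Finset.sum_sub_distrib, ← Finset.mul_sum, hc1, hsum]; simp
      obtain ⟨k, hk⟩ := exists_one_le_of_zero _ hsum' hm' (by linarith) j
        (by field_simp; ring)
      refine base hP hs' v hv _ (fun i => ?_) hsum' x ?_ k hk
      · have := hj i (Finset.mem_univ i)
        rw [div_le_div_iff₀ (hl0 i) (hl0 j)] at this
        rw [sub_nonneg, div_mul_eq_mul_div, div_le_iff₀ hcj]
        linarith
      · simp only [sub_smul, mul_smul, Finset.sum_sub_distrib, ← Finset.smul_sum, hc2, hx]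
        simp
    push Not at h1
    have hμ : ∑ i, (1 - l i) = 1 := by
      have h2 : 0 < ∑ i, (1 - l i) :=
        Finset.sum_pos (fun i _ => sub_pos.mpr (h1 i)) Finset.univ_nonempty
      rw [Finset.sum_sub_distrib, hsum] at h2 ⊢
      simp only [Finset.sum_const, Finset.card_univ, Fintype.card_fin, nsmul_eq_mul, mul_one,
        Nat.cast_add, Nat.cast_one] at h2 ⊢
      have h3 : s < m := by exact_mod_cast (show (s : ℝ) < m by linarith)
      have h4 : m = s + 1 := by omega
      rw [h4]; push_cast; ring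
    set y : Fin m → ℤ := ∑ i, v i - x with hy
    have hyr : toReal y = ∑ i, (1 - l i) • toReal (v i) := by
      simp only [hy, toReal_sub, toReal_sum, sub_smul, Finset.sum_sub_distrib, hx, one_smul]
    have hyP : toReal y ∈ P := by
      rw [hyr]
      exact hP.sum_mem (fun i _ => (sub_pos.mpr (h1 i)).le) hμ fun i _ => hv i
    obtain ⟨j, -, hj⟩ := Finset.exists_min_image Finset.univ (fun i => l i / (1 - l i))
      Finset.univ_nonempty
    set τ := l j / (1 - l j) with hτ
    have hτj : l j - τ * (1 - l j) = 0 := by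
      have := (sub_pos.mpr (h1 j)).ne'
      rw [hτ]; field_simp; ring
    refine ih (Function.update v j y) (fun i => l i - τ * (1 - l i) + if i = j then τ else 0)
      ?_ ?_ ?_ ?_ ?_
    · have e : mat (Function.update v j y) =
          (mat v).updateRow j (∑ k, (1 - l k) • mat v k) := by
        ext i k
        by_cases hi : i = j
        · subst hi
          refine Fin.cases ?_ (fun k => ?_) k
          · simpa [mat, Finset.sum_apply] using hμ.symm
          · simpa [mat, Finset.sum_apply] using congrFun hyr k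
        · simp [mat, hi]
      obtain ⟨d, hd1⟩ := mat_det_int v
      obtain ⟨d', hd2⟩ := mat_det_int (Function.update v j y)
      have h3 : |(d' : ℝ)| < |(d : ℝ)| := by
        rw [← hd1, ← hd2, e, Matrix.det_updateRow_sum, smul_eq_mul, abs_mul,
          abs_of_pos (sub_pos.mpr (h1 j))]
        have := abs_pos.mpr hd
        have := hl0 j
        nlinarith
      rw [hd1] at hdet
      rw [hd2]
      have h4 : |d'| < |d| := by exact_mod_cast h3
      have h5 : |d| < (n : ℤ) + 1 := by exact_mod_cast hdet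
      exact_mod_cast (show |d'| < (n : ℤ) by omega)
    · intro i
      by_cases hi : i = j
      · subst hi; simpa using hyP
      · simpa [hi] using hv i
    · intro i
      have h2 := hj i (Finset.mem_univ i)
      rw [le_div_iff₀ (sub_pos.mpr (h1 i))] at h2
      have h3 : 0 ≤ τ := div_nonneg (hl j) (sub_pos.mpr (h1 j)).le
      split_ifs <;> linarith
    · rw [Finset.sum_add_distrib, Finset.sum_sub_distrib, ← Finset.mul_sum, hμ, hsum]; simp
    · have e : ∀ i, (l i - τ * (1 - l i) + if i = j then τ else 0) •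
          toReal (Function.update v j y i) = (l i - τ * (1 - l i)) • toReal (v i) +
            if i = j then τ • toReal y else 0 := by
        intro i
        by_cases hi : i = j
        · subst hi; simp [hτj]
        · simp [hi]
      simp only [e, Finset.sum_add_distrib, Finset.sum_ite_eq', Finset.mem_univ, if_true]
      rw [hyr]
      simp only [sub_smul (l _), mul_smul, Finset.sum_sub_distrib, ← Finset.smul_sum, hx]
      abel

theorem reduce {P : Set (Fin m → ℝ)} (hP : Convex ℝ P) {s : ℕ} (hs : 0 < s) (hm : m ≤ s + 1)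
    (V : Set (Fin m → ℤ)) (hV : ∀ v ∈ V, toReal v ∈ P) (x : Fin m → ℤ)
    (hx : ((s : ℝ) + 1)⁻¹ • toReal x ∈ convexHull ℝ (toReal '' V)) :
    ∃ y, toReal y ∈ P ∧ (s : ℝ)⁻¹ • toReal (x - y) ∈ P := by
  have hs' : (0 : ℝ) < s := by exact_mod_cast hs
  obtain ⟨ι, _, z, w, hz, hind, hw0, hw1, hwx⟩ := eq_pos_convex_span_of_mem_convexHull hx
  have hz' : ∀ i, ∃ v ∈ V, toReal v = z i := fun i => hz (Set.mem_range_self i)
  choose v hvV hvz using hz'
  have hcard : Fintype.card ι ≤ m + 1 := by
    refine hind.card_le_finrank_succ.trans ?_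
    have := Submodule.finrank_le (vectorSpan ℝ (Set.range z))
    simpa using this
  have hl : ∀ i, 0 ≤ ((s : ℝ) + 1) * w i := fun i => mul_nonneg (by linarith) (hw0 i).le
  have hsum : ∑ i, ((s : ℝ) + 1) * w i = s + 1 := by rw [← Finset.mul_sum, hw1, mul_one]
  have hx' : ∑ i, (((s : ℝ) + 1) * w i) • toReal (v i) = toReal x := by
    simp only [mul_smul, ← Finset.smul_sum, hvz, hwx]
    rw [smul_inv_smul₀ (by linarith)]
  rcases hcard.lt_or_eq with h | h
  · obtain ⟨j, hj⟩ := exists_one_le _ hsum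
      (by exact_mod_cast (show Fintype.card ι ≤ s + 1 by omega)) (by linarith)
    exact base hP hs' v (fun i => hV _ (hvV i)) _ hl hsum x hx' j hj
  · let e : Fin (m + 1) ≃ ι := (Fintype.equivFinOfCardEq h).symm
    obtain ⟨n, hn⟩ := exists_nat_gt |(mat (v ∘ e)).det|
    refine simplex hP hs hm x n (v ∘ e) (fun i => ((s : ℝ) + 1) * w (e i)) hn
      (fun i => hV _ (hvV _)) (fun i => hl _) ?_ ?_
    · exact (e.sum_comp fun i => ((s : ℝ) + 1) * w i).trans hsum
    · exact (e.sum_comp fun i => (((s : ℝ) + 1) * w i) • toReal (v i)).trans hx'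

end Pool.Agent.MP_8c130c_co.Reduce
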