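import Pool.Agent.MP_8c130c_co.Delzant
import Pool.Agent.MP_8c130c_co.Reduce

/-!
Unimodular corners of a Delzant lattice polytope.
-/

namespace Pool.Agent.MP_8c130c_co

open Reduce

variable {d : ℕ}

/-- A lattice point of `P` with dual lattice bases `e` (edge directions) and `u` (inner facet
normals). -/
structure Corner (P : Set (Fin d → ℝ)) where
  v : Fin d → ℤ
  e : Fin d → Fin d → ℤ
  u : Fin d → Fin d → ℤ
  dual : ∀ i j, u i ⬝ᵥ e j = if i = j then 1 else 0
  mem : toReal v ∈ P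
  edge : ∀ i, toReal (v + e i) ∈ P
  ineq : ∀ i, ∀ y ∈ P, 0 ≤ toReal (u i) ⬝ᵥ (y - toReal v)

namespace Corner

variable {P : Set (Fin d → ℝ)} (c : Corner P)

lemma dual' (k l : Fin d) : ∑ j, c.e j k * c.u j l = if k = l then 1 else 0 := by
  have h : Matrix.of c.u * (Matrix.of c.e).transpose = 1 := by
    ext i j
    simpa [Matrix.mul_apply, Matrix.one_apply, dotProduct] using c.dual i j
  have h1 : (Matrix.of c.e).transpose * Matrix.of c.u = 1 := mul_eq_one_comm.mp h
  have h2 : ((Matrix.of c.e).transpose * Matrix.of c.u) k l = (1 : Matrix _ _ ℤ) k l := by rw [h1]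
  simpa [Matrix.mul_apply, Matrix.one_apply] using h2

lemma expandZ (a y : Fin d → ℤ) : a ⬝ᵥ y = ∑ j, (a ⬝ᵥ c.e j) * (c.u j ⬝ᵥ y) := by
  have : ∑ j, (a ⬝ᵥ c.e j) * (c.u j ⬝ᵥ y) = ∑ k, ∑ l, a k * (∑ j, c.e j k * c.u j l) * y l := by
    simp only [dotProduct, Finset.sum_mul, Finset.mul_sum]
    rw [Finset.sum_comm]
    refine (Finset.sum_congr rfl fun l _ => Finset.sum_comm).trans ?_
    rw [Finset.sum_comm]
    refine Finset.sum_congr rfl fun k _ => Finset.sum_congr rfl fun l _ =>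
      Finset.sum_congr rfl fun j _ => by ring
  rw [this]
  simp [c.dual', dotProduct]

lemma expand (a y : Fin d → ℝ) :
    a ⬝ᵥ y = ∑ j, (a ⬝ᵥ toReal (c.e j)) * (toReal (c.u j) ⬝ᵥ y) := by
  have hd : ∀ k l, ∑ j, (c.e j k : ℝ) * c.u j l = if k = l then 1 else 0 := by
    intro k l
    have := congrArg (Int.cast : ℤ → ℝ) (c.dual' k l)
    push_cast at this
    exact this
  have : ∑ j, (a ⬝ᵥ toReal (c.e j)) * (toReal (c.u j) ⬝ᵥ y) =
      ∑ k, ∑ l, a k * (∑ j, (c.e j k : ℝ) * c.u j l) * y l := by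
    simp only [dotProduct, toReal, Finset.sum_mul, Finset.mul_sum]
    rw [Finset.sum_comm]
    refine (Finset.sum_congr rfl fun l _ => Finset.sum_comm).trans ?_
    rw [Finset.sum_comm]
    refine Finset.sum_congr rfl fun k _ => Finset.sum_congr rfl fun l _ =>
      Finset.sum_congr rfl fun j _ => by ring
  rw [this]
  simp [hd, dotProduct]

lemma ineqZ (i : Fin d) {y : Fin d → ℤ} (hy : toReal y ∈ P) : 0 ≤ c.u i ⬝ᵥ (y - c.v) := by
  have := c.ineq i _ hy
  rw [← toReal_sub, toReal_dot] at this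
  exact_mod_cast this

lemma edge_nonneg {a : Fin d → ℝ} (h : ∀ y ∈ P, a ⬝ᵥ toReal c.v ≤ a ⬝ᵥ y) (j : Fin d) :
    0 ≤ a ⬝ᵥ toReal (c.e j) := by
  have := h _ (c.edge j)
  rw [toReal_add, dotProduct_add] at this
  linarith

end Corner

lemma mem_of_forall_le {P : Set (Fin d → ℝ)} (hP : Convex ℝ P) (hc : IsClosed P) {y : Fin d → ℝ}
    (h : ∀ a : Fin d → ℝ, ∃ q ∈ P, a ⬝ᵥ q ≤ a ⬝ᵥ y) : y ∈ P := by
  by_contra hy
  obtain ⟨f, r, h1, h2⟩ := geometric_hahn_banach_point_closed hP hc hy
  obtain ⟨a, ha⟩ := exists_dot f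
  obtain ⟨q, hq, h3⟩ := h a
  have := h2 q hq
  rw [ha] at h1 this
  linarith

lemma exists_strict (V : Finset (Fin d → ℤ)) (hV : V.Nonempty) (a : Fin d → ℝ) :
    ∃ v ∈ V, (∀ w ∈ V, a ⬝ᵥ toReal v ≤ a ⬝ᵥ toReal w) ∧
      ∃ l : Fin d → ℝ, ∀ w ∈ V, w ≠ v → l ⬝ᵥ toReal w < l ⬝ᵥ toReal v := by
  classical
  obtain ⟨v0, hv0, hmin⟩ := V.exists_min_image (fun v => a ⬝ᵥ toReal v) hV
  obtain ⟨v, hv, hmax⟩ := (V.filter fun v => a ⬝ᵥ toReal v = a ⬝ᵥ toReal v0).exists_max_image
    (fun v => toReal v ⬝ᵥ toReal v) ⟨v0, by simp [hv0]⟩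
  obtain ⟨hvV, hva⟩ := Finset.mem_filter.mp hv
  refine ⟨v, hvV, fun w hw => hva ▸ hmin w hw, ?_⟩
  have key : ∀ w ∈ V, ∀ᶠ N : ℝ in Filter.atTop, w ≠ v →
      (toReal v - N • a) ⬝ᵥ toReal w < (toReal v - N • a) ⬝ᵥ toReal v := by
    intro w hw
    simp only [sub_dotProduct, smul_dotProduct, smul_eq_mul]
    rcases (hmin w hw).eq_or_lt with h | h
    · refine Filter.Eventually.of_forall fun N hne => ?_
      have h1 := hmax w (Finset.mem_filter.mpr ⟨hw, h.symm⟩)
      have h2 : 0 < (toReal v - toReal w) ⬝ᵥ (toReal v - toReal w) := by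
        refine lt_of_le_of_ne (Finset.sum_nonneg fun i _ => mul_self_nonneg _) fun h3 => hne ?_
        have h4 := dotProduct_self_eq_zero.mp h3.symm
        funext k
        have := congrFun h4 k
        simp only [toReal, Pi.sub_apply, Pi.zero_apply, sub_eq_zero] at this
        exact_mod_cast this.symm
      simp only [sub_dotProduct, dotProduct_sub] at h2
      rw [dotProduct_comm (toReal w) (toReal v)] at h2
      rw [hva, ← h]
      linarith
    · filter_upwards [Filter.eventually_gt_atTop ((toReal v ⬝ᵥ toReal w - toReal v ⬝ᵥ toReal v) /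
        (a ⬝ᵥ toReal w - a ⬝ᵥ toReal v0))] with N hN _
      rw [div_lt_iff₀ (sub_pos.mpr h)] at hN
      rw [hva]
      linarith
  obtain ⟨N, hN⟩ := ((Filter.eventually_all_finset V).mpr key).exists
  exact ⟨_, hN⟩

lemma le_of_vertices {V : Finset (Fin d → ℤ)} {a : Fin d → ℝ} {r : ℝ}
    (h : ∀ w ∈ V, a ⬝ᵥ toReal w ≤ r) :
    ∀ y ∈ convexHull ℝ (toReal '' (V : Set (Fin d → ℤ))), a ⬝ᵥ y ≤ r := by
  intro y hy
  have hne : V.Nonempty := by
    obtain ⟨_, v, hv, -⟩ := convexHull_nonempty_iff.1 ⟨y, hy⟩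
    exact ⟨v, hv⟩
  obtain ⟨v, hv, hmax⟩ := exists_max_vertex V hne a
  exact (hmax y hy).trans (h v hv)

lemma exists_corner {V : Finset (Fin d → ℤ)}
    (hD : IsDelzant (convexHull ℝ (toReal '' (V : Set (Fin d → ℤ))))) {v : Fin d → ℤ} (hv : v ∈ V)
    {l : Fin d → ℝ} (hl : ∀ w ∈ V, w ≠ v → l ⬝ᵥ toReal w < l ⬝ᵥ toReal v) :
    ∃ c : Corner (convexHull ℝ (toReal '' (V : Set (Fin d → ℤ)))), c.v = v := by
  classical
  set P := convexHull ℝ (toReal '' (V : Set (Fin d → ℤ))) with hP
  have hsub : ∀ w ∈ V, toReal w ∈ P := fun w hw => subset_convexHull ℝ _ ⟨w, hw, rfl⟩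
  have hexp : IsExposed ℝ P {toReal v} := by
    intro _
    refine ⟨LinearMap.toContinuousLinearMap ((dotProductBilin ℝ ℝ) l), ?_⟩
    have hconv : Convex ℝ {y : Fin d → ℝ | l ⬝ᵥ y < l ⬝ᵥ toReal v ∨ y = toReal v} := by
      intro x hx y hy s t hs ht hst
      simp only [Set.mem_ofPred_eq, dotProduct_add, dotProduct_smul, smul_eq_mul] at *
      obtain rfl : t = 1 - s := by linarith
      rcases hx with hx | rfl <;> rcases hy with hy | rfl
      · left
        rcases hs.eq_or_lt with rfl | hs'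
        · simpa using hy
        · nlinarith
      · rcases hs.eq_or_lt with rfl | hs'
        · right; simp
        · left; nlinarith
      · rcases ht.eq_or_lt with h | ht'
        · right; rw [← h, show s = 1 by linarith]; simp
        · left; nlinarith
      · right; rw [← add_smul]; simp
    have hall : ∀ y ∈ P, l ⬝ᵥ y < l ⬝ᵥ toReal v ∨ y = toReal v := by
      refine convexHull_min ?_ hconv
      rintro _ ⟨w, hw, rfl⟩
      by_cases h : w = v
      · right; rw [h]
      · left; exact hl w hw h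
    ext y
    simp only [Set.mem_singleton_iff, Set.mem_ofPred_eq, LinearMap.coe_toContinuousLinearMap',
      dotProductBilin_apply_apply]
    constructor
    · rintro rfl
      exact ⟨hsub v hv, fun z hz => (hall z hz).elim le_of_lt fun h => by rw [h]⟩
    · rintro ⟨hy, h⟩
      exact (hall y hy).resolve_left (not_lt.mpr (h _ (hsub v hv)))
  obtain ⟨b, S, hS⟩ := hD _ hexp (Set.singleton_nonempty _)
  have hN : ∀ w : Fin d → ℝ, w ∈ normalCone P {toReal v} ↔
      ∀ z ∈ V, w ⬝ᵥ toReal z ≤ w ⬝ᵥ toReal v := by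
    intro w
    constructor
    · intro h z hz; exact h _ rfl _ (hsub z hz)
    · rintro h _ rfl; exact le_of_vertices h
  let e : Fin d → Fin d → ℤ := fun j k => b.repr (Pi.single k 1) j
  have hdual : ∀ i j, b i ⬝ᵥ e j = if i = j then 1 else 0 := by
    have h : (Matrix.of e).transpose * Matrix.of b = 1 := by
      ext k m
      have := congrFun (b.sum_repr (Pi.single k 1)) m
      simpa [Matrix.mul_apply, Matrix.one_apply, e, Pi.single_apply, eq_comm] using this
    intro i j
    have h1 : Matrix.of b * (Matrix.of e).transpose = 1 := mul_eq_one_comm.mp h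
    have h2 : (Matrix.of b * (Matrix.of e).transpose) i j = (1 : Matrix _ _ ℤ) i j := by rw [h1]
    simpa [Matrix.mul_apply, Matrix.one_apply, dotProduct] using h2
  have hco : ∀ w ∈ normalCone P {toReal v}, ∀ j,
      0 ≤ w ⬝ᵥ toReal (e j) ∧ (j ∉ S → w ⬝ᵥ toReal (e j) = 0) := by
    intro w hw j
    rw [hS] at hw
    obtain ⟨c, hc, rfl⟩ := hw
    simp only [sum_dotProduct, smul_dotProduct, toReal_dot, hdual, smul_eq_mul]
    simp only [Int.cast_ite, Int.cast_one, Int.cast_zero, mul_ite, mul_one, mul_zero,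
      Finset.sum_ite_eq']
    split_ifs with h
    · exact ⟨hc j, fun h' => absurd h h'⟩
    · exact ⟨le_rfl, fun _ => rfl⟩
  have hSall : ∀ j, j ∈ S := by
    intro j
    by_contra hj
    have key : ∀ z ∈ V, ∀ᶠ N : ℝ in Filter.atTop,
        (toReal (b j) + N • l) ⬝ᵥ toReal z ≤ (toReal (b j) + N • l) ⬝ᵥ toReal v := by
      intro z hz
      by_cases h : z = v
      · rw [h]; exact Filter.Eventually.of_forall fun _ => le_rfl
      · simp only [add_dotProduct, smul_dotProduct, smul_eq_mul]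
        filter_upwards [Filter.eventually_gt_atTop ((toReal (b j) ⬝ᵥ toReal z -
          toReal (b j) ⬝ᵥ toReal v) / (l ⬝ᵥ toReal v - l ⬝ᵥ toReal z))] with N hN
        rw [div_lt_iff₀ (sub_pos.mpr (hl z hz h))] at hN
        linarith
    obtain ⟨N, hN'⟩ := ((Filter.eventually_all_finset V).mpr key).exists
    have h1 := (hco _ ((hN _).mpr hN') j).2 hj
    have h2 := (hco l ((hN _).mpr fun z hz => by
      by_cases h : z = v
      · rw [h]
      · exact (hl z hz h).le) j).2 hj
    rw [add_dotProduct, smul_dotProduct, h2, toReal_dot, hdual] at h1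
    simp at h1
  have hb : ∀ i, ∀ y ∈ P, toReal (b i) ⬝ᵥ y ≤ toReal (b i) ⬝ᵥ toReal v := by
    intro i
    have : toReal (b i) ∈ normalCone P {toReal v} := by
      rw [hS]
      refine ⟨Pi.single i 1, fun k => by by_cases h : k = i <;> simp [h], ?_⟩
      rw [Finset.sum_eq_single i (fun k _ hk => by simp [hk]) fun h => absurd (hSall i) h]
      simp
    exact this _ rfl
  have hbZ : ∀ i, ∀ z ∈ V, 0 ≤ b i ⬝ᵥ (v - z) := by
    intro i z hz
    have := hb i _ (hsub z hz)
    rw [toReal_dot, toReal_dot] at this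
    rw [dotProduct_sub, sub_nonneg]
    exact_mod_cast this
  have hexpand : ∀ y : Fin d → ℤ, y = ∑ j, (b j ⬝ᵥ y) • e j := by
    intro y
    funext k
    have h : ∀ m, ∑ j, e j k * b j m = if k = m then 1 else 0 := by
      intro m
      have := congrFun (b.sum_repr (Pi.single k 1)) m
      simpa [e, Pi.single_apply, eq_comm] using this
    have : ∑ j, (b j ⬝ᵥ y) * e j k = ∑ m, (∑ j, e j k * b j m) * y m := by
      simp only [dotProduct, Finset.sum_mul]
      rw [Finset.sum_comm]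
      exact Finset.sum_congr rfl fun m _ => Finset.sum_congr rfl fun j _ => by ring
    simp only [Finset.sum_apply, Pi.smul_apply, smul_eq_mul, this, h]
    simp
  refine ⟨⟨v, fun j => -e j, fun i => -b i, fun i j => by simp [hdual], hsub v hv, fun i => ?_,
    fun i y hy => ?_⟩, rfl⟩
  · obtain ⟨z, hz, hz1, hz2⟩ : ∃ z ∈ V, 0 < b i ⬝ᵥ (v - z) ∧ ∀ j, j ≠ i → b j ⬝ᵥ (v - z) = 0 := by
      by_contra hc
      push Not at hc
      have key : ∀ z ∈ V, ∀ᶠ N : ℤ in Filter.atTop,
          b i ⬝ᵥ (v - z) ≤ N * ∑ j ∈ Finset.univ.erase i, b j ⬝ᵥ (v - z) := by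
        intro z hz
        have h0 : 0 ≤ ∑ j ∈ Finset.univ.erase i, b j ⬝ᵥ (v - z) :=
          Finset.sum_nonneg fun j _ => hbZ j z hz
        rcases (hbZ i z hz).eq_or_lt with h | h
        · filter_upwards [Filter.eventually_ge_atTop 0] with N hN
          rw [← h]; exact mul_nonneg hN h0
        · obtain ⟨j, hj, hj0⟩ := hc z hz h
          have h1 : 1 ≤ ∑ j ∈ Finset.univ.erase i, b j ⬝ᵥ (v - z) := by
            have h2 := Finset.single_le_sum (f := fun j => b j ⬝ᵥ (v - z))
              (fun j _ => hbZ j z hz) (show j ∈ Finset.univ.erase i by simp [hj])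
            have := hbZ j z hz
            omega
          filter_upwards [Filter.eventually_ge_atTop (b i ⬝ᵥ (v - z))] with N hN
          nlinarith
      obtain ⟨N, hN'⟩ := ((Filter.eventually_all_finset V).mpr key).exists
      have h1 := (hco (toReal (N • ∑ j ∈ Finset.univ.erase i, b j - b i)) ((hN _).mpr
        fun z hz => by
          rw [toReal_dot, toReal_dot]
          have := hN' z hz
          simp only [dotProduct_sub, Finset.sum_sub_distrib] at this
          simp only [sub_dotProduct, smul_dotProduct, sum_dotProduct, smul_eq_mul]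
          exact_mod_cast (by linarith)) i).1
      rw [toReal_dot, sub_dotProduct, smul_dotProduct, sum_dotProduct,
        Finset.sum_eq_zero fun j hj => by rw [hdual, if_neg (Finset.ne_of_mem_erase hj)],
        hdual] at h1
      norm_num at h1
    have h1 : v - z = (b i ⬝ᵥ (v - z)) • e i := by
      conv_lhs => rw [hexpand (v - z)]
      exact Finset.sum_eq_single i (fun j _ hj => by rw [hz2 j hj, zero_smul]) (by simp)
    generalize b i ⬝ᵥ (v - z) = n at h1 hz1
    have hn : (1 : ℝ) ≤ n := by exact_mod_cast hz1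
    have h2 := convex_convexHull ℝ _ (hsub v hv) (hsub z hz) (a := 1 - (n : ℝ)⁻¹) (b := (n : ℝ)⁻¹)
      (sub_nonneg.mpr (inv_le_one_of_one_le₀ hn)) (by positivity) (by ring)
    convert h2 using 1
    funext k
    have h3 : ((v k : ℝ) - z k) = n * e i k := by exact_mod_cast congrFun h1 k
    simp only [toReal, Pi.add_apply, Pi.neg_apply, Pi.smul_apply, smul_eq_mul]
    push_cast
    field_simp
    linarith
  · have := hb i y hy
    have e1 : toReal (-b i) = -toReal (b i) := by funext k; simp [toReal]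
    rw [e1, neg_dotProduct, dotProduct_sub]
    linarith

theorem exists_corners {P : Set (Fin d → ℝ)} (hP : IsLatticePolytope P) (hD : IsDelzant P) :
    ∃ (σ : Type) (_ : Fintype σ) (c : σ → Corner P),
      ∀ a : Fin d → ℝ, ∃ s, ∀ y ∈ P, a ⬝ᵥ toReal (c s).v ≤ a ⬝ᵥ y := by
  classical
  obtain ⟨⟨V, rfl⟩, hs⟩ := hP
  have hVne : V.Nonempty := by
    obtain ⟨x, hx⟩ := nonempty_of_span hs
    obtain ⟨_, v, hv, -⟩ := convexHull_nonempty_iff.1 ⟨x, hx⟩
    exact ⟨v, hv⟩
  let σ := {v // v ∈ V.filter fun v =>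
    ∃ c : Corner (convexHull ℝ (toReal '' (V : Set (Fin d → ℤ)))), c.v = v}
  have h : ∀ s : σ, ∃ c : Corner (convexHull ℝ (toReal '' (V : Set (Fin d → ℤ)))), c.v = s.1 :=
    fun s => (Finset.mem_filter.mp s.2).2
  choose c hc using h
  refine ⟨σ, inferInstance, c, fun a => ?_⟩
  obtain ⟨v, hv, hmin, l, hl⟩ := exists_strict V hVne a
  refine ⟨⟨v, Finset.mem_filter.mpr ⟨hv, exists_corner hD hv hl⟩⟩, fun y hy => ?_⟩
  rw [hc]
  have := le_of_vertices (a := -a) (r := -(a ⬝ᵥ toReal v))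
    (fun w hw => by rw [neg_dotProduct]; linarith [hmin w hw]) y hy
  rw [neg_dotProduct] at this
  linarith

end Pool.Agent.MP_8c130c_co
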