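import Pool.Agent.MP_8c130c_co.Defs

namespace Pool.Agent.MP_8c130c_co

variable {d : ℕ}

/-- `r ≤ u ⬝ x` is a facet inequality of `P` with primitive integral inner normal `u`: it holds on
`P`, and the points of `P` where it is tight affinely span the hyperplane `u ⬝ x = r`. The lattice
distance of a point `x` of `P` from this facet is `u ⬝ x - r`. -/
def IsFacetIneq (P : Set (Fin d → ℝ)) (u : Fin d → ℤ) (r : ℝ) : Prop :=
  (∃ e : Fin d → ℤ, u ⬝ᵥ e = 1) ∧ (∀ x ∈ P, r ≤ toReal u ⬝ᵥ x) ∧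
    (affineSpan ℝ {x ∈ P | toReal u ⬝ᵥ x = r} : Set (Fin d → ℝ)) = {x | toReal u ⬝ᵥ x = r}

end Pool.Agent.MP_8c130c_co
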