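import Pool.Agent.MP_8c130c_co.Shift
import Pool.Agent.MP_8c130c_co.DeepDefs

/-!
A flatness theorem with a crude constant: a symmetric convex neighbourhood of the origin that is
wide in every lattice direction meets every translate of the lattice.
-/

namespace Pool.Agent.MP_8c130c_co.Flat

open Matrix MeasureTheory

variable {n : ℕ}

/-- Minkowski's theorem on linear forms. -/
lemma linear_forms (A : Matrix (Fin n) (Fin n) ℝ) (hA : A.det ≠ 0) {r : ℝ} (hr : 0 < r)
    (h : |A.det| < r ^ n) : ∃ v : Fin n → ℤ, v ≠ 0 ∧ ∀ i, |(A *ᵥ toReal v) i| < r := by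
  let b := Pi.basisFun ℝ (Fin n)
  let s : Set (Fin n → ℝ) := Matrix.toLin' A ⁻¹' Set.pi Set.univ fun _ => Set.Ioo (-r) r
  have hmem : ∀ x, x ∈ s ↔ ∀ i, |(A *ᵥ x) i| < r := by
    intro x
    simp [s, abs_lt]
  have hvol : volume s = ENNReal.ofReal (|A.det|⁻¹ * (2 * r) ^ n) := by
    rw [Measure.addHaar_preimage_linearMap _ (by rwa [LinearMap.det_toLin']),
      LinearMap.det_toLin', Real.volume_pi_Ioo, Finset.prod_const, Finset.card_univ,
      Fintype.card_fin, abs_inv, ENNReal.ofReal_mul (by positivity),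
      ENNReal.ofReal_pow (by positivity)]
    congr 3
    ring
  have hF : volume (ZSpan.fundamentalDomain b) = 1 := by
    rw [ZSpan.volume_fundamentalDomain]
    have : Matrix.of b = 1 := by
      ext i j
      simp [b, Matrix.one_apply, Pi.single_apply, eq_comm]
    rw [this]
    simp
  have hc : Countable (Submodule.span ℤ (Set.range b)).toAddSubgroup :=
    inferInstanceAs (Countable (Submodule.span ℤ (Set.range b)))
  obtain ⟨x, hx0, hx⟩ := exists_ne_zero_mem_lattice_of_measure_mul_two_pow_lt_measure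
    (ZSpan.isAddFundamentalDomain' b volume) (s := s)
    (fun x hx => by
      rw [hmem] at hx ⊢
      intro i
      rw [mulVec_neg, Pi.neg_apply, abs_neg]
      exact hx i)
    ((convex_pi fun _ _ => convex_Ioo _ _).linear_preimage _) (by
      rw [hF, hvol, one_mul, Module.finrank_fin_fun]
      have h2 : (2 : ENNReal) ^ n = ENNReal.ofReal (2 ^ n) := by
        rw [ENNReal.ofReal_pow (by norm_num)]; simp
      have hd : 0 < |A.det| := abs_pos.mpr hA
      rw [h2, ENNReal.ofReal_lt_ofReal_iff (by positivity), mul_pow, inv_mul_eq_div,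
        lt_div_iff₀ hd]
      exact mul_lt_mul_of_pos_left h (by positivity))
  have hint : ∀ i, ∃ z : ℤ, (z : ℝ) = x.1 i := fun i => by
    obtain ⟨z, hz⟩ := (b.mem_span_iff_repr_mem ℤ x.1).mp x.2 i
    exact ⟨z, by simpa [b] using hz⟩
  choose v hv using hint
  have hxv : toReal v = x.1 := funext hv
  refine ⟨v, fun h0 => hx0 (Subtype.ext ?_), fun i => ?_⟩
  · rw [← hxv, h0]
    funext k
    simp [toReal]
  · rw [hxv]
    exact (hmem _).mp hx i

lemma smul_mem {S : Set (Fin n → ℝ)} (hc : Convex ℝ S) (hs : ∀ x ∈ S, -x ∈ S) {a : ℝ}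
    (ha : |a| ≤ 1) {x : Fin n → ℝ} (hx : x ∈ S) : a • x ∈ S := by
  obtain ⟨h1, h2⟩ := abs_le.mp ha
  have := hc hx (hs x hx) (a := (1 + a) / 2) (b := (1 - a) / 2) (by linarith) (by linarith)
    (by ring)
  convert this using 1
  module

/-- A symmetric convex neighbourhood of the origin without nonzero lattice points is thin in some
lattice direction. -/
lemma mahler {S : Set (Fin (n + 1) → ℝ)} (hc : Convex ℝ S) (hs : ∀ x ∈ S, -x ∈ S)
    (ha : ∀ x, ∃ ε : ℝ, 0 < ε ∧ ε • x ∈ S) (hno : ∀ v : Fin (n + 1) → ℤ, v ≠ 0 → toReal v ∉ S) :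
    ∃ u : Fin (n + 1) → ℤ, u ≠ 0 ∧ ∀ y ∈ S, toReal u ⬝ᵥ y ≤ 2 * (n + 1) * (n + 2) := by
  have hn : (0 : ℝ) < n + 1 := by positivity
  have hrow : ∀ (X : Matrix (Fin (n + 1)) (Fin (n + 1)) ℝ), X.det ≠ 0 → ∀ y,
      y = ∑ k, ((Xᵀ)⁻¹ *ᵥ y) k • X k := by
    intro X hX y
    have h1 : Xᵀ *ᵥ ((Xᵀ)⁻¹ *ᵥ y) = y := by
      rw [mulVec_mulVec, mul_nonsing_inv _ (by rwa [det_transpose, isUnit_iff_ne_zero]), one_mulVec]
    funext j
    conv_lhs => rw [← h1]
    simp [mulVec, dotProduct, Finset.sum_apply, mul_comm]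
  have hA : ∀ X : Matrix (Fin (n + 1)) (Fin (n + 1)) ℝ, (∀ i, X i ∈ S) →
      |X.det| ≤ (n + 1) ^ (n + 1) := by
    intro X hX
    by_contra hlt
    have hlt := not_le.mp hlt
    have hd : 0 < |X.det| := lt_trans (by positivity) hlt
    have hd' : X.det ≠ 0 := abs_pos.mp hd
    obtain ⟨v, hv0, hv⟩ := linear_forms (Xᵀ)⁻¹ (by
      rw [det_nonsing_inv, det_transpose, Ring.inverse_eq_inv']; exact inv_ne_zero hd')
      (r := (n + 1 : ℝ)⁻¹) (by positivity) (by
        rw [det_nonsing_inv, det_transpose, Ring.inverse_eq_inv', abs_inv, inv_pow]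
        exact (inv_lt_inv₀ hd (by positivity)).mpr hlt)
    refine hno v hv0 ?_
    rw [hrow X hd' (toReal v)]
    have := hc.sum_mem (t := Finset.univ) (w := fun _ : Fin (n + 1) => (n + 1 : ℝ)⁻¹)
      (z := fun k => ((n + 1 : ℝ) * ((Xᵀ)⁻¹ *ᵥ toReal v) k) • X k) (fun _ _ => by positivity)
      (by simp; field_simp) (fun k _ => smul_mem hc hs (by
        rw [abs_mul, abs_of_pos hn]
        have := mul_lt_mul_of_pos_left (hv k) hn
        rw [mul_inv_cancel₀ hn.ne'] at this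
        exact this.le) (hX k))
    convert this using 2 with k
    rw [smul_smul, inv_mul_cancel_left₀ hn.ne']
  let T : Set ℝ := {r | ∃ X : Matrix (Fin (n + 1)) (Fin (n + 1)) ℝ, (∀ i, X i ∈ S) ∧ r = |X.det|}
  have hT : BddAbove T := ⟨_, by rintro _ ⟨X, hX, rfl⟩; exact hA X hX⟩
  choose ε hε hεS using fun i : Fin (n + 1) => ha (Pi.single i 1)
  have hT0 : |(diagonal ε).det| ∈ T := ⟨diagonal ε, fun i => by
    convert hεS i using 1
    funext j
    simp [diagonal_apply, Pi.single_apply, eq_comm], rfl⟩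
  have hpos : 0 < sSup T := by
    refine lt_of_lt_of_le ?_ (le_csSup hT hT0)
    rw [det_diagonal]
    exact abs_pos.mpr (Finset.prod_pos fun i _ => hε i).ne'
  obtain ⟨_, ⟨X, hX, rfl⟩, hlt⟩ := exists_lt_of_lt_csSup ⟨_, hT0⟩ (half_lt_self hpos)
  have hd : 0 < |X.det| := by linarith
  have hd' : X.det ≠ 0 := abs_pos.mp hd
  obtain ⟨u, hu0, hu⟩ := linear_forms X hd' (r := n + 2) (by positivity)
    (lt_of_le_of_lt (hA X hX) (pow_lt_pow_left₀ (by linarith) hn.le (by omega)))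
  refine ⟨u, hu0, fun y hy => ?_⟩
  have ht : ∀ k, |((Xᵀ)⁻¹ *ᵥ y) k| ≤ 2 := by
    intro k
    have h1 : |(X.updateRow k y).det| ≤ sSup T := le_csSup hT ⟨_, fun i => by
      by_cases hi : i = k
      · subst hi; simpa using hy
      · simpa [updateRow_ne hi] using hX i, rfl⟩
    have h2 := det_updateRow_sum X k ((Xᵀ)⁻¹ *ᵥ y)
    rw [← hrow X hd' y] at h2
    rw [h2, smul_eq_mul, abs_mul] at h1
    nlinarith [abs_nonneg (((Xᵀ)⁻¹ *ᵥ y) k)]
  rw [hrow X hd' y, dotProduct_sum]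
  calc ∑ k, toReal u ⬝ᵥ ((Xᵀ)⁻¹ *ᵥ y) k • X k ≤ ∑ _k : Fin (n + 1), 2 * (n + 2 : ℝ) := by
        refine Finset.sum_le_sum fun k _ => ?_
        rw [dotProduct_smul, smul_eq_mul, dotProduct_comm]
        refine (le_abs_self _).trans ?_
        rw [abs_mul]
        exact mul_le_mul (ht k) (hu k).le (abs_nonneg _) (by norm_num)
    _ = 2 * (n + 1) * (n + 2) := by simp; ring

/-- Every nonzero lattice vector is a multiple of a member of a lattice basis. -/
lemma exists_pair (v : Fin n → ℤ) (hv : v ≠ 0) :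
    ∃ (e u : Fin n → Fin n → ℤ) (i : Fin n) (k : ℤ),
      (∀ a b, u a ⬝ᵥ e b = if a = b then 1 else 0) ∧ k ≠ 0 ∧ v = k • e i := by
  obtain ⟨m, bM, bN, f, a, snf⟩ := (Submodule.span ℤ {v}).smithNormalForm (Pi.basisFun ℤ (Fin n))
  have hrepr : ∀ (l : Fin n) (x : Fin n → ℤ),
      (fun k => bM.repr (Pi.single k 1) l) ⬝ᵥ x = bM.repr x l := by
    intro l x
    conv_rhs => rw [pi_eq_sum_univ' x]
    simp only [map_sum, map_smul, Finsupp.coe_finsetSum, Finset.sum_apply, Finsupp.smul_apply,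
      smul_eq_mul, dotProduct, mul_comm]
  obtain ⟨j⟩ : Nonempty (Fin m) := by
    by_contra hm
    rw [not_nonempty_iff] at hm
    have := bN.sum_repr ⟨v, Submodule.mem_span_singleton_self v⟩
    rw [Finset.univ_eq_empty, Finset.sum_empty] at this
    exact hv (congrArg Subtype.val this).symm
  obtain ⟨s, hs⟩ := Submodule.mem_span_singleton.mp (bN j).2
  have hs0 : s ≠ 0 := by
    rintro rfl
    exact bN.ne_zero j (Subtype.ext (by simpa using hs.symm))
  have hvk : v = bM.repr v (f j) • bM (f j) := by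
    refine bM.ext_elem fun l => ?_
    by_cases hl : l = f j
    · subst hl
      rw [map_smul, Finsupp.smul_apply, Module.Basis.repr_self, Finsupp.single_eq_same,
        smul_eq_mul, mul_one]
    · have h1 := congrArg (fun x => bM.repr x l) (hs.trans (snf j))
      simp only [map_smul, Finsupp.smul_apply, smul_eq_mul, Module.Basis.repr_self,
        Finsupp.single_apply, if_neg (Ne.symm hl), mul_zero, mul_eq_zero, hs0, false_or] at h1
      rw [h1, map_smul, Finsupp.smul_apply, Module.Basis.repr_self, Finsupp.single_apply,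
        if_neg (Ne.symm hl), smul_zero]
  refine ⟨bM, fun l k => bM.repr (Pi.single k 1) l, f j, bM.repr v (f j), fun a b => ?_,
    fun h0 => hv (by rw [hvk, h0, zero_smul]), hvk⟩
  rw [hrepr, Module.Basis.repr_self, Finsupp.single_apply]
  simp [eq_comm]

lemma ext_pair {e u : Fin n → Fin n → ℤ} (h : ∀ a b, u a ⬝ᵥ e b = if a = b then 1 else 0)
    {x y : Fin n → ℝ} (hxy : ∀ a, toReal (u a) ⬝ᵥ x = toReal (u a) ⬝ᵥ y) : x = y := by
  have h1 : (Matrix.of fun a => toReal (u a)) * (Matrix.of fun b => toReal (e b))ᵀ = 1 := by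
    ext a b
    have := toReal_dot (u a) (e b)
    rw [h] at this
    simpa [Matrix.mul_apply, Matrix.one_apply, dotProduct] using this
  have h2 := mul_eq_one_comm.mp h1
  have h3 : (Matrix.of fun a => toReal (u a)) *ᵥ x = (Matrix.of fun a => toReal (u a)) *ᵥ y :=
    funext hxy
  have h4 := congrArg ((Matrix.of fun b => toReal (e b))ᵀ *ᵥ ·) h3
  simpa only [mulVec_mulVec, h2, one_mulVec] using h4

lemma toReal_smul (k : ℤ) (v : Fin n → ℤ) : toReal (k • v) = (k : ℝ) • toReal v := by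
  funext i; simp [toReal]

lemma toReal_sum {ι : Type} (s : Finset ι) (v : ι → Fin n → ℤ) :
    toReal (∑ i ∈ s, v i) = ∑ i ∈ s, toReal (v i) := by
  funext k; simp [toReal]

/-- The flatness theorem for symmetric convex neighbourhoods of the origin. -/
theorem flat (n : ℕ) : ∃ C : ℝ, ∀ S : Set (Fin n → ℝ), Convex ℝ S → (∀ x ∈ S, -x ∈ S) →
    (∀ x, ∃ ε : ℝ, 0 < ε ∧ ε • x ∈ S) →
    (∀ u : Fin n → ℤ, u ≠ 0 → ∃ y ∈ S, C ≤ toReal u ⬝ᵥ y) →
    ∀ x, ∃ p : Fin n → ℤ, x - toReal p ∈ S := by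
  induction n with
  | zero =>
    refine ⟨0, fun S _ _ ha _ x => ⟨0, ?_⟩⟩
    obtain ⟨ε, -, h⟩ := ha 0
    rwa [Subsingleton.elim (x - toReal 0) (ε • 0)]
  | succ n ih =>
    obtain ⟨C, hC⟩ := ih
    refine ⟨max (2 * C) (2 * (n + 1) * (n + 2) + 1), fun S hc hs ha hw x => ?_⟩
    obtain ⟨v, hv0, hv⟩ : ∃ v : Fin (n + 1) → ℤ, v ≠ 0 ∧ toReal v ∈ S := by
      by_contra hno
      push Not at hno
      obtain ⟨u, hu0, hu⟩ := mahler hc hs ha hno
      obtain ⟨y, hy, h⟩ := hw u hu0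
      linarith [hu y hy, le_max_right (2 * C) (2 * (n + 1 : ℝ) * (n + 2) + 1)]
    obtain ⟨e, u, i, k, hd, hk, hvk⟩ := exists_pair v hv0
    have hdR : ∀ a b, toReal (u a) ⬝ᵥ toReal (e b) = if a = b then 1 else 0 := by
      intro a b
      rw [toReal_dot, hd]
      split_ifs <;> simp
    have hei : toReal (e i) ∈ S := by
      have hk' : (k : ℝ) ≠ 0 := by exact_mod_cast hk
      have h1 : (1 : ℝ) ≤ |(k : ℝ)| := by exact_mod_cast Int.one_le_abs hk
      have := smul_mem hc hs (a := (k : ℝ)⁻¹) (by rw [abs_inv]; exact inv_le_one_of_one_le₀ h1) hv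
      rwa [hvk, toReal_smul, inv_smul_smul₀ hk'] at this
    let φ : (Fin (n + 1) → ℝ) → Fin n → ℝ := fun y l => 2⁻¹ * (toReal (u (i.succAbove l)) ⬝ᵥ y)
    obtain ⟨p, y, hy, hp⟩ := hC (φ '' S)
      (by
        rintro _ ⟨y, hy, rfl⟩ _ ⟨y', hy', rfl⟩ a b ha hb hab
        refine ⟨_, hc hy hy' ha hb hab, funext fun l => ?_⟩
        simp only [φ, dotProduct_add, dotProduct_smul, smul_eq_mul, Pi.add_apply, Pi.smul_apply]
        ring)
      (by
        rintro _ ⟨y, hy, rfl⟩
        exact ⟨_, hs y hy, funext fun l => by simp [φ]⟩)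
      (fun x' => by
        obtain ⟨ε, hε, h⟩ := ha (∑ l, (2 * x' l) • toReal (e (i.succAbove l)))
        refine ⟨ε, hε, _, h, funext fun l => ?_⟩
        simp only [φ, dotProduct_smul, dotProduct_sum, hdR, smul_eq_mul, Pi.smul_apply,
          Fin.succAbove_right_inj]
        simp
        ring)
      (fun u' hu' => by
        obtain ⟨y, hy, h⟩ := hw (∑ l, u' l • u (i.succAbove l)) (fun h0 => hu' (funext fun l => by
          have := congrArg (· ⬝ᵥ e (i.succAbove l)) h0
          simp only [sum_dotProduct, smul_dotProduct, hd, Fin.succAbove_right_inj] at this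
          simpa using this))
        refine ⟨_, ⟨y, hy, rfl⟩, ?_⟩
        have h2 : toReal (∑ l, u' l • u (i.succAbove l)) ⬝ᵥ y = 2 * (toReal u' ⬝ᵥ φ y) := by
          rw [toReal_sum, sum_dotProduct, dotProduct, Finset.mul_sum]
          refine Finset.sum_congr rfl fun l _ => ?_
          rw [toReal_smul, smul_dotProduct, smul_eq_mul]
          simp only [φ, toReal]
          ring
        linarith [le_max_left (2 * C) (2 * (n + 1 : ℝ) * (n + 2) + 1)])
      (fun l => toReal (u (i.succAbove l)) ⬝ᵥ x)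
    let s : ℝ := toReal (u i) ⬝ᵥ x - 2⁻¹ * (toReal (u i) ⬝ᵥ y)
    refine ⟨round s • e i + ∑ l, p l • e (i.succAbove l), ?_⟩
    have h1 := hc hy (smul_mem hc hs (a := 2 * (s - round s)) (by
      rw [abs_mul, abs_two]; linarith [abs_sub_round s]) hei) (a := 2⁻¹) (b := 2⁻¹)
      (by norm_num) (by norm_num) (by norm_num)
    convert h1 using 1
    refine ext_pair hd fun a => ?_
    rw [Shift.toReal_add, toReal_sum]
    simp only [toReal_smul, dotProduct_sub, dotProduct_add, dotProduct_smul, dotProduct_sum, hdR,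
      smul_eq_mul]
    rcases Fin.eq_self_or_eq_succAbove i a with rfl | ⟨l, rfl⟩
    · simp [s, Fin.ne_succAbove]
      ring
    · have h2 := congrFun hp l
      have h3 : toReal p l = p l := rfl
      simp only [φ, Pi.sub_apply, h3] at h2
      simp [Fin.succAbove_ne]
      linarith

end Pool.Agent.MP_8c130c_co.Flat

/-!
Lattice points of `t P` that are far from the facets of a Delzant polytope `P` decompose.
-/

namespace Pool.Agent.MP_8c130c_co.Deep

open Shift Pointwise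

variable {d : ℕ} {P : Set (Fin d → ℝ)} {σ : Type} {c : σ → Corner P}

lemma corner_facet (c0 : Corner P) (i : Fin d) :
    IsFacetIneq P (c0.u i) (toReal (c0.u i) ⬝ᵥ toReal c0.v) := by
  refine ⟨⟨c0.e i, by simp [c0.dual]⟩, fun x hx => ?_, Set.Subset.antisymm (fun x hx => ?_)
    fun x hx => ?_⟩
  · have := c0.ineq i x hx
    rw [dotProduct_sub] at this
    linarith
  · refine affineSpan_induction (p := fun x => toReal (c0.u i) ⬝ᵥ x = toReal (c0.u i) ⬝ᵥ toReal c0.v)
      hx (fun x hx => hx.2) fun a x y z h1 h2 h3 => ?_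
    simp only [vsub_eq_sub, vadd_eq_add, dotProduct_add, dotProduct_smul, dotProduct_sub, h1, h2,
      h3, sub_self, smul_zero, zero_add]
  · set A := affineSpan ℝ {x ∈ P | toReal (c0.u i) ⬝ᵥ x = toReal (c0.u i) ⬝ᵥ toReal c0.v}
    have hv : toReal c0.v ∈ A := subset_affineSpan ℝ _ ⟨c0.mem, rfl⟩
    have h1 : x - toReal c0.v ∈ A.direction := by
      rw [c0.expandV (x - toReal c0.v)]
      refine Submodule.sum_mem _ fun j _ => ?_
      by_cases hj : j = i
      · subst hj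
        have : toReal (c0.u j) ⬝ᵥ (x - toReal c0.v) = 0 := by
          rw [dotProduct_sub, sub_eq_zero]; exact hx
        rw [this, zero_smul]
        exact Submodule.zero_mem _
      · refine Submodule.smul_mem _ _ ?_
        have h2 : toReal (c0.v + c0.e j) ∈ A := subset_affineSpan ℝ _ ⟨c0.edge j, by
          rw [toReal_add, dotProduct_add, toReal_dot (c0.u i) (c0.e j), c0.dual,
            if_neg (Ne.symm hj)]
          simp⟩
        have h3 := AffineSubspace.vsub_mem_direction h2 hv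
        rwa [toReal_add, vsub_eq_sub, add_sub_cancel_left] at h3
    have := AffineSubspace.vadd_mem_of_mem_direction h1 hv
    rwa [vadd_eq_add, sub_add_cancel] at this

/-- The lattice distance of `q` from the `j`-th facet at the corner `s`. -/
def sl (c : σ → Corner P) (q : Fin d → ℝ) (s : σ) (j : Fin d) : ℝ :=
  toReal ((c s).u j) ⬝ᵥ (q - toReal (c s).v)

lemma piece {q : Fin d → ℝ} (hq : q ∈ P) {D : ℝ} (t : σ)
    (hD : ∀ j, sl c q t j = 0 ∨ D ≤ sl c q t j) {a : Fin d → ℝ}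
    (ha : ∀ y ∈ P, a ⬝ᵥ toReal (c t).v ≤ a ⬝ᵥ y) {k : Fin d} (hk : sl c q t k ≠ 0) :
    D * (a ⬝ᵥ toReal ((c t).e k)) ≤ a ⬝ᵥ (q - toReal (c t).v) := by
  rw [(c t).expand a (q - _)]
  refine le_trans ?_ (Finset.single_le_sum (f := fun j =>
    (a ⬝ᵥ toReal ((c t).e j)) * (toReal ((c t).u j) ⬝ᵥ (q - toReal (c t).v)))
    (fun j _ => mul_nonneg ((c t).edge_nonneg ha j) ((c t).ineq j q hq)) (Finset.mem_univ k))
  rw [mul_comm]
  exact mul_le_mul_of_nonneg_left ((hD k).resolve_left hk) ((c t).edge_nonneg ha k)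

lemma support (hmin : ∀ a : Fin d → ℝ, ∃ s, ∀ y ∈ P, a ⬝ᵥ toReal (c s).v ≤ a ⬝ᵥ y)
    {q : Fin d → ℝ} (hq : q ∈ P) {W : ℕ} {D : ℝ} (hW : 2 * (8 * W + 1) * W ≤ D)
    (hD : ∀ s j, sl c q s j = 0 ∨ D ≤ sl c q s j) {u : Fin d → ℤ}
    (hu : ∀ t, ∃ k, sl c q t k ≠ 0 ∧ u ⬝ᵥ (c t).e k ≠ 0) (a : Fin d → ℝ) :
    ∃ s t, (W : ℝ) ≤ a ⬝ᵥ (q - toReal (c s).v) + (a + toReal u) ⬝ᵥ (q - toReal (c t).v) := by
  by_contra hno
  push Not at hno
  have hW0 : (0 : ℝ) ≤ W := Nat.cast_nonneg W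
  have hD0 : 0 ≤ D := le_trans (by positivity) hW
  choose act hact using fun s : ℝ => hmin (a + s • toReal u)
  let L : σ → ℝ → ℝ := fun t s => (a + s • toReal u) ⬝ᵥ (q - toReal (c t).v)
  let κ : σ → ℝ := fun t => toReal u ⬝ᵥ q - (u ⬝ᵥ (c t).v : ℤ)
  have hL : ∀ t s s', L t s' = L t s + (s' - s) * κ t := by
    intro t s s'
    simp only [L, κ, add_dotProduct, smul_dotProduct, dotProduct_sub, toReal_dot, smul_eq_mul]
    ring
  have hle : ∀ t s, L t s ≤ L (act s) s := by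
    intro t s
    have := hact s _ (c t).mem
    simp only [L, dotProduct_sub]
    linarith
  have h0 : ∀ s, 0 ≤ L (act s) s := by
    intro s
    have := hact s _ hq
    simp only [L, dotProduct_sub]
    linarith
  have h01 : L (act 0) 0 + L (act 1) 1 < W := by simpa [L] using hno (act 0) (act 1)
  have hG : ∀ s, 0 ≤ s → s ≤ 1 → L (act s) s < W := by
    intro s h1 h2
    have e1 := hL (act s) s 0
    have e2 := hL (act s) s 1
    have e3 := mul_le_mul_of_nonneg_left (hle (act s) 0) (sub_nonneg.mpr h2)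
    have e4 := mul_le_mul_of_nonneg_left (hle (act s) 1) h1
    have e5 := mul_nonneg h1 (h0 0)
    have e6 := mul_nonneg (sub_nonneg.mpr h2) (h0 1)
    rw [e1] at e3
    rw [e2] at e4
    nlinarith
  have hstep : ∀ s s', 0 ≤ s → s < s' → s' ≤ 1 → W ≤ D * (s' - s) →
      u ⬝ᵥ (c (act s')).v + 1 ≤ u ⬝ᵥ (c (act s)).v := by
    intro s s' h1 h2 h3 h4
    by_contra hc
    have h5 : ((u ⬝ᵥ (c (act s)).v : ℤ) : ℝ) ≤ (u ⬝ᵥ (c (act s')).v : ℤ) := by
      exact_mod_cast (by omega : u ⬝ᵥ (c (act s)).v ≤ u ⬝ᵥ (c (act s')).v)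
    have h6 : κ (act s') ≤ κ (act s) := by simp only [κ]; linarith
    have h7 : L (act s') s' ≤ L (act s) s' := by
      rw [hL (act s') s s', hL (act s) s s']
      linarith [hle (act s') s, mul_le_mul_of_nonneg_left h6 (sub_pos.mpr h2).le]
    have h8 : ∀ y ∈ P, (a + s' • toReal u) ⬝ᵥ toReal (c (act s)).v ≤ (a + s' • toReal u) ⬝ᵥ y := by
      intro y hy
      have := hact s' y hy
      simp only [L, dotProduct_sub] at h7
      linarith
    obtain ⟨k, hk, hk'⟩ := hu (act s)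
    have p1 := piece hq (act s) (hD _) (hact s) hk
    have p2 := piece hq (act s) (hD _) h8 hk
    have n1 := (c (act s)).edge_nonneg (hact s) k
    have n2 := (c (act s)).edge_nonneg h8 k
    have g1 := hG s h1 (h2.le.trans h3)
    have g2 := (hle (act s) s').trans_lt (hG s' (h1.trans h2.le) h3)
    change _ ≤ L (act s) s at p1
    change _ ≤ L (act s) s' at p2
    simp only [add_dotProduct, smul_dotProduct, toReal_dot, smul_eq_mul] at p1 p2 n1 n2
    rcases lt_or_gt_of_ne hk' with h | h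
    · have h9 : ((u ⬝ᵥ (c (act s)).e k : ℤ) : ℝ) ≤ -1 := by
        exact_mod_cast (by omega : u ⬝ᵥ (c (act s)).e k ≤ -1)
      have h10 := mul_le_mul_of_nonneg_left h9 (sub_pos.mpr h2).le
      have h11 : s' - s ≤ a ⬝ᵥ toReal ((c (act s)).e k) + s * (u ⬝ᵥ (c (act s)).e k : ℤ) := by
        nlinarith
      linarith [mul_le_mul_of_nonneg_left h11 hD0]
    · have h9 : (1 : ℝ) ≤ ((u ⬝ᵥ (c (act s)).e k : ℤ) : ℝ) := by
        exact_mod_cast (by omega : 1 ≤ u ⬝ᵥ (c (act s)).e k)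
      have h10 := mul_le_mul_of_nonneg_left h9 (sub_pos.mpr h2).le
      have h11 : s' - s ≤ a ⬝ᵥ toReal ((c (act s)).e k) + s' * (u ⬝ᵥ (c (act s)).e k : ℤ) := by
        nlinarith
      linarith [mul_le_mul_of_nonneg_left h11 hD0]
  have hm : (0 : ℝ) < 2 * (8 * W + 1) := by positivity
  let δ : ℝ := (2 * (8 * W + 1))⁻¹
  have hδ : 0 < δ := inv_pos.mpr hm
  have hδ1 : 2 * (8 * W + 1) * δ = 1 := mul_inv_cancel₀ hm.ne'
  have hind : ∀ i : ℕ, i ≤ 8 * W + 1 →
      u ⬝ᵥ (c (act (4⁻¹ + i * δ))).v + i ≤ u ⬝ᵥ (c (act 4⁻¹)).v := by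
    intro i
    induction i with
    | zero => simp
    | succ i ih =>
      intro hi
      have hi' : (i : ℝ) + 1 ≤ 8 * W + 1 := by exact_mod_cast hi
      have := hstep (4⁻¹ + i * δ) (4⁻¹ + (i + 1 : ℕ) * δ) (by positivity) (by push_cast; linarith)
        (by push_cast; nlinarith) (by
          push_cast
          have := mul_le_mul_of_nonneg_right hW hδ.le
          nlinarith)
      have := ih (by omega)
      push_cast at *
      omega
  have h1 := hind _ le_rfl
  have e : (4⁻¹ : ℝ) + (8 * W + 1 : ℕ) * δ = 3 / 4 := by push_cast; linarith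
  rw [e] at h1
  have h2 : ((u ⬝ᵥ (c (act (3 / 4))).v : ℤ) : ℝ) + (8 * W + 1) ≤ (u ⬝ᵥ (c (act 4⁻¹)).v : ℤ) := by
    exact_mod_cast h1
  have h3 := hle (act (3 / 4)) 1
  have h4 := hle (act 4⁻¹) 0
  rw [hL _ (3 / 4) 1] at h3
  rw [hL _ 4⁻¹ 0] at h4
  simp only [κ] at h3 h4
  linarith [h0 (3 / 4), h0 4⁻¹, h0 0, h0 1]

lemma wide (hP : Convex ℝ P) (hc : IsCompact P)
    (hmin : ∀ a : Fin d → ℝ, ∃ s, ∀ y ∈ P, a ⬝ᵥ toReal (c s).v ≤ a ⬝ᵥ y)
    {q : Fin d → ℝ} (hq : q ∈ P) {W : ℕ} (hW0 : 0 < W) {D : ℝ} (hW : 2 * (8 * W + 1) * W ≤ D)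
    (hD : ∀ s j, sl c q s j = 0 ∨ D ≤ sl c q s j) {u : Fin d → ℤ}
    (hu : ∀ t, ∃ k, sl c q t k ≠ 0 ∧ u ⬝ᵥ (c t).e k ≠ 0) :
    ∃ x, q + x ∈ P ∧ q - x ∈ P ∧ (W : ℝ) ≤ toReal u ⬝ᵥ x := by
  by_contra hno
  let F : (Fin d → ℝ) × (Fin d → ℝ) → (Fin d → ℝ) × ℝ := fun pq =>
    ((pq.1 - q) + (pq.2 - q), toReal u ⬝ᵥ (q - pq.2))
  have hFc : Continuous F := by fun_prop
  have hconv : Convex ℝ (F '' (P ×ˢ P)) := by
    rintro _ ⟨⟨p, r⟩, ⟨hp, hr⟩, rfl⟩ _ ⟨⟨p', r'⟩, ⟨hp', hr'⟩, rfl⟩ s t hs ht hst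
    refine ⟨(s • p + t • p', s • r + t • r'), ⟨hP hp hp' hs ht hst, hP hr hr' hs ht hst⟩, ?_⟩
    obtain rfl : t = 1 - s := by linarith
    simp only [F, Prod.smul_mk, Prod.mk_add_mk, Prod.mk.injEq]
    constructor
    · module
    · simp only [dotProduct_sub, dotProduct_smul, dotProduct_add, smul_eq_mul]; ring
  have hR : Convex ℝ (({0} : Set (Fin d → ℝ)) ×ˢ Set.Ici (W : ℝ)) :=
    (convex_singleton _).prod (convex_Ici _)
  obtain ⟨f, r, r', h1, h2, h3⟩ := geometric_hahn_banach_compact_closed hconv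
    ((hc.prod hc).image hFc) hR (isClosed_singleton.prod isClosed_Ici) (by
      rw [Set.disjoint_left]
      rintro _ ⟨⟨p, r⟩, ⟨hp, hr⟩, rfl⟩ ⟨h1, h2⟩
      refine hno ⟨q - r, ?_, by simpa using hr, h2⟩
      have h3 : (p - q) + (r - q) = 0 := h1
      convert hp using 1
      rw [← add_zero (q + (q - r)), ← h3]
      abel)
  obtain ⟨a, ha⟩ := exists_dot (f.comp (ContinuousLinearMap.inl ℝ (Fin d → ℝ) ℝ))
  have hf : ∀ z t, f (z, t) = a ⬝ᵥ z + t * f (0, 1) := by
    intro z t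
    rw [← ha, ← smul_eq_mul, ← map_smul]
    simp only [ContinuousLinearMap.comp_apply, ContinuousLinearMap.inl_apply, ← map_add]
    simp
  set μ := f (0, 1)
  have h4 := h3 (0, W) ⟨rfl, le_refl (W : ℝ)⟩
  rw [hf, dotProduct_zero, zero_add] at h4
  have h5 := h1 _ ⟨(q, q), ⟨hq, hq⟩, rfl⟩
  simp only [F, hf, sub_self, dotProduct_zero, zero_mul, add_zero] at h5
  have hW1 : (0 : ℝ) < W := by exact_mod_cast hW0
  have hμ : 0 < μ := (mul_pos_iff_of_pos_left hW1).mp (by linarith)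
  obtain ⟨s, t, hst⟩ := support hmin hq hW hD hu (-μ⁻¹ • a)
  have h6 := h1 _ ⟨(toReal (c s).v, toReal (c t).v), ⟨(c s).mem, (c t).mem⟩, rfl⟩
  simp only [F, hf] at h6
  simp only [add_dotProduct, smul_dotProduct, dotProduct_sub, dotProduct_add, smul_eq_mul]
    at hst h6
  have h7 := mul_le_mul_of_nonneg_left hst hμ.le
  have e4 : ∀ z : ℝ, μ * (-μ⁻¹ * z) = -z := by
    intro z; field_simp
  simp only [mul_add, mul_sub, e4] at h7
  linarith

lemma par {q : Fin d → ℝ} (hq : q ∈ P) {t : σ}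
    (ht : ∀ s j, sl c q s j = 0 → (c s).u j ⬝ᵥ ((c t).v - (c s).v) = 0) {k : Fin d}
    (hk : sl c q t k ≠ 0) {s : σ} {j : Fin d} (h : sl c q s j = 0) :
    toReal ((c s).u j) ⬝ᵥ toReal ((c t).e k) = 0 := by
  have h1 : toReal ((c s).u j) ⬝ᵥ toReal (c t).v = toReal ((c s).u j) ⬝ᵥ toReal (c s).v := by
    have := ht s j h
    rw [dotProduct_sub, sub_eq_zero] at this
    rw [toReal_dot, toReal_dot, this]
  have h2 : toReal ((c s).u j) ⬝ᵥ (q - toReal (c t).v) = 0 := by
    rw [dotProduct_sub, h1, ← dotProduct_sub]; exact h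
  rw [(c t).expand] at h2
  have h3 := (Finset.sum_eq_zero_iff_of_nonneg fun l _ => mul_nonneg (by
    have := (c s).ineq j _ ((c t).edge l)
    rw [toReal_add, dotProduct_sub, dotProduct_add, h1] at this
    linarith) ((c t).ineq l q hq)).mp h2 k (Finset.mem_univ k)
  exact (mul_eq_zero.mp h3).resolve_right hk

/-- Every point of the face direction space is a lattice vector of that space plus a vector `w`
with `q ± 2 w` in `P`. -/
lemma cover_face [Fintype σ] {C : ℝ} (hC : ∀ S : Set (Fin d → ℝ), Convex ℝ S →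
      (∀ x ∈ S, -x ∈ S) → (∀ x, ∃ ε : ℝ, 0 < ε ∧ ε • x ∈ S) →
      (∀ u : Fin d → ℤ, u ≠ 0 → ∃ y ∈ S, C ≤ toReal u ⬝ᵥ y) →
      ∀ x, ∃ p : Fin d → ℤ, x - toReal p ∈ S)
    (hP : Convex ℝ P) (hc : IsCompact P)
    (hmin : ∀ a : Fin d → ℝ, ∃ s, ∀ y ∈ P, a ⬝ᵥ toReal (c s).v ≤ a ⬝ᵥ y)
    {q : Fin d → ℝ} (hq : q ∈ P) {W : ℕ} (hW0 : 0 < W) (hCW : 2 * |C| ≤ W) {D : ℝ}
    (hW : 2 * (8 * W + 1) * W ≤ D) (hD : ∀ s j, sl c q s j = 0 ∨ D ≤ sl c q s j) :
    ∃ v : Fin d → ℤ, ∀ i : ℝ, ∃ (Z : Fin d → ℤ) (w : Fin d → ℝ), q + (2 : ℝ) • w ∈ P ∧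
      q - (2 : ℝ) • w ∈ P ∧ toReal Z = i • (q - toReal v) - w := by
  classical
  have hW1 : (1 : ℝ) ≤ W := by exact_mod_cast hW0
  have hD1 : 1 ≤ D := le_trans (by nlinarith) hW
  obtain ⟨t, ht, -⟩ := exists_good hmin (fun j => if sl c q j.1 j.2 = 0 then 0 else 1) hq
    (fun j hj => by
      by_contra h
      exact one_ne_zero ((if_neg h).symm.trans hj)) 0
  have ht' : ∀ s j, sl c q s j = 0 → (c s).u j ⬝ᵥ ((c t).v - (c s).v) = 0 :=
    fun s j h => ht (s, j) (if_pos h)
  let E : (Fin d → ℝ) →ₗ[ℝ] (Fin d → ℝ) :=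
    { toFun := fun l => ∑ k, (if sl c q t k = 0 then 0 else l k) • toReal ((c t).e k)
      map_add' := fun x y => by
        rw [← Finset.sum_add_distrib]
        refine Finset.sum_congr rfl fun k _ => ?_
        split_ifs <;> simp [add_smul]
      map_smul' := fun a x => by
        rw [RingHom.id_apply, Finset.smul_sum]
        refine Finset.sum_congr rfl fun k _ => ?_
        split_ifs <;> simp [mul_smul] }
  have hE : ∀ l, E l = ∑ k, (if sl c q t k = 0 then 0 else l k) • toReal ((c t).e k) :=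
    fun _ => rfl
  have hE0 : ∀ l s j, sl c q s j = 0 → toReal ((c s).u j) ⬝ᵥ E l = 0 := by
    intro l s j h
    rw [hE, dotProduct_sum]
    refine Finset.sum_eq_zero fun k _ => ?_
    rw [dotProduct_smul]
    split_ifs with hk
    · simp
    · rw [par hq ht' hk h, smul_zero]
  have hEx : ∀ x : Fin d → ℝ, (∀ k, sl c q t k = 0 → toReal ((c t).u k) ⬝ᵥ x = 0) →
      E (fun k => toReal ((c t).u k) ⬝ᵥ x) = x := by
    intro x hx
    rw [hE]
    conv_rhs => rw [(c t).expandV x]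
    refine Finset.sum_congr rfl fun k _ => ?_
    split_ifs with hk
    · rw [hx k hk]
    · rfl
  let S : Set (Fin d → ℝ) := {l | q + (2 : ℝ) • E l ∈ P ∧ q - (2 : ℝ) • E l ∈ P ∧
    ∀ k, sl c q t k = 0 → |l k| ≤ W}
  have hcov := hC S
    (by
      rintro x ⟨h1, h2, h3⟩ y ⟨h4, h5, h6⟩ a b ha hb hab
      refine ⟨?_, ?_, fun k hk => ?_⟩
      · convert hP h1 h4 ha hb hab using 1
        obtain rfl : b = 1 - a := by linarith
        rw [map_add, map_smul, map_smul]
        module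
      · convert hP h2 h5 ha hb hab using 1
        obtain rfl : b = 1 - a := by linarith
        rw [map_add, map_smul, map_smul]
        module
      · have h7 := abs_le.mp (h3 k hk)
        have h8 := abs_le.mp (h6 k hk)
        simp only [Pi.add_apply, Pi.smul_apply, smul_eq_mul]
        rw [abs_le]
        constructor <;> nlinarith)
    (by
      rintro x ⟨h1, h2, h3⟩
      refine ⟨?_, ?_, fun k hk => by simpa using h3 k hk⟩
      · rwa [map_neg, smul_neg, ← sub_eq_add_neg]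
      · rwa [map_neg, smul_neg, sub_neg_eq_add])
    (fun x => by
      obtain ⟨B, hB⟩ := Finite.exists_le fun j : σ × Fin d =>
        |toReal ((c j.1).u j.2) ⬝ᵥ E x| + |x j.2|
      have hB0 : 0 < 2 * (|B| + 1) := by positivity
      have hε : 0 < (2 * (|B| + 1))⁻¹ := inv_pos.mpr hB0
      have hε1 : (2 * (|B| + 1))⁻¹ * (2 * (|B| + 1)) = 1 := inv_mul_cancel₀ hB0.ne'
      generalize (2 * (|B| + 1))⁻¹ = ε at hε hε1
      have key : ∀ s j, |2 * (ε * (toReal ((c s).u j) ⬝ᵥ E x))| ≤ sl c q s j := by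
        intro s j
        rcases hD s j with h | h
        · rw [hE0 x s j h, h]; simp
        · have := hB (s, j)
          rw [abs_mul, abs_mul, abs_two, abs_of_pos hε]
          nlinarith [le_abs_self B, abs_nonneg (x j)]
      refine ⟨ε, hε, mem_of_ineq hP hc.isClosed hmin fun s j => ?_,
        mem_of_ineq hP hc.isClosed hmin fun s j => ?_, fun k _ => ?_⟩
      · have := (abs_le.mp (key s j)).1
        simp only [sl, map_smul, dotProduct_sub, dotProduct_add, dotProduct_smul, smul_eq_mul]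
          at this ⊢
        linarith
      · have := (abs_le.mp (key s j)).2
        simp only [sl, map_smul, dotProduct_sub, dotProduct_smul, smul_eq_mul] at this ⊢
        linarith
      · have := hB (t, k)
        rw [Pi.smul_apply, smul_eq_mul, abs_mul, abs_of_pos hε]
        nlinarith [le_abs_self B, abs_nonneg (toReal ((c t).u k) ⬝ᵥ E x), abs_nonneg (x k)])
    (fun u hu => by
      by_cases h : ∃ k, sl c q t k = 0 ∧ u k ≠ 0
      · obtain ⟨k, hk, hk'⟩ := h
        have h0 : ∀ a : ℝ, E (Pi.single k a) = 0 := by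
          intro a
          rw [hE]
          refine Finset.sum_eq_zero fun l _ => ?_
          split_ifs with hl
          · simp
          · rw [Pi.single_eq_of_ne (fun h : l = k => hl (h ▸ hk)), zero_smul]
        have h1 : (1 : ℝ) ≤ |(u k : ℝ)| := by exact_mod_cast Int.one_le_abs hk'
        refine ⟨Pi.single k (if 0 ≤ u k then W else -W), ⟨by simpa [h0] using hq,
          by simpa [h0] using hq, fun l _ => ?_⟩, ?_⟩
        · by_cases hl : l = k
          · subst hl
            split_ifs <;> simp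
          · simp [hl]
        · rw [dotProduct_single]
          change C ≤ (u k : ℝ) * _
          split_ifs with h2
          · rw [abs_of_nonneg (by exact_mod_cast h2)] at h1
            nlinarith [le_abs_self C, abs_nonneg C]
          · rw [abs_of_neg (by exact_mod_cast not_le.mp h2)] at h1
            nlinarith [le_abs_self C, abs_nonneg C]
      · push Not at h
        obtain ⟨k, hk⟩ := Function.ne_iff.mp hu
        have hk' : sl c q t k ≠ 0 := fun h0 => hk (h k h0)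
        obtain ⟨x, hx1, hx2, hx⟩ := wide hP hc hmin hq hW0 hW hD (u := ∑ l, u l • (c t).u l)
          fun s => by
            by_contra hno
            push Not at hno
            have h1 := (c s).expand (toReal (∑ l, u l • (c t).u l)) (toReal ((c t).e k))
            replace h1 := h1.trans (Finset.sum_eq_zero fun j _ => by
              by_cases hj : sl c q s j = 0
              · rw [par hq ht' hk' hj, mul_zero]
              · rw [toReal_dot, hno j hj, Int.cast_zero, zero_mul])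
            rw [toReal_dot] at h1
            simp only [sum_dotProduct, smul_dotProduct, (c t).dual] at h1
            exact hk (by simpa using h1)
        have hx0 : ∀ k, sl c q t k = 0 → toReal ((c t).u k) ⬝ᵥ x = 0 := by
          intro k hk
          have h1 := (c t).ineq k _ hx1
          have h2 := (c t).ineq k _ hx2
          simp only [sl, dotProduct_sub, dotProduct_add] at hk h1 h2
          linarith
        have h2 : (2 : ℝ) • E ((2 : ℝ)⁻¹ • fun k => toReal ((c t).u k) ⬝ᵥ x) = x := by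
          rw [map_smul, hEx x hx0, smul_inv_smul₀ two_ne_zero]
        refine ⟨(2 : ℝ)⁻¹ • fun k => toReal ((c t).u k) ⬝ᵥ x, ⟨by rwa [h2], by rwa [h2],
          fun l hl => by simp [hx0 l hl]⟩, ?_⟩
        have h3 : toReal (∑ l, u l • (c t).u l) ⬝ᵥ x =
            toReal u ⬝ᵥ fun k => toReal ((c t).u k) ⬝ᵥ x := by
          rw [Flat.toReal_sum, sum_dotProduct]
          refine Finset.sum_congr rfl fun l _ => ?_
          rw [Flat.toReal_smul, smul_dotProduct]
          rfl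
        rw [dotProduct_smul, ← h3, smul_eq_mul]
        linarith [le_abs_self C])
  refine ⟨(c t).v, fun i => ?_⟩
  obtain ⟨p, h1, h2, -⟩ := hcov (i • fun k => toReal ((c t).u k) ⬝ᵥ (q - toReal (c t).v))
  refine ⟨∑ k, (if sl c q t k = 0 then 0 else p k) • (c t).e k, _, h1, h2, ?_⟩
  rw [map_sub, map_smul, hEx _ fun k hk => hk, sub_sub_cancel, hE, Flat.toReal_sum]
  refine Finset.sum_congr rfl fun k _ => ?_
  rw [Flat.toReal_smul]
  split_ifs
  · simp
  · rfl

theorem deep (d : ℕ) : ∃ D : ℝ, ∀ P : Set (Fin d → ℝ), IsLatticePolytope P → IsDelzant P →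
    ∀ t : ℕ, 1 ≤ t → ∀ z : Fin d → ℤ, toReal z ∈ (t : ℝ) • P →
      (∀ u r, IsFacetIneq P u r → toReal u ⬝ᵥ toReal z = t * r ∨
        t * (r + D) ≤ toReal u ⬝ᵥ toReal z) →
      ∃ x : Fin t → Fin d → ℤ, (∀ j, toReal (x j) ∈ P) ∧ z = ∑ j, x j := by
  obtain ⟨C, hC⟩ := Flat.flat d
  obtain ⟨W, hW⟩ := exists_nat_gt (2 * |C|)
  have hW0 : 0 < W := by
    have : (0 : ℝ) < W := lt_of_le_of_lt (by positivity) hW
    exact_mod_cast this
  refine ⟨2 * (8 * W + 1) * W, fun P hP hD t ht z hz hdeep => ?_⟩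
  obtain ⟨σ, _, c, hmin⟩ := exists_corners hP hD
  have hc := hP.isCompact
  obtain ⟨⟨V, hV⟩, -⟩ := hP
  have hconv : Convex ℝ P := hV ▸ convex_convexHull ℝ _
  obtain ⟨q, hq, hz⟩ := hz
  have hz : toReal z = (t : ℝ) • q := hz.symm
  have ht0 : (0 : ℝ) < t := by exact_mod_cast ht
  obtain ⟨v, hv⟩ := cover_face hC hconv hc hmin hq hW0 hW.le le_rfl fun s j => by
    have := hdeep _ _ (corner_facet (c s) j)
    rw [hz, dotProduct_smul, smul_eq_mul, mul_right_inj' ht0.ne', mul_le_mul_iff_right₀ ht0]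
      at this
    simp only [sl, dotProduct_sub]
    rcases this with h | h
    · left; linarith
    · right; linarith
  have hZ : ∀ i : ℕ, ∃ (Z : Fin d → ℤ) (w : Fin d → ℝ), q + (2 : ℝ) • w ∈ P ∧
      q - (2 : ℝ) • w ∈ P ∧ toReal Z = (i : ℝ) • (q - toReal v) - w ∧ (i = 0 → Z = 0) ∧
        (i = t → Z = z - (t : ℤ) • v) := by
    intro i
    by_cases h0 : i = 0
    · subst h0
      exact ⟨0, 0, by simpa using hq, by simpa using hq, by funext k; simp [toReal], fun _ => rfl,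
        fun h => by omega⟩
    by_cases h1 : i = t
    · subst h1
      refine ⟨_, 0, by simpa using hq, by simpa using hq, ?_, fun h => absurd h h0, fun _ => rfl⟩
      rw [toReal_sub, Flat.toReal_smul, hz, smul_sub, sub_zero, Int.cast_natCast]
    obtain ⟨Z, w, h2, h3, h4⟩ := hv i
    exact ⟨Z, w, h2, h3, h4, fun h => absurd h h0, fun h => absurd h h1⟩
  choose Z w h1 h2 h3 h4 h5 using hZ
  refine ⟨fun j => v + (Z (j + 1) - Z j), fun j => ?_, ?_⟩
  · convert hconv (h2 (j + 1)) (h1 j) (a := 2⁻¹) (b := 2⁻¹) (by norm_num) (by norm_num)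
      (by norm_num) using 1
    rw [toReal_add, toReal_sub, h3, h3]
    push_cast
    module
  · rw [Finset.sum_add_distrib, Fin.sum_univ_eq_sum_range (fun j => Z (j + 1) - Z j),
      Finset.sum_range_sub, h4 0 rfl, h5 t rfl]
    simp

end Pool.Agent.MP_8c130c_co.Deep
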