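import Mathlib

namespace Pool.Agent.MP_8c130c_co

open Pointwise

variable {d : ℕ}

/-- An integer vector viewed as a real vector. -/
def toReal (v : Fin d → ℤ) : Fin d → ℝ := fun i => (v i : ℝ)

/-- `P` is a `d`-dimensional lattice polytope in `ℝ^d`. -/
def IsLatticePolytope (P : Set (Fin d → ℝ)) : Prop :=
  (∃ V : Finset (Fin d → ℤ), P = convexHull ℝ (toReal '' (V : Set (Fin d → ℤ)))) ∧
    affineSpan ℝ P = ⊤

/-- The width of `K` in the direction of the integral functional `x ↦ u ⬝ᵥ x`. -/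
noncomputable def widthAlong (u : Fin d → ℤ) (K : Set (Fin d → ℝ)) : ℝ :=
  sSup {r : ℝ | ∃ x ∈ K, ∃ y ∈ K, r = |toReal u ⬝ᵥ x - toReal u ⬝ᵥ y|}

/-- The lattice width of `K`. -/
noncomputable def latticeWidth (K : Set (Fin d → ℝ)) : ℝ :=
  sInf {r : ℝ | ∃ u : Fin d → ℤ, u ≠ 0 ∧ r = widthAlong u K}

/-- The (outer) normal cone of `P` at the face `F`: all functionals `x ↦ w ⬝ᵥ x` whose maximum
over `P` is attained at every point of `F`. -/
def normalCone (P F : Set (Fin d → ℝ)) : Set (Fin d → ℝ) :=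
  {w | ∀ x ∈ F, ∀ y ∈ P, w ⬝ᵥ y ≤ w ⬝ᵥ x}

/-- The cone `C` is generated by part of a basis of the lattice `ℤ^d`. -/
def IsUnimodularCone (C : Set (Fin d → ℝ)) : Prop :=
  ∃ (b : Module.Basis (Fin d) ℤ (Fin d → ℤ)) (S : Finset (Fin d)),
    C = {w | ∃ c : Fin d → ℝ, (∀ i, 0 ≤ c i) ∧ w = ∑ i ∈ S, c i • toReal (b i)}

/-- `P` is Delzant: the normal cone at every nonempty face is unimodular. -/
def IsDelzant (P : Set (Fin d → ℝ)) : Prop :=
  ∀ F : Set (Fin d → ℝ), IsExposed ℝ P F → F.Nonempty → IsUnimodularCone (normalCone P F)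

/-- The integer decomposition property. -/
def IsIDP (P : Set (Fin d → ℝ)) : Prop :=
  ∀ t : ℕ, 1 ≤ t → ∀ z : Fin d → ℤ, toReal z ∈ (t : ℝ) • P →
    ∃ x : Fin t → Fin d → ℤ, (∀ j, toReal (x j) ∈ P) ∧ z = ∑ j, x j

end Pool.Agent.MP_8c130c_co
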