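import Pool.Agent.MP_8c130c_co.Width

namespace Pool.Agent.MP_8c130c_co

open Pointwise

variable {d : ℕ}

/-- The vectors of the lifted basis. -/
noncomputable def liftVec (b : Module.Basis (Fin d) ℤ (Fin d → ℤ)) (v : Fin d → ℤ) (ε : ℤ) :
    Fin (d + 1) → Fin (d + 1) → ℤ :=
  Fin.cons (Fin.cons ε 0) fun i => Fin.cons (-(b i ⬝ᵥ v)) (b i)

lemma exists_liftBasis (b : Module.Basis (Fin d) ℤ (Fin d → ℤ)) (v : Fin d → ℤ) (ε : ℤ)
    (hε : ε * ε = 1) :
    ∃ b' : Module.Basis (Fin (d + 1)) ℤ (Fin (d + 1) → ℤ), ∀ j, b' j = liftVec b v ε j := by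
  have hli : LinearIndependent ℤ (liftVec b v ε) := by
    rw [Fintype.linearIndependent_iff]
    intro g hg
    have h1 : ∑ i : Fin d, g i.succ • b i = 0 := by
      funext k
      have := congrFun hg k.succ
      simpa [liftVec, Fin.sum_univ_succ] using this
    have h2 := Fintype.linearIndependent_iff.1 b.linearIndependent _ h1
    have h3 : g 0 * ε = 0 := by
      have := congrFun hg 0
      simpa [liftVec, Fin.sum_univ_succ, h2] using this
    have h4 : g 0 = 0 := by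
      have : g 0 * ε * ε = 0 := by rw [h3, zero_mul]
      rwa [mul_assoc, hε, mul_one] at this
    intro j
    exact Fin.cases h4 h2 j
  have hsp : ⊤ ≤ Submodule.span ℤ (Set.range (liftVec b v ε)) := by
    intro w _
    rw [Submodule.mem_span_range_iff_exists_fun]
    refine ⟨Fin.cons (ε * (w 0 + Fin.tail w ⬝ᵥ v)) fun i => b.repr (Fin.tail w) i, ?_⟩
    have hs := b.sum_repr (Fin.tail w)
    funext k
    refine Fin.cases ?_ (fun k => ?_) k
    · have h2 : Fin.tail w ⬝ᵥ v = ∑ i, b.repr (Fin.tail w) i * (b i ⬝ᵥ v) := by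
        conv_lhs => rw [← hs]
        simp only [sum_dotProduct, smul_dotProduct, smul_eq_mul]
      simp only [liftVec, Fin.sum_univ_succ, Fin.cons_zero, Fin.cons_succ,
        Pi.smul_apply, Finset.sum_apply, smul_eq_mul, mul_neg, Finset.sum_neg_distrib]
      rw [← h2, mul_comm ε, mul_assoc, hε]
      ring
    · have := congrFun hs k
      simpa [liftVec, Fin.sum_univ_succ, Fin.tail] using this
  exact ⟨Module.Basis.mk hli hsp, fun j => by simp⟩

lemma isUnimodularCone_lift {C : Set (Fin d → ℝ)} (hC : IsUnimodularCone C) (v : Fin d → ℤ)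
    (ε : ℤ) (hε : ε * ε = 1) (δ : Prop) :
    IsUnimodularCone {w : Fin (d + 1) → ℝ | Fin.tail w ∈ C ∧
      0 ≤ ε * (Fin.tail w ⬝ᵥ toReal v + w 0) ∧ (δ → Fin.tail w ⬝ᵥ toReal v + w 0 = 0)} := by
  classical
  obtain ⟨b, S, rfl⟩ := hC
  obtain ⟨b', hb'⟩ := exists_liftBasis b v ε hε
  have hε' : (ε : ℝ) * ε = 1 := by exact_mod_cast hε
  refine ⟨b', S.map (Fin.succEmb d) ∪ (if δ then ∅ else {0}), ?_⟩
  have hdisj : Disjoint (S.map (Fin.succEmb d)) (if δ then ∅ else {0}) := by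
    split_ifs
    · simp
    · simp
  have hsum : ∀ c : Fin (d + 1) → ℝ,
      ∑ j ∈ S.map (Fin.succEmb d) ∪ (if δ then ∅ else {0}), c j • toReal (b' j) =
        Fin.cons ((if δ then 0 else c 0 * ε) -
          (∑ i ∈ S, c i.succ • toReal (b i)) ⬝ᵥ toReal v) (∑ i ∈ S, c i.succ • toReal (b i)) := by
    intro c
    rw [Finset.sum_union hdisj, Finset.sum_map]
    funext k
    refine Fin.cases ?_ (fun k => ?_) k
    · simp only [Fin.coe_succEmb, hb', liftVec, Pi.add_apply, Finset.sum_apply, Pi.smul_apply,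
        Fin.cons_succ, Fin.cons_zero, sum_dotProduct, smul_dotProduct, toReal_dot, smul_eq_mul]
      split_ifs
      · simp [toReal]
      · simp [toReal]; ring
    · simp only [Fin.coe_succEmb, hb', liftVec, Pi.add_apply, Finset.sum_apply, Pi.smul_apply,
        Fin.cons_succ, smul_eq_mul]
      split_ifs
      · simp [toReal]
      · simp [toReal]
  ext w
  simp only [Set.mem_ofPred_eq, hsum]
  constructor
  · rintro ⟨⟨c, hc, hw⟩, h1, h2⟩
    refine ⟨Fin.cons (ε * (Fin.tail w ⬝ᵥ toReal v + w 0)) c, ?_, ?_⟩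
    · intro j
      refine Fin.cases ?_ (fun j => ?_) j
      · simpa using h1
      · simpa using hc j
    · simp only [Fin.cons_succ, Fin.cons_zero]
      rw [← hw]
      conv_lhs => rw [← Fin.cons_self_tail w]
      congr 1
      split_ifs with h
      · linarith [h2 h]
      · rw [mul_comm (ε : ℝ), mul_assoc, hε']; ring
  · rintro ⟨c, hc, rfl⟩
    simp only [Fin.tail_cons, Fin.cons_zero]
    refine ⟨⟨fun i => c i.succ, fun i => hc _, rfl⟩, ?_, ?_⟩
    · split_ifs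
      · simp
      · have : (ε : ℝ) * (c 0 * ε) = c 0 := by
          rw [mul_comm (c 0), ← mul_assoc, hε', one_mul]
        simpa [this] using hc 0
    · intro h
      simp [h]

lemma exists_dot (l : StrongDual ℝ (Fin d → ℝ)) : ∃ a : Fin d → ℝ, ∀ p, l p = a ⬝ᵥ p := by
  refine ⟨fun i => l (Pi.single i 1), fun p => ?_⟩
  conv_lhs => rw [pi_eq_sum_univ' p]
  simp [dotProduct, mul_comm]

lemma exists_max_vertex (V : Finset (Fin d → ℤ)) (hV : V.Nonempty) (u : Fin d → ℝ) :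
    ∃ v ∈ V, ∀ y ∈ convexHull ℝ (toReal '' (V : Set (Fin d → ℤ))), u ⬝ᵥ y ≤ u ⬝ᵥ toReal v := by
  obtain ⟨v, hv, hmax⟩ := V.exists_max_image (fun v => u ⬝ᵥ toReal v) hV
  refine ⟨v, hv, fun y hy => ?_⟩
  have hconv : Convex ℝ {y : Fin d → ℝ | u ⬝ᵥ y ≤ u ⬝ᵥ toReal v} := by
    intro x hx y hy a b ha hb hab
    simp only [Set.mem_ofPred_eq, dotProduct_add, dotProduct_smul, smul_eq_mul] at *
    have : u ⬝ᵥ toReal v = a * (u ⬝ᵥ toReal v) + b * (u ⬝ᵥ toReal v) := by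
      rw [← add_mul, hab, one_mul]
    nlinarith
  refine convexHull_min ?_ hconv hy
  rintro _ ⟨x, hx, rfl⟩
  exact hmax x hx

lemma isDelzant_trunc {Q : Set (Fin d → ℝ)} (hQ : IsLatticePolytope Q) (hD : IsDelzant Q)
    {H : ℝ} (hH : 1 < H) : IsDelzant (trunc Q H) := by
  intro G hG hGne
  obtain ⟨l, hl⟩ := hG hGne
  obtain ⟨a, ha⟩ := exists_dot l
  obtain ⟨⟨V, hV⟩, hs⟩ := hQ
  have hVne : V.Nonempty := by
    obtain ⟨x, hx⟩ := nonempty_of_span hs
    rw [hV] at hx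
    obtain ⟨_, v, hv, -⟩ := convexHull_nonempty_iff.1 ⟨x, hx⟩
    exact ⟨v, hv⟩
  obtain ⟨v, hv, hmax⟩ := exists_max_vertex V hVne (Fin.tail a)
  rw [← hV] at hmax
  have hvQ : toReal v ∈ Q := by rw [hV]; exact subset_convexHull ℝ _ ⟨v, hv, rfl⟩
  set F : Set (Fin d → ℝ) := {x ∈ Q | ∀ y ∈ Q, Fin.tail a ⬝ᵥ y ≤ Fin.tail a ⬝ᵥ x} with hF
  have hvF : toReal v ∈ F := ⟨hvQ, hmax⟩
  have hFe : IsExposed ℝ Q F := fun _ =>
    ⟨LinearMap.toContinuousLinearMap ((dotProductBilin ℝ ℝ) (Fin.tail a)), by simp [hF]⟩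
  have hN := hD F hFe ⟨_, hvF⟩
  set s : ℝ := Fin.tail a ⬝ᵥ toReal v + a 0 with hs_def
  have hFval : ∀ x ∈ F, Fin.tail a ⬝ᵥ x = Fin.tail a ⬝ᵥ toReal v := fun x hx =>
    le_antisymm (hmax x hx.1) (hx.2 _ hvQ)
  have hGmem : ∀ p, p ∈ G ↔ ∃ h, 1 ≤ h ∧ h ≤ H ∧ (∀ k, 1 ≤ k → k ≤ H → k * s ≤ h * s) ∧
      ∃ x ∈ F, p = pt h x := by
    intro p
    rw [hl]
    simp only [Set.mem_ofPred_eq, ha]
    constructor
    · rintro ⟨hp, hp'⟩
      obtain ⟨h, h1, h2, x, hx, rfl⟩ := mem_trunc.1 hp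
      have hxF : x ∈ F := by
        refine ⟨hx, fun y hy => ?_⟩
        have := hp' _ (mem_trunc.2 ⟨h, h1, h2, y, hy, rfl⟩)
        rw [dot_pt, dot_pt] at this
        have := le_of_mul_le_mul_left this (by linarith)
        linarith
      refine ⟨h, h1, h2, fun k k1 k2 => ?_, x, hxF, rfl⟩
      have := hp' _ (mem_trunc.2 ⟨k, k1, k2, _, hvQ, rfl⟩)
      rwa [dot_pt, dot_pt, hFval x hxF] at this
    · rintro ⟨h, h1, h2, h3, x, hx, rfl⟩
      refine ⟨mem_trunc.2 ⟨h, h1, h2, x, hx.1, rfl⟩, fun q hq => ?_⟩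
      obtain ⟨k, k1, k2, y, hy, rfl⟩ := mem_trunc.1 hq
      rw [dot_pt, dot_pt, hFval x hx]
      refine le_trans ?_ (h3 k k1 k2)
      exact mul_le_mul_of_nonneg_left (by linarith [hmax y hy]) (by linarith)
  have hNmem : ∀ w, w ∈ normalCone (trunc Q H) G ↔ Fin.tail w ∈ normalCone Q F ∧
      ∀ h, 1 ≤ h → h ≤ H → (∀ k, 1 ≤ k → k ≤ H → k * s ≤ h * s) → ∀ k, 1 ≤ k → k ≤ H →
        k * (Fin.tail w ⬝ᵥ toReal v + w 0) ≤ h * (Fin.tail w ⬝ᵥ toReal v + w 0) := by
    intro w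
    constructor
    · intro hw
      constructor
      · intro x hx y hy
        obtain ⟨p, hp⟩ := hGne
        obtain ⟨h, h1, h2, h3, -⟩ := (hGmem p).1 hp
        have := hw _ ((hGmem _).2 ⟨h, h1, h2, h3, x, hx, rfl⟩) _
          (mem_trunc.2 ⟨h, h1, h2, y, hy, rfl⟩)
        rw [dot_pt, dot_pt] at this
        have := le_of_mul_le_mul_left this (by linarith)
        linarith
      · intro h h1 h2 h3 k k1 k2
        have := hw _ ((hGmem _).2 ⟨h, h1, h2, h3, _, hvF, rfl⟩) _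
          (mem_trunc.2 ⟨k, k1, k2, _, hvQ, rfl⟩)
        rwa [dot_pt, dot_pt] at this
    · rintro ⟨hw, hw'⟩ p hp q hq
      obtain ⟨h, h1, h2, h3, x, hx, rfl⟩ := (hGmem p).1 hp
      obtain ⟨k, k1, k2, y, hy, rfl⟩ := mem_trunc.1 hq
      rw [dot_pt, dot_pt]
      have e1 : Fin.tail w ⬝ᵥ x = Fin.tail w ⬝ᵥ toReal v :=
        le_antisymm (hw _ hvF _ hx.1) (hw _ hx _ hvQ)
      rw [e1]
      refine le_trans ?_ (hw' h h1 h2 h3 k k1 k2)
      exact mul_le_mul_of_nonneg_left (by linarith [hw _ hvF _ hy]) (by linarith)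
  rcases lt_trichotomy s 0 with hs0 | hs0 | hs0
  · convert isUnimodularCone_lift hN v (-1) (by norm_num) False using 1
    ext w
    rw [hNmem]
    simp only [Set.mem_ofPred_eq, Int.cast_neg, Int.cast_one, false_imp_iff, and_true]
    refine and_congr_right fun _ => ⟨fun h => ?_, fun h0 h h1 h2 h3 k k1 k2 => ?_⟩
    · have := h 1 le_rfl hH.le (fun k k1 _ => by nlinarith) H hH.le le_rfl
      nlinarith
    · have := h3 1 le_rfl hH.le
      have h4 : h = 1 := by nlinarith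
      subst h4
      nlinarith
  · convert isUnimodularCone_lift hN v 1 (by norm_num) True using 1
    ext w
    rw [hNmem]
    simp only [Set.mem_ofPred_eq, Int.cast_one, true_imp_iff]
    refine and_congr_right fun _ => ⟨fun h => ?_, fun h0 h h1 h2 h3 k k1 k2 => ?_⟩
    · have h1 := h 1 le_rfl hH.le (fun k k1 _ => by simp [hs0]) H hH.le le_rfl
      have h2 := h H hH.le le_rfl (fun k k1 _ => by simp [hs0]) 1 le_rfl hH.le
      have h3 : Fin.tail w ⬝ᵥ toReal v + w 0 = 0 := by nlinarith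
      simp [h3]
    · simp [h0.2]
  · convert isUnimodularCone_lift hN v 1 (by norm_num) False using 1
    ext w
    rw [hNmem]
    simp only [Set.mem_ofPred_eq, Int.cast_one, false_imp_iff, and_true]
    refine and_congr_right fun _ => ⟨fun h => ?_, fun h0 h h1 h2 h3 k k1 k2 => ?_⟩
    · have := h H hH.le le_rfl (fun k _ k2 => by nlinarith) 1 le_rfl hH.le
      nlinarith
    · have := h3 H hH.le le_rfl
      have h4 : h = H := by nlinarith
      subst h4
      nlinarith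

theorem oda_of_width_bound (d : ℕ) (N : ℝ)
    (hN : ∀ P : Set (Fin (d + 1) → ℝ), IsLatticePolytope P → IsDelzant P →
      N ≤ latticeWidth P → IsIDP P) (Q : Set (Fin d → ℝ)) (hQ : IsLatticePolytope Q)
    (hD : IsDelzant Q) : IsIDP Q := by
  obtain ⟨H, hH1, hH2⟩ : ∃ H : ℤ, 1 < H ∧ N ≤ (H : ℝ) - 1 := by
    refine ⟨max 2 (⌈N⌉ + 1), by omega, ?_⟩
    have h1 : ((⌈N⌉ + 1 : ℤ) : ℝ) ≤ ((max 2 (⌈N⌉ + 1) : ℤ) : ℝ) := by
      exact_mod_cast le_max_right _ _
    have h2 := Int.le_ceil N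
    push_cast at h1 ⊢
    linarith
  have hH' : (1 : ℝ) < H := by exact_mod_cast hH1
  exact isIDP_of_trunc hH'.le (hN _ (isLatticePolytope_trunc hQ H hH1)
    (isDelzant_trunc hQ hD hH') (hH2.trans (le_latticeWidth_trunc hQ H hH1)))

end Pool.Agent.MP_8c130c_co
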