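import Mathlib

/-!
Elementary facts on sublattices of `ℤ³`.
-/

namespace Pool.Agent.MP_8c130c_co.Lattice3

section defs
variable {R : Type} [CommRing R]

def d3 (a b c : Fin 3 → R) : R :=
  a 0 * (b 1 * c 2 - b 2 * c 1) - a 1 * (b 0 * c 2 - b 2 * c 0) + a 2 * (b 0 * c 1 - b 1 * c 0)

def cr (a b : Fin 3 → R) : Fin 3 → R :=
  ![a 1 * b 2 - a 2 * b 1, a 2 * b 0 - a 0 * b 2, a 0 * b 1 - a 1 * b 0]

@[simp] lemma cr0 (a b : Fin 3 → R) : cr a b 0 = a 1 * b 2 - a 2 * b 1 := rfl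
@[simp] lemma cr1 (a b : Fin 3 → R) : cr a b 1 = a 2 * b 0 - a 0 * b 2 := rfl
@[simp] lemma cr2 (a b : Fin 3 → R) : cr a b 2 = a 0 * b 1 - a 1 * b 0 := rfl

lemma dot3 (a b : Fin 3 → R) : a ⬝ᵥ b = a 0 * b 0 + a 1 * b 1 + a 2 * b 2 := by
  simp [dotProduct, Fin.sum_univ_three]

end defs

lemma forall3 {p : Fin 3 → Prop} : (∀ k, p k) ↔ p 0 ∧ p 1 ∧ p 2 := by
  constructor
  · exact fun h => ⟨h 0, h 1, h 2⟩
  · rintro ⟨h0, h1, h2⟩ k
    fin_cases k <;> assumption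

lemma dvd_of_eq {N a b : ℤ} (h : N ∣ a) (e : b = a) : N ∣ b := e ▸ h

lemma descent {N : ℤ} (L : ℤ → ℤ → ℤ → Prop)
    (hsm : ∀ m a b c, L a b c → L (m * a) (m * b) (m * c))
    (h1 : ∀ m a b c, L a b c → L (a + m * N) b c) (h2 : ∀ m a b c, L a b c → L a (b + m * N) c)
    (h3 : ∀ m a b c, L a b c → L a b (c + m * N)) (n : ℕ) :
    ∀ a b c : ℤ, 0 ≤ a → 0 ≤ b → 0 ≤ c → a + b + c < n → a + b + c < N → 0 < a + b + c → L a b c →
      ∃ a b c : ℤ, L a b c ∧ 0 ≤ a ∧ a ≤ N ∧ 0 ≤ b ∧ b ≤ N ∧ 0 ≤ c ∧ c ≤ N ∧ N ≤ a + b + c ∧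
        a + b + c ≤ 2 * N ∧ ((0 < a ∧ a < N) ∨ (0 < b ∧ b < N) ∨ (0 < c ∧ c < N)) := by
  induction n with
  | zero => intro a b c ha hb hc h; omega
  | succ n ih =>
    intro a b c ha hb hc hn hN hpos hL
    rcases ha.eq_or_lt with rfl | ha'
    · exact ⟨_, _, _, h1 1 _ _ _ hL, by omega⟩
    rcases hb.eq_or_lt with rfl | hb'
    · exact ⟨_, _, _, h2 1 _ _ _ hL, by omega⟩
    rcases hc.eq_or_lt with rfl | hc'
    · exact ⟨_, _, _, h3 1 _ _ _ hL, by omega⟩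
    set S := a + b + c with hS
    set m := (N - 1) / S + 1 with hm
    have e1 := Int.emod_add_mul_ediv (N - 1) S
    have e2 := Int.emod_nonneg (N - 1) hpos.ne'
    have e3 := Int.emod_lt_of_pos (N - 1) hpos
    have e4 : m * a + m * b + m * c = S * ((N - 1) / S) + S := by rw [hm, hS]; ring
    have hm0 : 0 < m := by
      have : 0 ≤ (N - 1) / S := Int.ediv_nonneg (by omega) hpos.le
      omega
    have pa := mul_pos hm0 ha'
    have pb := mul_pos hm0 hb'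
    have pc := mul_pos hm0 hc'
    have hL' := hsm m _ _ _ hL
    generalize m * a = a' at *
    generalize m * b = b' at *
    generalize m * c = c' at *
    generalize S * ((N - 1) / S) = q at *
    rcases le_or_gt N a' with k1 | k1
    · exact ih _ _ _ (by omega) (by omega) (by omega) (by omega) (by omega) (by omega)
        (h1 (-1) _ _ _ hL')
    rcases le_or_gt N b' with k2 | k2
    · exact ih _ _ _ (by omega) (by omega) (by omega) (by omega) (by omega) (by omega)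
        (h2 (-1) _ _ _ hL')
    rcases le_or_gt N c' with k3 | k3
    · exact ih _ _ _ (by omega) (by omega) (by omega) (by omega) (by omega) (by omega)
        (h3 (-1) _ _ _ hL')
    exact ⟨_, _, _, hL', by omega⟩

/-- If `v1, v2, v3` span a proper sublattice of finite index, the middle octahedron of their
parallelepiped contains a lattice point which is not a vertex. -/
lemma exists_oct (v1 v2 v3 : Fin 3 → ℤ) (h : 2 ≤ |d3 v1 v2 v3|) :
    ∃ (N a b c : ℤ) (m : Fin 3 → ℤ), (∀ k, a * v1 k + b * v2 k + c * v3 k = N * m k) ∧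
      0 ≤ a ∧ a ≤ N ∧ 0 ≤ b ∧ b ≤ N ∧ 0 ≤ c ∧ c ≤ N ∧ N ≤ a + b + c ∧
        a + b + c ≤ 2 * N ∧ ((0 < a ∧ a < N) ∨ (0 < b ∧ b < N) ∨ (0 < c ∧ c < N)) := by
  set N := |d3 v1 v2 v3| with hN
  have hN0 : 0 < N := by omega
  have hND : N ∣ d3 v1 v2 v3 := (abs_dvd _ _).mpr dvd_rfl
  let L : ℤ → ℤ → ℤ → Prop := fun a b c => ∀ k, N ∣ a * v1 k + b * v2 k + c * v3 k
  have hsm : ∀ m a b c, L a b c → L (m * a) (m * b) (m * c) := by
    intro m a b c hL k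
    exact dvd_of_eq ((hL k).mul_left m) (by ring)
  have h1 : ∀ m a b c, L a b c → L (a + m * N) b c := by
    intro m a b c hL k
    exact dvd_of_eq ((hL k).add (dvd_mul_right N (m * v1 k))) (by ring)
  have h2 : ∀ m a b c, L a b c → L a (b + m * N) c := by
    intro m a b c hL k
    exact dvd_of_eq ((hL k).add (dvd_mul_right N (m * v2 k))) (by ring)
  have h3 : ∀ m a b c, L a b c → L a b (c + m * N) := by
    intro m a b c hL k
    exact dvd_of_eq ((hL k).add (dvd_mul_right N (m * v3 k))) (by ring)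
  suffices hs : ∃ a b c : ℤ, L a b c ∧ 0 ≤ a ∧ a ≤ N ∧ 0 ≤ b ∧ b ≤ N ∧ 0 ≤ c ∧ c ≤ N ∧
      N ≤ a + b + c ∧ a + b + c ≤ 2 * N ∧
      ((0 < a ∧ a < N) ∨ (0 < b ∧ b < N) ∨ (0 < c ∧ c < N)) by
    obtain ⟨a, b, c, hL, hr⟩ := hs
    choose m hm using hL
    exact ⟨N, a, b, c, m, hm, hr⟩
  obtain ⟨a, b, c, hL, hni⟩ : ∃ a b c, L a b c ∧ ¬(N ∣ a ∧ N ∣ b ∧ N ∣ c) := by
    by_contra hc
    push Not at hc
    have hj : ∀ j, L (cr v2 v3 j) (cr v3 v1 j) (cr v1 v2 j) := by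
      rw [forall3]
      refine ⟨?_, ?_, ?_⟩ <;> (simp only [L]; rw [forall3]; refine ⟨?_, ?_, ?_⟩) <;>
        first
          | exact dvd_of_eq hND (by simp only [cr0, cr1, cr2, d3]; ring1)
          | exact dvd_of_eq (dvd_zero N) (by simp only [cr0, cr1, cr2]; ring1)
    choose A hA using fun j => (hc _ _ _ (hj j)).1
    choose B hB using fun j => (hc _ _ _ (hj j)).2.1
    choose C hC using fun j => (hc _ _ _ (hj j)).2.2
    have e1 : d3 (cr v2 v3) (cr v3 v1) (cr v1 v2) = d3 v1 v2 v3 * d3 v1 v2 v3 := by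
      simp only [d3, cr0, cr1, cr2]; ring
    have e2 : d3 (cr v2 v3) (cr v3 v1) (cr v1 v2) = N * N * (N * d3 A B C) := by
      simp only [d3, hA, hB, hC]; ring
    rw [← abs_mul_abs_self, ← hN, e2] at e1
    have e3 : N * d3 A B C = 1 :=
      mul_left_cancel₀ (mul_pos hN0 hN0).ne' (e1.trans (mul_one _).symm)
    have := Int.eq_one_of_mul_eq_one_right hN0.le e3
    omega
  have hL' : L (a % N) (b % N) (c % N) := by
    have := h1 (-(a / N)) _ _ _ (h2 (-(b / N)) _ _ _ (h3 (-(c / N)) _ _ _ hL))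
    rw [Int.emod_def, Int.emod_def, Int.emod_def]
    convert this using 1 <;> ring
  have a0 := Int.emod_nonneg a hN0.ne'
  have b0 := Int.emod_nonneg b hN0.ne'
  have c0 := Int.emod_nonneg c hN0.ne'
  have a1 := Int.emod_lt_of_pos a hN0
  have b1 := Int.emod_lt_of_pos b hN0
  have c1 := Int.emod_lt_of_pos c hN0
  have hpos : 0 < a % N + b % N + c % N := by
    by_contra hc
    exact hni ⟨Int.dvd_of_emod_eq_zero (by omega), Int.dvd_of_emod_eq_zero (by omega),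
      Int.dvd_of_emod_eq_zero (by omega)⟩
  generalize a % N = a' at *
  generalize b % N = b' at *
  generalize c % N = c' at *
  rcases lt_or_ge (a' + b' + c') N with k1 | k1
  · exact descent L hsm h1 h2 h3 N.toNat _ _ _ a0 b0 c0 (by omega) k1 hpos hL'
  rcases le_or_gt (a' + b' + c') (2 * N) with k2 | k2
  · exact ⟨_, _, _, hL', by omega⟩
  · exact descent L hsm h1 h2 h3 N.toNat _ _ _ (by omega) (by omega) (by omega) (by omega)
      (by omega) (by omega) (h1 1 _ _ _ (h2 1 _ _ _ (h3 1 _ _ _ (hsm (-1) _ _ _ hL'))))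

lemma d3_zmod : ∀ a0 a1 a2 b0 b1 b2 c0 c1 c2 : ZMod 2,
    a0 * (b1 * c2 - b2 * c1) - a1 * (b0 * c2 - b2 * c0) + a2 * (b0 * c1 - b1 * c0) = 0 →
    (a0 = 0 ∧ a1 = 0 ∧ a2 = 0) ∨ (b0 = 0 ∧ b1 = 0 ∧ b2 = 0) ∨ (c0 = 0 ∧ c1 = 0 ∧ c2 = 0) ∨
    (b0 - a0 = 0 ∧ b1 - a1 = 0 ∧ b2 - a2 = 0) ∨ (c0 - a0 = 0 ∧ c1 - a1 = 0 ∧ c2 - a2 = 0) ∨
    (b0 - c0 = 0 ∧ b1 - c1 = 0 ∧ b2 - c2 = 0) ∨
    (b0 + c0 - a0 = 0 ∧ b1 + c1 - a1 = 0 ∧ b2 + c2 - a2 = 0) := by
  decide +kernel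

lemma d3_ne_zero (a b c : Fin 3 → ℤ) (h1 : ¬∀ k, a k % 2 = 0) (h2 : ¬∀ k, b k % 2 = 0)
    (h3 : ¬∀ k, c k % 2 = 0) (h4 : ¬∀ k, (b k - a k) % 2 = 0) (h5 : ¬∀ k, (c k - a k) % 2 = 0)
    (h6 : ¬∀ k, (b k - c k) % 2 = 0) (h7 : ¬∀ k, (b k + c k - a k) % 2 = 0) : d3 a b c ≠ 0 := by
  intro h
  have key : ∀ z : ℤ, (z : ZMod 2) = 0 → z % 2 = 0 := fun z hz =>
    Int.emod_eq_zero_of_dvd ((ZMod.intCast_zmod_eq_zero_iff_dvd z 2).mp hz)
  have h0 := d3_zmod (a 0) (a 1) (a 2) (b 0) (b 1) (b 2) (c 0) (c 1) (c 2) (by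
    have := congrArg (Int.cast : ℤ → ZMod 2) h
    simp only [d3] at this
    push_cast at this
    exact this)
  rw [forall3] at h1 h2 h3 h4 h5 h6 h7
  rcases h0 with h | h | h | h | h | h | h
  · exact h1 ⟨key _ h.1, key _ h.2.1, key _ h.2.2⟩
  · exact h2 ⟨key _ h.1, key _ h.2.1, key _ h.2.2⟩
  · exact h3 ⟨key _ h.1, key _ h.2.1, key _ h.2.2⟩
  · exact h4 ⟨key _ (by push_cast; exact h.1), key _ (by push_cast; exact h.2.1),
      key _ (by push_cast; exact h.2.2)⟩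
  · exact h5 ⟨key _ (by push_cast; exact h.1), key _ (by push_cast; exact h.2.1),
      key _ (by push_cast; exact h.2.2)⟩
  · exact h6 ⟨key _ (by push_cast; exact h.1), key _ (by push_cast; exact h.2.1),
      key _ (by push_cast; exact h.2.2)⟩
  · exact h7 ⟨key _ (by push_cast; exact h.1), key _ (by push_cast; exact h.2.1),
      key _ (by push_cast; exact h.2.2)⟩

end Pool.Agent.MP_8c130c_co.Lattice3
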