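import Mathlib

/-!
Pushing the constraints of an infeasible system outwards until each of them is either redundant
or blocked by a point.
-/

namespace Pool.Agent.MP_8c130c_co.Push

theorem push {Ω ι : Type} [DecidableEq ι] (I : Finset ι) (f : ι → Ω → ℤ) (β : ι → ℤ)
    (h : ∀ w, ∃ i ∈ I, β i < f i w) :
    ∃ (J : Finset ι) (T : ι → ℤ), J ⊆ I ∧ (∀ i ∈ J, β i < T i) ∧ (∀ w, ∃ i ∈ J, T i ≤ f i w) ∧
      ∀ j ∈ J, ∃ w, f j w = T j ∧ ∀ i ∈ J, i ≠ j → f i w < T i := by
  have key : ∀ S : Finset ι, ∃ (J : Finset ι) (T : ι → ℤ), J ⊆ I ∧ (∀ i ∈ J, β i < T i) ∧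
      (∀ w, ∃ i ∈ J, T i ≤ f i w) ∧
      ∀ j ∈ J, j ∈ S → ∃ w, f j w = T j ∧ ∀ i ∈ J, i ≠ j → f i w < T i := by
    intro S
    induction S using Finset.induction_on with
    | empty =>
      refine ⟨I, fun i => β i + 1, subset_rfl, fun i _ => lt_add_one _, fun w => ?_, by simp⟩
      obtain ⟨i, hi, hw⟩ := h w
      exact ⟨i, hi, hw⟩
    | insert a S _ ih =>
      obtain ⟨J, T, hJ, hT, hh, ht⟩ := ih
      by_cases haJ : a ∈ J
      swap
      · refine ⟨J, T, hJ, hT, hh, fun j hj hjS => ht j hj ?_⟩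
        rcases Finset.mem_insert.mp hjS with rfl | hjS
        · exact absurd hj haJ
        · exact hjS
      by_cases hW : ∃ w, ∀ i ∈ J, i ≠ a → f i w < T i
      · have hlow : ∀ w, (∀ i ∈ J, i ≠ a → f i w < T i) → T a ≤ f a w := by
          intro w hw
          obtain ⟨i, hi, hiw⟩ := hh w
          by_cases hia : i = a
          · rwa [hia] at hiw
          · exact absurd (hw i hi hia) (not_lt.mpr hiw)
        obtain ⟨m, ⟨w0, hw0, hm⟩, hmin⟩ := Int.exists_least_of_bdd
          (P := fun z => ∃ w, (∀ i ∈ J, i ≠ a → f i w < T i) ∧ f a w = z)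
          ⟨T a, fun z ⟨w, hw, hz⟩ => hz ▸ hlow w hw⟩
          (by obtain ⟨w, hw⟩ := hW; exact ⟨_, w, hw, rfl⟩)
        have hTm : T a ≤ m := hm ▸ hlow w0 hw0
        have hle : ∀ i, T i ≤ Function.update T a m i := by
          intro i
          by_cases hia : i = a
          · subst hia; simpa using hTm
          · simp [hia]
        refine ⟨J, Function.update T a m, hJ, fun i hi => (hT i hi).trans_le (hle i),
          fun w => ?_, fun j hj hjS => ?_⟩
        · by_cases hw : ∀ i ∈ J, i ≠ a → f i w < T i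
          · exact ⟨a, haJ, by simpa using hmin _ ⟨w, hw, rfl⟩⟩
          · push Not at hw
            obtain ⟨i, hi, hia, hiw⟩ := hw
            exact ⟨i, hi, by simpa [hia] using hiw⟩
        · by_cases hja : j = a
          · subst hja
            exact ⟨w0, by simpa using hm, fun i hi hij => (hw0 i hi hij).trans_le (hle i)⟩
          · obtain ⟨w, hw1, hw2⟩ := ht j hj ((Finset.mem_insert.mp hjS).resolve_left hja)
            exact ⟨w, by simpa [hja] using hw1, fun i hi hij => (hw2 i hi hij).trans_le (hle i)⟩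
      · push Not at hW
        refine ⟨J.erase a, T, (Finset.erase_subset _ _).trans hJ,
          fun i hi => hT i (Finset.mem_of_mem_erase hi), fun w => ?_, fun j hj hjS => ?_⟩
        · obtain ⟨i, hi, hia, hiw⟩ := hW w
          exact ⟨i, Finset.mem_erase.mpr ⟨hia, hi⟩, hiw⟩
        · obtain ⟨hja, hjJ⟩ := Finset.mem_erase.mp hj
          obtain ⟨w, hw1, hw2⟩ := ht j hjJ ((Finset.mem_insert.mp hjS).resolve_left hja)
          exact ⟨w, hw1, fun i hi hij => hw2 i (Finset.mem_of_mem_erase hi) hij⟩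
  obtain ⟨J, T, hJ, hT, hh, ht⟩ := key I
  exact ⟨J, T, hJ, hT, hh, fun j hj => ht j hj (hJ hj)⟩

end Pool.Agent.MP_8c130c_co.Push
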