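import Pool.Agent.MP_8c130c_co.Defs
import Pool.Agent.MP_8c130c_co.Core
import Pool.Agent.MP_8c130c_co.Push
import Pool.Agent.MP_8c130c_co.Lattice3

/-!
A centrally symmetric lattice-bounded polyhedron in `ℝ³` of lattice width at least three, centred at
a half-lattice point, contains a lattice point.
-/

namespace Pool.Agent.MP_8c130c_co.Hollow

open Pool.Agent.MP_8c130c_co Lattice3

variable {ι : Type} {J : Finset ι} {U : ι → Fin 3 → ℤ} {T : ι → ℤ} {x : Fin 3 → ℤ}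

/-- `w` is congruent to `x` modulo two. -/
def Od (x w : Fin 3 → ℤ) : Prop := ∀ k, w k % 2 = x k % 2

/-- `w` is congruent to `x` modulo two and satisfies the closed constraints. -/
def Good (J : Finset ι) (U : ι → Fin 3 → ℤ) (T : ι → ℤ) (x w : Fin 3 → ℤ) : Prop :=
  Od x w ∧ ∀ j ∈ J, |U j ⬝ᵥ w| ≤ T j

/-- Half the sum of two vectors. -/
def hf (a b : Fin 3 → ℤ) : Fin 3 → ℤ := fun k => (a k + b k) / 2

lemma hf_spec {a b : Fin 3 → ℤ} (ha : Od x a) (hb : Od x b) (k : Fin 3) :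
    2 * hf a b k = a k + b k := by
  have := ha k
  have := hb k
  simp only [hf]
  omega

lemma d3_hf {w1 w2 w3 : Fin 3 → ℤ} (h1 : Od x w1) (h2 : Od x w2) (h3 : Od x w3) :
    d3 w1 w2 w3 = 4 * d3 (hf w2 w3) (hf w1 w3) (hf w1 w2) := by
  have e1 : ∀ k, w1 k = hf w1 w3 k + hf w1 w2 k - hf w2 w3 k := fun k => by
    have := hf_spec h1 h2 k; have := hf_spec h1 h3 k; have := hf_spec h2 h3 k; omega
  have e2 : ∀ k, w2 k = hf w2 w3 k + hf w1 w2 k - hf w1 w3 k := fun k => by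
    have := hf_spec h1 h2 k; have := hf_spec h1 h3 k; have := hf_spec h2 h3 k; omega
  have e3 : ∀ k, w3 k = hf w2 w3 k + hf w1 w3 k - hf w1 w2 k := fun k => by
    have := hf_spec h1 h2 k; have := hf_spec h1 h3 k; have := hf_spec h2 h3 k; omega
  generalize hf w2 w3 = v1 at *
  generalize hf w1 w3 = v2 at *
  generalize hf w1 w2 = v3 at *
  simp only [d3, e1, e2, e3]; ring

lemma smaller {N Z d d' : ℤ} (h : N * d' = Z * d) (hd : d ≠ 0) (hZ0 : 0 < |Z|) (hZ : |Z| < N) :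
    d' ≠ 0 ∧ |d'| < |d| := by
  have hN : 0 < N := by omega
  have h1 : N * |d'| = |Z| * |d| := by
    rw [← abs_mul, ← h, abs_mul, abs_of_pos hN]
  have h2 := abs_pos.mpr hd
  constructor
  · rintro rfl
    have := mul_pos hZ0 h2
    simp at h1
    rcases h1 with h1 | h1
    · rw [h1] at hZ0; simp at hZ0
    · exact hd h1
  · by_contra hc
    have h3 := mul_le_mul_of_nonneg_left (not_lt.mp hc) hN.le
    have h4 := mul_lt_mul_of_pos_right hZ h2
    omega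

lemma exists_basis (h0 : ¬Od x 0) (n : ℕ) :
    ∀ w1 w2 w3, Good J U T x w1 → Good J U T x w2 → Good J U T x w3 → d3 w1 w2 w3 ≠ 0 →
      |d3 w1 w2 w3| < n → ∃ w1 w2 w3, Good J U T x w1 ∧ Good J U T x w2 ∧ Good J U T x w3 ∧
        |d3 (hf w2 w3) (hf w1 w3) (hf w1 w2)| = 1 := by
  induction n with
  | zero => intro w1 w2 w3 _ _ _ _ h; exact absurd h (by simp)
  | succ n ih =>
    intro w1 w2 w3 g1 g2 g3 hd hn
    by_cases h1 : |d3 (hf w2 w3) (hf w1 w3) (hf w1 w2)| = 1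
    · exact ⟨w1, w2, w3, g1, g2, g3, h1⟩
    have h2 : 2 ≤ |d3 (hf w2 w3) (hf w1 w3) (hf w1 w2)| := by
      have : d3 (hf w2 w3) (hf w1 w3) (hf w1 w2) ≠ 0 := by
        intro h; rw [d3_hf g1.1 g2.1 g3.1, h] at hd; exact hd rfl
      have := abs_pos.mpr this
      omega
    obtain ⟨N, a, b, c, m, hm, a0, a1, b0, b1, c0, c1, s0, s1, hni⟩ := exists_oct _ _ _ h2
    have hN : 0 < N := by omega
    set w : Fin 3 → ℤ := fun k => 2 * m k - (w1 k + w2 k + w3 k) with hw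
    have hwk : ∀ k, N * w k = (b + c - N) * w1 k + (a + c - N) * w2 k + (a + b - N) * w3 k := by
      intro k
      simp only [hw]
      linear_combination -2 * hm k + a * hf_spec g2.1 g3.1 k + b * hf_spec g1.1 g3.1 k +
        c * hf_spec g1.1 g2.1 k
    have hZ : |b + c - N| + |a + c - N| + |a + b - N| ≤ N := by
      rcases abs_cases (b + c - N) with h | h <;> rcases abs_cases (a + c - N) with h' | h' <;>
        rcases abs_cases (a + b - N) with h'' | h'' <;> omega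
    have hod : Od x w := by
      intro k
      have := g1.1 k; have := g2.1 k; have := g3.1 k
      simp only [hw]; omega
    have gw : Good J U T x w := by
      refine ⟨hod, fun j hj => ?_⟩
      have e : N * (U j ⬝ᵥ w) = (b + c - N) * (U j ⬝ᵥ w1) + (a + c - N) * (U j ⬝ᵥ w2) +
          (a + b - N) * (U j ⬝ᵥ w3) := by
        simp only [dot3]
        linear_combination U j 0 * hwk 0 + U j 1 * hwk 1 + U j 2 * hwk 2
      have k1 := mul_le_mul_of_nonneg_left (g1.2 j hj) (abs_nonneg (b + c - N))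
      have k2 := mul_le_mul_of_nonneg_left (g2.2 j hj) (abs_nonneg (a + c - N))
      have k3 := mul_le_mul_of_nonneg_left (g3.2 j hj) (abs_nonneg (a + b - N))
      have hT : 0 ≤ T j := (abs_nonneg _).trans (g1.2 j hj)
      have k4 := mul_le_mul_of_nonneg_right hZ hT
      have k5 : N * |U j ⬝ᵥ w| ≤ N * T j := by
        rw [← abs_of_pos hN, ← abs_mul, abs_of_pos hN, e]
        refine (abs_add_three _ _ _).trans ?_
        rw [abs_mul, abs_mul, abs_mul]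
        linarith
      exact le_of_mul_le_mul_left k5 hN
    have hne : ¬(b + c - N = 0 ∧ a + c - N = 0 ∧ a + b - N = 0) := by
      rintro ⟨e1, e2, e3⟩
      refine h0 fun k => ?_
      have := hwk k
      rw [e1, e2, e3] at this
      have h3 : w k = 0 := by
        rcases mul_eq_zero.mp (this.trans (by ring)) with h | h
        · omega
        · exact h
      rw [← hod k, h3]; rfl
    have hcase : (0 < |b + c - N| ∧ |b + c - N| < N) ∨ (0 < |a + c - N| ∧ |a + c - N| < N) ∨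
        (0 < |a + b - N| ∧ |a + b - N| < N) := by
      rcases abs_cases (b + c - N) with h | h <;> rcases abs_cases (a + c - N) with h' | h' <;>
        rcases abs_cases (a + b - N) with h'' | h'' <;> omega
    rcases hcase with h | h | h
    · have := smaller (d' := d3 w w2 w3) (by
        simp only [d3]
        linear_combination (w2 1 * w3 2 - w2 2 * w3 1) * hwk 0 -
          (w2 0 * w3 2 - w2 2 * w3 0) * hwk 1 + (w2 0 * w3 1 - w2 1 * w3 0) * hwk 2) hd h.1 h.2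
      exact ih _ _ _ gw g2 g3 this.1 (by push_cast at hn; omega)
    · have := smaller (d' := d3 w1 w w3) (by
        simp only [d3]
        linear_combination -(w1 1 * w3 2 - w1 2 * w3 1) * hwk 0 +
          (w1 0 * w3 2 - w1 2 * w3 0) * hwk 1 - (w1 0 * w3 1 - w1 1 * w3 0) * hwk 2) hd h.1 h.2
      exact ih _ _ _ g1 gw g3 this.1 (by push_cast at hn; omega)
    · have := smaller (d' := d3 w1 w2 w) (by
        simp only [d3]
        linear_combination (w1 1 * w2 2 - w1 2 * w2 1) * hwk 0 -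
          (w1 0 * w2 2 - w1 2 * w2 0) * hwk 1 + (w1 0 * w2 1 - w1 1 * w2 0) * hwk 2) hd h.1 h.2
      exact ih _ _ _ g1 g2 gw this.1 (by push_cast at hn; omega)

lemma exists_dual {w1 w2 w3 : Fin 3 → ℤ} (h1 : Od x w1) (h2 : Od x w2) (h3 : Od x w3)
    (hd : |d3 (hf w2 w3) (hf w1 w3) (hf w1 w2)| = 1) (i j k : ℤ) (hij : i % 2 = j % 2)
    (hjk : j % 2 = k % 2) : ∃ u : Fin 3 → ℤ, u ⬝ᵥ w1 = i ∧ u ⬝ᵥ w2 = j ∧ u ⬝ᵥ w3 = k := by
  have e1 : ∀ k, w1 k = hf w1 w3 k + hf w1 w2 k - hf w2 w3 k := fun k => by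
    have := hf_spec h1 h2 k; have := hf_spec h1 h3 k; have := hf_spec h2 h3 k; omega
  have e2 : ∀ k, w2 k = hf w2 w3 k + hf w1 w2 k - hf w1 w3 k := fun k => by
    have := hf_spec h1 h2 k; have := hf_spec h1 h3 k; have := hf_spec h2 h3 k; omega
  have e3 : ∀ k, w3 k = hf w2 w3 k + hf w1 w3 k - hf w1 w2 k := fun k => by
    have := hf_spec h1 h2 k; have := hf_spec h1 h3 k; have := hf_spec h2 h3 k; omega
  generalize hf w2 w3 = v1 at *
  generalize hf w1 w3 = v2 at *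
  generalize hf w1 w2 = v3 at *
  have hδ : d3 v1 v2 v3 * d3 v1 v2 v3 = 1 := by rw [← abs_mul_abs_self, hd]; rfl
  obtain ⟨α, β, γ, rfl, rfl, rfl⟩ : ∃ α β γ : ℤ, i = β + γ - α ∧ j = α + γ - β ∧ k = α + β - γ :=
    ⟨(j + k) / 2, (i + k) / 2, (i + j) / 2, by omega, by omega, by omega⟩
  generalize hδ' : d3 v1 v2 v3 = δ at hδ
  have hδ2 : δ * d3 v1 v2 v3 = 1 := by rw [hδ', hδ]
  simp only [d3] at hδ2
  refine ⟨fun t => δ * (α * cr v2 v3 t + β * cr v3 v1 t + γ * cr v1 v2 t), ?_, ?_, ?_⟩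
  · simp only [dot3, cr0, cr1, cr2, e1]; linear_combination (β + γ - α) * hδ2
  · simp only [dot3, cr0, cr1, cr2, e2]; linear_combination (α + γ - β) * hδ2
  · simp only [dot3, cr0, cr1, cr2, e3]; linear_combination (α + β - γ) * hδ2

lemma cramer {w1 w2 w3 : Fin 3 → ℤ} (hd : d3 w1 w2 w3 ≠ 0) (p : Fin 3 → ℝ) :
    ∃ a b c : ℝ, ∀ u : Fin 3 → ℤ,
      toReal u ⬝ᵥ p = a * (u ⬝ᵥ w1 : ℤ) + b * (u ⬝ᵥ w2 : ℤ) + c * (u ⬝ᵥ w3 : ℤ) := by
  have hd' : d3 (toReal w1) (toReal w2) (toReal w3) ≠ 0 := by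
    have : ((d3 w1 w2 w3 : ℤ) : ℝ) ≠ 0 := by exact_mod_cast hd
    simpa [d3, toReal] using this
  refine ⟨d3 p (toReal w2) (toReal w3) / d3 (toReal w1) (toReal w2) (toReal w3),
    d3 (toReal w1) p (toReal w3) / d3 (toReal w1) (toReal w2) (toReal w3),
    d3 (toReal w1) (toReal w2) p / d3 (toReal w1) (toReal w2) (toReal w3), fun u => ?_⟩
  field_simp
  simp only [dot3, d3, toReal]
  push_cast
  ring

lemma false_of_basis {I : Finset ι} {D : ι → ℤ} (hJ : J ⊆ I) (hDT : ∀ j ∈ J, D j < T j)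
    (hol : ∀ w, Od x w → ∃ j ∈ J, T j ≤ |U j ⬝ᵥ w|)
    (wide : ∀ u : Fin 3 → ℤ, u ≠ 0 → ∃ p : Fin 3 → ℝ,
      (∀ i ∈ I, |toReal (U i) ⬝ᵥ p| ≤ D i) ∧ 3 ≤ toReal u ⬝ᵥ p)
    (hT : ∀ j ∈ J, 0 < T j) {w1 w2 w3 : Fin 3 → ℤ} (g1 : Good J U T x w1) (g2 : Good J U T x w2)
    (g3 : Good J U T x w3) (hd : |d3 (hf w2 w3) (hf w1 w3) (hf w1 w2)| = 1) : False := by
  have hd0 : d3 w1 w2 w3 ≠ 0 := by
    rw [d3_hf g1.1 g2.1 g3.1]
    intro h
    have : d3 (hf w2 w3) (hf w1 w3) (hf w1 w2) = 0 := by omega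
    rw [this] at hd; simp at hd
  let K : ℝ → ℝ → ℝ → Prop := fun a b c =>
    ∀ i ∈ I, |a * (U i ⬝ᵥ w1 : ℤ) + b * (U i ⬝ᵥ w2 : ℤ) + c * (U i ⬝ᵥ w3 : ℤ)| ≤ D i
  have row : ∀ j ∈ J, ∀ t : ℤ, |t| = T j → |((U j ⬝ᵥ w1 : ℤ) : ℝ) / t| ≤ 1 ∧
      |((U j ⬝ᵥ w2 : ℤ) : ℝ) / t| ≤ 1 ∧ |((U j ⬝ᵥ w3 : ℤ) : ℝ) / t| ≤ 1 ∧
      ∀ a b c, K a b c → |((U j ⬝ᵥ w1 : ℤ) : ℝ) / t * a + ((U j ⬝ᵥ w2 : ℤ) : ℝ) / t * b +
        ((U j ⬝ᵥ w3 : ℤ) : ℝ) / t * c| < 1 := by
    intro j hj t ht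
    have ht' : |(t : ℝ)| = T j := by exact_mod_cast ht
    have hT' : (0 : ℝ) < T j := by exact_mod_cast hT j hj
    have hb : ∀ w, Good J U T x w → |((U j ⬝ᵥ w : ℤ) : ℝ) / t| ≤ 1 := by
      intro w gw
      rw [abs_div, ht', div_le_one hT']
      exact_mod_cast gw.2 j hj
    refine ⟨hb _ g1, hb _ g2, hb _ g3, fun a b c hK => ?_⟩
    have h1 := hK j (hJ hj)
    have h2 : (D j : ℝ) < T j := by exact_mod_cast hDT j hj
    have e : ((U j ⬝ᵥ w1 : ℤ) : ℝ) / t * a + ((U j ⬝ᵥ w2 : ℤ) : ℝ) / t * b +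
        ((U j ⬝ᵥ w3 : ℤ) : ℝ) / t * c =
        (a * (U j ⬝ᵥ w1 : ℤ) + b * (U j ⬝ᵥ w2 : ℤ) + c * (U j ⬝ᵥ w3 : ℤ)) / t := by ring
    rw [e, abs_div, ht', div_lt_one hT']
    linarith
  have tight : ∀ w, Good J U T x w → ∃ j ∈ J, |U j ⬝ᵥ w| = T j ∧
      ((U j ⬝ᵥ w : ℤ) : ℝ) / (U j ⬝ᵥ w : ℤ) = 1 := by
    intro w gw
    obtain ⟨j, hj, h⟩ := hol w gw.1
    have h1 := le_antisymm (gw.2 j hj) h
    refine ⟨j, hj, h1, div_self ?_⟩
    have := hT j hj
    have h2 : U j ⬝ᵥ w ≠ 0 := by intro h3; rw [h3] at h1; simp at h1; omega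
    exact_mod_cast h2
  obtain ⟨j1, hj1, t1, o1⟩ := tight _ g1
  obtain ⟨j2, hj2, t2, o2⟩ := tight _ g2
  obtain ⟨j3, hj3, t3, o3⟩ := tight _ g3
  obtain ⟨-, b12, b13, r1⟩ := row j1 hj1 _ t1
  obtain ⟨b21, -, b23, r2⟩ := row j2 hj2 _ t2
  obtain ⟨b31, b32, -, r3⟩ := row j3 hj3 _ t3
  rw [o1] at r1
  rw [o2] at r2
  rw [o3] at r3
  simp only [one_mul] at r1 r2 r3
  refine Core.Cfg.false (K := K) ⟨?_, ?_, r1, r2, r3, b12, b13, b21, b23, b31, b32, ?_⟩
  · intro x1 y1 z1 x2 y2 z2 x3 y3 z3 l m n k1 k2 k3 hs i hi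
    have k1 := k1 i hi
    have k2 := k2 i hi
    have k3 := k3 i hi
    generalize ((U i ⬝ᵥ w1 : ℤ) : ℝ) = A at *
    generalize ((U i ⬝ᵥ w2 : ℤ) : ℝ) = B at *
    generalize ((U i ⬝ᵥ w3 : ℤ) : ℝ) = C at *
    have e : (l * x1 + m * x2 + n * x3) * A + (l * y1 + m * y2 + n * y3) * B +
        (l * z1 + m * z2 + n * z3) * C = l * (x1 * A + y1 * B + z1 * C) +
        m * (x2 * A + y2 * B + z2 * C) + n * (x3 * A + y3 * B + z3 * C) := by ring
    rw [e]
    refine (abs_add_three _ _ _).trans ?_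
    rw [abs_mul, abs_mul, abs_mul]
    have hD : (0 : ℝ) ≤ D i := (abs_nonneg _).trans k1
    have := mul_le_mul_of_nonneg_left k1 (abs_nonneg l)
    have := mul_le_mul_of_nonneg_left k2 (abs_nonneg m)
    have := mul_le_mul_of_nonneg_left k3 (abs_nonneg n)
    have := mul_le_mul_of_nonneg_right hs hD
    linarith
  · intro i j k h0 hij hjk
    obtain ⟨u, u1, u2, u3⟩ := exists_dual g1.1 g2.1 g3.1 hd i j k hij hjk
    have hu : u ≠ 0 := by
      rintro rfl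
      simp only [zero_dotProduct] at u1 u2 u3
      omega
    obtain ⟨p, hp, hup⟩ := wide u hu
    obtain ⟨a, b, c, habc⟩ := cramer hd0 p
    refine ⟨a, b, c, fun i hi => ?_, ?_⟩
    · rw [← habc]; exact hp i hi
    · rw [habc, u1, u2, u3] at hup; linarith
  · intro ρ σ τ hρ hσ hτ
    obtain ⟨j, hj, h⟩ := hol (fun k => ρ * w1 k + σ * w2 k + τ * w3 k) (by
      intro k
      have := g1.1 k; have := g2.1 k; have := g3.1 k
      beta_reduce
      rcases hρ with rfl | rfl <;> rcases hσ with rfl | rfl <;> rcases hτ with rfl | rfl <;> omega)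
    have e : (U j ⬝ᵥ fun k => ρ * w1 k + σ * w2 k + τ * w3 k) =
        ρ * (U j ⬝ᵥ w1) + σ * (U j ⬝ᵥ w2) + τ * (U j ⬝ᵥ w3) := by simp only [dot3]; ring
    rw [e] at h
    have hT' : (0 : ℝ) < T j := by exact_mod_cast hT j hj
    rcases le_abs'.mp h with h | h
    · obtain ⟨c1, c2, c3, r⟩ := row j hj (-T j) (by rw [abs_neg, abs_of_pos (hT j hj)])
      refine ⟨_, _, _, c1, c2, c3, ?_, r⟩
      have h' : ((ρ * (U j ⬝ᵥ w1) + σ * (U j ⬝ᵥ w2) + τ * (U j ⬝ᵥ w3) : ℤ) : ℝ) ≤ (-T j : ℤ) := by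
        exact_mod_cast h
      rw [mul_div_assoc', mul_div_assoc', mul_div_assoc', ← add_div, ← add_div,
        le_div_iff_of_neg (by push_cast; linarith)]
      push_cast at h' ⊢
      linarith
    · obtain ⟨c1, c2, c3, r⟩ := row j hj (T j) (abs_of_pos (hT j hj))
      refine ⟨_, _, _, c1, c2, c3, ?_, r⟩
      have h' : ((T j : ℤ) : ℝ) ≤ (ρ * (U j ⬝ᵥ w1) + σ * (U j ⬝ᵥ w2) + τ * (U j ⬝ᵥ w3) : ℤ) := by
        exact_mod_cast h
      rw [mul_div_assoc', mul_div_assoc', mul_div_assoc', ← add_div, ← add_div, le_div_iff₀ hT']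
      push_cast at h' ⊢
      linarith

theorem hollow (I : Finset ι) (U : ι → Fin 3 → ℤ) (D : ι → ℤ) (x : Fin 3 → ℤ)
    (hD : ∀ i ∈ I, 1 ≤ D i) (hprim : ∀ i ∈ I, ∃ e, U i ⬝ᵥ e = 1)
    (wide : ∀ u : Fin 3 → ℤ, u ≠ 0 → ∃ p : Fin 3 → ℝ,
      (∀ i ∈ I, |toReal (U i) ⬝ᵥ p| ≤ D i) ∧ 3 ≤ toReal u ⬝ᵥ p) :
    ∃ w, Od x w ∧ ∀ i ∈ I, |U i ⬝ᵥ w| ≤ D i := by
  classical
  by_contra hno
  obtain ⟨J, T, hJ, hDT, hol', htouch⟩ := Push.push (Ω := {w // Od x w}) I
    (fun i w => |U i ⬝ᵥ w.1|) D (by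
      intro w
      by_contra hc
      push Not at hc
      exact hno ⟨w.1, w.2, hc⟩)
  have hol : ∀ w, Od x w → ∃ j ∈ J, T j ≤ |U j ⬝ᵥ w| := fun w hw => hol' ⟨w, hw⟩
  have hT : ∀ j ∈ J, 1 < T j := fun j hj => (hD j (hJ hj)).trans_lt (hDT j hj)
  have htouch' : ∀ j ∈ J, ∃ w, Od x w ∧ |U j ⬝ᵥ w| = T j ∧
      ∀ i ∈ J, i ≠ j → |U i ⬝ᵥ w| < T i := by
    intro j hj
    obtain ⟨w, h1, h2⟩ := htouch j hj
    exact ⟨w.1, w.2, h1, h2⟩
  choose! p po pt ps using htouch'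
  have pg : ∀ j ∈ J, Good J U T x (p j) := by
    intro j hj
    refine ⟨po j hj, fun i hi => ?_⟩
    by_cases h : i = j
    · subst h; exact (pt i hi).le
    · exact (ps j hj i hi h).le
  have h0 : ¬Od x 0 := by
    intro h
    obtain ⟨j, hj, h1⟩ := hol 0 h
    have := hT j hj
    simp at h1; omega
  have hmid : ∀ a ∈ J, ∀ b ∈ J, a ≠ b → ∀ s : ℤ, (s = 1 ∨ s = -1) →
      ¬∀ k, (p a k - s * p b k) % 4 = 0 := by
    intro a ha b hb hab s hs h
    obtain ⟨i, hi, h1⟩ := hol (fun k => (p a k + s * p b k) / 2) (by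
      intro k
      have := h k; have := po a ha k; have := po b hb k
      beta_reduce
      rcases hs with rfl | rfl <;> omega)
    have e : ∀ k, 2 * ((p a k + s * p b k) / 2) = p a k + s * p b k := by
      intro k
      have := po a ha k; have := po b hb k
      rcases hs with rfl | rfl <;> omega
    have e2 : 2 * (U i ⬝ᵥ fun k => (p a k + s * p b k) / 2) = U i ⬝ᵥ p a + s * (U i ⬝ᵥ p b) := by
      simp only [dot3]
      linear_combination U i 0 * e 0 + U i 1 * e 1 + U i 2 * e 2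
    have k1 := (pg a ha).2 i hi
    have k2 := (pg b hb).2 i hi
    have k3 : |U i ⬝ᵥ p a| < T i ∨ |U i ⬝ᵥ p b| < T i := by
      by_cases h : i = a
      · right; exact ps b hb i hi (h ▸ hab)
      · left; exact ps a ha i hi h
    generalize (U i ⬝ᵥ fun k => (p a k + s * p b k) / 2) = z at *
    generalize U i ⬝ᵥ p a = z1 at *
    generalize U i ⬝ᵥ p b = z2 at *
    rcases abs_cases z with h | h <;> rcases abs_cases z1 with h' | h' <;>
      rcases abs_cases z2 with h'' | h'' <;> rcases hs with rfl | rfl <;> omega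
  obtain ⟨w1, w2, w3, g1, g2, g3, hd⟩ : ∃ w1 w2 w3, Good J U T x w1 ∧ Good J U T x w2 ∧
      Good J U T x w3 ∧ d3 w1 w2 w3 ≠ 0 := by
    obtain ⟨j1, hj1, -⟩ := hol x fun _ => rfl
    obtain ⟨e, he⟩ := hprim j1 (hJ hj1)
    obtain ⟨j2, hj2, h2⟩ := hol (fun k => x k - 2 * (U j1 ⬝ᵥ x / 2 * e k)) fun k => by
      beta_reduce
      omega
    have n12 : j1 ≠ j2 := by
      rintro rfl
      have e1 : (U j1 ⬝ᵥ fun k => x k - 2 * (U j1 ⬝ᵥ x / 2 * e k)) =
          U j1 ⬝ᵥ x - 2 * (U j1 ⬝ᵥ x / 2) := by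
        generalize U j1 ⬝ᵥ x / 2 = q
        simp only [dot3] at he ⊢
        linear_combination -2 * q * he
      rw [e1] at h2
      have := hT j1 hj1
      rcases abs_cases (U j1 ⬝ᵥ x - 2 * (U j1 ⬝ᵥ x / 2)) with h | h <;> omega
    by_cases h3 : ∃ j3 ∈ J, j3 ≠ j1 ∧ j3 ≠ j2
    · obtain ⟨j3, hj3, n31, n32⟩ := h3
      refine ⟨_, _, _, pg j1 hj1, pg j2 hj2, pg j3 hj3, ?_⟩
      have s12 := hf_spec (po j1 hj1) (po j2 hj2)
      have s13 := hf_spec (po j1 hj1) (po j3 hj3)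
      have e : d3 (p j1) (p j2) (p j3) = 4 * d3 (p j1) (hf (p j1) (p j2)) (hf (p j1) (p j3)) := by
        have e2 : ∀ k, p j2 k = 2 * hf (p j1) (p j2) k - p j1 k := fun k => by
          have := s12 k; omega
        have e3 : ∀ k, p j3 k = 2 * hf (p j1) (p j3) k - p j1 k := fun k => by
          have := s13 k; omega
        generalize hf (p j1) (p j2) = α at *
        generalize hf (p j1) (p j3) = β at *
        simp only [d3, e2, e3]; ring
      rw [e]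
      refine mul_ne_zero (by norm_num) (d3_ne_zero _ _ _ ?_ ?_ ?_ ?_ ?_ ?_ ?_)
      · intro h; refine h0 fun k => ?_
        rw [← po j1 hj1 k, h k]; rfl
      · intro h; refine hmid j1 hj1 j2 hj2 n12 (-1) (by simp) fun k => ?_
        have := h k; have := s12 k; omega
      · intro h; refine hmid j1 hj1 j3 hj3 n31.symm (-1) (by simp) fun k => ?_
        have := h k; have := s13 k; omega
      · intro h; refine hmid j1 hj1 j2 hj2 n12 1 (by simp) fun k => ?_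
        have := h k; have := s12 k; omega
      · intro h; refine hmid j1 hj1 j3 hj3 n31.symm 1 (by simp) fun k => ?_
        have := h k; have := s13 k; omega
      · intro h; refine hmid j2 hj2 j3 hj3 n32.symm 1 (by simp) fun k => ?_
        have := h k; have := s12 k; have := s13 k; omega
      · intro h; refine hmid j2 hj2 j3 hj3 n32.symm (-1) (by simp) fun k => ?_
        have := h k; have := s12 k; have := s13 k; omega
    · push Not at h3
      refine ⟨_, _, fun k => p j1 k + 2 * cr (U j1) (U j2) k, pg j1 hj1, pg j2 hj2,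
        ⟨fun k => ?_, fun j hj => ?_⟩, ?_⟩
      · have := po j1 hj1 k; beta_reduce; omega
      · have e : (U j ⬝ᵥ fun k => p j1 k + 2 * cr (U j1) (U j2) k) = U j ⬝ᵥ p j1 := by
          by_cases h : j = j1
          · subst h; simp only [dot3, cr0, cr1, cr2]; ring
          · rw [h3 j hj h]; simp only [dot3, cr0, cr1, cr2]; ring
        rw [e]; exact (pg j1 hj1).2 j hj
      · have e : d3 (p j1) (p j2) (fun k => p j1 k + 2 * cr (U j1) (U j2) k) =
            2 * ((U j1 ⬝ᵥ p j1) * (U j2 ⬝ᵥ p j2) - (U j1 ⬝ᵥ p j2) * (U j2 ⬝ᵥ p j1)) := by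
          simp only [d3, dot3, cr0, cr1, cr2]; ring
        rw [e]
        refine mul_ne_zero (by norm_num) (sub_ne_zero.mpr fun h => ?_)
        have h4 := congrArg abs h
        rw [abs_mul, abs_mul, pt j1 hj1, pt j2 hj2] at h4
        have k1 := ps j2 hj2 j1 hj1 n12
        have k2 := ps j1 hj1 j2 hj2 n12.symm
        have := mul_lt_mul'' k1 k2 (abs_nonneg _) (abs_nonneg _)
        omega
  obtain ⟨v1, v2, v3, k1, k2, k3, hv⟩ := exists_basis h0 (|d3 w1 w2 w3|.toNat + 1) w1 w2 w3 g1 g2 g3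
    hd (by have := abs_nonneg (d3 w1 w2 w3); push_cast; omega)
  exact false_of_basis hJ hDT hol wide (fun j hj => by have := hT j hj; omega) k1 k2 k3 hv

end Pool.Agent.MP_8c130c_co.Hollow
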