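import Pool.Agent.MP_8c130c_co.Push

/-!
A planar lemma of Fakhruddin and Haase-Nill-Paffenholz-Santos type: lattice points in the
intersection of a polygon `G` with lattice edges and an oppositely oriented lattice polygon `Q`.
-/

namespace Pool.Agent.MP_8c130c_co.Plane

def ev (u y : ℤ × ℤ) : ℤ := u.1 * y.1 + u.2 * y.2

def dt (u v : ℤ × ℤ) : ℤ := u.1 * v.2 - u.2 * v.1

lemma exists_inner (u v : ℤ × ℤ) (h : 2 ≤ |dt u v|) :
    ∃ (N s t : ℤ) (w : ℤ × ℤ), 0 ≤ s ∧ 0 ≤ t ∧ s < N ∧ t < N ∧ 0 < s + t ∧ s + t ≤ N ∧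
      N * w.1 = s * u.1 + t * v.1 ∧ N * w.2 = s * u.2 + t * v.2 := by
  set N := |dt u v| with hN
  have hN0 : 0 < N := by omega
  have hND : N ∣ dt u v := (abs_dvd _ _).mpr dvd_rfl
  have key : ∀ s t : ℤ, N ∣ s * u.1 + t * v.1 → N ∣ s * u.2 + t * v.2 → ¬(N ∣ s ∧ N ∣ t) →
      ∃ (s t : ℤ) (w : ℤ × ℤ), 0 ≤ s ∧ 0 ≤ t ∧ s < N ∧ t < N ∧ 0 < s + t ∧ s + t ≤ N ∧
        N * w.1 = s * u.1 + t * v.1 ∧ N * w.2 = s * u.2 + t * v.2 := by
    rintro s t ⟨m1, h1⟩ ⟨m2, h2⟩ h3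
    have s0 := Int.emod_nonneg s hN0.ne'
    have t0 := Int.emod_nonneg t hN0.ne'
    have s1 := Int.emod_lt_of_pos s hN0
    have t1 := Int.emod_lt_of_pos t hN0
    have s2 := Int.emod_add_mul_ediv s N
    have t2 := Int.emod_add_mul_ediv t N
    have h4 : 0 < s % N + t % N := by
      by_contra hc
      exact h3 ⟨Int.dvd_of_emod_eq_zero (by omega), Int.dvd_of_emod_eq_zero (by omega)⟩
    rcases le_or_gt (s % N + t % N) N with h5 | h5
    · refine ⟨s % N, t % N, (m1 - s / N * u.1 - t / N * v.1, m2 - s / N * u.2 - t / N * v.2),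
        s0, t0, s1, t1, h4, h5, ?_, ?_⟩
      · linear_combination -h1 - u.1 * s2 - v.1 * t2
      · linear_combination -h2 - u.2 * s2 - v.2 * t2
    · refine ⟨N - s % N, N - t % N, (u.1 + v.1 - (m1 - s / N * u.1 - t / N * v.1),
        u.2 + v.2 - (m2 - s / N * u.2 - t / N * v.2)), by omega, by omega, by omega, by omega,
        by omega, by omega, ?_, ?_⟩
      · linear_combination h1 + u.1 * s2 + v.1 * t2
      · linear_combination h2 + u.2 * s2 + v.2 * t2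
  refine ⟨N, ?_⟩
  by_cases c1 : N ∣ v.2 ∧ N ∣ -u.2
  · refine key (-v.1) u.1 ⟨0, by ring⟩ (by convert hND using 1; simp only [dt]; ring) ?_
    rintro ⟨⟨a, ha⟩, ⟨b, hb⟩⟩
    obtain ⟨⟨c, hc⟩, ⟨d, hd⟩⟩ := c1
    have : dt u v = N * (N * (b * c - a * d)) := by
      have e1 : v.1 = -(N * a) := by linarith
      have e2 : u.2 = -(N * d) := by linarith
      rw [dt, hb, hc, e1, e2]; ring
    have h6 : N = N * (N * |b * c - a * d|) := by
      conv_lhs => rw [hN, this, abs_mul, abs_mul, abs_of_pos hN0]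
    have h7 : N * |b * c - a * d| = 1 := by
      have := mul_left_cancel₀ hN0.ne' (h6.symm.trans (mul_one N).symm)
      exact this
    have := Int.eq_one_of_mul_eq_one_right hN0.le h7
    omega
  · exact key v.2 (-u.2) (by convert hND using 1; simp only [dt]; ring) ⟨0, by ring⟩ c1

lemma dt_ne_zero (u v : ℤ × ℤ) (h1 : ¬(u.1 % 2 = 0 ∧ u.2 % 2 = 0))
    (h2 : ¬(v.1 % 2 = 0 ∧ v.2 % 2 = 0)) (h3 : ¬((v.1 - u.1) % 2 = 0 ∧ (v.2 - u.2) % 2 = 0)) :
    dt u v ≠ 0 := by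
  intro h
  have h4 : dt u v % 2 = 0 := by rw [h]; rfl
  rw [dt, Int.sub_emod, Int.mul_emod, Int.mul_emod u.2] at h4
  rcases Int.emod_two_eq_zero_or_one u.1 with a | a <;>
    rcases Int.emod_two_eq_zero_or_one u.2 with b | b <;>
    rcases Int.emod_two_eq_zero_or_one v.1 with c | c <;>
    rcases Int.emod_two_eq_zero_or_one v.2 with d | d <;>
    simp only [a, b, c, d] at h4 <;> omega

lemma coords {u v : ℤ × ℤ} (h : |dt u v| = 1) (g : ℤ × ℤ) :
    g.1 = (dt u v * dt g v) * u.1 + (dt u v * dt u g) * v.1 ∧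
      g.2 = (dt u v * dt g v) * u.2 + (dt u v * dt u g) * v.2 := by
  have h2 : dt u v * dt u v = 1 := by rw [← abs_mul_abs_self, h]; rfl
  constructor
  · have : g.1 = dt u v * dt u v * g.1 := by rw [h2, one_mul]
    rw [this]; simp only [dt]; ring
  · have : g.2 = dt u v * dt u v * g.2 := by rw [h2, one_mul]
    rw [this]; simp only [dt]; ring

lemma ev_coords {p u v : ℤ × ℤ} (h : |dt u v| = 1) (f g : ℤ × ℤ) :
    ev f g = ev f p + (dt u v * dt (g - p) v) * ev f u + (dt u v * dt u (g - p)) * ev f v := by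
  obtain ⟨h1, h2⟩ := coords h (g - p)
  simp only [Prod.fst_sub, Prod.snd_sub] at h1 h2
  simp only [ev]
  linear_combination f.1 * h1 + f.2 * h2

lemma ev_sub (f a b : ℤ × ℤ) : ev f (a - b) = ev f a - ev f b := by
  simp only [ev, Prod.fst_sub, Prod.snd_sub]; ring

lemma ev_add (f a b : ℤ × ℤ) : ev f (a + b) = ev f a + ev f b := by
  simp only [ev, Prod.fst_add, Prod.snd_add]; ring

/-- One half of the case in which the two constraints of the same type are adjacent. -/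
lemma adjacent_half {f3 f4 p1 p2 p3 p4 g : ℤ × ℤ} (hp : p1 + p4 = p2 + p3)
    (hu : |dt (p2 - p1) (p3 - p1)| = 1) (h31 : ev f3 p1 < ev f3 p3) (h34 : ev f3 p4 < ev f3 p3)
    (h42 : ev f4 p2 < ev f4 p4) (h43 : ev f4 p3 < ev f4 p4) (g3 : ev f3 g < ev f3 p3)
    (g4 : ev f4 g < ev f4 p4) : dt (p2 - p1) (p3 - p1) * dt (p2 - p1) (g - p1) ≤ 0 := by
  have e3 := ev_coords (p := p1) hu f3 g
  have e4 := ev_coords (p := p1) hu f4 g
  have q3 := congrArg (ev f3) hp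
  have q4 := congrArg (ev f4) hp
  rw [ev_add, ev_add] at q3 q4
  rw [ev_sub, ev_sub] at e3 e4
  generalize dt (p2 - p1) (p3 - p1) * dt (g - p1) (p3 - p1) = k at e3 e4
  generalize dt (p2 - p1) (p3 - p1) * dt (p2 - p1) (g - p1) = h at e3 e4 ⊢
  by_contra hc
  have h1 : 1 ≤ h := by omega
  rcases le_or_gt k 0 with hk | hk
  · nlinarith [mul_nonneg (sub_nonneg.mpr h1) (sub_nonneg.mpr h31.le),
      mul_nonneg (neg_nonneg.mpr hk) (sub_nonneg.mpr h34.le)]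
  · have hk1 : 1 ≤ k := hk
    nlinarith [mul_nonneg (sub_nonneg.mpr h1) (sub_nonneg.mpr h42.le),
      mul_nonneg (sub_nonneg.mpr hk1) (sub_nonneg.mpr h43.le)]

lemma pos_low {α α' β β' γ γ' k h : ℤ} (a : 0 < α) (a' : 0 < α') (b : 0 < β) (b' : 0 < β')
    (c : 0 < γ) (c' : 0 < γ') (h1 : α * k - α' * h < α) (h2 : -β * k + β' * h < β')
    (h3 : γ * k + γ' * h ≤ 0) : k + h - 1 < 0 := by
  have hk : k ≤ 0 := by
    by_contra hc
    have hk1 : 1 ≤ k := by omega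
    have hh : h < 0 := by
      by_contra hd
      nlinarith [mul_nonneg c'.le (not_lt.mp hd), mul_pos c (show 0 < k by omega)]
    nlinarith [mul_nonneg a.le (sub_nonneg.mpr hk1), mul_pos a' (neg_pos.mpr hh)]
  have hh : h ≤ 0 := by
    by_contra hc
    have hh1 : 1 ≤ h := by omega
    nlinarith [mul_nonneg b'.le (sub_nonneg.mpr hh1), mul_nonneg b.le (neg_nonneg.mpr hk)]
  omega

lemma edge_aux {α α' β β' k h k' h' : ℤ} (a : 0 < α) (a' : 0 < α') (b : 0 < β)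
    (b' : 0 < β') (h2 : -β * k + β' * h < β') (h1' : α * k' - α' * h' < α) (e1 : k + 1 ≤ k')
    (e2 : h' + 1 ≤ h) : 0 < (α' * β - α * β') * (k + h - 1) := by
  have s1 : α + α' < α - α * k + α' * h := by
    nlinarith [mul_nonneg a.le (sub_nonneg.mpr e1), mul_nonneg a'.le (sub_nonneg.mpr e2)]
  have s2 : 0 < β' + β * k - β' * h := by linarith
  nlinarith [mul_pos (add_pos b b') (sub_pos.mpr s1), mul_pos (add_pos a a') s2]

lemma edge_sign {α α' β β' γ γ' k h k' h' : ℤ} (a : 0 < α) (a' : 0 < α') (b : 0 < β)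
    (b' : 0 < β') (c : 0 < γ) (c' : 0 < γ') (h1 : α * k - α' * h < α)
    (h2 : -β * k + β' * h < β') (h1' : α * k' - α' * h' < α) (h2' : -β * k' + β' * h' < β')
    (e : γ * k + γ' * h = γ * k' + γ' * h') (ne : ¬(k = k' ∧ h = h')) :
    0 < (α' * β - α * β') * (k + h - 1) ∨ 0 < (α' * β - α * β') * (k' + h' - 1) := by
  rcases lt_trichotomy k k' with hk | hk | hk
  · left
    refine edge_aux a a' b b' h2 h1' hk ?_
    by_contra hc
    nlinarith [mul_pos c (sub_pos.mpr hk), mul_nonneg c'.le (show 0 ≤ h' - h by omega)]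
  · exfalso
    refine ne ⟨hk, ?_⟩
    subst hk
    exact mul_left_cancel₀ c'.ne' (by linarith)
  · right
    refine edge_aux a a' b b' h2' h1 hk ?_
    by_contra hc
    nlinarith [mul_pos c (sub_pos.mpr hk), mul_nonneg c'.le (show 0 ≤ h - h' by omega)]

/-- The case in which constraints of the two types alternate. -/
lemma alternating {f1 f2 f3 f4 p1 p2 p3 p4 g g' r r' : ℤ × ℤ} (hp : p1 + p2 = p3 + p4)
    (hu : |dt (p3 - p1) (p4 - p1)| = 1)
    (h13 : ev f1 p3 < ev f1 p1) (h14 : ev f1 p4 < ev f1 p1)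
    (h23 : ev f2 p3 < ev f2 p2) (h24 : ev f2 p4 < ev f2 p2)
    (h31 : ev f3 p1 < ev f3 p3) (h32 : ev f3 p2 < ev f3 p3)
    (h41 : ev f4 p1 < ev f4 p4) (h42 : ev f4 p2 < ev f4 p4)
    (gne : g ≠ g') (ge : ev f1 g = ev f1 g') (g2 : ev f2 p2 ≤ ev f2 g) (g2' : ev f2 p2 ≤ ev f2 g')
    (g3 : ev f3 g < ev f3 p3) (g3' : ev f3 g' < ev f3 p3) (g4 : ev f4 g < ev f4 p4)
    (g4' : ev f4 g' < ev f4 p4)
    (rne : r ≠ r') (re : ev f2 r = ev f2 r') (r1 : ev f1 p1 ≤ ev f1 r) (r1' : ev f1 p1 ≤ ev f1 r')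
    (r3 : ev f3 r < ev f3 p3) (r3' : ev f3 r' < ev f3 p3) (r4 : ev f4 r < ev f4 p4)
    (r4' : ev f4 r' < ev f4 p4) : False := by
  have hc : ∀ z : ℤ × ℤ, ∃ k h : ℤ, ∀ f, ev f z = ev f p1 + k * (ev f p3 - ev f p1) +
      h * (ev f p4 - ev f p1) := by
    intro z
    exact ⟨_, _, fun f => by rw [← ev_sub, ← ev_sub]; exact ev_coords hu f z⟩
  have hne : ∀ (z z' : ℤ × ℤ) (k h : ℤ), (∀ f, ev f z = ev f p1 + k * (ev f p3 - ev f p1) +
      h * (ev f p4 - ev f p1)) → (∀ f, ev f z' = ev f p1 + k * (ev f p3 - ev f p1) +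
      h * (ev f p4 - ev f p1)) → z = z' := by
    intro z z' k h h1 h2
    have e1 := (h1 (1, 0)).trans (h2 (1, 0)).symm
    have e2 := (h1 (0, 1)).trans (h2 (0, 1)).symm
    simp only [ev, one_mul, zero_mul, add_zero, zero_add] at e1 e2
    exact Prod.ext e1 e2
  have q : ∀ f, ev f p2 = ev f p3 + ev f p4 - ev f p1 := by
    intro f
    have := congrArg (ev f) hp
    rw [ev_add, ev_add] at this
    linarith
  rw [q] at h23 h24 h32 h42 g2 g2'
  obtain ⟨k1, l1, e1⟩ := hc g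
  obtain ⟨k2, l2, e2⟩ := hc g'
  obtain ⟨k3, l3, e3⟩ := hc r
  obtain ⟨k4, l4, e4⟩ := hc r'
  have n12 : ¬(k1 = k2 ∧ l1 = l2) := by
    rintro ⟨rfl, rfl⟩; exact gne (hne _ _ _ _ e1 e2)
  have n34 : ¬(k3 = k4 ∧ l3 = l4) := by
    rintro ⟨rfl, rfl⟩; exact rne (hne _ _ _ _ e3 e4)
  rw [e1] at g2 g3 g4
  rw [e2] at g2' g3' g4'
  rw [e3] at r1 r3 r4
  rw [e4] at r1' r3' r4'
  rw [e1, e2] at ge
  rw [e3, e4] at re
  have a : 0 < ev f3 p3 - ev f3 p1 := by linarith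
  have a' : 0 < ev f3 p1 - ev f3 p4 := by linarith
  have b : 0 < ev f4 p1 - ev f4 p3 := by linarith
  have b' : 0 < ev f4 p4 - ev f4 p1 := by linarith
  have c : 0 < ev f1 p1 - ev f1 p3 := by linarith
  have c' : 0 < ev f1 p1 - ev f1 p4 := by linarith
  have d : 0 < ev f2 p3 - ev f2 p1 := by linarith
  have d' : 0 < ev f2 p4 - ev f2 p1 := by linarith
  have s1 := edge_sign (k := k1) (h := l1) (k' := k2) (h' := l2) a a' b b' c c' (by linarith)
    (by linarith) (by linarith) (by linarith) (by linarith) n12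
  have s2 := edge_sign (k := k3) (h := l3) (k' := k4) (h' := l4) a a' b b' d d' (by linarith)
    (by linarith) (by linarith) (by linarith) (by linarith) n34
  have t1 := pos_low (k := 1 - k1) (h := 1 - l1) b b' a a' d d' (by linarith) (by linarith)
    (by linarith)
  have t2 := pos_low (k := 1 - k2) (h := 1 - l2) b b' a a' d d' (by linarith) (by linarith)
    (by linarith)
  have t3 := pos_low (k := k3) (h := l3) a a' b b' c c' (by linarith) (by linarith)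
    (by linarith)
  have t4 := pos_low (k := k4) (h := l4) a a' b b' c c' (by linarith) (by linarith)
    (by linarith)
  generalize (ev f3 p1 - ev f3 p4) * (ev f4 p1 - ev f4 p3) -
    (ev f3 p3 - ev f3 p1) * (ev f4 p4 - ev f4 p1) = κ at s1 s2
  have hκ : 0 < κ := by
    rcases s1 with s1 | s1
    · exact (mul_pos_iff_of_pos_right (by omega)).mp s1
    · exact (mul_pos_iff_of_pos_right (by omega)).mp s1
  rcases s2 with s2 | s2
  · nlinarith
  · nlinarith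

section touch

variable {σ : Type} {J : Finset σ} {F : σ → ℤ × ℤ} {T : σ → ℤ} {p : σ → ℤ × ℤ}

lemma incongruent (hol : ∀ w, ∃ i ∈ J, T i ≤ ev (F i) w) (ht : ∀ j ∈ J, ev (F j) (p j) = T j)
    (hs : ∀ j ∈ J, ∀ i ∈ J, i ≠ j → ev (F i) (p j) < T i) {a b : σ} (ha : a ∈ J) (hb : b ∈ J)
    (hab : a ≠ b) : ¬((p b - p a).1 % 2 = 0 ∧ (p b - p a).2 % 2 = 0) := by
  rintro ⟨h1, h2⟩
  simp only [Prod.fst_sub, Prod.snd_sub] at h1 h2
  obtain ⟨i, hi, hw⟩ := hol (((p a).1 + (p b).1) / 2, ((p a).2 + (p b).2) / 2)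
  have e1 : 2 * (((p a).1 + (p b).1) / 2) = (p a).1 + (p b).1 := by omega
  have e2 : 2 * (((p a).2 + (p b).2) / 2) = (p a).2 + (p b).2 := by omega
  have e : 2 * ev (F i) (((p a).1 + (p b).1) / 2, ((p a).2 + (p b).2) / 2) =
      ev (F i) (p a) + ev (F i) (p b) := by
    simp only [ev]; linear_combination (F i).1 * e1 + (F i).2 * e2
  by_cases hia : i = a
  · subst hia
    have := ht i hi
    have := hs b hb i hi hab
    omega
  · have := hs a ha i hi hia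
    by_cases hib : i = b
    · subst hib
      have := ht i hi
      omega
    · have := hs b hb i hi hib
      omega

lemma unimod (hol : ∀ w, ∃ i ∈ J, T i ≤ ev (F i) w) (ht : ∀ j ∈ J, ev (F j) (p j) = T j)
    (hs : ∀ j ∈ J, ∀ i ∈ J, i ≠ j → ev (F i) (p j) < T i) {a b c : σ} (ha : a ∈ J) (hb : b ∈ J)
    (hc : c ∈ J) (hab : a ≠ b) (hac : a ≠ c) (hbc : b ≠ c) :
    |dt (p b - p a) (p c - p a)| = 1 := by
  have h0 : dt (p b - p a) (p c - p a) ≠ 0 := by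
    refine dt_ne_zero _ _ (incongruent hol ht hs ha hb hab) (incongruent hol ht hs ha hc hac) ?_
    have := incongruent hol ht hs hb hc hbc
    simp only [Prod.fst_sub, Prod.snd_sub] at this ⊢
    omega
  by_contra h1
  have h2 : 2 ≤ |dt (p b - p a) (p c - p a)| := by
    have := abs_pos.mpr h0
    omega
  obtain ⟨N, s, t, w, s0, t0, s1, t1, st0, st1, e1, e2⟩ := exists_inner _ _ h2
  simp only [Prod.fst_sub, Prod.snd_sub] at e1 e2
  obtain ⟨i, hi, hw⟩ := hol (p a + w)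
  have e : N * ev (F i) (p a + w) =
      (N - s - t) * ev (F i) (p a) + s * ev (F i) (p b) + t * ev (F i) (p c) := by
    simp only [ev, Prod.fst_add, Prod.snd_add]
    linear_combination (F i).1 * e1 + (F i).2 * e2
  have hN : 0 < N := by omega
  have k0 := mul_le_mul_of_nonneg_left hw hN.le
  have r0 : 0 ≤ N - s - t := by omega
  by_cases hia : i = a
  · subst hia
    have k1 := ht i hi
    have k2 := hs b hb i hi hab
    have k3 := hs c hc i hi hac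
    nlinarith [mul_nonneg s0 (show 0 ≤ T i - 1 - ev (F i) (p b) by omega),
      mul_nonneg t0 (show 0 ≤ T i - 1 - ev (F i) (p c) by omega)]
  have k1 := hs a ha i hi hia
  by_cases hib : i = b
  · subst hib
    have k2 := ht i hi
    have k3 := hs c hc i hi hbc
    nlinarith [mul_nonneg r0 (show 0 ≤ T i - 1 - ev (F i) (p a) by omega),
      mul_nonneg t0 (show 0 ≤ T i - 1 - ev (F i) (p c) by omega)]
  have k2 := hs b hb i hi hib
  have k3 : ev (F i) (p c) ≤ T i := by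
    by_cases hic : i = c
    · subst hic; exact (ht i hi).le
    · exact (hs c hc i hi hic).le
  nlinarith [mul_nonneg r0 (show 0 ≤ T i - 1 - ev (F i) (p a) by omega),
    mul_nonneg s0 (show 0 ≤ T i - 1 - ev (F i) (p b) by omega),
    mul_nonneg t0 (show 0 ≤ T i - ev (F i) (p c) by omega)]

lemma card_le_four (hol : ∀ w, ∃ i ∈ J, T i ≤ ev (F i) w) (ht : ∀ j ∈ J, ev (F j) (p j) = T j)
    (hs : ∀ j ∈ J, ∀ i ∈ J, i ≠ j → ev (F i) (p j) < T i) : J.card ≤ 4 := by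
  have h : J.card ≤ ((Finset.Icc (0 : ℤ) 1) ×ˢ (Finset.Icc (0 : ℤ) 1)).card := by
    refine Finset.card_le_card_of_injOn (fun j => ((p j).1 % 2, (p j).2 % 2)) ?_ ?_
    · intro j _
      simp only [Finset.coe_product, Finset.coe_Icc, Set.mem_prod, Set.mem_Icc]
      omega
    · intro a ha b hb hab
      by_contra hne
      refine incongruent hol ht hs ha hb hne ?_
      simp only [Prod.mk.injEq] at hab
      simp only [Prod.fst_sub, Prod.snd_sub]
      omega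
  simpa using h

end touch

lemma parallelogram {p1 p2 p3 p4 : ℤ × ℤ} (h123 : |dt (p2 - p1) (p3 - p1)| = 1)
    (h124 : |dt (p2 - p1) (p4 - p1)| = 1) (h134 : |dt (p3 - p1) (p4 - p1)| = 1)
    (h234 : |dt (p3 - p2) (p4 - p2)| = 1) :
    p1 + p4 = p2 + p3 ∨ p1 + p2 = p3 + p4 ∨ p1 + p3 = p2 + p4 := by
  obtain ⟨e1, e2⟩ := coords h123 (p4 - p1)
  have h143 : |dt (p4 - p1) (p3 - p1)| = 1 := by
    rw [← h134, ← abs_neg]; congr 1; simp only [dt]; ring
  have e3 : dt (p3 - p2) (p4 - p2) =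
      dt (p2 - p1) (p3 - p1) - dt (p2 - p1) (p4 - p1) - dt (p4 - p1) (p3 - p1) := by
    simp only [dt, Prod.fst_sub, Prod.snd_sub]; ring
  rw [e3] at h234
  simp only [Prod.fst_sub, Prod.snd_sub] at e1 e2
  simp only [Prod.ext_iff, Prod.fst_add, Prod.snd_add]
  generalize dt (p2 - p1) (p3 - p1) = a at *
  generalize dt (p2 - p1) (p4 - p1) = b at *
  generalize dt (p4 - p1) (p3 - p1) = c at *
  rcases abs_eq (by norm_num) |>.mp h123 with rfl | rfl <;>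
    rcases abs_eq (by norm_num) |>.mp h124 with rfl | rfl <;>
    rcases abs_eq (by norm_num) |>.mp h143 with rfl | rfl <;>
    first
      | omega
      | (exfalso; revert h234; decide)

lemma adjacent {f1 f2 f3 f4 p1 p2 p3 p4 : ℤ × ℤ} (hp : p1 + p4 = p2 + p3)
    (hu : |dt (p2 - p1) (p3 - p1)| = 1)
    (h12 : ev f1 p2 < ev f1 p1) (h13 : ev f1 p3 < ev f1 p1)
    (h21 : ev f2 p1 < ev f2 p2) (h24 : ev f2 p4 < ev f2 p2)
    (h31 : ev f3 p1 < ev f3 p3) (h34 : ev f3 p4 < ev f3 p3)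
    (h42 : ev f4 p2 < ev f4 p4) (h43 : ev f4 p3 < ev f4 p4)
    (H : ∀ φ : ℤ × ℤ, ∃ g q : ℤ × ℤ, ev f3 g < ev f3 p3 ∧ ev f4 g < ev f4 p4 ∧
      ev f1 q < ev f1 p1 ∧ ev f2 q < ev f2 p2 ∧ ev φ q ≤ ev φ g) : False := by
  obtain ⟨g, q, g3, g4, q1, q2, hφ⟩ := H (-(dt (p2 - p1) (p3 - p1) * (p2 - p1).2),
    dt (p2 - p1) (p3 - p1) * (p2 - p1).1)
  have k1 := adjacent_half hp hu h31 h34 h42 h43 g3 g4
  have e4 : p4 - p3 = p2 - p1 := by
    rw [sub_eq_sub_iff_add_eq_add, add_comm p4, hp]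
  have e5 : dt (p4 - p3) (p1 - p3) = -dt (p2 - p1) (p3 - p1) := by
    rw [e4]; simp only [dt, Prod.fst_sub, Prod.snd_sub]; ring
  have k2 := adjacent_half (p1 := p3) (p2 := p4) (p3 := p1) (p4 := p2) (f3 := f1) (f4 := f2)
    (g := q) (by rw [add_comm p3, add_comm p4, hp]) (by rw [e5, abs_neg, hu]) h13 h12 h24 h21 q1 q2
  rw [e5, e4] at k2
  have h2 : dt (p2 - p1) (p3 - p1) * dt (p2 - p1) (p3 - p1) = 1 := by
    rw [← abs_mul_abs_self, hu]; rfl
  have e6 : dt (p2 - p1) (q - p3) = dt (p2 - p1) (q - p1) - dt (p2 - p1) (p3 - p1) := by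
    simp only [dt, Prod.fst_sub, Prod.snd_sub]; ring
  have e7 : dt (p2 - p1) (p3 - p1) * dt (p2 - p1) (q - p1) ≤
      dt (p2 - p1) (p3 - p1) * dt (p2 - p1) (g - p1) := by
    generalize dt (p2 - p1) (p3 - p1) = D at hφ ⊢
    simp only [ev, dt, Prod.fst_sub, Prod.snd_sub] at hφ ⊢
    linarith
  rw [e6] at k2
  linarith

theorem plane {ι : Type} (I : Finset ι) (U : ι → ℤ × ℤ) (b c : ι → ℤ)
    (hbc : ∀ κ ∈ I, b κ ≤ c κ)
    (H1 : ∀ κ ∈ I, ∃ g g' : ℤ × ℤ, g ≠ g' ∧ (∀ m ∈ I, b m ≤ ev (U m) g) ∧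
      (∀ m ∈ I, b m ≤ ev (U m) g') ∧ ev (U κ) g = b κ ∧ ev (U κ) g' = b κ)
    (H2 : ∀ κ ∈ I, ∃ q : ℤ × ℤ, (∀ m ∈ I, ev (U m) q ≤ c m) ∧ ev (U κ) q = c κ)
    (H3 : ∀ φ : ℤ × ℤ, ∃ g q : ℤ × ℤ, (∀ m ∈ I, b m ≤ ev (U m) g) ∧
      (∀ m ∈ I, ev (U m) q ≤ c m) ∧ ev φ q ≤ ev φ g) :
    ∃ y : ℤ × ℤ, ∀ m ∈ I, b m ≤ ev (U m) y ∧ ev (U m) y ≤ c m := by
  classical
  by_contra hno
  let F : ι × Bool → ℤ × ℤ := fun i => if i.2 then U i.1 else -U i.1
  let β : ι × Bool → ℤ := fun i => if i.2 then c i.1 else -b i.1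
  have ev_neg : ∀ u y, ev (-u) y = -ev u y := by
    intro u y; simp only [ev, Prod.fst_neg, Prod.snd_neg]; ring
  obtain ⟨J, T, hJ, hT, hol, htouch⟩ := Push.push (I ×ˢ Finset.univ) (fun i => ev (F i)) β (by
    intro w
    by_contra hc
    push Not at hc
    refine hno ⟨w, fun m hm => ⟨?_, ?_⟩⟩
    · have := hc (m, false) (by simp [hm])
      simp only [F, β, Bool.false_eq_true, if_false, ev_neg] at this
      omega
    · simpa [F, β] using hc (m, true) (by simp [hm]))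
  choose! p ht hs using htouch
  have hI : ∀ i ∈ J, i.1 ∈ I := fun i hi => (Finset.mem_product.mp (hJ hi)).1
  have hG : ∀ g, (∀ m ∈ I, b m ≤ ev (U m) g) → ∀ i ∈ J, i.2 = false → ev (F i) g < T i := by
    intro g hg i hi h2
    have h1 := hT i hi
    have h3 := hg _ (hI i hi)
    simp only [F, β, h2, Bool.false_eq_true, if_false, ev_neg] at h1 ⊢
    omega
  have hQ : ∀ q, (∀ m ∈ I, ev (U m) q ≤ c m) → ∀ i ∈ J, i.2 = true → ev (F i) q < T i := by
    intro q hq i hi h2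
    have h1 := hT i hi
    have h3 := hq _ (hI i hi)
    simp only [F, β, h2, if_true] at h1 ⊢
    omega
  have hGe : ∀ g, ∀ i ∈ J, i.2 = true → ev (U i.1) g = b i.1 → ev (F i) g < T i := by
    intro g i hi h2 hg
    have h1 := hT i hi
    have h3 := hbc _ (hI i hi)
    simp only [F, β, h2, if_true] at h1 ⊢
    omega
  have hQe : ∀ q, ∀ i ∈ J, i.2 = false → ev (U i.1) q = c i.1 → ev (F i) q < T i := by
    intro q i hi h2 hq
    have h1 := hT i hi
    have h3 := hbc _ (hI i hi)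
    simp only [F, β, h2, Bool.false_eq_true, if_false, ev_neg] at h1 ⊢
    omega
  obtain ⟨j1, hj1, j2, hj2, t1, t2, n12⟩ : ∃ j1 ∈ J, ∃ j2 ∈ J, j1.2 = true ∧ j2.2 = true ∧
      j1 ≠ j2 := by
    obtain ⟨g0, -, hg0, -, -⟩ := H3 0
    obtain ⟨j1, hj1, k1⟩ := hol g0
    have t1 : j1.2 = true := by
      by_contra hc
      exact absurd (hG g0 hg0 j1 hj1 (by simpa using hc)) (not_lt.mpr k1)
    obtain ⟨g, -, -, hg, -, hge, -⟩ := H1 _ (hI j1 hj1)
    obtain ⟨j2, hj2, k2⟩ := hol g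
    refine ⟨j1, hj1, j2, hj2, t1, ?_, ?_⟩
    · by_contra hc
      exact absurd (hG g hg j2 hj2 (by simpa using hc)) (not_lt.mpr k2)
    · rintro rfl
      exact absurd (hGe g j1 hj1 t1 hge) (not_lt.mpr k2)
  obtain ⟨j3, hj3, j4, hj4, t3, t4, n34⟩ : ∃ j3 ∈ J, ∃ j4 ∈ J, j3.2 = false ∧ j4.2 = false ∧
      j3 ≠ j4 := by
    obtain ⟨-, q0, -, hq0, -⟩ := H3 0
    obtain ⟨j1, hj1, k1⟩ := hol q0
    have t1 : j1.2 = false := by
      by_contra hc
      exact absurd (hQ q0 hq0 j1 hj1 (by simpa using hc)) (not_lt.mpr k1)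
    obtain ⟨q, hq, hqe⟩ := H2 _ (hI j1 hj1)
    obtain ⟨j2, hj2, k2⟩ := hol q
    refine ⟨j1, hj1, j2, hj2, t1, ?_, ?_⟩
    · by_contra hc
      exact absurd (hQ q hq j2 hj2 (by simpa using hc)) (not_lt.mpr k2)
    · rintro rfl
      exact absurd (hQe q j1 hj1 t1 hqe) (not_lt.mpr k2)
  have nn : ∀ a b : ι × Bool, a.2 = true → b.2 = false → a ≠ b := by
    rintro a b h1 h2 rfl
    rw [h1] at h2; cases h2
  have n13 := nn _ _ t1 t3
  have n14 := nn _ _ t1 t4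
  have n23 := nn _ _ t2 t3
  have n24 := nn _ _ t2 t4
  have hJ4 : ∀ i ∈ J, i = j1 ∨ i = j2 ∨ i = j3 ∨ i = j4 := by
    have h4 := card_le_four hol ht hs
    have hsub : ({j1, j2, j3, j4} : Finset (ι × Bool)) ⊆ J := by
      intro i hi
      simp only [Finset.mem_insert, Finset.mem_singleton] at hi
      rcases hi with rfl | rfl | rfl | rfl <;> assumption
    have hcard : ({j1, j2, j3, j4} : Finset (ι × Bool)).card = 4 := by
      rw [Finset.card_insert_of_notMem (by simp [n12, n13, n14]),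
        Finset.card_insert_of_notMem (by simp [n23, n24]), Finset.card_pair n34]
    have := Finset.eq_of_subset_of_card_le hsub (by omega)
    intro i hi
    rw [← this] at hi
    simpa using hi
  have lt : ∀ i ∈ J, ∀ j ∈ J, i ≠ j → ev (F i) (p j) < ev (F i) (p i) := by
    intro i hi j hj hij
    rw [ht i hi]; exact hs j hj i hi hij
  have H : ∀ φ : ℤ × ℤ, ∃ g q : ℤ × ℤ, ev (F j3) g < ev (F j3) (p j3) ∧
      ev (F j4) g < ev (F j4) (p j4) ∧ ev (F j1) q < ev (F j1) (p j1) ∧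
      ev (F j2) q < ev (F j2) (p j2) ∧ ev φ q ≤ ev φ g := by
    intro φ
    obtain ⟨g, q, hg, hq, h⟩ := H3 φ
    rw [ht _ hj1, ht _ hj2, ht _ hj3, ht _ hj4]
    exact ⟨g, q, hG g hg _ hj3 t3, hG g hg _ hj4 t4, hQ q hq _ hj1 t1, hQ q hq _ hj2 t2, h⟩
  rcases parallelogram (unimod hol ht hs hj1 hj2 hj3 n12 n13 n23)
    (unimod hol ht hs hj1 hj2 hj4 n12 n14 n24) (unimod hol ht hs hj1 hj3 hj4 n13 n14 n34)
    (unimod hol ht hs hj2 hj3 hj4 n23 n24 n34) with hp | hp | hp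
  · exact adjacent hp (unimod hol ht hs hj1 hj2 hj3 n12 n13 n23) (lt _ hj1 _ hj2 n12)
      (lt _ hj1 _ hj3 n13) (lt _ hj2 _ hj1 n12.symm) (lt _ hj2 _ hj4 n24)
      (lt _ hj3 _ hj1 n13.symm) (lt _ hj3 _ hj4 n34) (lt _ hj4 _ hj2 n24.symm)
      (lt _ hj4 _ hj3 n34.symm) H
  · obtain ⟨g, g', gne, hg, hg', ge, ge'⟩ := H1 _ (hI j1 hj1)
    obtain ⟨r, r', rne, hr, hr', re, re'⟩ := H1 _ (hI j2 hj2)
    have v2 : ∀ g, (∀ m ∈ I, b m ≤ ev (U m) g) → ev (U j1.1) g = b j1.1 →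
        ev (F j2) (p j2) ≤ ev (F j2) g := by
      intro g hg ge
      obtain ⟨i, hi, k⟩ := hol g
      rcases hJ4 i hi with rfl | rfl | rfl | rfl
      · exact absurd (hGe g _ hi t1 ge) (not_lt.mpr k)
      · rwa [ht _ hi]
      · exact absurd (hG g hg _ hi t3) (not_lt.mpr k)
      · exact absurd (hG g hg _ hi t4) (not_lt.mpr k)
    have v1 : ∀ g, (∀ m ∈ I, b m ≤ ev (U m) g) → ev (U j2.1) g = b j2.1 →
        ev (F j1) (p j1) ≤ ev (F j1) g := by
      intro g hg ge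
      obtain ⟨i, hi, k⟩ := hol g
      rcases hJ4 i hi with rfl | rfl | rfl | rfl
      · rwa [ht _ hi]
      · exact absurd (hGe g _ hi t2 ge) (not_lt.mpr k)
      · exact absurd (hG g hg _ hi t3) (not_lt.mpr k)
      · exact absurd (hG g hg _ hi t4) (not_lt.mpr k)
    have w3 : ∀ g, (∀ m ∈ I, b m ≤ ev (U m) g) → ev (F j3) g < ev (F j3) (p j3) := by
      intro g hg; rw [ht _ hj3]; exact hG g hg _ hj3 t3
    have w4 : ∀ g, (∀ m ∈ I, b m ≤ ev (U m) g) → ev (F j4) g < ev (F j4) (p j4) := by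
      intro g hg; rw [ht _ hj4]; exact hG g hg _ hj4 t4
    exact alternating hp (unimod hol ht hs hj1 hj3 hj4 n13 n14 n34) (lt _ hj1 _ hj3 n13)
      (lt _ hj1 _ hj4 n14) (lt _ hj2 _ hj3 n23) (lt _ hj2 _ hj4 n24) (lt _ hj3 _ hj1 n13.symm)
      (lt _ hj3 _ hj2 n23.symm) (lt _ hj4 _ hj1 n14.symm) (lt _ hj4 _ hj2 n24.symm) gne
      (by simp only [F, t1, if_true, ge, ge']) (v2 g hg ge) (v2 g' hg' ge') (w3 g hg) (w3 g' hg')
      (w4 g hg) (w4 g' hg') rne (by simp only [F, t2, if_true, re, re']) (v1 r hr re)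
      (v1 r' hr' re') (w3 r hr) (w3 r' hr') (w4 r hr) (w4 r' hr')
  · refine adjacent hp (unimod hol ht hs hj1 hj2 hj4 n12 n14 n24) (lt _ hj1 _ hj2 n12)
      (lt _ hj1 _ hj4 n14) (lt _ hj2 _ hj1 n12.symm) (lt _ hj2 _ hj3 n23)
      (lt _ hj4 _ hj1 n14.symm) (lt _ hj4 _ hj3 n34.symm) (lt _ hj3 _ hj2 n23.symm)
      (lt _ hj3 _ hj4 n34) fun φ => ?_
    obtain ⟨g, q, a1, a2, a3, a4, a5⟩ := H φ
    exact ⟨g, q, a2, a1, a3, a4, a5⟩

end Pool.Agent.MP_8c130c_co.Plane
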