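import Pool.Agent.MP_8c130c_co.Wide
import Pool.Agent.MP_8c130c_co.Hollow
import Pool.Agent.MP_8c130c_co.Plane

/-!
Oda's conjecture in dimension three.
-/

namespace Pool.Agent.MP_8c130c_co

open Reduce Pointwise

section facet

variable {d : ℕ} {P : Set (Fin d → ℝ)} {σ : Type} [Fintype σ] {c : σ → Corner P}

/-- The corner `t` lies on the facet of the corner `c0` with inner normal `c0.u i`, and this normal
is its `j`-th normal. -/
def OnFacet (c : σ → Corner P) (c0 : Corner P) (i : Fin d) (t : σ) (j : Fin d) : Prop :=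
  c0.u i ⬝ᵥ ((c t).v - c0.v) = 0 ∧ (c t).u j = c0.u i

lemma exists_facet (hmin : ∀ a : Fin d → ℝ, ∃ s, ∀ y ∈ P, a ⬝ᵥ toReal (c s).v ≤ a ⬝ᵥ y)
    (c0 : Corner P) (i : Fin d) (a : Fin d → ℝ) :
    ∃ t j, OnFacet c c0 i t j ∧ ∀ k, k ≠ j → 0 ≤ a ⬝ᵥ toReal ((c t).e k) := by
  obtain ⟨N, hN⟩ := Finite.exists_le fun t => a ⬝ᵥ toReal c0.v - a ⬝ᵥ toReal (c t).v + 1
  obtain ⟨t, ht⟩ := hmin (a + |N| • toReal (c0.u i))
  have h0 : c0.u i ⬝ᵥ ((c t).v - c0.v) = 0 := by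
    refine le_antisymm ?_ (c0.ineqZ i (c t).mem)
    by_contra hc
    have h1 : (1 : ℝ) ≤ (c0.u i ⬝ᵥ ((c t).v - c0.v) : ℤ) := by exact_mod_cast not_le.mp hc
    have h2 := ht _ c0.mem
    rw [← toReal_dot, toReal_sub, dotProduct_sub] at h1
    simp only [add_dotProduct, smul_dotProduct, smul_eq_mul] at h2
    have h3 := (hN t).trans (le_abs_self N)
    nlinarith [mul_le_mul_of_nonneg_left h1 (abs_nonneg N)]
  have hm : ∀ k, 0 ≤ c0.u i ⬝ᵥ (c t).e k := by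
    intro k
    have := c0.ineqZ i ((c t).edge k)
    rw [add_sub_right_comm, dotProduct_add, h0, zero_add] at this
    exact this
  obtain ⟨j, hj⟩ : ∃ j, 0 < c0.u i ⬝ᵥ (c t).e j := by
    by_contra hc
    push Not at hc
    have h1 := (c t).expandZ (c0.u i) (c0.e i)
    rw [c0.dual, if_pos rfl, Finset.sum_eq_zero fun k _ => by
      rw [le_antisymm (hc k) (hm k), zero_mul]] at h1
    exact one_ne_zero h1
  have hlev : ∀ y : Fin d → ℤ, toReal y ∈ P → c0.u i ⬝ᵥ (y - c0.v) = 0 →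
      (c t).u j ⬝ᵥ (y - (c t).v) = 0 := by
    intro y hy hy0
    have h1 : c0.u i ⬝ᵥ (y - (c t).v) = 0 := by
      rw [dotProduct_sub] at hy0 h0 ⊢; omega
    rw [(c t).expandZ] at h1
    have h2 := (Finset.sum_eq_zero_iff_of_nonneg fun k _ =>
      mul_nonneg (hm k) ((c t).ineqZ k hy)).mp h1 j (Finset.mem_univ j)
    exact (mul_eq_zero.mp h2).resolve_left hj.ne'
  have h1 : ∀ l, l ≠ i → (c t).u j ⬝ᵥ c0.e l = 0 := by
    intro l hl
    have k1 := hlev _ c0.mem (by simp)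
    have k2 := hlev _ (c0.edge l) (by rw [add_sub_cancel_left, c0.dual, if_neg hl.symm])
    rw [add_sub_right_comm, dotProduct_add, k1, zero_add] at k2
    exact k2
  have h2 : ∀ y, (c t).u j ⬝ᵥ y = ((c t).u j ⬝ᵥ c0.e i) * (c0.u i ⬝ᵥ y) := by
    intro y
    rw [c0.expandZ _ y]
    exact Finset.sum_eq_single i (fun l _ hl => by rw [h1 l hl, zero_mul]) (by simp)
  have h3 : (c t).u j ⬝ᵥ c0.e i = 1 := by
    have h4 := h2 ((c t).e j)
    rw [(c t).dual, if_pos rfl] at h4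
    have h5 := Int.eq_one_of_mul_eq_one_left hj.le h4.symm
    rw [h5, mul_one] at h4
    exact h4.symm
  have h4 : (c t).u j = c0.u i := by
    funext k
    have := h2 (Pi.single k 1)
    simpa [h3] using this
  refine ⟨t, j, ⟨h0, h4⟩, fun k hk => ?_⟩
  have h5 := (c t).edge_nonneg ht k
  rw [add_dotProduct, smul_dotProduct, toReal_dot, ← h4, (c t).dual, if_neg hk.symm] at h5
  simpa using h5

omit [Fintype σ] in
lemma facet_le {c0 : Corner P} {i : Fin d} {t : σ} {j : Fin d} (h : OnFacet c c0 i t j)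
    {a : Fin d → ℝ} (ha : ∀ k, k ≠ j → 0 ≤ a ⬝ᵥ toReal ((c t).e k)) {z : Fin d → ℝ} {k : ℤ}
    (hz : toReal (c0.u i) ⬝ᵥ (z - toReal c0.v) = k)
    (hz' : ∀ l, l ≠ j → 0 ≤ toReal ((c t).u l) ⬝ᵥ (z - toReal (c t).v)) :
    a ⬝ᵥ toReal ((c t).v + k • (c t).e j) ≤ a ⬝ᵥ z := by
  rw [← sub_nonneg, ← dotProduct_sub, (c t).expand]
  refine Finset.sum_nonneg fun l _ => ?_
  have e : toReal ((c t).u l) ⬝ᵥ (z - toReal ((c t).v + k • (c t).e j)) =
      toReal ((c t).u l) ⬝ᵥ (z - toReal (c t).v) - k * (if l = j then 1 else 0) := by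
    rw [dotProduct_sub, dotProduct_sub, toReal_dot, toReal_dot, dotProduct_add, dotProduct_smul,
      (c t).dual]
    push_cast [smul_eq_mul]
    ring
  rw [e]
  by_cases hl : l = j
  · subst hl
    have h1 : toReal (c0.u i) ⬝ᵥ (toReal (c t).v - toReal c0.v) = 0 := by
      rw [← toReal_sub, toReal_dot, h.1]; simp
    rw [h.2, if_pos rfl]
    rw [dotProduct_sub] at hz h1 ⊢
    apply le_of_eq
    rw [show toReal (c0.u i) ⬝ᵥ z - toReal (c0.u i) ⬝ᵥ toReal (c t).v - k * 1 = 0 by linarith,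
      mul_zero]
  · rw [if_neg hl, mul_zero, sub_zero]
    exact mul_nonneg (ha l hl) (hz' l hl)

omit [Fintype σ] in
lemma up_mem (t : σ) (j : Fin d) {k : ℤ} (hk : k = 0 ∨ k = 1) :
    toReal ((c t).v + k • (c t).e j) ∈ P := by
  rcases hk with rfl | rfl
  · simpa using (c t).mem
  · simpa using (c t).edge j

omit [Fintype σ] in
lemma up_level {c0 : Corner P} {i : Fin d} {t : σ} {j : Fin d} (h : OnFacet c c0 i t j) (k : ℤ) :
    c0.u i ⬝ᵥ ((c t).v + k • (c t).e j - c0.v) = k := by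
  rw [add_sub_right_comm, dotProduct_add, h.1, dotProduct_smul, ← h.2, (c t).dual]
  simp

lemma level_mem (hP : Convex ℝ P) (hc : IsClosed P)
    (hmin : ∀ a : Fin d → ℝ, ∃ s, ∀ y ∈ P, a ⬝ᵥ toReal (c s).v ≤ a ⬝ᵥ y)
    {c0 : Corner P} {i : Fin d} {z : Fin d → ℤ} {k : ℤ} (hk : k = 0 ∨ k = 1)
    (hz : c0.u i ⬝ᵥ (z - c0.v) = k)
    (hz' : ∀ t j l, OnFacet c c0 i t j → l ≠ j → 0 ≤ (c t).u l ⬝ᵥ (z - (c t).v)) :
    toReal z ∈ P := by
  refine mem_of_forall_le hP hc fun a => ?_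
  obtain ⟨t, j, h, ha⟩ := exists_facet hmin c0 i a
  refine ⟨_, up_mem t j hk, facet_le h ha ?_ fun l hl => ?_⟩
  · rw [← toReal_sub, toReal_dot, hz]
  · rw [← toReal_sub, toReal_dot]; exact_mod_cast hz' t j l h hl

omit [Fintype σ] in
lemma mem_of_ineq (hP : Convex ℝ P) (hc : IsClosed P)
    (hmin : ∀ a : Fin d → ℝ, ∃ s, ∀ y ∈ P, a ⬝ᵥ toReal (c s).v ≤ a ⬝ᵥ y) {z : Fin d → ℤ}
    (hz : ∀ t l, 0 ≤ (c t).u l ⬝ᵥ (z - (c t).v)) : toReal z ∈ P := by
  refine mem_of_forall_le hP hc fun a => ?_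
  obtain ⟨t, ht⟩ := hmin a
  refine ⟨_, (c t).mem, ?_⟩
  rw [← sub_nonneg, ← dotProduct_sub, (c t).expand]
  refine Finset.sum_nonneg fun l _ => mul_nonneg ((c t).edge_nonneg ht l) ?_
  rw [← toReal_sub, toReal_dot]; exact_mod_cast hz t l

lemma half_nonneg (c0 : Corner P) (i : Fin d) {x : Fin d → ℤ} (hx : (2 : ℝ)⁻¹ • toReal x ∈ P) :
    0 ≤ c0.u i ⬝ᵥ (x - (2 : ℤ) • c0.v) := by
  have h := c0.ineq i _ hx
  have h2 := dot_sub_two (toReal (c0.u i)) x c0.v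
  rw [toReal_dot] at h2
  rw [dotProduct_sub] at h
  exact_mod_cast (show (0 : ℝ) ≤ (c0.u i ⬝ᵥ (x - (2 : ℤ) • c0.v) : ℤ) by linarith)

end facet

variable {P : Set (Fin 3 → ℝ)} {σ : Type} [Fintype σ] {c : σ → Corner P}

lemma Corner.expand3 (c0 : Corner P) (i : Fin 3) (a y : Fin 3 → ℤ) :
    a ⬝ᵥ y = (a ⬝ᵥ c0.e i) * (c0.u i ⬝ᵥ y) +
      (a ⬝ᵥ c0.e (i.succAbove 0)) * (c0.u (i.succAbove 0) ⬝ᵥ y) +
      (a ⬝ᵥ c0.e (i.succAbove 1)) * (c0.u (i.succAbove 1) ⬝ᵥ y) := by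
  rw [c0.expandZ, Fin.sum_univ_succAbove _ i, Fin.sum_univ_two, add_assoc]

lemma Corner.expandV (c0 : Corner P) (i : Fin 3) (y : Fin 3 → ℤ) (k : Fin 3) :
    y k = (c0.u i ⬝ᵥ y) * c0.e i k + (c0.u (i.succAbove 0) ⬝ᵥ y) * c0.e (i.succAbove 0) k +
      (c0.u (i.succAbove 1) ⬝ᵥ y) * c0.e (i.succAbove 1) k := by
  have := c0.expand3 i (Pi.single k 1) y
  simp only [single_dotProduct, one_mul] at this
  rw [this]; ring

lemma even_case (hP : Convex ℝ P)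
    (hmin : ∀ a : Fin 3 → ℝ, ∃ s, ∀ y ∈ P, a ⬝ᵥ toReal (c s).v ≤ a ⬝ᵥ y)
    {x : Fin 3 → ℤ} (hx : (2 : ℝ)⁻¹ • toReal x ∈ P) (c0 : Corner P) (i : Fin 3) {k : ℤ}
    (hk : k = 0 ∨ k = 1) (hD : c0.u i ⬝ᵥ (x - (2 : ℤ) • c0.v) = 2 * k) :
    ∃ y, toReal y ∈ P ∧ toReal (x - y) ∈ P := by
  let emb : (Fin 2 → ℝ) → Fin 3 → ℝ := fun p => toReal c0.v + (k : ℝ) • toReal (c0.e i) +
    p 0 • toReal (c0.e (i.succAbove 0)) + p 1 • toReal (c0.e (i.succAbove 1))
  let embZ : (Fin 2 → ℤ) → Fin 3 → ℤ := fun p => c0.v + k • c0.e i +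
    p 0 • c0.e (i.succAbove 0) + p 1 • c0.e (i.succAbove 1)
  have hemb : ∀ p, emb (toReal p) = toReal (embZ p) := by
    intro p; funext m; simp [emb, embZ, toReal]
  let co : (Fin 3 → ℤ) → Fin 2 → ℤ := fun y j => c0.u (i.succAbove j) ⬝ᵥ y
  have hP' : Convex ℝ {p | emb p ∈ P} := by
    intro p hp q hq s t hs ht hst
    have := hP hp hq hs ht hst
    obtain rfl : t = 1 - s := by linarith
    simp only [Set.mem_ofPred_eq]
    convert this using 1
    simp only [emb, Pi.add_apply, Pi.smul_apply, smul_eq_mul]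
    module
  let V : Set (Fin 2 → ℤ) := (fun tj : σ × Fin 3 =>
    co ((c tj.1).v + k • (c tj.1).e tj.2 - c0.v)) '' {tj | OnFacet c c0 i tj.1 tj.2}
  have hV : ∀ q ∈ V, toReal q ∈ {p | emb p ∈ P} := by
    rintro _ ⟨⟨t, j⟩, h, rfl⟩
    simp only [Set.mem_ofPred_eq, hemb]
    convert up_mem (c := c) t j hk using 2
    funext m
    have h1 := c0.expandV i ((c t).v + k • (c t).e j - c0.v) m
    rw [up_level h] at h1
    simp only [embZ, co, Pi.add_apply, Pi.sub_apply, Pi.smul_apply, smul_eq_mul] at h1 ⊢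
    linarith
  have hfin : (toReal '' V).Finite := ((Set.toFinite _).image _).image _
  obtain ⟨y, hy1, hy2⟩ := reduce hP' (s := 1) one_pos le_rfl V hV (co (x - (2 : ℤ) • c0.v)) (by
    refine mem_of_forall_le (convex_convexHull ℝ _) (hfin.isCompact_convexHull ℝ).isClosed
      fun a => ?_
    obtain ⟨t, j, h, ha⟩ := exists_facet hmin c0 i
      (a 0 • toReal (c0.u (i.succAbove 0)) + a 1 • toReal (c0.u (i.succAbove 1)))
    refine ⟨_, subset_convexHull ℝ _ ⟨_, ⟨(t, j), h, rfl⟩, rfl⟩, ?_⟩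
    have h1 := facet_le h ha (z := (2 : ℝ)⁻¹ • toReal x) (k := k) (by
      have h2 := dot_sub_two (toReal (c0.u i)) x c0.v
      rw [toReal_dot, hD] at h2
      rw [dotProduct_sub]
      push_cast at h2
      linarith) fun l _ => (c t).ineq l _ hx
    simp only [add_dotProduct, smul_dotProduct, dotProduct_smul, toReal_dot, smul_eq_mul] at h1
    simp only [dotProduct, Fin.sum_univ_two, toReal, co, Pi.smul_apply, smul_eq_mul]
    simp only [← dotProduct.eq_def]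
    simp only [dotProduct_sub, dotProduct_smul, smul_eq_mul]
    push_cast
    linarith)
  simp only [Set.mem_ofPred_eq, Nat.cast_one, inv_one, one_smul, hemb] at hy1 hy2
  refine ⟨embZ y, hy1, ?_⟩
  convert hy2 using 2
  funext m
  have h1 := c0.expandV i (x - (2 : ℤ) • c0.v) m
  rw [hD] at h1
  simp only [embZ, co, Pi.add_apply, Pi.sub_apply, Pi.smul_apply, smul_eq_mul] at h1 ⊢
  linarith

lemma exists_third : ∀ j l : Fin 3, l ≠ j → ∃ m, m ≠ j ∧ l ≠ m := by decide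

lemma one_case (hP : Convex ℝ P) (hc : IsClosed P)
    (hmin : ∀ a : Fin 3 → ℝ, ∃ s, ∀ y ∈ P, a ⬝ᵥ toReal (c s).v ≤ a ⬝ᵥ y)
    {x : Fin 3 → ℤ} (hx : (2 : ℝ)⁻¹ • toReal x ∈ P) (c0 : Corner P) (i : Fin 3)
    (hD : c0.u i ⬝ᵥ (x - (2 : ℤ) • c0.v) = 1) :
    ∃ y, toReal y ∈ P ∧ toReal (x - y) ∈ P := by
  classical
  let I : Finset (σ × Fin 3 × Fin 3) :=
    Finset.univ.filter fun κ => OnFacet c c0 i κ.1 κ.2.1 ∧ κ.2.2 ≠ κ.2.1
  let n : σ × Fin 3 × Fin 3 → Fin 3 → ℤ := fun κ => (c κ.1).u κ.2.2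
  let U : σ × Fin 3 × Fin 3 → ℤ × ℤ := fun κ =>
    (n κ ⬝ᵥ c0.e (i.succAbove 0), n κ ⬝ᵥ c0.e (i.succAbove 1))
  let co : (Fin 3 → ℤ) → ℤ × ℤ := fun y =>
    (c0.u (i.succAbove 0) ⬝ᵥ (y - c0.v), c0.u (i.succAbove 1) ⬝ᵥ (y - c0.v))
  have hev : ∀ κ y, c0.u i ⬝ᵥ (y - c0.v) = 0 → Plane.ev (U κ) (co y) = n κ ⬝ᵥ (y - c0.v) := by
    intro κ y hy
    rw [c0.expand3 i (n κ), hy]
    simp [Plane.ev, U, co]
  have hG : ∀ y, toReal y ∈ P → c0.u i ⬝ᵥ (y - c0.v) = 0 →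
      ∀ m ∈ I, n m ⬝ᵥ ((c m.1).v - c0.v) ≤ Plane.ev (U m) (co y) := by
    intro y hy hy0 m _
    have := (c m.1).ineqZ m.2.2 hy
    rw [hev _ _ hy0]
    simp only [n, dotProduct_sub] at this ⊢
    omega
  have hQ : ∀ y, toReal (x - y) ∈ P → c0.u i ⬝ᵥ (y - c0.v) = 0 →
      ∀ m ∈ I, Plane.ev (U m) (co y) ≤ n m ⬝ᵥ (x - (c m.1).v - c0.v) := by
    intro y hy hy0 m _
    have := (c m.1).ineqZ m.2.2 hy
    rw [hev _ _ hy0]
    simp only [n, dotProduct_sub] at this ⊢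
    omega
  have hq0 : ∀ t j, OnFacet c c0 i t j → c0.u i ⬝ᵥ (x - ((c t).v + (c t).e j) - c0.v) = 0 := by
    intro t j h
    have h1 := up_level h 1
    simp only [dotProduct_sub, dotProduct_add, dotProduct_smul, smul_eq_mul] at h1 hD ⊢
    omega
  have hqP : ∀ t j, toReal (x - (x - ((c t).v + (c t).e j))) ∈ P := by
    intro t j; rw [sub_sub_cancel]; exact (c t).edge j
  obtain ⟨g, hg⟩ := Plane.plane I U (fun κ => n κ ⬝ᵥ ((c κ.1).v - c0.v))
    (fun κ => n κ ⬝ᵥ (x - (c κ.1).v - c0.v)) (by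
      intro κ _
      have := half_nonneg (c κ.1) κ.2.2 hx
      simp only [n, dotProduct_sub, dotProduct_smul, smul_eq_mul] at this ⊢
      omega) (by
      rintro ⟨t, j, l⟩ hκ
      obtain ⟨h, hl⟩ := (Finset.mem_filter.mp hκ).2
      obtain ⟨m, hmj, hlm⟩ := exists_third j l hl
      have h0 : c0.u i ⬝ᵥ (c t).e m = 0 := by rw [← h.2, (c t).dual, if_neg hmj.symm]
      have h1 : c0.u i ⬝ᵥ ((c t).v + (c t).e m - c0.v) = 0 := by
        rw [add_sub_right_comm, dotProduct_add, h.1, h0, add_zero]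
      refine ⟨co (c t).v, co ((c t).v + (c t).e m), fun he => ?_, hG _ (c t).mem h.1,
        hG _ ((c t).edge m) h1, hev _ _ h.1, ?_⟩
      · simp only [co, Prod.mk.injEq, add_sub_right_comm, dotProduct_add, left_eq_add] at he
        have h2 := c0.expand3 i ((c t).u m) ((c t).e m)
        rw [h0, he.1, he.2, (c t).dual] at h2
        simp at h2
      · rw [hev _ _ h1, add_sub_right_comm, dotProduct_add]
        simp only [n]
        rw [(c t).dual, if_neg hlm, add_zero]) (by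
      rintro ⟨t, j, l⟩ hκ
      obtain ⟨h, hl⟩ := (Finset.mem_filter.mp hκ).2
      refine ⟨co (x - ((c t).v + (c t).e j)), hQ _ (hqP t j) (hq0 t j h), ?_⟩
      rw [hev _ _ (hq0 t j h)]
      have := (c t).dual l j
      rw [if_neg hl] at this
      simp only [n, dotProduct_sub, dotProduct_add, this]
      ring) (by
      intro φ
      obtain ⟨t, j, h, ha⟩ := exists_facet hmin c0 i
        (toReal (-(φ.1 • c0.u (i.succAbove 0) + φ.2 • c0.u (i.succAbove 1))))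
      refine ⟨co (c t).v, co (x - ((c t).v + (c t).e j)), hG _ (c t).mem h.1,
        hQ _ (hqP t j) (hq0 t j h), ?_⟩
      have h1 := facet_le h ha (z := toReal (x - (c t).v)) (k := 1) (by
        rw [← toReal_sub, toReal_dot]
        have := h.1
        simp only [dotProduct_sub, dotProduct_smul, smul_eq_mul] at this hD ⊢
        exact_mod_cast (by omega)) fun l _ => by
          rw [← toReal_sub, toReal_dot]
          have := half_nonneg (c t) l hx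
          simp only [dotProduct_sub, dotProduct_smul, smul_eq_mul] at this ⊢
          exact_mod_cast (by omega)
      rw [toReal_dot, toReal_dot, Int.cast_le] at h1
      simp only [Plane.ev, co, neg_dotProduct, add_dotProduct, smul_dotProduct, dotProduct_sub,
        dotProduct_add, one_smul, smul_eq_mul] at h1 ⊢
      linarith)
  let y : Fin 3 → ℤ := c0.v + (g.1 • c0.e (i.succAbove 0) + g.2 • c0.e (i.succAbove 1))
  have hy : ∀ a, a ⬝ᵥ (y - c0.v) =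
      g.1 * (a ⬝ᵥ c0.e (i.succAbove 0)) + g.2 * (a ⬝ᵥ c0.e (i.succAbove 1)) := by
    intro a
    simp only [y, add_sub_cancel_left, dotProduct_add, dotProduct_smul, smul_eq_mul]
  have hy0 : c0.u i ⬝ᵥ (y - c0.v) = 0 := by
    rw [hy, c0.dual, c0.dual, if_neg (Fin.succAbove_ne i 0).symm,
      if_neg (Fin.succAbove_ne i 1).symm]
    simp
  have hg' : ∀ t j l, OnFacet c c0 i t j → l ≠ j →
      0 ≤ (c t).u l ⬝ᵥ (y - (c t).v) ∧ 0 ≤ (c t).u l ⬝ᵥ (x - y - (c t).v) := by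
    intro t j l h hl
    have h1 := hg (t, j, l) (Finset.mem_filter.mpr ⟨Finset.mem_univ _, h, hl⟩)
    have h2 := hy ((c t).u l)
    simp only [Plane.ev, U, n, dotProduct_sub] at h1 h2 ⊢
    constructor <;> linarith [h1.1, h1.2]
  refine ⟨y, level_mem hP hc hmin (Or.inl rfl) hy0 fun t j l h hl => (hg' t j l h hl).1,
    level_mem hP hc hmin (c0 := c0) (i := i) (Or.inr rfl) ?_ fun t j l h hl => (hg' t j l h hl).2⟩
  simp only [dotProduct_sub, dotProduct_smul, smul_eq_mul] at hy0 hD ⊢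
  omega

lemma degree_two (hP : Convex ℝ P) (hc : IsCompact P)
    (hmin : ∀ a : Fin 3 → ℝ, ∃ s, ∀ y ∈ P, a ⬝ᵥ toReal (c s).v ≤ a ⬝ᵥ y)
    {x : Fin 3 → ℤ} (hx : (2 : ℝ)⁻¹ • toReal x ∈ P) :
    ∃ y, toReal y ∈ P ∧ toReal (x - y) ∈ P := by
  by_cases hD : ∀ s i, 3 ≤ (c s).u i ⬝ᵥ (x - (2 : ℤ) • (c s).v)
  · obtain ⟨w, hw, hw'⟩ := Hollow.hollow (Finset.univ : Finset (σ × Fin 3))
      (fun κ => (c κ.1).u κ.2) (fun κ => (c κ.1).u κ.2 ⬝ᵥ (x - (2 : ℤ) • (c κ.1).v)) x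
      (fun κ _ => by have := hD κ.1 κ.2; omega)
      (fun κ _ => ⟨(c κ.1).e κ.2, by rw [(c κ.1).dual, if_pos rfl]⟩) fun u hu => by
        obtain ⟨p, hp, hu⟩ := wide hP hc hmin hx hD hu
        exact ⟨p, fun κ _ => hp κ.1 κ.2, hu⟩
    have hy : (2 : ℤ) • Hollow.hf x w = x + w := by
      funext k
      exact Hollow.hf_spec (x := x) (fun _ => rfl) hw k
    have key : ∀ t l, 0 ≤ (c t).u l ⬝ᵥ (Hollow.hf x w - (c t).v) ∧
        0 ≤ (c t).u l ⬝ᵥ (x - Hollow.hf x w - (c t).v) := by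
      intro t l
      have h1 := abs_le.mp (hw' (t, l) (Finset.mem_univ _))
      have h2 := congrArg ((c t).u l ⬝ᵥ ·) hy
      simp only [dotProduct_sub, dotProduct_add, dotProduct_smul, smul_eq_mul] at h1 h2 ⊢
      omega
    exact ⟨_, mem_of_ineq hP hc.isClosed hmin fun t l => (key t l).1,
      mem_of_ineq hP hc.isClosed hmin fun t l => (key t l).2⟩
  · push Not at hD
    obtain ⟨s, i, h⟩ := hD
    have h0 := half_nonneg (c s) i hx
    obtain h1 | h1 | h1 : (c s).u i ⬝ᵥ (x - (2 : ℤ) • (c s).v) = 2 * 0 ∨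
        (c s).u i ⬝ᵥ (x - (2 : ℤ) • (c s).v) = 1 ∨
        (c s).u i ⬝ᵥ (x - (2 : ℤ) • (c s).v) = 2 * 1 := by omega
    · exact even_case hP hmin hx _ i (Or.inl rfl) h1
    · exact one_case hP hc.isClosed hmin hx _ i h1
    · exact even_case hP hmin hx _ i (Or.inr rfl) h1

theorem oda_three (P : Set (Fin 3 → ℝ)) (hP : IsLatticePolytope P) (hD : IsDelzant P) :
    IsIDP P := by
  obtain ⟨σ, _, c, hmin⟩ := exists_corners hP hD
  have hc := hP.isCompact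
  obtain ⟨⟨V, hV⟩, -⟩ := hP
  have hconv : Convex ℝ P := hV ▸ convex_convexHull ℝ _
  have key : ∀ t : ℕ, ∀ z : Fin 3 → ℤ, ((t : ℝ) + 1)⁻¹ • toReal z ∈ P →
      ∃ x : Fin (t + 1) → Fin 3 → ℤ, (∀ j, toReal (x j) ∈ P) ∧ z = ∑ j, x j := by
    intro t
    induction t with
    | zero => exact fun z hz => ⟨fun _ => z, fun _ => by simpa using hz, by simp⟩
    | succ t ih =>
      intro z hz
      obtain ⟨y, hy1, hy2⟩ : ∃ y, toReal y ∈ P ∧ ((t : ℝ) + 1)⁻¹ • toReal (z - y) ∈ P := by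
        rcases Nat.eq_zero_or_pos t with rfl | ht
        · obtain ⟨y, h1, h2⟩ := degree_two hconv hc hmin (x := z) (by
            convert hz using 3; norm_num)
          exact ⟨y, h1, by simpa using h2⟩
        · have := reduce hconv (s := t + 1) (by omega) (by omega) (V : Set (Fin 3 → ℤ))
            (fun v hv => hV ▸ subset_convexHull ℝ _ ⟨v, hv, rfl⟩) z (hV ▸ hz)
          simpa using this
      obtain ⟨x, hx1, hx2⟩ := ih _ hy2
      refine ⟨Fin.cons y x, fun j => Fin.cases hy1 hx1 j, ?_⟩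
      rw [Fin.sum_univ_succ]
      simp only [Fin.cons_zero, Fin.cons_succ, ← hx2]
      abel
  intro t ht z hz
  obtain ⟨t, rfl⟩ : ∃ s, t = s + 1 := ⟨t - 1, by omega⟩
  refine key t z ?_
  obtain ⟨p, hp, hz⟩ := hz
  have h0 : (t : ℝ) + 1 ≠ 0 := by positivity
  simp only [Nat.cast_add, Nat.cast_one] at hz
  rw [← hz, inv_smul_smul₀ h0]
  exact hp

end Pool.Agent.MP_8c130c_co
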