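import Pool.Agent.MP_8c130c_co.Defs

namespace Pool.Agent.MP_8c130c_co

variable {d : ℕ}

/-- `v` is a smooth vertex of `P` and the lattice basis `b` lists its primitive edge directions:
`v` and all `v + b k` lie in `P`, and `P` lies in the cone `v + cone b`. -/
def IsCornerAt (P : Set (Fin d → ℝ)) (v : Fin d → ℤ)
    (b : Module.Basis (Fin d) ℤ (Fin d → ℤ)) : Prop :=
  toReal v ∈ P ∧ (∀ k, toReal (v + b k) ∈ P) ∧
    ∀ x ∈ P, ∃ c : Fin d → ℝ, (∀ k, 0 ≤ c k) ∧ x = toReal v + ∑ k, c k • toReal (b k)

/-- The points whose coordinates at every corner of `P` are larger than `-1`. For a Delzant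
polytope this is the interior of the polyhedron obtained by pushing every facet of `P` outwards by
lattice distance one. -/
def pushedOut (P : Set (Fin d → ℝ)) : Set (Fin d → ℝ) :=
  {x | ∀ v b, IsCornerAt P v b →
    ∃ c : Fin d → ℝ, (∀ k, -1 < c k) ∧ x = toReal v + ∑ k, c k • toReal (b k)}

/-- At every corner, the unit parallelepiped spanned by the edge directions, moved backwards by
some nonnegative combination of the edge directions, lies in `pushedOut P`. -/
def HasShiftedCubes (P : Set (Fin d → ℝ)) : Prop :=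
  ∀ v b, IsCornerAt P v b → ∃ s : Fin d → ℝ, (∀ k, 0 ≤ s k) ∧
    ∀ t : Fin d → ℝ, (∀ k, 0 ≤ t k ∧ t k ≤ 1) →
      toReal v + ∑ k, (t k - s k) • toReal (b k) ∈ pushedOut P

end Pool.Agent.MP_8c130c_co
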