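import Pool.Agent.Mg.F8c130c.G0a4521
import Pool.Agent.MP_8c130c_co.ShiftDefs

/-!
Delzant polytopes whose corner cubes, shifted backwards, lie in the pushed out polytope are IDP.
The proof combines a covering lemma for averages of lattice parallelepipeds with a minimax
argument over the vertices.
-/

namespace Pool.Agent.MP_8c130c_co.Shift

open Matrix

section cover

variable {n : Type} [Fintype n] [DecidableEq n]

lemma det_rank_one {A : Matrix n n ℝ} (hA : A.PosDef) (a : ℝ) (v : n → ℝ) :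
    (A + a • vecMulVec v v).det = A.det * (1 + a * (v ⬝ᵥ A⁻¹ *ᵥ v)) := by
  have hU : IsUnit A.det := hA.det_pos.ne'.isUnit
  have h : a • vecMulVec v v = replicateCol Unit (a • v) * replicateRow Unit v := by
    ext i j; simp [mul_apply, vecMulVec_apply, mul_assoc]
  rw [h, det_add_replicateCol_mul_replicateRow hU]
  congr 1
  rw [det_unique, Matrix.add_apply, Matrix.one_apply_eq, Matrix.mul_assoc, ← replicateCol_mulVec,
    replicateRow_mul_replicateCol_apply, mulVec_smul, dotProduct_smul, smul_eq_mul]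

omit [DecidableEq n] in
lemma psd_one {a : ℝ} (ha : 0 ≤ a) (v : n → ℝ) : (a • vecMulVec v v).PosSemidef := by
  have := (posSemidef_vecMulVec_self_star v).smul ha
  simpa using this

lemma det_le_add {ι : Type} {A : Matrix n n ℝ} (hA : A.PosDef) (S : Finset ι) (a : ι → ℝ)
    (ha : ∀ i, 0 ≤ a i) (w : ι → n → ℝ) :
    A.det ≤ (A + ∑ i ∈ S, a i • vecMulVec (w i) (w i)).det := by
  classical
  induction S using Finset.induction_on with
  | empty => simp
  | insert i S hi ih =>
    have hp : (A + ∑ i ∈ S, a i • vecMulVec (w i) (w i)).PosDef :=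
      hA.add_posSemidef (posSemidef_sum _ fun j _ => psd_one (ha j) (w j))
    rw [Finset.sum_insert hi, add_comm (a i • _), ← add_assoc, det_rank_one hp]
    have h1 : 0 ≤ w i ⬝ᵥ (A + ∑ i ∈ S, a i • vecMulVec (w i) (w i))⁻¹ *ᵥ w i := by
      simpa using hp.inv.posSemidef.dotProduct_mulVec_nonneg (w i)
    have h2 := hp.det_pos
    nlinarith [mul_nonneg h2.le (mul_nonneg (ha i) h1)]

variable {σ : Type} [Fintype σ] [DecidableEq σ]

/-- The weighted sum of the rank one matrices of the vectors `w`. -/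
noncomputable def gram (w : σ × n → n → ℝ) (s : σ × n → ℝ) : Matrix n n ℝ :=
  ∑ i, Real.exp (s i) • vecMulVec (w i) (w i)

lemma gram_split (w : σ × n → n → ℝ) (s : σ × n → ℝ) (H : σ) :
    gram w s = (of fun k => w (H, k))ᵀ * diagonal (fun k => Real.exp (s (H, k))) *
      (of fun k => w (H, k)) +
      ∑ i ∈ Finset.univ.filter (fun i : σ × n => i.1 ≠ H),
        Real.exp (s i) • vecMulVec (w i) (w i) := by
  rw [gram, ← Finset.sum_filter_add_sum_filter_not Finset.univ (fun i : σ × n => i.1 = H)]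
  congr 1
  have : Finset.univ.filter (fun i : σ × n => i.1 = H) =
      Finset.univ.map ⟨fun k => (H, k), fun a b h => (Prod.mk.inj h).2⟩ := by
    ext ⟨a, b⟩; simp [eq_comm]
  rw [this, Finset.sum_map]
  ext i j
  simp only [Matrix.sum_apply, Function.Embedding.coeFn_mk, Matrix.smul_apply, vecMulVec_apply,
    smul_eq_mul, mul_apply, transpose_apply, of_apply, diagonal_apply, mul_ite, mul_zero,
    Finset.sum_ite_eq', Finset.mem_univ, if_true]
  exact Finset.sum_congr rfl fun k _ => by ring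

omit [Fintype σ] [DecidableEq σ] in
lemma part_pd (w : σ × n → n → ℝ) (s : σ × n → ℝ) (H : σ)
    (hw : (of fun k => w (H, k)).det ≠ 0) :
    ((of fun k => w (H, k))ᵀ * diagonal (fun k => Real.exp (s (H, k))) *
      (of fun k => w (H, k))).PosDef := by
  have h1 : (diagonal fun k => Real.exp (s (H, k))).PosDef :=
    PosDef.diagonal fun k => Real.exp_pos _
  have h2 := h1.conjTranspose_mul_mul_same (B := of fun k => w (H, k))
    (mulVec_injective_iff_isUnit.mpr ((isUnit_iff_isUnit_det _).mpr hw.isUnit))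
  simpa using h2

lemma gram_pd (w : σ × n → n → ℝ) (s : σ × n → ℝ) (H : σ)
    (hw : (of fun k => w (H, k)).det ≠ 0) : (gram w s).PosDef := by
  rw [gram_split w s H]
  exact (part_pd w s H hw).add_posSemidef
    (posSemidef_sum _ fun j _ => psd_one (Real.exp_pos _).le (w j))

lemma gram_det_ge (w : σ × n → n → ℝ) (s : σ × n → ℝ) (H : σ)
    (hw : 1 ≤ (of fun k => w (H, k)).det ^ 2) :
    ∑ k, s (H, k) ≤ Real.log (gram w s).det := by
  have h0 : (of fun k => w (H, k)).det ≠ 0 := by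
    intro h; rw [h] at hw; norm_num at hw
  rw [Real.le_log_iff_exp_le (gram_pd w s H h0).det_pos, gram_split w s H]
  refine le_trans ?_ (det_le_add (part_pd w s H h0) _ _ (fun i => (Real.exp_pos _).le) w)
  rw [det_mul, det_mul, det_transpose, det_diagonal, Real.exp_sum]
  have h2 : 0 < ∏ k, Real.exp (s (H, k)) := Finset.prod_pos fun k _ => Real.exp_pos _
  nlinarith

lemma gram_update (w : σ × n → n → ℝ) (s : σ × n → ℝ) (i : σ × n) (h : ℝ) :
    gram w (Function.update s i (s i + h)) =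
      gram w s + ((Real.exp h - 1) * Real.exp (s i)) • vecMulVec (w i) (w i) := by
  rw [gram, gram, ← Finset.add_sum_erase _ _ (Finset.mem_univ i),
    ← Finset.add_sum_erase _ _ (Finset.mem_univ i), Function.update_self,
    Finset.sum_congr rfl fun j hj => by rw [Function.update_of_ne (Finset.ne_of_mem_erase hj)],
    add_right_comm, ← add_smul, Real.exp_add]
  congr 2
  ring

lemma exists_leverage [Nonempty σ] (w : σ × n → n → ℝ)
    (hw : ∀ H, 1 ≤ (of fun k => w (H, k)).det ^ 2) (κ : σ → ℝ) (h0 : ∀ H, 0 ≤ κ H)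
    (h1 : ∑ H, κ H = 1) {δ : ℝ} (hδ : 0 < δ) :
    ∃ s, ∀ i, Real.exp (s i) * (w i ⬝ᵥ (gram w s)⁻¹ *ᵥ w i) ≤ κ i.1 + δ := by
  obtain ⟨H0⟩ := ‹Nonempty σ›
  have hne : (of fun k => w (H0, k)).det ≠ 0 := by
    intro h; have := hw H0; rw [h] at this; norm_num at this
  have hpd : ∀ s, (gram w s).PosDef := fun s => gram_pd w s H0 hne
  set f : (σ × n → ℝ) → ℝ := fun s => Real.log (gram w s).det - ∑ i, κ i.1 * s i with hf
  have hf0 : ∀ s, 0 ≤ f s := by
    intro s
    have : ∑ i : σ × n, κ i.1 * s i ≤ ∑ H, κ H * Real.log (gram w s).det := by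
      rw [Fintype.sum_prod_type]
      refine Finset.sum_le_sum fun H _ => ?_
      simp only
      rw [← Finset.mul_sum]
      exact mul_le_mul_of_nonneg_left (gram_det_ge w s H (hw H)) (h0 H)
    rw [← Finset.sum_mul, h1, one_mul] at this
    simp only [hf]
    linarith
  set ε : ℝ := δ ^ 2 / (4 * (f 0 + 1)) with hε
  have hF := hf0 0
  have hε0 : 0 < ε := by positivity
  set g : (σ × n → ℝ) → ℝ := fun s => f s + ε * ∑ i, s i ^ 2 with hg
  have hcont : Continuous g := by
    have h2 : Continuous fun s => (gram w s).det := by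
      refine Continuous.matrix_det ?_
      unfold gram
      fun_prop
    have h3 : Continuous fun s => Real.log (gram w s).det :=
      h2.log fun s => (hpd s).det_pos.ne'
    simp only [hg, hf]
    fun_prop
  have hsq : ∀ s, g s ≤ g 0 → ∀ i, ε * s i ^ 2 ≤ f 0 := by
    intro s hs i
    have h2 : s i ^ 2 ≤ ∑ i, s i ^ 2 :=
      Finset.single_le_sum (f := fun i => s i ^ 2) (fun j _ => sq_nonneg _) (Finset.mem_univ i)
    have h3 := mul_le_mul_of_nonneg_left h2 hε0.le
    have h4 := hf0 s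
    simp only [hg, Pi.zero_apply] at hs
    simp at hs
    linarith
  obtain ⟨s, hs⟩ := hcont.exists_forall_le_of_isBounded 0 (by
    refine (isBounded_iff_forall_norm_le.mpr ⟨f 0 / ε + 1, fun s hs => ?_⟩)
    refine (pi_norm_le_iff_of_nonneg (by positivity)).mpr fun i => ?_
    have h2 := hsq s hs i
    have h3 : s i ^ 2 ≤ f 0 / ε := by rw [le_div_iff₀ hε0]; linarith
    rw [Real.norm_eq_abs, abs_le]
    constructor <;> nlinarith [sq_nonneg (s i - 1), sq_nonneg (s i + 1)])
  refine ⟨s, fun i => ?_⟩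
  set l : ℝ := Real.exp (s i) * (w i ⬝ᵥ (gram w s)⁻¹ *ᵥ w i) with hl
  have hup : ∀ h : ℝ, g (Function.update s i (s i + h)) = g s +
      (Real.log (1 + (Real.exp h - 1) * l) - κ i.1 * h + ε * (2 * s i * h + h ^ 2)) := by
    intro h
    have e1 : ∑ j, κ j.1 * Function.update s i (s i + h) j = ∑ j, κ j.1 * s j + κ i.1 * h := by
      rw [← Finset.add_sum_erase _ _ (Finset.mem_univ i),
        ← Finset.add_sum_erase _ _ (Finset.mem_univ i), Function.update_self,
        Finset.sum_congr rfl fun j hj => by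
          rw [Function.update_of_ne (Finset.ne_of_mem_erase hj)]]
      ring
    have e2 : ∑ j, Function.update s i (s i + h) j ^ 2 = ∑ j, s j ^ 2 + (2 * s i * h + h ^ 2) := by
      rw [← Finset.add_sum_erase _ _ (Finset.mem_univ i),
        ← Finset.add_sum_erase _ _ (Finset.mem_univ i), Function.update_self,
        Finset.sum_congr rfl fun j hj => by
          rw [Function.update_of_ne (Finset.ne_of_mem_erase hj)]]
      ring
    have e3 : (gram w (Function.update s i (s i + h))).det =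
        (gram w s).det * (1 + (Real.exp h - 1) * l) := by
      rw [gram_update, det_rank_one (hpd s), hl, mul_assoc]
    have e4 : 1 + (Real.exp h - 1) * l ≠ 0 := by
      intro h0
      have := (hpd (Function.update s i (s i + h))).det_pos
      rw [e3, h0, mul_zero] at this
      exact lt_irrefl _ this
    simp only [hg, hf, e1, e2, e3]
    rw [Real.log_mul (hpd s).det_pos.ne' e4]
    ring
  have hmin : IsLocalMin (fun h : ℝ => Real.log (1 + (Real.exp h - 1) * l) - κ i.1 * h +
      ε * (2 * s i * h + h ^ 2)) 0 := by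
    refine Filter.Eventually.of_forall fun h => ?_
    have := hs (Function.update s i (s i + h))
    rw [hup] at this
    simp only [Real.exp_zero, sub_self, zero_mul, add_zero, Real.log_one, mul_zero]
    norm_num
    linarith
  have hder : HasDerivAt (fun h : ℝ => Real.log (1 + (Real.exp h - 1) * l) - κ i.1 * h +
      ε * (2 * s i * h + h ^ 2)) (l - κ i.1 + ε * (2 * s i)) 0 := by
    have d1 : HasDerivAt (fun h : ℝ => 1 + (Real.exp h - 1) * l) (Real.exp 0 * l) 0 :=
      (((Real.hasDerivAt_exp 0).sub_const 1).mul_const l).const_add 1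
    have d2 := d1.log (by simp)
    have d3 : HasDerivAt (fun h : ℝ => κ i.1 * h) (κ i.1 * 1) 0 :=
      (hasDerivAt_id 0).const_mul _
    have d4 : HasDerivAt (fun h : ℝ => ε * (2 * s i * h + h ^ 2))
        (ε * (2 * s i * 1 + (2 : ℕ) * (0 : ℝ) ^ (2 - 1))) 0 :=
      (((hasDerivAt_id 0).const_mul _).add (hasDerivAt_pow 2 0)).const_mul _
    refine ((d2.sub d3).add d4).congr_deriv ?_
    simp
  have h5 := hmin.hasDerivAt_eq_zero hder
  have h6 := hsq s (hs 0) i
  have h7 : (ε * (2 * s i)) ^ 2 ≤ δ ^ 2 := by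
    have h8 : 4 * ε * (f 0 + 1) = δ ^ 2 := by rw [hε]; field_simp
    nlinarith [mul_le_mul_of_nonneg_left h6 hε0.le]
  have h9 := (abs_le_of_sq_le_sq' h7 hδ.le).1
  linarith

/-- An average of lattice parallelepipeds, slightly enlarged, covers space by lattice
translates. -/
theorem cover [Nonempty σ] (w : σ × n → n → ℤ) (hw : ∀ H, (of fun k => w (H, k)).det ≠ 0)
    (κ : σ → ℝ) (h0 : ∀ H, 0 ≤ κ H) (h1 : ∑ H, κ H = 1) {δ : ℝ} (hδ : 0 < δ) (x : n → ℝ) :
    ∃ (p : n → ℤ) (t : σ × n → ℝ), (∀ i, |t i| ≤ κ i.1 / 2 + δ) ∧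
      x = (fun k => (p k : ℝ)) + ∑ i, t i • fun k => (w i k : ℝ) := by
  set W : σ × n → n → ℝ := fun i k => w i k with hW
  have hw1 : ∀ H, 1 ≤ (of fun k => W (H, k)).det ^ 2 := by
    intro H
    have e : (of fun k => W (H, k)).det = ((of fun k => w (H, k)).det : ℤ) := by
      rw [Int.cast_det]; rfl
    rw [e]
    exact_mod_cast (one_le_sq_iff_one_le_abs _).mpr (Int.one_le_abs (hw H))
  obtain ⟨s, hs⟩ := exists_leverage W hw1 κ h0 h1 hδ
  obtain ⟨H0⟩ := ‹Nonempty σ›
  have hpd : (gram W s).PosDef := gram_pd W s H0 fun h => by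
    have := hw1 H0; rw [h] at this; norm_num at this
  set M := (gram W s)⁻¹ with hM
  have hsym : ∀ a b : n → ℝ, a ⬝ᵥ M *ᵥ b = b ⬝ᵥ M *ᵥ a := by
    intro a b
    have h2 : Mᵀ = M := by simpa using hpd.inv.isHermitian.eq
    rw [dotProduct_mulVec, ← mulVec_transpose, h2, dotProduct_comm]
  set Q : (n → ℤ) → ℝ := fun p => (x - fun k => (p k : ℝ)) ⬝ᵥ M *ᵥ (x - fun k => (p k : ℝ))
    with hQ
  have hQ0 : ∀ p, 0 ≤ Q p := fun p => by
    have := hpd.inv.posSemidef.dotProduct_mulVec_nonneg (x - fun k => (p k : ℝ))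
    rwa [star_trivial] at this
  set C : ℝ := ∑ i, Real.exp (s i) + 1 with hC
  have hC0 : ∀ i, Real.exp (s i) ≤ C := fun i => by
    have := Finset.single_le_sum (f := fun i => Real.exp (s i))
      (fun j _ => (Real.exp_pos _).le) (Finset.mem_univ i)
    linarith
  have hCp : 0 < C := by positivity
  have hbdd : BddBelow (Set.range Q) := ⟨0, by rintro _ ⟨p, rfl⟩; exact hQ0 p⟩
  obtain ⟨p, hp⟩ : ∃ p, Q p < ⨅ p, Q p + δ / C := by
    have : ⨅ p, Q p < (⨅ p, Q p) + δ / C := lt_add_of_pos_right _ (by positivity)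
    obtain ⟨p, hp⟩ := exists_lt_of_ciInf_lt this
    exact ⟨p, by rwa [← ciInf_add hbdd]⟩
  rw [← ciInf_add hbdd] at hp
  set y : n → ℝ := x - fun k => (p k : ℝ) with hy
  refine ⟨p, fun i => Real.exp (s i) * (W i ⬝ᵥ M *ᵥ y), fun i => ?_, ?_⟩
  · have k1 := hp.trans_le (add_le_add_left (ciInf_le hbdd (p + w i)) _)
    have k2 := hp.trans_le (add_le_add_left (ciInf_le hbdd (p - w i)) _)
    have e1 : (x - fun k => ((p + w i) k : ℝ)) = y - W i := by
      funext k; simp [hy, hW]; ring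
    have e2 : (x - fun k => ((p - w i) k : ℝ)) = y + W i := by
      funext k; simp [hy, hW]; ring
    simp only [hQ, e1, e2, ← hy] at k1 k2
    simp only [mulVec_sub, mulVec_add, sub_dotProduct, dotProduct_sub,
      add_dotProduct, dotProduct_add, hsym y (W i)] at k1 k2
    have k3 : |W i ⬝ᵥ M *ᵥ y| ≤ (W i ⬝ᵥ M *ᵥ W i + δ / C) / 2 := by
      rw [abs_le]; constructor <;> linarith
    have k4 : Real.exp (s i) * (δ / C) ≤ δ := by
      rw [mul_div_assoc', div_le_iff₀ hCp, mul_comm]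
      exact mul_le_mul_of_nonneg_left (hC0 i) hδ.le
    have k5 := hs i
    rw [abs_mul, abs_of_pos (Real.exp_pos _)]
    have k6 := mul_le_mul_of_nonneg_left k3 (Real.exp_pos (s i)).le
    linarith
  · have e : y = gram W s *ᵥ (M *ᵥ y) := by
      rw [mulVec_mulVec, hM, mul_nonsing_inv _ hpd.det_pos.ne'.isUnit, one_mulVec]
    rw [gram, sum_mulVec] at e
    rw [← sub_eq_iff_eq_add', ← hy]
    refine e.trans (Finset.sum_congr rfl fun i _ => ?_)
    rw [smul_mulVec, vecMulVec_mulVec, mul_smul]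
    simp [hW]

end cover

/-- Ville's theorem of the alternative. -/
lemma game {σ ι : Type} [Fintype σ] [Fintype ι] [Nonempty σ] (W : σ → ι → ℝ)
    (h : ∀ γ : ι → ℝ, (∀ i, 0 ≤ γ i) → γ ≠ 0 → ∃ H, 0 < γ ⬝ᵥ W H) :
    ∃ κ : σ → ℝ, (∀ H, 0 ≤ κ H) ∧ ∑ H, κ H = 1 ∧ ∀ i, 0 < ∑ H, κ H * W H i := by
  classical
  by_contra hc
  have hO : IsOpen {y : ι → ℝ | ∀ i, 0 < y i} := by
    rw [Set.ofPred_forall]
    exact isOpen_iInter_of_finite fun i => isOpen_lt continuous_const (continuous_apply i)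
  have hOc : Convex ℝ {y : ι → ℝ | ∀ i, 0 < y i} := by
    rw [Set.ofPred_forall]
    exact convex_iInter fun i => convex_halfSpace_gt (LinearMap.proj (R := ℝ) i).isLinear 0
  have hd : Disjoint {y : ι → ℝ | ∀ i, 0 < y i} (convexHull ℝ (Set.range W)) := by
    rw [Set.disjoint_left]
    intro y hy hy'
    rw [convexHull_range_eq_exists_affineCombination] at hy'
    obtain ⟨S, κ, h0, h1, rfl⟩ := hy'
    refine hc ⟨fun H => if H ∈ S then κ H else 0, fun H => ?_, by simpa using h1, fun i => ?_⟩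
    · by_cases hH : H ∈ S
      · simpa [hH] using h0 H hH
      · simp [hH]
    · have := hy i
      rw [Finset.affineCombination_eq_linear_combination _ _ _ h1] at this
      simpa using this
  obtain ⟨f, r, hf1, hf2⟩ := geometric_hahn_banach_open hOc hO (convex_convexHull ℝ _) hd
  have hf : ∀ y, f y = (fun i => f (Pi.single i 1)) ⬝ᵥ y := by
    intro y
    conv_lhs => rw [pi_eq_sum_univ' y]
    simp [dotProduct, mul_comm]
  have hr : 0 ≤ r := by
    by_contra hr
    have h1 : Filter.Tendsto (fun t : ℝ => t * f 1) (nhdsWithin 0 (Set.Ioi 0)) (nhds (0 * f 1)) :=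
      ((continuous_id.mul continuous_const).tendsto 0).mono_left nhdsWithin_le_nhds
    rw [zero_mul] at h1
    obtain ⟨t, ht1, ht2⟩ := ((h1.eventually (lt_mem_nhds (not_le.mp hr))).and
      self_mem_nhdsWithin).exists
    have := hf1 (t • 1) fun i => by simpa using ht2
    rw [map_smul, smul_eq_mul] at this
    linarith
  have hneg : ∀ i, f (Pi.single i 1) ≤ 0 := by
    intro i
    by_contra hi
    have hi' := not_le.mp hi
    have := hf1 (1 + (|r - f 1| / f (Pi.single i 1)) • Pi.single i 1) fun j => by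
      have : 0 ≤ |r - f 1| / f (Pi.single i 1) := by positivity
      by_cases hj : j = i
      · subst hj; simp; positivity
      · simp [hj]
    rw [map_add, map_smul, smul_eq_mul, div_mul_cancel₀ _ hi'.ne'] at this
    linarith [le_abs_self (r - f 1)]
  have hW : ∀ H, r ≤ f (W H) := fun H => hf2 _ (subset_convexHull ℝ _ ⟨H, rfl⟩)
  obtain ⟨H, hH⟩ := h (-fun i => f (Pi.single i 1)) (fun i => by simpa using hneg i) fun h0 => by
    obtain ⟨H0⟩ := ‹Nonempty σ›
    have h1 := hf1 1 fun i => by simp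
    have h2 := hW H0
    rw [hf, neg_eq_zero.mp h0, zero_dotProduct] at h1 h2
    linarith
  rw [neg_dotProduct, ← hf] at hH
  linarith [hW H]

variable {d : ℕ}

lemma toReal_sub (x y : Fin d → ℤ) : toReal (x - y) = toReal x - toReal y := by
  funext i; simp [toReal]

lemma toReal_add (x y : Fin d → ℤ) : toReal (x + y) = toReal x + toReal y := by
  funext i; simp [toReal]

/-- A lattice point of `P` with dual lattice bases `e` (edge directions) and `u` (inner facet
normals). -/
structure Corner (P : Set (Fin d → ℝ)) where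
  v : Fin d → ℤ
  e : Fin d → Fin d → ℤ
  u : Fin d → Fin d → ℤ
  dual : ∀ i j, u i ⬝ᵥ e j = if i = j then 1 else 0
  mem : toReal v ∈ P
  edge : ∀ i, toReal (v + e i) ∈ P
  ineq : ∀ i, ∀ y ∈ P, 0 ≤ toReal (u i) ⬝ᵥ (y - toReal v)

namespace Corner

variable {P : Set (Fin d → ℝ)} (c : Corner P)

lemma dual' (k l : Fin d) : ∑ j, c.e j k * c.u j l = if k = l then 1 else 0 := by
  have h : Matrix.of c.u * (Matrix.of c.e).transpose = 1 := by
    ext i j
    simpa [Matrix.mul_apply, Matrix.one_apply, dotProduct] using c.dual i j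
  have h1 : (Matrix.of c.e).transpose * Matrix.of c.u = 1 := mul_eq_one_comm.mp h
  have h2 : ((Matrix.of c.e).transpose * Matrix.of c.u) k l = (1 : Matrix _ _ ℤ) k l := by rw [h1]
  simpa [Matrix.mul_apply, Matrix.one_apply] using h2

lemma expandZ (a y : Fin d → ℤ) : a ⬝ᵥ y = ∑ j, (a ⬝ᵥ c.e j) * (c.u j ⬝ᵥ y) := by
  have : ∑ j, (a ⬝ᵥ c.e j) * (c.u j ⬝ᵥ y) = ∑ k, ∑ l, a k * (∑ j, c.e j k * c.u j l) * y l := by
    simp only [dotProduct, Finset.sum_mul, Finset.mul_sum]
    rw [Finset.sum_comm]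
    refine (Finset.sum_congr rfl fun l _ => Finset.sum_comm).trans ?_
    rw [Finset.sum_comm]
    refine Finset.sum_congr rfl fun k _ => Finset.sum_congr rfl fun l _ =>
      Finset.sum_congr rfl fun j _ => by ring
  rw [this]
  simp [c.dual', dotProduct]

lemma expand (a y : Fin d → ℝ) :
    a ⬝ᵥ y = ∑ j, (a ⬝ᵥ toReal (c.e j)) * (toReal (c.u j) ⬝ᵥ y) := by
  have hd : ∀ k l, ∑ j, (c.e j k : ℝ) * c.u j l = if k = l then 1 else 0 := by
    intro k l
    have := congrArg (Int.cast : ℤ → ℝ) (c.dual' k l)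
    push_cast at this
    exact this
  have : ∑ j, (a ⬝ᵥ toReal (c.e j)) * (toReal (c.u j) ⬝ᵥ y) =
      ∑ k, ∑ l, a k * (∑ j, (c.e j k : ℝ) * c.u j l) * y l := by
    simp only [dotProduct, toReal, Finset.sum_mul, Finset.mul_sum]
    rw [Finset.sum_comm]
    refine (Finset.sum_congr rfl fun l _ => Finset.sum_comm).trans ?_
    rw [Finset.sum_comm]
    refine Finset.sum_congr rfl fun k _ => Finset.sum_congr rfl fun l _ =>
      Finset.sum_congr rfl fun j _ => by ring
  rw [this]
  simp [hd, dotProduct]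

lemma ineqZ (i : Fin d) {y : Fin d → ℤ} (hy : toReal y ∈ P) : 0 ≤ c.u i ⬝ᵥ (y - c.v) := by
  have := c.ineq i _ hy
  rw [← toReal_sub, toReal_dot] at this
  exact_mod_cast this

lemma edge_nonneg {a : Fin d → ℝ} (h : ∀ y ∈ P, a ⬝ᵥ toReal c.v ≤ a ⬝ᵥ y) (j : Fin d) :
    0 ≤ a ⬝ᵥ toReal (c.e j) := by
  have := h _ (c.edge j)
  rw [toReal_add, dotProduct_add] at this
  linarith

end Corner

lemma mem_of_forall_le {P : Set (Fin d → ℝ)} (hP : Convex ℝ P) (hc : IsClosed P) {y : Fin d → ℝ}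
    (h : ∀ a : Fin d → ℝ, ∃ q ∈ P, a ⬝ᵥ q ≤ a ⬝ᵥ y) : y ∈ P := by
  by_contra hy
  obtain ⟨f, r, h1, h2⟩ := geometric_hahn_banach_point_closed hP hc hy
  obtain ⟨a, ha⟩ := exists_dot f
  obtain ⟨q, hq, h3⟩ := h a
  have := h2 q hq
  rw [ha] at h1 this
  linarith

lemma exists_strict (V : Finset (Fin d → ℤ)) (hV : V.Nonempty) (a : Fin d → ℝ) :
    ∃ v ∈ V, (∀ w ∈ V, a ⬝ᵥ toReal v ≤ a ⬝ᵥ toReal w) ∧
      ∃ l : Fin d → ℝ, ∀ w ∈ V, w ≠ v → l ⬝ᵥ toReal w < l ⬝ᵥ toReal v := by
  classical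
  obtain ⟨v0, hv0, hmin⟩ := V.exists_min_image (fun v => a ⬝ᵥ toReal v) hV
  obtain ⟨v, hv, hmax⟩ := (V.filter fun v => a ⬝ᵥ toReal v = a ⬝ᵥ toReal v0).exists_max_image
    (fun v => toReal v ⬝ᵥ toReal v) ⟨v0, by simp [hv0]⟩
  obtain ⟨hvV, hva⟩ := Finset.mem_filter.mp hv
  refine ⟨v, hvV, fun w hw => hva ▸ hmin w hw, ?_⟩
  have key : ∀ w ∈ V, ∀ᶠ N : ℝ in Filter.atTop, w ≠ v →
      (toReal v - N • a) ⬝ᵥ toReal w < (toReal v - N • a) ⬝ᵥ toReal v := by
    intro w hw
    simp only [sub_dotProduct, smul_dotProduct, smul_eq_mul]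
    rcases (hmin w hw).eq_or_lt with h | h
    · refine Filter.Eventually.of_forall fun N hne => ?_
      have h1 := hmax w (Finset.mem_filter.mpr ⟨hw, h.symm⟩)
      have h2 : 0 < (toReal v - toReal w) ⬝ᵥ (toReal v - toReal w) := by
        refine lt_of_le_of_ne (Finset.sum_nonneg fun i _ => mul_self_nonneg _) fun h3 => hne ?_
        have h4 := dotProduct_self_eq_zero.mp h3.symm
        funext k
        have := congrFun h4 k
        simp only [toReal, Pi.sub_apply, Pi.zero_apply, sub_eq_zero] at this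
        exact_mod_cast this.symm
      simp only [sub_dotProduct, dotProduct_sub] at h2
      rw [dotProduct_comm (toReal w) (toReal v)] at h2
      rw [hva, ← h]
      linarith
    · filter_upwards [Filter.eventually_gt_atTop ((toReal v ⬝ᵥ toReal w - toReal v ⬝ᵥ toReal v) /
        (a ⬝ᵥ toReal w - a ⬝ᵥ toReal v0))] with N hN _
      rw [div_lt_iff₀ (sub_pos.mpr h)] at hN
      rw [hva]
      linarith
  obtain ⟨N, hN⟩ := ((Filter.eventually_all_finset V).mpr key).exists
  exact ⟨_, hN⟩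

lemma le_of_vertices {V : Finset (Fin d → ℤ)} {a : Fin d → ℝ} {r : ℝ}
    (h : ∀ w ∈ V, a ⬝ᵥ toReal w ≤ r) :
    ∀ y ∈ convexHull ℝ (toReal '' (V : Set (Fin d → ℤ))), a ⬝ᵥ y ≤ r := by
  intro y hy
  have hne : V.Nonempty := by
    obtain ⟨_, v, hv, -⟩ := convexHull_nonempty_iff.1 ⟨y, hy⟩
    exact ⟨v, hv⟩
  obtain ⟨v, hv, hmax⟩ := exists_max_vertex V hne a
  exact (hmax y hy).trans (h v hv)

lemma exists_corner {V : Finset (Fin d → ℤ)}
    (hD : IsDelzant (convexHull ℝ (toReal '' (V : Set (Fin d → ℤ))))) {v : Fin d → ℤ} (hv : v ∈ V)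
    {l : Fin d → ℝ} (hl : ∀ w ∈ V, w ≠ v → l ⬝ᵥ toReal w < l ⬝ᵥ toReal v) :
    ∃ c : Corner (convexHull ℝ (toReal '' (V : Set (Fin d → ℤ)))), c.v = v := by
  classical
  set P := convexHull ℝ (toReal '' (V : Set (Fin d → ℤ))) with hP
  have hsub : ∀ w ∈ V, toReal w ∈ P := fun w hw => subset_convexHull ℝ _ ⟨w, hw, rfl⟩
  have hexp : IsExposed ℝ P {toReal v} := by
    intro _
    refine ⟨LinearMap.toContinuousLinearMap ((dotProductBilin ℝ ℝ) l), ?_⟩
    have hconv : Convex ℝ {y : Fin d → ℝ | l ⬝ᵥ y < l ⬝ᵥ toReal v ∨ y = toReal v} := by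
      intro x hx y hy s t hs ht hst
      simp only [Set.mem_ofPred_eq, dotProduct_add, dotProduct_smul, smul_eq_mul] at *
      obtain rfl : t = 1 - s := by linarith
      rcases hx with hx | rfl <;> rcases hy with hy | rfl
      · left
        rcases hs.eq_or_lt with rfl | hs'
        · simpa using hy
        · nlinarith
      · rcases hs.eq_or_lt with rfl | hs'
        · right; simp
        · left; nlinarith
      · rcases ht.eq_or_lt with h | ht'
        · right; rw [← h, show s = 1 by linarith]; simp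
        · left; nlinarith
      · right; rw [← add_smul]; simp
    have hall : ∀ y ∈ P, l ⬝ᵥ y < l ⬝ᵥ toReal v ∨ y = toReal v := by
      refine convexHull_min ?_ hconv
      rintro _ ⟨w, hw, rfl⟩
      by_cases h : w = v
      · right; rw [h]
      · left; exact hl w hw h
    ext y
    simp only [Set.mem_singleton_iff, Set.mem_ofPred_eq, LinearMap.coe_toContinuousLinearMap',
      dotProductBilin_apply_apply]
    constructor
    · rintro rfl
      exact ⟨hsub v hv, fun z hz => (hall z hz).elim le_of_lt fun h => by rw [h]⟩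
    · rintro ⟨hy, h⟩
      exact (hall y hy).resolve_left (not_lt.mpr (h _ (hsub v hv)))
  obtain ⟨b, S, hS⟩ := hD _ hexp (Set.singleton_nonempty _)
  have hN : ∀ w : Fin d → ℝ, w ∈ normalCone P {toReal v} ↔
      ∀ z ∈ V, w ⬝ᵥ toReal z ≤ w ⬝ᵥ toReal v := by
    intro w
    constructor
    · intro h z hz; exact h _ rfl _ (hsub z hz)
    · rintro h _ rfl; exact le_of_vertices h
  let e : Fin d → Fin d → ℤ := fun j k => b.repr (Pi.single k 1) j
  have hdual : ∀ i j, b i ⬝ᵥ e j = if i = j then 1 else 0 := by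
    have h : (Matrix.of e).transpose * Matrix.of b = 1 := by
      ext k m
      have := congrFun (b.sum_repr (Pi.single k 1)) m
      simpa [Matrix.mul_apply, Matrix.one_apply, e, Pi.single_apply, eq_comm] using this
    intro i j
    have h1 : Matrix.of b * (Matrix.of e).transpose = 1 := mul_eq_one_comm.mp h
    have h2 : (Matrix.of b * (Matrix.of e).transpose) i j = (1 : Matrix _ _ ℤ) i j := by rw [h1]
    simpa [Matrix.mul_apply, Matrix.one_apply, dotProduct] using h2
  have hco : ∀ w ∈ normalCone P {toReal v}, ∀ j,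
      0 ≤ w ⬝ᵥ toReal (e j) ∧ (j ∉ S → w ⬝ᵥ toReal (e j) = 0) := by
    intro w hw j
    rw [hS] at hw
    obtain ⟨c, hc, rfl⟩ := hw
    simp only [sum_dotProduct, smul_dotProduct, toReal_dot, hdual, smul_eq_mul]
    simp only [Int.cast_ite, Int.cast_one, Int.cast_zero, mul_ite, mul_one, mul_zero,
      Finset.sum_ite_eq']
    split_ifs with h
    · exact ⟨hc j, fun h' => absurd h h'⟩
    · exact ⟨le_rfl, fun _ => rfl⟩
  have hSall : ∀ j, j ∈ S := by
    intro j
    by_contra hj
    have key : ∀ z ∈ V, ∀ᶠ N : ℝ in Filter.atTop,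
        (toReal (b j) + N • l) ⬝ᵥ toReal z ≤ (toReal (b j) + N • l) ⬝ᵥ toReal v := by
      intro z hz
      by_cases h : z = v
      · rw [h]; exact Filter.Eventually.of_forall fun _ => le_rfl
      · simp only [add_dotProduct, smul_dotProduct, smul_eq_mul]
        filter_upwards [Filter.eventually_gt_atTop ((toReal (b j) ⬝ᵥ toReal z -
          toReal (b j) ⬝ᵥ toReal v) / (l ⬝ᵥ toReal v - l ⬝ᵥ toReal z))] with N hN
        rw [div_lt_iff₀ (sub_pos.mpr (hl z hz h))] at hN
        linarith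
    obtain ⟨N, hN'⟩ := ((Filter.eventually_all_finset V).mpr key).exists
    have h1 := (hco _ ((hN _).mpr hN') j).2 hj
    have h2 := (hco l ((hN _).mpr fun z hz => by
      by_cases h : z = v
      · rw [h]
      · exact (hl z hz h).le) j).2 hj
    rw [add_dotProduct, smul_dotProduct, h2, toReal_dot, hdual] at h1
    simp at h1
  have hb : ∀ i, ∀ y ∈ P, toReal (b i) ⬝ᵥ y ≤ toReal (b i) ⬝ᵥ toReal v := by
    intro i
    have : toReal (b i) ∈ normalCone P {toReal v} := by
      rw [hS]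
      refine ⟨Pi.single i 1, fun k => by by_cases h : k = i <;> simp [h], ?_⟩
      rw [Finset.sum_eq_single i (fun k _ hk => by simp [hk]) fun h => absurd (hSall i) h]
      simp
    exact this _ rfl
  have hbZ : ∀ i, ∀ z ∈ V, 0 ≤ b i ⬝ᵥ (v - z) := by
    intro i z hz
    have := hb i _ (hsub z hz)
    rw [toReal_dot, toReal_dot] at this
    rw [dotProduct_sub, sub_nonneg]
    exact_mod_cast this
  have hexpand : ∀ y : Fin d → ℤ, y = ∑ j, (b j ⬝ᵥ y) • e j := by
    intro y
    funext k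
    have h : ∀ m, ∑ j, e j k * b j m = if k = m then 1 else 0 := by
      intro m
      have := congrFun (b.sum_repr (Pi.single k 1)) m
      simpa [e, Pi.single_apply, eq_comm] using this
    have : ∑ j, (b j ⬝ᵥ y) * e j k = ∑ m, (∑ j, e j k * b j m) * y m := by
      simp only [dotProduct, Finset.sum_mul]
      rw [Finset.sum_comm]
      exact Finset.sum_congr rfl fun m _ => Finset.sum_congr rfl fun j _ => by ring
    simp only [Finset.sum_apply, Pi.smul_apply, smul_eq_mul, this, h]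
    simp
  refine ⟨⟨v, fun j => -e j, fun i => -b i, fun i j => by simp [hdual], hsub v hv, fun i => ?_,
    fun i y hy => ?_⟩, rfl⟩
  · obtain ⟨z, hz, hz1, hz2⟩ : ∃ z ∈ V, 0 < b i ⬝ᵥ (v - z) ∧ ∀ j, j ≠ i → b j ⬝ᵥ (v - z) = 0 := by
      by_contra hc
      push Not at hc
      have key : ∀ z ∈ V, ∀ᶠ N : ℤ in Filter.atTop,
          b i ⬝ᵥ (v - z) ≤ N * ∑ j ∈ Finset.univ.erase i, b j ⬝ᵥ (v - z) := by
        intro z hz
        have h0 : 0 ≤ ∑ j ∈ Finset.univ.erase i, b j ⬝ᵥ (v - z) :=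
          Finset.sum_nonneg fun j _ => hbZ j z hz
        rcases (hbZ i z hz).eq_or_lt with h | h
        · filter_upwards [Filter.eventually_ge_atTop 0] with N hN
          rw [← h]; exact mul_nonneg hN h0
        · obtain ⟨j, hj, hj0⟩ := hc z hz h
          have h1 : 1 ≤ ∑ j ∈ Finset.univ.erase i, b j ⬝ᵥ (v - z) := by
            have h2 := Finset.single_le_sum (f := fun j => b j ⬝ᵥ (v - z))
              (fun j _ => hbZ j z hz) (show j ∈ Finset.univ.erase i by simp [hj])
            have := hbZ j z hz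
            omega
          filter_upwards [Filter.eventually_ge_atTop (b i ⬝ᵥ (v - z))] with N hN
          nlinarith
      obtain ⟨N, hN'⟩ := ((Filter.eventually_all_finset V).mpr key).exists
      have h1 := (hco (toReal (N • ∑ j ∈ Finset.univ.erase i, b j - b i)) ((hN _).mpr
        fun z hz => by
          rw [toReal_dot, toReal_dot]
          have := hN' z hz
          simp only [dotProduct_sub, Finset.sum_sub_distrib] at this
          simp only [sub_dotProduct, smul_dotProduct, sum_dotProduct, smul_eq_mul]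
          exact_mod_cast (by linarith)) i).1
      rw [toReal_dot, sub_dotProduct, smul_dotProduct, sum_dotProduct,
        Finset.sum_eq_zero fun j hj => by rw [hdual, if_neg (Finset.ne_of_mem_erase hj)],
        hdual] at h1
      norm_num at h1
    have h1 : v - z = (b i ⬝ᵥ (v - z)) • e i := by
      conv_lhs => rw [hexpand (v - z)]
      exact Finset.sum_eq_single i (fun j _ hj => by rw [hz2 j hj, zero_smul]) (by simp)
    generalize b i ⬝ᵥ (v - z) = n at h1 hz1
    have hn : (1 : ℝ) ≤ n := by exact_mod_cast hz1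
    have h2 := convex_convexHull ℝ _ (hsub v hv) (hsub z hz) (a := 1 - (n : ℝ)⁻¹) (b := (n : ℝ)⁻¹)
      (sub_nonneg.mpr (inv_le_one_of_one_le₀ hn)) (by positivity) (by ring)
    convert h2 using 1
    funext k
    have h3 : ((v k : ℝ) - z k) = n * e i k := by exact_mod_cast congrFun h1 k
    simp only [toReal, Pi.add_apply, Pi.neg_apply, Pi.smul_apply, smul_eq_mul]
    push_cast
    field_simp
    linarith
  · have := hb i y hy
    have e1 : toReal (-b i) = -toReal (b i) := by funext k; simp [toReal]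
    rw [e1, neg_dotProduct, dotProduct_sub]
    linarith

theorem exists_corners {P : Set (Fin d → ℝ)} (hP : IsLatticePolytope P) (hD : IsDelzant P) :
    ∃ (σ : Type) (_ : Fintype σ) (c : σ → Corner P),
      ∀ a : Fin d → ℝ, ∃ s, ∀ y ∈ P, a ⬝ᵥ toReal (c s).v ≤ a ⬝ᵥ y := by
  classical
  obtain ⟨⟨V, rfl⟩, hs⟩ := hP
  have hVne : V.Nonempty := by
    obtain ⟨x, hx⟩ := nonempty_of_span hs
    obtain ⟨_, v, hv, -⟩ := convexHull_nonempty_iff.1 ⟨x, hx⟩
    exact ⟨v, hv⟩
  let σ := {v // v ∈ V.filter fun v =>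
    ∃ c : Corner (convexHull ℝ (toReal '' (V : Set (Fin d → ℤ)))), c.v = v}
  have h : ∀ s : σ, ∃ c : Corner (convexHull ℝ (toReal '' (V : Set (Fin d → ℤ)))), c.v = s.1 :=
    fun s => (Finset.mem_filter.mp s.2).2
  choose c hc using h
  refine ⟨σ, inferInstance, c, fun a => ?_⟩
  obtain ⟨v, hv, hmin, l, hl⟩ := exists_strict V hVne a
  refine ⟨⟨v, Finset.mem_filter.mpr ⟨hv, exists_corner hD hv hl⟩⟩, fun y hy => ?_⟩
  rw [hc]
  have := le_of_vertices (a := -a) (r := -(a ⬝ᵥ toReal v))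
    (fun w hw => by rw [neg_dotProduct]; linarith [hmin w hw]) y hy
  rw [neg_dotProduct] at this
  linarith

lemma Corner.expandV {P : Set (Fin d → ℝ)} (c : Corner P) (y : Fin d → ℝ) :
    y = ∑ j, (toReal (c.u j) ⬝ᵥ y) • toReal (c.e j) := by
  funext k
  have := c.expand (Pi.single k 1) y
  simpa [Finset.sum_apply, mul_comm] using this

lemma Corner.coord {P : Set (Fin d → ℝ)} (c : Corner P) (g : Fin d → ℝ) (i : Fin d) :
    toReal (c.u i) ⬝ᵥ ∑ k, g k • toReal (c.e k) = g i := by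
  simp [dotProduct_sum, toReal_dot, c.dual]

lemma Corner.coordZ {P : Set (Fin d → ℝ)} (c : Corner P) (g : Fin d → ℤ) (i : Fin d) :
    c.u i ⬝ᵥ ∑ k, g k • c.e k = g i := by
  simp only [dotProduct_sum, dotProduct_smul, c.dual]
  simp

lemma Corner.exists_basis {P : Set (Fin d → ℝ)} (c : Corner P) :
    ∃ b : Module.Basis (Fin d) ℤ (Fin d → ℤ), (∀ k, b k = c.e k) ∧ IsCornerAt P c.v b := by
  have h1 : LinearIndependent ℤ c.e := by
    refine Fintype.linearIndependent_iff.mpr fun g hg i => ?_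
    rw [← c.coordZ g i, hg, dotProduct_zero]
  have h2 : ⊤ ≤ Submodule.span ℤ (Set.range c.e) := by
    intro y _
    have : y = ∑ j, (c.u j ⬝ᵥ y) • c.e j := by
      funext k
      have := c.expandZ (Pi.single k 1) y
      simpa [Finset.sum_apply, mul_comm] using this
    rw [this]
    exact Submodule.sum_mem _ fun j _ => Submodule.smul_mem _ _ (Submodule.subset_span ⟨j, rfl⟩)
  refine ⟨Module.Basis.mk h1 h2, fun k => by simp, c.mem, fun k => by simpa using c.edge k,
    fun x hx => ⟨fun k => toReal (c.u k) ⬝ᵥ (x - toReal c.v), fun k => c.ineq k x hx, ?_⟩⟩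
  simp only [Module.Basis.coe_mk]
  rw [← c.expandV, add_sub_cancel]

lemma shift_ineq {P : Set (Fin d → ℝ)} (hS : HasShiftedCubes P) (c : Corner P) :
    ∃ s : Fin d → ℝ, (∀ k, 0 ≤ s k) ∧ ∀ t : Fin d → ℝ, (∀ k, 0 ≤ t k ∧ t k ≤ 1) →
      ∀ (c' : Corner P) (i : Fin d), -1 < (c'.u i ⬝ᵥ (c.v - c'.v) : ℤ) +
        ∑ k, (t k - s k) * (c'.u i ⬝ᵥ c.e k : ℤ) := by
  obtain ⟨b, hb, hc⟩ := c.exists_basis
  obtain ⟨s, hs0, hs⟩ := hS _ _ hc
  refine ⟨s, hs0, fun t ht c' i => ?_⟩
  obtain ⟨b', hb', hc'⟩ := c'.exists_basis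
  obtain ⟨g, hg, h⟩ := hs t ht _ _ hc'
  simp only [hb, hb'] at h
  have h2 := congrArg (toReal (c'.u i) ⬝ᵥ ·) h
  simp only [dotProduct_add, c'.coord] at h2
  simp only [dotProduct_sum, dotProduct_smul, toReal_dot, smul_eq_mul] at h2
  rw [dotProduct_sub]
  push_cast
  linarith [hg i]

section step

variable {P : Set (Fin d → ℝ)} {σ : Type} [Fintype σ] {c : σ → Corner P}

omit [Fintype σ] in
lemma mem_of_ineq (hP : Convex ℝ P) (hc : IsClosed P)
    (hmin : ∀ a : Fin d → ℝ, ∃ s, ∀ y ∈ P, a ⬝ᵥ toReal (c s).v ≤ a ⬝ᵥ y) {x : Fin d → ℝ}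
    (hx : ∀ t l, 0 ≤ toReal ((c t).u l) ⬝ᵥ (x - toReal (c t).v)) : x ∈ P := by
  refine mem_of_forall_le hP hc fun a => ?_
  obtain ⟨t, ht⟩ := hmin a
  refine ⟨_, (c t).mem, ?_⟩
  rw [← sub_nonneg, ← dotProduct_sub, (c t).expand]
  exact Finset.sum_nonneg fun l _ => mul_nonneg ((c t).edge_nonneg ht l) (hx t l)

/-- The corner `H` lies on the face cut out by the normals `j` with `m j = 0`. -/
def Good (c : σ → Corner P) (m : σ × Fin d → ℤ) (H : σ) : Prop :=
  ∀ j, m j = 0 → (c j.1).u j.2 ⬝ᵥ ((c H).v - (c j.1).v) = 0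

/-- The `k`-th edge of the corner `H` is parallel to that face. -/
def Par (c : σ → Corner P) (m : σ × Fin d → ℤ) (H : σ) (k : Fin d) : Prop :=
  ∀ j, m j = 0 → (c j.1).u j.2 ⬝ᵥ (c H).e k = 0

lemma exists_good (hmin : ∀ a : Fin d → ℝ, ∃ s, ∀ y ∈ P, a ⬝ᵥ toReal (c s).v ≤ a ⬝ᵥ y)
    (m : σ × Fin d → ℤ) {q : Fin d → ℝ} (hq : q ∈ P)
    (hm : ∀ j, m j = 0 → toReal ((c j.1).u j.2) ⬝ᵥ (q - toReal (c j.1).v) = 0) (a : Fin d → ℝ) :
    ∃ H, Good c m H ∧ ∀ k, Par c m H k → 0 ≤ a ⬝ᵥ toReal ((c H).e k) := by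
  classical
  obtain ⟨N, hN⟩ := Finite.exists_le fun t => a ⬝ᵥ q - a ⬝ᵥ toReal (c t).v + 1
  obtain ⟨H, hH⟩ := hmin (a + |N| • ∑ j ∈ Finset.univ.filter (fun j => m j = 0),
    toReal ((c j.1).u j.2))
  refine ⟨H, fun j hj => ?_, fun k hk => ?_⟩
  · refine le_antisymm ?_ ((c j.1).ineqZ j.2 (c H).mem)
    by_contra hc
    have h1 : (1 : ℝ) ≤ ((c j.1).u j.2 ⬝ᵥ ((c H).v - (c j.1).v) : ℤ) := by
      exact_mod_cast not_le.mp hc
    rw [← toReal_dot, toReal_sub] at h1
    have h2 := hH _ hq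
    have h3 := (hN H).trans (le_abs_self N)
    have h4 := Finset.single_le_sum (s := Finset.univ.filter (fun j => m j = 0))
      (f := fun j => toReal ((c j.1).u j.2) ⬝ᵥ (toReal (c H).v - toReal (c j.1).v))
      (fun j _ => (c j.1).ineq j.2 _ (c H).mem) (a := j) (by simp [hj])
    have h5 : ∑ j ∈ Finset.univ.filter (fun j => m j = 0),
        toReal ((c j.1).u j.2) ⬝ᵥ (q - toReal (c j.1).v) = 0 :=
      Finset.sum_eq_zero fun j hj => hm j (Finset.mem_filter.mp hj).2
    simp only [add_dotProduct, smul_dotProduct, smul_eq_mul, sum_dotProduct] at h2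
    simp only [dotProduct_sub, Finset.sum_sub_distrib] at h1 h4 h5
    rw [sub_eq_zero.mp h5] at h2
    nlinarith [mul_le_mul_of_nonneg_left (h1.trans h4) (abs_nonneg N)]
  · have h1 := (c H).edge_nonneg hH k
    rw [add_dotProduct, smul_dotProduct, sum_dotProduct, Finset.sum_eq_zero fun j hj => by
      rw [toReal_dot, hk j (Finset.mem_filter.mp hj).2, Int.cast_zero]] at h1
    simpa using h1

omit [Fintype σ] in
open Classical in
/-- Covering inside the face: a point of the affine span of the face is a lattice point plus a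
small combination of edge directions of the face. -/
lemma face_cover (m : σ × Fin d → ℤ) {τ : Type} [Fintype τ] (φ : τ → σ) (H0 : τ)
    (hnp : ∀ H k, ¬ Par c m (φ H) k → m (φ H, k) = 0)
    (κ : τ → ℝ) (h0 : ∀ H, 0 ≤ κ H) (h1 : ∑ H, κ H = 1) {δ : ℝ} (hδ : 0 < δ) (x : Fin d → ℝ)
    (hx : ∀ j, m j = 0 → toReal ((c j.1).u j.2) ⬝ᵥ (x - toReal (c (φ H0)).v) = 0) :
    ∃ (p : Fin d → ℤ) (t : τ × Fin d → ℝ), (∀ i, |t i| ≤ κ i.1 / 2 + δ) ∧
      x = toReal p + ∑ i, if Par c m (φ i.1) i.2 then t i • toReal ((c (φ i.1)).e i.2) else 0 := by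
  have : Nonempty τ := ⟨H0⟩
  set c0 := c (φ H0) with hc0
  let π : (Fin d → ℤ) → Fin d → ℤ := fun w =>
    ∑ l, if Par c m (φ H0) l then 0 else (c0.u l ⬝ᵥ w) • c0.e l
  have hπ1 : ∀ w l, Par c m (φ H0) l → c0.u l ⬝ᵥ π w = 0 := by
    intro w l hl
    rw [dotProduct_sum]
    refine Finset.sum_eq_zero fun k _ => ?_
    split_ifs with hk
    · simp
    · rw [dotProduct_smul, c0.dual, if_neg (fun h : l = k => hk (h ▸ hl)), smul_zero]
  have hπ2 : ∀ w j, m j = 0 → (c j.1).u j.2 ⬝ᵥ π w = (c j.1).u j.2 ⬝ᵥ w := by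
    intro w j hj
    rw [dotProduct_sum, c0.expandZ _ w]
    refine Finset.sum_congr rfl fun k _ => ?_
    split_ifs with hk
    · rw [hk j hj]; simp
    · rw [dotProduct_smul, smul_eq_mul, mul_comm]
  let w : τ × Fin d → Fin d → ℤ := fun i =>
    if Par c m (φ i.1) i.2 then (c (φ i.1)).e i.2 else π ((c (φ i.1)).e i.2)
  have hw : ∀ H, (of fun k => w (H, k)).det ≠ 0 := by
    intro H hdet
    obtain ⟨g, hg0, hg⟩ := exists_vecMul_eq_zero_iff.mpr hdet
    have hg' : ∑ k, g k • w (H, k) = 0 := by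
      funext l
      simpa [vecMul, dotProduct, Finset.sum_apply] using congrFun hg l
    have h2 : ∀ k, ¬ Par c m (φ H) k → g k = 0 := by
      intro k hk
      have h3 := congrArg ((c (φ H)).u k ⬝ᵥ ·) hg'
      have h4 : ∀ l, (c (φ H)).u k ⬝ᵥ w (H, l) = if k = l then 1 else 0 := by
        intro l
        rw [← (c (φ H)).dual]
        simp only [w]
        split_ifs
        · rfl
        · exact hπ2 _ (φ H, k) (hnp H k hk)
      simp only [dotProduct_sum, dotProduct_smul, h4] at h3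
      simpa using h3
    refine hg0 (funext fun k => ?_)
    have h3 : ∑ k, g k • (c (φ H)).e k = 0 := by
      rw [← hg']
      refine Finset.sum_congr rfl fun l _ => ?_
      by_cases hl : Par c m (φ H) l
      · simp [w, hl]
      · simp [h2 l hl]
    rw [← (c (φ H)).coordZ g k, h3, dotProduct_zero, Pi.zero_apply]
  obtain ⟨p, t, ht, hxp⟩ := cover w hw κ h0 h1 hδ x
  change x = toReal p + ∑ i, t i • toReal (w i) at hxp
  refine ⟨p + π (c0.v - p), t, ht, ?_⟩
  rw [← sub_eq_zero, c0.expandV (x - _)]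
  refine Finset.sum_eq_zero fun l _ => smul_eq_zero_of_left ?_ _
  by_cases hl : Par c m (φ H0) l
  · have h2 : ∀ i, (toReal (c0.u l) ⬝ᵥ if Par c m (φ i.1) i.2 then
        t i • toReal ((c (φ i.1)).e i.2) else 0) = t i * (c0.u l ⬝ᵥ w i : ℤ) := by
      intro i
      simp only [w]
      split_ifs with hi
      · rw [dotProduct_smul, toReal_dot, smul_eq_mul]
      · rw [hπ1 _ l hl]; simp
    rw [hxp, toReal_add]
    simp only [dotProduct_sub, dotProduct_add, dotProduct_sum, toReal_dot, hπ1 _ l hl,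
      dotProduct_smul, smul_eq_mul, h2]
    simp
  · have h2 := hnp H0 l hl
    have h3 := hx _ h2
    have h4 := hπ2 (c0.v - p) _ h2
    simp only [← hc0] at h3 h4
    rw [toReal_add]
    simp only [dotProduct_sub, dotProduct_add, dotProduct_sum, toReal_dot, h4] at h3 ⊢
    rw [Finset.sum_eq_zero fun i _ => ?_]
    · push_cast; linarith
    · split_ifs with hi
      · rw [dotProduct_smul, toReal_dot, hi _ h2]; simp
      · simp


open Classical in
lemma step (hP : Convex ℝ P) (hc : IsClosed P)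
    (hmin : ∀ a : Fin d → ℝ, ∃ s, ∀ y ∈ P, a ⬝ᵥ toReal (c s).v ≤ a ⬝ᵥ y)
    (hS : HasShiftedCubes P) (t : ℕ) (z : Fin d → ℤ) (hz : ((t : ℝ) + 2)⁻¹ • toReal z ∈ P) :
    ∃ p, toReal p ∈ P ∧ ((t : ℝ) + 1)⁻¹ • toReal (z - p) ∈ P := by
  let m : σ × Fin d → ℤ := fun j => (c j.1).u j.2 ⬝ᵥ z - (t + 2) * ((c j.1).u j.2 ⬝ᵥ (c j.1).v)
  let lam : σ × Fin d → σ → ℤ := fun j H => (c j.1).u j.2 ⬝ᵥ ((c H).v - (c j.1).v)
  let U : σ × Fin d → σ → Fin d → ℤ := fun j H k => (c j.1).u j.2 ⬝ᵥ (c H).e k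
  have ht2 : (0 : ℝ) < t + 2 := by positivity
  have ht1 : (0 : ℝ) < t + 1 := by positivity
  have hmq : ∀ j, toReal ((c j.1).u j.2) ⬝ᵥ (((t : ℝ) + 2)⁻¹ • toReal z - toReal (c j.1).v) =
      ((t : ℝ) + 2)⁻¹ * m j := by
    intro j
    simp only [m, dotProduct_sub, dotProduct_smul, toReal_dot, smul_eq_mul]
    push_cast
    field_simp
  have hm0 : ∀ j, 0 ≤ m j := by
    intro j
    have := (c j.1).ineq j.2 _ hz
    rw [hmq] at this
    exact_mod_cast (mul_nonneg_iff_of_pos_left (inv_pos.mpr ht2)).mp this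
  have hlam : ∀ j H, 0 ≤ lam j H := fun j H => (c j.1).ineqZ j.2 (c H).mem
  have hexp : ∀ j H, m j = (t + 2) * lam j H + ∑ k, U j H k * m (H, k) := by
    intro j H
    simp only [m, lam, U, mul_sub, Finset.sum_sub_distrib, dotProduct_sub]
    rw [← (c H).expandZ, Finset.sum_congr rfl fun k _ => mul_left_comm _ _ _, ← Finset.mul_sum,
      ← (c H).expandZ]
    ring
  have hnp : ∀ H, Good c m H → ∀ k, ¬ Par c m H k → m (H, k) = 0 := by
    intro H hH k hk
    simp only [Par, not_forall] at hk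
    obtain ⟨j, hj, hk⟩ := hk
    have h1 : ∀ l, 0 ≤ U j H l := by
      intro l
      have := (c j.1).ineqZ j.2 ((c H).edge l)
      rwa [add_sub_right_comm, dotProduct_add, hH j hj, zero_add] at this
    have h2 := hexp j H
    rw [hj, show lam j H = 0 from hH j hj, mul_zero, zero_add] at h2
    have h3 := (Finset.sum_eq_zero_iff_of_nonneg fun l _ =>
      mul_nonneg (h1 l) (hm0 (H, l))).mp h2.symm k (Finset.mem_univ k)
    exact (mul_eq_zero.mp h3).resolve_left hk
  have hpar : ∀ H k, Par c m H k → (1 : ℝ) ≤ m (H, k) := by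
    intro H k hk
    have h1 : m (H, k) ≠ 0 := fun h => by simpa [(c H).dual] using hk _ h
    have h2 := hm0 (H, k)
    exact_mod_cast (by omega : 1 ≤ m (H, k))
  have hgood := exists_good hmin m hz fun j hj => by rw [hmq, hj]; simp
  choose s hs0 hs using fun H => shift_ineq hS (c H)
  have hs1 : ∀ H k, s H k ≤ 1 := by
    intro H k
    have := hs H 0 (fun _ => by simp) (c H) k
    simp [(c H).dual] at this
    exact this.le
  let y : σ × Fin d → σ → ℝ := fun j H =>
    lam j H + ∑ k, if Par c m H k then (1 / 2 - s H k) * U j H k else 0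
  let N : σ × Fin d → σ → ℝ := fun j H => ∑ k, if Par c m H k then |(U j H k : ℝ)| else 0
  have hA : ∀ j H, 0 < y j H - N j H / 2 + 1 := by
    intro j H
    have h1 := hs H (fun k => if Par c m H k then (if U j H k < 0 then 1 else 0) else s H k)
      (fun k => by
        split_ifs
        · simp
        · simp
        · exact ⟨hs0 H k, hs1 H k⟩) (c j.1) j.2
    have h2 : ∑ k, ((if Par c m H k then (if U j H k < 0 then 1 else 0) else s H k) - s H k) *
        (U j H k : ℝ) = (∑ k, if Par c m H k then (1 / 2 - s H k) * (U j H k : ℝ) else 0) -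
          N j H / 2 := by
      simp only [N]
      rw [Finset.sum_div, ← Finset.sum_sub_distrib]
      refine Finset.sum_congr rfl fun k _ => ?_
      split_ifs with h3 h4
      · rw [abs_of_neg (by exact_mod_cast h4)]; ring
      · rw [abs_of_nonneg (by exact_mod_cast not_lt.mp h4)]; ring
      · simp
    change -1 < (lam j H : ℝ) + ∑ k, _ * (U j H k : ℝ) at h1
    rw [h2] at h1
    simp only [y]
    linarith
  have hB : ∀ j H, Good c m H → m j - y j H = y j H + t * lam j H +
      ∑ k, if Par c m H k then (m (H, k) - 1 + 2 * s H k) * U j H k else 0 := by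
    intro j H hH
    have h1 : ∑ k, (U j H k : ℝ) * m (H, k) =
        2 * (∑ k, if Par c m H k then (1 / 2 - s H k) * (U j H k : ℝ) else 0) +
        ∑ k, if Par c m H k then (m (H, k) - 1 + 2 * s H k) * (U j H k : ℝ) else 0 := by
      rw [Finset.mul_sum, ← Finset.sum_add_distrib]
      refine Finset.sum_congr rfl fun k _ => ?_
      split_ifs with h
      · ring
      · simp [hnp H hH k h]
    rw [hexp j H]
    push_cast
    simp only [y]
    linarith
  obtain ⟨H0, hH0, -⟩ := hgood 0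
  have : Nonempty {H // Good c m H} := ⟨⟨H0, hH0⟩⟩
  obtain ⟨κ, hκ0, hκ1, hκ⟩ := game (σ := {H // Good c m H}) (ι := (σ × Fin d) ⊕ (σ × Fin d))
    (fun H => Sum.elim (fun j => y j H - N j H / 2 + 1) (fun j => m j - y j H - N j H / 2 + 1))
    (by
      intro γ hγ hγ0
      obtain ⟨H, hH, ha⟩ := hgood (∑ j, γ (Sum.inr j) • toReal ((c j.1).u j.2))
      refine ⟨⟨H, hH⟩, ?_⟩
      have h1 : 0 < ∑ i, γ i * Sum.elim (fun j => y j H - N j H / 2 + 1)
          (fun j => y j H - N j H / 2 + 1) i := by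
        obtain ⟨i, hi⟩ := Function.ne_iff.mp hγ0
        have h2 : ∀ i, 0 < Sum.elim (fun j => y j H - N j H / 2 + 1)
            (fun j => y j H - N j H / 2 + 1) i := by
          rintro (j | j) <;> exact hA j H
        exact Finset.sum_pos' (fun i _ => mul_nonneg (hγ i) (h2 i).le)
          ⟨i, Finset.mem_univ i, mul_pos ((hγ i).lt_of_ne' hi) (h2 i)⟩
      have h2 : 0 ≤ ∑ j, γ (Sum.inr j) * (t * lam j H) := Finset.sum_nonneg fun j _ =>
        mul_nonneg (hγ _) (mul_nonneg (Nat.cast_nonneg t) (by exact_mod_cast hlam j H))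
      have h3 : 0 ≤ ∑ j, γ (Sum.inr j) * ∑ k, if Par c m H k then
          (m (H, k) - 1 + 2 * s H k) * (U j H k : ℝ) else 0 := by
        simp only [Finset.mul_sum]
        rw [Finset.sum_comm]
        refine Finset.sum_nonneg fun k _ => ?_
        by_cases hk : Par c m H k
        · have h4 := ha k hk
          simp only [sum_dotProduct, smul_dotProduct, toReal_dot, smul_eq_mul] at h4
          simp only [if_pos hk]
          rw [Finset.sum_congr rfl fun j _ => mul_left_comm _ _ _, ← Finset.mul_sum]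
          exact mul_nonneg (by linarith [hpar H k hk, hs0 H k]) h4
        · simp [hk]
      simp only [dotProduct, Fintype.sum_sum_type, Sum.elim_inl, Sum.elim_inr] at h1 ⊢
      have h4 : ∑ j, γ (Sum.inr j) * (m j - y j H - N j H / 2 + 1) =
          ∑ j, γ (Sum.inr j) * (y j H - N j H / 2 + 1) + ∑ j, γ (Sum.inr j) * (t * lam j H) +
          ∑ j, γ (Sum.inr j) * ∑ k, if Par c m H k then
            (m (H, k) - 1 + 2 * s H k) * (U j H k : ℝ) else 0 := by
        rw [← Finset.sum_add_distrib, ← Finset.sum_add_distrib]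
        refine Finset.sum_congr rfl fun j _ => ?_
        rw [hB j H hH]
        ring
      linarith)
  let X : σ → Fin d → ℝ := fun H =>
    toReal (c H).v + ∑ k, if Par c m H k then (1 / 2 - s H k) • toReal ((c H).e k) else 0
  have hX : ∀ j H, toReal ((c j.1).u j.2) ⬝ᵥ X H =
      y j H + ((c j.1).u j.2 ⬝ᵥ (c j.1).v : ℤ) := by
    intro j H
    simp only [X, y, lam, dotProduct_add, dotProduct_sum, toReal_dot, dotProduct_sub]
    rw [Finset.sum_congr rfl (g := fun k => if Par c m H k then (1 / 2 - s H k) * (U j H k : ℝ)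
      else 0) fun k _ => by split_ifs <;> simp [toReal_dot, U]]
    push_cast
    ring
  have hx : ∀ j, toReal ((c j.1).u j.2) ⬝ᵥ ∑ H, κ H • X H.1 =
      ∑ H, κ H * y j H + ((c j.1).u j.2 ⬝ᵥ (c j.1).v : ℤ) := by
    intro j
    simp only [dotProduct_sum, dotProduct_smul, smul_eq_mul, hX, mul_add, Finset.sum_add_distrib]
    rw [← Finset.sum_mul, hκ1, one_mul]
  obtain ⟨δ, hδ, hδ0⟩ : ∃ δ : ℝ, (∀ i : (σ × Fin d) ⊕ (σ × Fin d),
      δ * ∑ H : {H // Good c m H}, N (Sum.elim id id i) H < ∑ H, κ H *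
      Sum.elim (fun j => y j H - N j H / 2 + 1) (fun j => m j - y j H - N j H / 2 + 1) i) ∧
      0 < δ := by
    refine ((Filter.eventually_all.mpr fun i => ?_).and
      (self_mem_nhdsWithin (a := (0 : ℝ)) (s := Set.Ioi 0))).exists
    refine Filter.Eventually.filter_mono nhdsWithin_le_nhds ?_
    exact (continuous_id.mul continuous_const).continuousAt.eventually_lt continuousAt_const
      (by simpa using hκ i)
  obtain ⟨p, r, hr, hp⟩ := face_cover m (fun H : {H // Good c m H} => H.1) ⟨H0, hH0⟩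
    (fun H => hnp H.1 H.2) κ hκ0 hκ1 hδ0 (∑ H, κ H • X H.1) (by
      intro j hj
      have h1 : ∀ H : {H // Good c m H}, y j H = 0 := by
        intro H
        simp only [y]
        rw [show lam j H = 0 from H.2 j hj, Finset.sum_eq_zero fun k _ => ?_]
        · simp
        · split_ifs with hk
          · rw [show U j H k = 0 from hk j hj]; simp
          · rfl
      have h2 := hH0 j hj
      rw [dotProduct_sub, sub_eq_zero] at h2
      rw [dotProduct_sub, hx, toReal_dot, h2]
      simp [h1])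
  have key : ∀ j, |∑ H, κ H * y j H - ((c j.1).u j.2 ⬝ᵥ (p - (c j.1).v) : ℤ)| ≤
      ∑ H : {H // Good c m H}, κ H * N j H / 2 + δ * ∑ H : {H // Good c m H}, N j H := by
    intro j
    have h1 := hx j
    rw [hp, dotProduct_add, toReal_dot, dotProduct_sum] at h1
    have h2 : ∑ H, κ H * y j H - ((c j.1).u j.2 ⬝ᵥ (p - (c j.1).v) : ℤ) = ∑ i, toReal
        ((c j.1).u j.2) ⬝ᵥ if Par c m i.1.1 i.2 then r i • toReal ((c i.1.1).e i.2) else 0 := by
      rw [dotProduct_sub]
      push_cast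
      linarith
    rw [h2, Finset.mul_sum, ← Finset.sum_add_distrib]
    refine (Finset.abs_sum_le_sum_abs _ _).trans ?_
    rw [Fintype.sum_prod_type]
    refine Finset.sum_le_sum fun H _ => ?_
    simp only [N, Finset.mul_sum, Finset.sum_div]
    rw [← Finset.sum_add_distrib]
    refine Finset.sum_le_sum fun k _ => ?_
    split_ifs with hk
    · rw [dotProduct_smul, toReal_dot, smul_eq_mul, abs_mul]
      have := mul_le_mul_of_nonneg_right (hr (H, k)) (abs_nonneg (U j H k : ℝ))
      simp only [U] at this ⊢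
      linarith
    · simp
  have hsum : ∀ (a : ℝ) (f g : {H // Good c m H} → ℝ), ∑ H, κ H * (a + f H - g H / 2 + 1) =
      a + ∑ H, κ H * f H - ∑ H, κ H * g H / 2 + 1 := by
    intro a f g
    simp only [mul_add, mul_sub, Finset.sum_add_distrib, Finset.sum_sub_distrib,
      ← Finset.sum_mul, hκ1, mul_div_assoc]
    ring
  refine ⟨p, mem_of_ineq hP hc hmin fun H l => ?_, mem_of_ineq hP hc hmin fun H l => ?_⟩
  · have h1 := hδ (Sum.inl (H, l))
    have h2 := (abs_le.mp (key (H, l))).2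
    have h3 := hsum 0 (fun G => y (H, l) G) fun G => N (H, l) G
    simp only [Sum.elim_inl, id, zero_add] at h1 h2 h3
    rw [← toReal_sub, toReal_dot]
    have h4 : ((-1 : ℤ) : ℝ) < ((c H).u l ⬝ᵥ (p - (c H).v) : ℤ) := by push_cast; linarith
    have h5 := Int.cast_lt.mp h4
    exact_mod_cast (by omega : 0 ≤ (c H).u l ⬝ᵥ (p - (c H).v))
  · have h1 := hδ (Sum.inr (H, l))
    have h2 := (abs_le.mp (key (H, l))).1
    have h3 := hsum (m (H, l)) (fun G => -y (H, l) G) fun G => N (H, l) G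
    simp only [Sum.elim_inr, id, mul_neg, Finset.sum_neg_distrib, ← sub_eq_add_neg] at h1 h2 h3
    have h4 : (((c H).u l ⬝ᵥ (p - (c H).v) : ℤ) : ℝ) < (m (H, l) + 1 : ℤ) := by
      push_cast at h2 ⊢; linarith
    have h5 := Int.cast_lt.mp h4
    have h6 : (0 : ℝ) ≤ (m (H, l) - (c H).u l ⬝ᵥ (p - (c H).v) : ℤ) := by
      exact_mod_cast (by omega : 0 ≤ m (H, l) - (c H).u l ⬝ᵥ (p - (c H).v))
    have h7 : toReal ((c H).u l) ⬝ᵥ (((t : ℝ) + 1)⁻¹ • toReal (z - p) - toReal (c H).v) =
        ((t : ℝ) + 1)⁻¹ * (m (H, l) - (c H).u l ⬝ᵥ (p - (c H).v) : ℤ) := by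
      simp only [m, dotProduct_sub, dotProduct_smul, toReal_dot, smul_eq_mul]
      push_cast
      field_simp
      ring
    rw [h7]
    exact mul_nonneg (inv_pos.mpr ht1).le h6

end step

theorem isIDP_of_shiftedCubes (P : Set (Fin d → ℝ)) (hP : IsLatticePolytope P) (hD : IsDelzant P)
    (hS : HasShiftedCubes P) : IsIDP P := by
  obtain ⟨σ, _, c, hmin⟩ := exists_corners hP hD
  have hc := hP.isCompact
  obtain ⟨⟨V, hV⟩, -⟩ := hP
  have hconv : Convex ℝ P := hV ▸ convex_convexHull ℝ _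
  have key : ∀ t : ℕ, ∀ z : Fin d → ℤ, ((t : ℝ) + 1)⁻¹ • toReal z ∈ P →
      ∃ x : Fin (t + 1) → Fin d → ℤ, (∀ j, toReal (x j) ∈ P) ∧ z = ∑ j, x j := by
    intro t
    induction t with
    | zero => exact fun z hz => ⟨fun _ => z, fun _ => by simpa using hz, by simp⟩
    | succ t ih =>
      intro z hz
      obtain ⟨y, hy1, hy2⟩ := step hconv hc.isClosed hmin hS t z (by
        convert hz using 3; push_cast; ring)
      obtain ⟨x, hx1, hx2⟩ := ih _ hy2
      refine ⟨Fin.cons y x, fun j => Fin.cases hy1 hx1 j, ?_⟩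
      rw [Fin.sum_univ_succ]
      simp only [Fin.cons_zero, Fin.cons_succ, ← hx2]
      abel
  intro t ht z hz
  obtain ⟨t, rfl⟩ : ∃ s, t = s + 1 := ⟨t - 1, by omega⟩
  refine key t z ?_
  obtain ⟨p, hp, hz⟩ := hz
  have h0 : (t : ℝ) + 1 ≠ 0 := by positivity
  simp only [Nat.cast_add, Nat.cast_one] at hz
  rw [← hz, inv_smul_smul₀ h0]
  exact hp

/-- Deeply smooth polytopes have shifted cubes, with shift zero. -/
lemma hasShiftedCubes_of_deep {P : Set (Fin d → ℝ)}
    (h : ∀ v b, IsCornerAt P v b → ∀ t : Fin d → ℝ, (∀ k, 0 ≤ t k ∧ t k ≤ 1) →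
      toReal v + ∑ k, t k • toReal (b k) ∈ P) : HasShiftedCubes P := by
  intro v b hb
  refine ⟨0, fun _ => le_rfl, fun t ht v' b' hb' => ?_⟩
  obtain ⟨g, hg, e⟩ := hb'.2.2 _ (h v b hb t ht)
  exact ⟨g, fun k => by linarith [hg k], by simpa using e⟩

end Pool.Agent.MP_8c130c_co.Shift
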