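import Mathlib

/-!
A one-variable inequality for a convex piecewise linear function with integer slopes of fixed
parity whose pieces of small slope are short.
-/

namespace Pool.Agent.MP_8c130c_co.Slope

structure PL (g : ℝ → ℝ) (Act : ℝ → ℤ → Prop) (ε : ℤ) : Prop where
  nonneg : ∀ s, 0 ≤ g s
  ex : ∀ s, ∃ k, Act s k
  supp : ∀ s k s', Act s k → g s + k * (s' - s) ≤ g s'
  par : ∀ s k, Act s k → k % 2 = ε
  len : ∀ s k s' s'', Act s k → |k| ≤ 2 → g s' ≤ g s + k * (s' - s) →
    g s'' ≤ g s + k * (s'' - s) → 3 * |s' - s''| ≤ g s'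

variable {g : ℝ → ℝ} {Act : ℝ → ℤ → Prop} {ε : ℤ}

lemma PL.reflect (h : PL g Act ε) : PL (fun s => g (1 - s)) (fun s k => Act (1 - s) (-k)) ε where
  nonneg := fun s => h.nonneg _
  ex := fun s => by
    obtain ⟨k, hk⟩ := h.ex (1 - s)
    exact ⟨-k, by simpa using hk⟩
  supp := fun s k s' hk => by
    have := h.supp _ _ (1 - s') hk
    push_cast at this
    linarith
  par := fun s k hk => by
    have := h.par _ _ hk
    omega
  len := fun s k s' s'' hk h1 h2 h3 => by
    have := h.len _ _ (1 - s') (1 - s'') hk (by simpa using h1) (by push_cast; linarith)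
      (by push_cast; linarith)
    rwa [show 1 - s' - (1 - s'') = -(s' - s'') by ring, abs_neg] at this

lemma le_of_near {a b x y c : ℝ} (hab : a < b) (hc : 0 ≤ c)
    (h : ∀ s, a < s → s ≤ b → x - c * (s - a) ≤ y) : x ≤ y := by
  refine le_of_forall_pos_le_add fun δ hδ => ?_
  have hc1 : 0 < c + 1 := by linarith
  have h1 : 0 < δ / (c + 1) := div_pos hδ hc1
  have h2 : c * (δ / (c + 1)) ≤ δ := by
    rw [mul_div_assoc', div_le_iff₀ hc1]; nlinarith
  rcases le_total (a + δ / (c + 1)) b with h3 | h3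
  · have := h _ (by linarith) h3
    rw [add_sub_cancel_left] at this
    linarith
  · have := h b hab le_rfl
    have h4 : c * (b - a) ≤ c * (δ / (c + 1)) := mul_le_mul_of_nonneg_left (by linarith) hc
    linarith

lemma PL.right (h : PL g Act ε) {r : ℝ} (hr1 : r ≤ 1) (hmin : ∀ s, r < s → s ≤ 1 → g r < g s)
    {k0 : ℤ} (hk0 : k0 = 1 ∨ k0 = 2) (hε : k0 % 2 = ε) :
    g r + 3 * (1 - r) - (3 - k0) * (g r / 3) ≤ g 1 := by
  have hk0' : (1 : ℝ) ≤ k0 ∧ (k0 : ℝ) ≤ 2 := by
    rcases hk0 with rfl | rfl <;> norm_num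
  have hG := h.nonneg r
  have ha : ∀ s k, r < s → s ≤ 1 → Act s k → k0 ≤ k := by
    intro s k h1 h2 hk
    have h3 := h.supp _ _ r hk
    have h4 := hmin s h1 h2
    have h5 : 0 < k := by
      by_contra hc
      have h6 : (k : ℝ) ≤ 0 := by exact_mod_cast not_lt.mp hc
      nlinarith
    have := h.par _ _ hk
    omega
  have hb : ∀ s, r ≤ s → s ≤ 1 → g r + k0 * (s - r) ≤ g s := by
    intro s h1 h2
    rcases h1.eq_or_lt with rfl | h1
    · simp
    refine le_of_near h1 (show (0 : ℝ) ≤ k0 by linarith) fun s' h3 h4 => ?_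
    obtain ⟨k, hk⟩ := h.ex s'
    have h5 : (k0 : ℝ) ≤ k := by exact_mod_cast ha s' k h3 (h4.trans h2) hk
    have h6 := h.supp _ _ s hk
    have h7 := hmin s' h3 (h4.trans h2)
    nlinarith [mul_le_mul_of_nonneg_right h5 (sub_nonneg.mpr h4)]
  rcases le_or_gt 1 (r + g r / 3) with h1 | h1
  · have := hb 1 hr1 le_rfl
    nlinarith [mul_le_mul_of_nonneg_left (show 1 - r ≤ g r / 3 by linarith)
      (show (0 : ℝ) ≤ 3 - k0 by linarith)]
  · refine le_of_near h1 (show (0 : ℝ) ≤ 3 - k0 by linarith) fun s h2 h3 => ?_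
    obtain ⟨k, hk⟩ := h.ex s
    have hrs : r < s := by linarith
    have h4 := hb s hrs.le h3
    have h5 : 3 ≤ k := by
      by_contra hc
      have h6 := ha s k hrs h3 hk
      have h7 := h.par _ _ hk
      obtain rfl : k = k0 := by omega
      have := h.len s k r s hk (by rcases hk0 with rfl | rfl <;> norm_num) (by linarith)
        (by simp)
      rw [abs_of_neg (by linarith)] at this
      linarith
    have h6 : (3 : ℝ) ≤ k := by exact_mod_cast h5
    have h7 := h.supp _ _ 1 hk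
    nlinarith [mul_le_mul_of_nonneg_right h6 (sub_nonneg.mpr h3)]

theorem PL.three_le (h : PL g Act ε) (hc : Continuous g) : 3 ≤ g 0 + g 1 := by
  obtain ⟨s0, hs0, hmin⟩ := (isCompact_Icc (a := (0 : ℝ)) (b := 1)).exists_isMinOn
    ⟨0, by simp⟩ hc.continuousOn
  have hK : IsCompact (Set.Icc (0 : ℝ) 1 ∩ {s | g s ≤ g s0}) :=
    isCompact_Icc.inter_right (isClosed_le hc continuous_const)
  obtain ⟨r, ⟨hr, hgr⟩, hrmax⟩ := hK.exists_isGreatest ⟨s0, hs0, le_refl (g s0)⟩
  obtain ⟨l, ⟨hl, hgl⟩, hlmin⟩ := hK.exists_isLeast ⟨s0, hs0, le_refl (g s0)⟩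
  have hgr' : g r = g s0 := le_antisymm hgr (hmin hr)
  have hgl' : g l = g s0 := le_antisymm hgl (hmin hl)
  have hlr : l ≤ r := hrmax ⟨hl, hgl⟩
  have hε : ε = 0 ∨ ε = 1 := by
    obtain ⟨k, hk⟩ := h.ex 0
    have := h.par _ _ hk
    omega
  have hR : ∀ s, r < s → s ≤ 1 → g r < g s := by
    intro s h1 h2
    by_contra h3
    exact absurd (hrmax ⟨⟨hr.1.trans h1.le, h2⟩, (not_lt.mp h3).trans hgr⟩) (not_le.mpr h1)
  have hL : ∀ s, 1 - l < s → s ≤ 1 → g (1 - (1 - l)) < g (1 - s) := by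
    intro s h1 h2
    by_contra h3
    rw [sub_sub_cancel] at h3
    have := hlmin ⟨⟨by linarith, by linarith [hl.2]⟩, (not_lt.mp h3).trans hgl⟩
    linarith
  have hG := h.nonneg s0
  have hmid : l < r → ε = 0 ∧ 3 * (r - l) ≤ g s0 := by
    intro hlt
    obtain ⟨k, hk⟩ := h.ex ((l + r) / 2)
    have h1 := h.supp _ _ l hk
    have h2 := h.supp _ _ r hk
    have h3 : g s0 ≤ g ((l + r) / 2) := hmin ⟨by linarith [hl.1], by linarith [hr.2]⟩
    have h4 : k = 0 := by
      rcases lt_trichotomy k 0 with h5 | h5 | h5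
      · have : (k : ℝ) < 0 := by exact_mod_cast h5
        nlinarith
      · exact h5
      · have : (0 : ℝ) < k := by exact_mod_cast h5
        nlinarith
    subst h4
    refine ⟨(h.par _ _ hk).symm, ?_⟩
    have := h.len _ _ r l hk (by simp) (by simp; linarith) (by simp; linarith)
    rwa [abs_of_pos (by linarith), hgr'] at this
  rcases hε with rfl | rfl
  · have h1 := h.right hr.2 hR (k0 := 2) (by simp) (by simp)
    have h2 := h.reflect.right (r := 1 - l) (by linarith [hl.1]) hL (k0 := 2) (by simp) (by simp)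
    simp only [sub_sub_cancel, sub_self] at h2
    rw [hgr'] at h1
    rw [hgl'] at h2
    push_cast at h1 h2
    rcases hlr.eq_or_lt with h3 | h3
    · rw [h3] at h2; linarith
    · linarith [(hmid h3).2]
  · have h1 := h.right hr.2 hR (k0 := 1) (by simp) (by simp)
    have h2 := h.reflect.right (r := 1 - l) (by linarith [hl.1]) hL (k0 := 1) (by simp) (by simp)
    simp only [sub_sub_cancel, sub_self] at h2
    rw [hgr'] at h1
    rw [hgl'] at h2
    push_cast at h1 h2
    rcases hlr.eq_or_lt with h3 | h3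
    · rw [h3] at h2; linarith
    · exact absurd (hmid h3).1 (by norm_num)

end Pool.Agent.MP_8c130c_co.Slope
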