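import Pool.Agent.MP_8c130c_co.Corner
import Pool.Agent.MP_8c130c_co.Slope

/-!
If a lattice point `x` of `2P` has lattice distance at least three from all facets of `2P`, then
`P ∩ (x - P)` has lattice width at least three.
-/

namespace Pool.Agent.MP_8c130c_co

open Reduce

variable {d : ℕ} {P : Set (Fin d → ℝ)} {σ : Type} [Fintype σ] {c : σ → Corner P}

lemma toReal_two_smul (v : Fin d → ℤ) : toReal ((2 : ℤ) • v) = (2 : ℝ) • toReal v := by
  funext k; simp [toReal]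

lemma dot_sub_two (a : Fin d → ℝ) (x v : Fin d → ℤ) :
    a ⬝ᵥ toReal (x - (2 : ℤ) • v) = 2 * (a ⬝ᵥ ((2 : ℝ)⁻¹ • toReal x) - a ⬝ᵥ toReal v) := by
  rw [toReal_sub, toReal_two_smul, dotProduct_sub, dotProduct_smul, dotProduct_smul]
  simp only [smul_eq_mul]; ring

lemma three_le_support (hmin : ∀ a : Fin d → ℝ, ∃ s, ∀ y ∈ P, a ⬝ᵥ toReal (c s).v ≤ a ⬝ᵥ y)
    {x : Fin d → ℤ} (hx : (2 : ℝ)⁻¹ • toReal x ∈ P)
    (hD : ∀ s i, 3 ≤ (c s).u i ⬝ᵥ (x - (2 : ℤ) • (c s).v)) {u : Fin d → ℤ} (hu : u ≠ 0)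
    (a : Fin d → ℝ) : ∃ s t, 3 ≤ a ⬝ᵥ toReal (x - (2 : ℤ) • (c s).v) +
      (a + toReal u) ⬝ᵥ toReal (x - (2 : ℤ) • (c t).v) := by
  have hne : (Finset.univ : Finset σ).Nonempty := by
    obtain ⟨s, -⟩ := hmin 0
    exact ⟨s, Finset.mem_univ s⟩
  let w : σ → Fin d → ℤ := fun t => x - (2 : ℤ) • (c t).v
  let L : σ → ℝ → ℝ := fun t s => (a + s • toReal u) ⬝ᵥ toReal (w t)
  have hL : ∀ t s, L t s = a ⬝ᵥ toReal (w t) + s * (u ⬝ᵥ w t : ℤ) := by
    intro t s
    simp only [L, add_dotProduct, smul_dotProduct, toReal_dot, smul_eq_mul]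
  let g : ℝ → ℝ := fun s => Finset.univ.sup' hne fun t => L t s
  have hge : ∀ t s, L t s ≤ g s := fun t s =>
    Finset.le_sup' (fun t => L t s) (Finset.mem_univ t)
  have hex : ∀ s, ∃ t, g s = L t s := by
    intro s
    obtain ⟨t, -, ht⟩ := Finset.exists_mem_eq_sup' hne fun t => L t s
    exact ⟨t, ht⟩
  have hcont : Continuous g := by
    refine Continuous.finset_sup'_apply hne fun t _ => ?_
    rw [funext (hL t)]
    fun_prop
  have hact : ∀ t s, g s ≤ L t s → ∀ j, 0 ≤ (a + s • toReal u) ⬝ᵥ toReal ((c t).e j) := by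
    intro t s h
    refine (c t).edge_nonneg fun y hy => ?_
    obtain ⟨t', ht'⟩ := hmin (a + s • toReal u)
    have h1 := (hge t' s).trans h
    simp only [L, w, dot_sub_two] at h1
    linarith [ht' y hy]
  have hPL : Slope.PL g (fun s k => ∃ t, g s = L t s ∧ k = u ⬝ᵥ w t) ((u ⬝ᵥ x) % 2) := by
    refine ⟨fun s => ?_, fun s => ?_, ?_, ?_, ?_⟩
    · obtain ⟨t, ht⟩ := hmin (a + s • toReal u)
      refine le_trans ?_ (hge t s)
      simp only [L, w, dot_sub_two]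
      linarith [ht _ hx]
    · obtain ⟨t, ht⟩ := hex s
      exact ⟨_, t, ht, rfl⟩
    · rintro s k s' ⟨t, ht, rfl⟩
      refine le_trans (le_of_eq ?_) (hge t s')
      rw [ht, hL, hL]; ring
    · rintro s k ⟨t, -, rfl⟩
      simp only [w, dotProduct_sub, dotProduct_smul, smul_eq_mul]
      omega
    · rintro s k s' s'' ⟨t, ht, rfl⟩ hk h1 h2
      have e : ∀ r, g s + (u ⬝ᵥ w t : ℤ) * (r - s) = L t r := by
        intro r; rw [ht, hL, hL]; ring
      rw [e] at h1 h2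
      have a1 := hact t s' h1
      have a2 := hact t s'' h2
      have hk' : u ⬝ᵥ w t = ∑ j, (u ⬝ᵥ (c t).e j) * ((c t).u j ⬝ᵥ w t) := (c t).expandZ _ _
      have hn : ∃ j, u ⬝ᵥ (c t).e j ≠ 0 := by
        by_contra hc
        push Not at hc
        refine hu (funext fun k => ?_)
        have := (c t).expandZ u (Pi.single k 1)
        simpa [hc] using this
      have hDt : ∀ j, 3 ≤ (c t).u j ⬝ᵥ w t := hD t
      have hpos : ∃ j, 1 ≤ u ⬝ᵥ (c t).e j := by
        by_contra hc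
        push Not at hc
        obtain ⟨j, hj⟩ := hn
        have h3 := Finset.single_le_sum (f := fun j => -(u ⬝ᵥ (c t).e j) * ((c t).u j ⬝ᵥ w t))
          (fun j _ => mul_nonneg (by have := hc j; omega) (by have := hDt j; omega))
          (Finset.mem_univ j)
        simp only [neg_mul, Finset.sum_neg_distrib, ← hk'] at h3
        have h4 : 1 ≤ -(u ⬝ᵥ (c t).e j) := by have := hc j; omega
        have := (abs_le.mp hk).1
        nlinarith [hDt j]
      have hneg : ∃ j, u ⬝ᵥ (c t).e j ≤ -1 := by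
        by_contra hc
        push Not at hc
        obtain ⟨j, hj⟩ := hn
        have h3 := Finset.single_le_sum (f := fun j => (u ⬝ᵥ (c t).e j) * ((c t).u j ⬝ᵥ w t))
          (fun j _ => mul_nonneg (by have := hc j; omega) (by have := hDt j; omega))
          (Finset.mem_univ j)
        simp only [← hk'] at h3
        have h4 : 1 ≤ u ⬝ᵥ (c t).e j := by have := hc j; omega
        have := (abs_le.mp hk).2
        nlinarith [hDt j]
      have hg : ∀ j, 3 * ((a + s' • toReal u) ⬝ᵥ toReal ((c t).e j)) ≤ g s' := by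
        intro j
        refine le_trans ?_ (hge t s')
        simp only [L]
        rw [(c t).expand _ (toReal (w t))]
        have h3 : ∀ j, (3 : ℝ) ≤ toReal ((c t).u j) ⬝ᵥ toReal (w t) := by
          intro j; rw [toReal_dot]; exact_mod_cast hDt j
        refine le_trans ?_ (Finset.single_le_sum (f := fun j =>
          ((a + s' • toReal u) ⬝ᵥ toReal ((c t).e j)) * (toReal ((c t).u j) ⬝ᵥ toReal (w t)))
          (fun j _ => mul_nonneg (a1 j) (by linarith [h3 j])) (Finset.mem_univ j))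
        nlinarith [a1 j, h3 j]
      simp only [add_dotProduct, smul_dotProduct, toReal_dot, smul_eq_mul] at a1 a2 hg
      rcases le_total s' s'' with h | h
      · obtain ⟨j, hj⟩ := hneg
        have h3 : ((u ⬝ᵥ (c t).e j : ℤ) : ℝ) ≤ -1 := by exact_mod_cast hj
        rw [abs_of_nonpos (by linarith)]
        nlinarith [a2 j, hg j, mul_le_mul_of_nonneg_left h3 (sub_nonneg.mpr h)]
      · obtain ⟨j, hj⟩ := hpos
        have h3 : (1 : ℝ) ≤ ((u ⬝ᵥ (c t).e j : ℤ) : ℝ) := by exact_mod_cast hj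
        rw [abs_of_nonneg (by linarith)]
        nlinarith [a2 j, hg j, mul_le_mul_of_nonneg_left h3 (sub_nonneg.mpr h)]
  have h3 := hPL.three_le hcont
  obtain ⟨s, hs⟩ := hex 0
  obtain ⟨t, ht⟩ := hex 1
  refine ⟨s, t, ?_⟩
  rw [hs, ht] at h3
  simpa only [L, zero_smul, add_zero, one_smul] using h3

theorem wide (hP : Convex ℝ P) (hc : IsCompact P)
    (hmin : ∀ a : Fin d → ℝ, ∃ s, ∀ y ∈ P, a ⬝ᵥ toReal (c s).v ≤ a ⬝ᵥ y)
    {x : Fin d → ℤ} (hx : (2 : ℝ)⁻¹ • toReal x ∈ P)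
    (hD : ∀ s i, 3 ≤ (c s).u i ⬝ᵥ (x - (2 : ℤ) • (c s).v)) {u : Fin d → ℤ} (hu : u ≠ 0) :
    ∃ p : Fin d → ℝ, (∀ s i, |toReal ((c s).u i) ⬝ᵥ p| ≤
      ((c s).u i ⬝ᵥ (x - (2 : ℤ) • (c s).v) : ℤ)) ∧ 3 ≤ toReal u ⬝ᵥ p := by
  by_contra hno
  let F : (Fin d → ℝ) × (Fin d → ℝ) → (Fin d → ℝ) × ℝ := fun pq =>
    (pq.1 + pq.2 - toReal x, toReal u ⬝ᵥ (toReal x - (2 : ℝ) • pq.2))
  have hFc : Continuous F := by fun_prop
  have hconv : Convex ℝ (F '' (P ×ˢ P)) := by
    rintro _ ⟨⟨p, q⟩, ⟨hp, hq⟩, rfl⟩ _ ⟨⟨p', q'⟩, ⟨hp', hq'⟩, rfl⟩ s t hs ht hst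
    refine ⟨(s • p + t • p', s • q + t • q'), ⟨hP hp hp' hs ht hst, hP hq hq' hs ht hst⟩, ?_⟩
    obtain rfl : t = 1 - s := by linarith
    simp only [F, Prod.smul_mk, Prod.mk_add_mk, Prod.mk.injEq]
    constructor
    · module
    · simp only [dotProduct_sub, dotProduct_smul, dotProduct_add, smul_eq_mul]; ring
  have hR : Convex ℝ (({0} : Set (Fin d → ℝ)) ×ˢ Set.Ici (3 : ℝ)) :=
    (convex_singleton _).prod (convex_Ici _)
  obtain ⟨f, r, r', h1, h2, h3⟩ := geometric_hahn_banach_compact_closed hconv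
    ((hc.prod hc).image hFc) hR (isClosed_singleton.prod isClosed_Ici) (by
      rw [Set.disjoint_left]
      rintro _ ⟨⟨p, q⟩, ⟨hp, hq⟩, rfl⟩ ⟨h1, h2⟩
      refine hno ⟨toReal x - (2 : ℝ) • q, fun s i => ?_, h2⟩
      have h3 : p = toReal x - q := by
        have : p + q - toReal x = 0 := h1
        rw [sub_eq_zero] at this
        rw [← this]; simp
      have k1 := (c s).ineq i _ hp
      have k2 := (c s).ineq i _ hq
      rw [← toReal_dot, toReal_sub, toReal_two_smul]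
      simp only [h3, dotProduct_sub, dotProduct_smul, smul_eq_mul] at k1 k2 ⊢
      rw [abs_le]
      constructor <;> linarith)
  obtain ⟨a, ha⟩ := exists_dot (f.comp (ContinuousLinearMap.inl ℝ (Fin d → ℝ) ℝ))
  have hf : ∀ z t, f (z, t) = a ⬝ᵥ z + t * f (0, 1) := by
    intro z t
    rw [← ha, ← smul_eq_mul, ← map_smul]
    simp only [ContinuousLinearMap.comp_apply, ContinuousLinearMap.inl_apply, ← map_add]
    simp
  set μ := f (0, 1)
  have h4 := h3 (0, 3) ⟨rfl, le_refl (3 : ℝ)⟩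
  rw [hf, dotProduct_zero, zero_add] at h4
  have h5 := h1 _ ⟨((2 : ℝ)⁻¹ • toReal x, (2 : ℝ)⁻¹ • toReal x), ⟨hx, hx⟩, rfl⟩
  have e1 : (2 : ℝ)⁻¹ • toReal x + (2 : ℝ)⁻¹ • toReal x - toReal x = 0 := by module
  have e2 : toReal x - (2 : ℝ) • (2 : ℝ)⁻¹ • toReal x = 0 := by module
  simp only [F, hf, e1, e2, dotProduct_zero, zero_mul, add_zero] at h5
  have hμ : 0 < μ := by linarith
  obtain ⟨s, t, hst⟩ := three_le_support hmin hx hD hu (-(2 * μ)⁻¹ • a)
  have h6 := h1 _ ⟨(toReal (c s).v, toReal (c t).v), ⟨(c s).mem, (c t).mem⟩, rfl⟩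
  simp only [F, hf] at h6
  simp only [toReal_sub, toReal_two_smul, add_dotProduct, smul_dotProduct, dotProduct_sub,
    dotProduct_add, dotProduct_smul, smul_eq_mul] at hst h6
  have h7 := mul_le_mul_of_nonneg_left hst hμ.le
  have e3 : μ * (2 * μ)⁻¹ = 2⁻¹ := by field_simp
  generalize (2 * μ)⁻¹ = ν at h7 e3
  have e4 : ∀ z : ℝ, μ * (-ν * z) = -(2⁻¹ * z) := by
    intro z; rw [← e3]; ring
  simp only [mul_add, mul_sub, e4, mul_left_comm μ 2] at h7
  linarith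

end Pool.Agent.MP_8c130c_co
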