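import Pool.Agent.MP_8c130c_co.Cone

namespace Pool.Agent.MP_8c130c_co

open Pointwise

variable {d : ℕ}

lemma IsLatticePolytope.isCompact {P : Set (Fin d → ℝ)} (hP : IsLatticePolytope P) :
    IsCompact P := by
  obtain ⟨⟨V, rfl⟩, -⟩ := hP
  exact (V.finite_toSet.image _).isCompact_convexHull ℝ

lemma le_widthAlong {P : Set (Fin d → ℝ)} (hP : IsCompact P) (u : Fin d → ℤ) {x y : Fin d → ℝ}
    (hx : x ∈ P) (hy : y ∈ P) : |toReal u ⬝ᵥ x - toReal u ⬝ᵥ y| ≤ widthAlong u P := by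
  refine le_csSup ?_ ⟨x, hx, y, hy, rfl⟩
  have hc : Continuous fun p : (Fin d → ℝ) × (Fin d → ℝ) =>
      |toReal u ⬝ᵥ p.1 - toReal u ⬝ᵥ p.2| := by
    fun_prop
  have := ((hP.prod hP).image hc).bddAbove
  refine this.mono ?_
  rintro _ ⟨x, hx, y, hy, rfl⟩
  exact ⟨(x, y), ⟨hx, hy⟩, rfl⟩

lemma toReal_dot (u v : Fin d → ℤ) : toReal u ⬝ᵥ toReal v = ((u ⬝ᵥ v : ℤ) : ℝ) := by
  simp [toReal, dotProduct]

/-- A nonzero integral functional takes two different values on the generating points. -/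
lemma exists_ne_of_span (V : Finset (Fin d → ℤ))
    (hs : affineSpan ℝ (convexHull ℝ (toReal '' (V : Set (Fin d → ℤ)))) = ⊤)
    {w : Fin d → ℤ} (hw : w ≠ 0) : ∃ v ∈ V, ∃ v' ∈ V, w ⬝ᵥ v ≠ w ⬝ᵥ v' := by
  by_contra hcon
  push Not at hcon
  rw [affineSpan_convexHull] at hs
  obtain ⟨_, v₀, hv₀, rfl⟩ := nonempty_of_span hs
  have key : ∀ x : Fin d → ℝ, toReal w ⬝ᵥ x = toReal w ⬝ᵥ toReal v₀ := by
    intro x
    have hx : x ∈ affineSpan ℝ (toReal '' (V : Set (Fin d → ℤ))) := by rw [hs]; trivial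
    refine affineSpan_induction hx ?_ ?_
    · rintro _ ⟨v, hv, rfl⟩
      rw [toReal_dot, toReal_dot, hcon v hv v₀ hv₀]
    · intro c a b e ha hb he
      simp only [vsub_eq_sub, vadd_eq_add, dotProduct_add, dotProduct_smul, dotProduct_sub, ha, hb,
        he]
      simp
  apply hw
  funext i
  have h1 := key (Pi.single i 1)
  have h2 := key 0
  rw [← h2] at h1
  simpa [toReal] using h1

lemma le_latticeWidth_trunc {Q : Set (Fin d → ℝ)} (hQ : IsLatticePolytope Q) (H : ℤ)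
    (hH : 1 < H) : (H : ℝ) - 1 ≤ latticeWidth (trunc Q H) := by
  have hc := (isLatticePolytope_trunc hQ H hH).isCompact
  have hH' : (1 : ℝ) < H := by exact_mod_cast hH
  refine le_csInf ⟨_, Pi.single 0 1, by simp, rfl⟩ ?_
  rintro _ ⟨u, hu, rfl⟩
  obtain ⟨⟨V, rfl⟩, hs⟩ := hQ
  have htail : Fin.tail (toReal u) = toReal (Fin.tail u) := rfl
  by_cases hw : Fin.tail u = 0
  · have hu0 : u 0 ≠ 0 := by
      intro h0
      apply hu
      rw [← Fin.cons_self_tail u, hw, h0]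
      funext i
      refine Fin.cases ?_ (fun j => ?_) i <;> simp
    obtain ⟨x, hx⟩ := nonempty_of_span hs
    refine le_trans ?_ (le_widthAlong hc u (mem_trunc.2 ⟨H, hH'.le, le_rfl, x, hx, rfl⟩)
      (mem_trunc.2 ⟨1, le_rfl, hH'.le, x, hx, rfl⟩))
    rw [dot_pt, dot_pt, htail, hw]
    have h1 : toReal (0 : Fin d → ℤ) ⬝ᵥ x = 0 := by simp [toReal, dotProduct]
    have h2 : (1 : ℝ) ≤ |toReal u 0| := by
      simp only [toReal]
      exact_mod_cast Int.one_le_abs hu0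
    rw [h1, zero_add, ← sub_mul, abs_mul, abs_of_pos (by linarith)]
    nlinarith
  · obtain ⟨v, hv, v', hv', hne⟩ := exists_ne_of_span V hs hw
    refine le_trans ?_ (le_widthAlong hc u
      (mem_trunc.2 ⟨H, hH'.le, le_rfl, _, subset_convexHull ℝ _ ⟨v, hv, rfl⟩, rfl⟩)
      (mem_trunc.2 ⟨H, hH'.le, le_rfl, _, subset_convexHull ℝ _ ⟨v', hv', rfl⟩, rfl⟩))
    rw [dot_pt, dot_pt, htail, toReal_dot, toReal_dot, ← mul_sub, abs_mul, abs_of_pos (by linarith)]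
    have h2 : (1 : ℝ) ≤ |((Fin.tail u ⬝ᵥ v : ℤ) : ℝ) + toReal u 0 -
        (((Fin.tail u ⬝ᵥ v' : ℤ) : ℝ) + toReal u 0)| := by
      rw [add_sub_add_right_eq_sub]
      exact_mod_cast Int.one_le_abs (sub_ne_zero.2 hne)
    nlinarith

end Pool.Agent.MP_8c130c_co
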